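import Mathlib

set_option autoImplicit false

open MeasureTheory Set Filter Topology Polynomial Metric
open scoped ENNReal Real

namespace Pool.Agent.H651R3.Berg

/-- polar coordinates for a measurable function on the unit disc -/
lemma lintegral_ball {F : ℂ → ℝ≥0∞} (hF : Measurable F) :
    ∫⁻ z in ball (0 : ℂ) 1, F z =
      ∫⁻ r in Ioo (0 : ℝ) 1, ENNReal.ofReal r * ∫⁻ θ in Ioo (-π) π, F (circleMap 0 r θ) := by
  rw [← lintegral_indicator isOpen_ball.measurableSet, ← Complex.lintegral_comp_polarCoord_symm]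
  have hsymm : ∀ p : ℝ × ℝ, Complex.polarCoord.symm p = circleMap 0 p.1 p.2 := by
    intro p
    rw [Complex.polarCoord_symm_apply, circleMap_zero, Complex.exp_mul_I]
    simp
  have hcm : Measurable (fun p : ℝ × ℝ => circleMap 0 p.1 p.2) := by
    unfold circleMap; fun_prop
  have e1 : ∀ p : ℝ × ℝ, ENNReal.ofReal p.1 • (ball (0:ℂ) 1).indicator F (Complex.polarCoord.symm p)
      = ENNReal.ofReal p.1 * (ball (0:ℂ) 1).indicator F (circleMap 0 p.1 p.2) := by
    intro p; rw [hsymm, smul_eq_mul]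
  simp_rw [e1]
  have hF' : Measurable ((ball (0:ℂ) 1).indicator F) := hF.indicator isOpen_ball.measurableSet
  have e2 : (polarCoord.target : Set (ℝ × ℝ)) = Ioi 0 ×ˢ Ioo (-π) π := rfl
  rw [e2, Measure.volume_eq_prod, ← Measure.prod_restrict, lintegral_prod _ (by fun_prop)]
  have e3 : ∀ r ∈ Ioi (0:ℝ), (∫⁻ θ in Ioo (-π) π, ENNReal.ofReal r *
      (ball (0:ℂ) 1).indicator F (circleMap 0 r θ)) =
      (Ioo (0:ℝ) 1).indicator (fun r => ENNReal.ofReal r *
        ∫⁻ θ in Ioo (-π) π, F (circleMap 0 r θ)) r := by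
    intro r hr
    rw [mem_Ioi] at hr
    by_cases h1 : r < 1
    · rw [indicator_of_mem (show r ∈ Ioo (0:ℝ) 1 from ⟨hr, h1⟩),
        lintegral_const_mul' _ _ ENNReal.ofReal_ne_top]
      congr 1
      apply lintegral_congr
      intro θ
      rw [indicator_of_mem]
      rw [mem_ball_zero_iff, norm_circleMap_zero, abs_of_pos hr]
      exact h1
    · rw [indicator_of_notMem (fun h => h1 h.2)]
      have : ∀ θ : ℝ, ENNReal.ofReal r * (ball (0:ℂ) 1).indicator F (circleMap 0 r θ) = 0 := by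
        intro θ
        rw [indicator_of_notMem, mul_zero]
        rw [mem_ball_zero_iff, norm_circleMap_zero, abs_of_pos hr]
        exact h1
      simp [this]
  rw [setLIntegral_congr_fun measurableSet_Ioi e3, lintegral_indicator measurableSet_Ioo,
    Measure.restrict_restrict measurableSet_Ioo]
  congr 2
  rw [inter_eq_left.2]
  exact Ioo_subset_Ioi_self

/-- the inner integral for a real function which is continuous on the circle -/
lemma inner_eq {φ : ℂ → ℝ} {r : ℝ} (hr : 0 ≤ r) (hφ : ContinuousOn φ (sphere 0 r)) (h0 : ∀ z, 0 ≤ φ z) :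
    ∫⁻ θ in Ioo (-π) π, ENNReal.ofReal (φ (circleMap 0 r θ)) =
      ENNReal.ofReal (2 * π * Real.circleAverage φ 0 r) := by
  have hc : Continuous (fun θ : ℝ => φ (circleMap 0 r θ)) := by
    apply hφ.comp_continuous (continuous_circleMap 0 r)
    intro θ
    exact circleMap_mem_sphere 0 hr θ
  rw [← ofReal_integral_eq_lintegral_ofReal]
  · congr 1
    rw [← integral_Ioc_eq_integral_Ioo, ← intervalIntegral.integral_of_le (by linarith [Real.pi_pos])]
    have hp : Function.Periodic (fun θ : ℝ => φ (circleMap 0 r θ)) (2 * π) := by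
      intro θ
      simp only [periodic_circleMap 0 r θ]
    have := hp.intervalIntegral_add_eq (-π) 0
    have e : -π + 2 * π = π := by ring
    rw [e, zero_add] at this
    rw [this, Real.circleAverage_def, smul_eq_mul, ← mul_assoc, mul_inv_cancel₀ (by positivity), one_mul]
  · exact hc.continuousOn.integrableOn_Icc.mono_set Ioo_subset_Icc_self
  · exact Eventually.of_forall fun θ => h0 _

/-- the numbers `mu_k` -/
noncomputable def mu (k : ℕ) : ℝ := 4 ^ k
/-- the exponents -/
def nn (k : ℕ) : ℕ := (k + 1) * 2 ^ (k * (k + 1))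

lemma mu_pos (k : ℕ) : 0 < mu k := by unfold mu; positivity
lemma nn_pos (k : ℕ) : 0 < nn k := by unfold nn; positivity

lemma prod_mu (K : ℕ) : ∏ k ∈ Finset.range K, mu k = 2 ^ (K * (K - 1)) := by
  induction K with
  | zero => simp
  | succ K ih =>
    rw [Finset.prod_range_succ, ih, mu]
    have : (4:ℝ) ^ K = 2 ^ (2 * K) := by rw [pow_mul]; norm_num
    rw [this, ← pow_add]
    congr 1
    rcases K with _ | K
    · rfl
    · simp only [Nat.add_sub_cancel]; ring

lemma prod_mu_succ (K : ℕ) : ∏ k ∈ Finset.range (K + 1), mu k = nn K / (K + 1) := by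
  have e : (K + 1) * (K + 1 - 1) = K * (K + 1) := by rw [Nat.add_sub_cancel, mul_comm]
  rw [prod_mu, nn, e]
  push_cast
  field_simp

lemma nn_succ (K : ℕ) : 4 * nn K ≤ nn (K + 1) := by
  unfold nn
  have : (K + 1) * (K + 1 + 1) = K * (K + 1) + (2 * K + 2) := by ring
  rw [this, pow_add]
  have h2 : 4 ≤ 2 ^ (2 * K + 2) := by
    rw [pow_add, pow_mul]
    have : 1 ≤ (2 ^ 2) ^ K := Nat.one_le_pow _ _ (by norm_num)
    omega
  calc 4 * ((K + 1) * 2 ^ (K * (K + 1))) = (K + 1) * (2 ^ (K * (K + 1)) * 4) := by ring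
    _ ≤ (K + 1 + 1) * (2 ^ (K * (K + 1)) * 2 ^ (2 * K + 2)) := by gcongr; omega

lemma sum_nn_lt (K : ℕ) : ∑ k ∈ Finset.range K, nn k < nn K := by
  induction K with
  | zero => simp [nn]
  | succ K ih =>
    rw [Finset.sum_range_succ]
    have := nn_succ K
    omega

lemma sum_nn_le (K : ℕ) : ∑ k ∈ Finset.range (K + 1), nn k ≤ 2 * nn K := by
  rw [Finset.sum_range_succ]
  have := sum_nn_lt K
  omega

lemma nn_ge (K : ℕ) : K + 1 ≤ nn K := by
  unfold nn
  exact Nat.le_mul_of_pos_right _ (by positivity)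

/-- `prod (1 + mu_k^2) <= 4 prod mu_k ^ 2` -/
lemma prod_one_add (K : ℕ) :
    ∏ k ∈ Finset.range (K + 1), (1 + mu k ^ 2) ≤ (4 - 2 * (1 / 16) ^ K) * (∏ k ∈ Finset.range (K + 1), mu k) ^ 2 := by
  induction K with
  | zero => simp [mu]; norm_num
  | succ K ih =>
    rw [Finset.prod_range_succ, Finset.prod_range_succ (fun k => mu k)]
    set P := ∏ k ∈ Finset.range (K + 1), mu k
    have hP : 0 < P := Finset.prod_pos fun k _ => mu_pos k
    have e : mu (K + 1) ^ 2 = 16 ^ (K + 1) := by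
      unfold mu; rw [← pow_mul, mul_comm, pow_mul]; norm_num
    have e3 : (P * mu (K + 1)) ^ 2 = P ^ 2 * 16 ^ (K + 1) := by rw [mul_pow, e]
    rw [e3, e]
    have h1 : (0:ℝ) < 1 / 16 ^ K := by positivity
    have h2 : (1 / 16 : ℝ) ^ K = 1 / 16 ^ K := by rw [one_div, one_div, inv_pow]
    have h3 : (1 / 16 : ℝ) ^ (K + 1) = 1 / 16 ^ K / 16 := by rw [pow_succ, h2]; ring
    have h4 : (1 / 16 : ℝ) ^ K ≤ 1 := pow_le_one₀ (by norm_num) (by norm_num)
    rw [h2] at ih h4
    rw [h3]
    set x := (1:ℝ) / 16 ^ K with hx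
    have h5 : (16:ℝ) ^ (K + 1) = 16 / x := by rw [hx, pow_succ]; field_simp
    rw [h5]
    calc _ ≤ (4 - 2 * x) * P ^ 2 * (1 + 16 / x) := by gcongr
      _ ≤ _ := by
        have : (4 - 2 * x) * P ^ 2 * (1 + 16 / x) = ((4 - 2 * x) * (1 + x / 16)) * (P ^ 2 * (16 / x)) := by
          field_simp
          ring
        rw [this]
        have h6 : (4 - 2 * x) * (1 + x / 16) ≤ 4 - 2 * (x / 16) := by nlinarith
        gcongr

lemma prod_one_add' (K : ℕ) :
    ∏ k ∈ Finset.range (K + 1), (1 + mu k ^ 2) ≤ 4 * (nn K / (K + 1) : ℝ) ^ 2 := by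
  refine (prod_one_add K).trans ?_
  rw [prod_mu_succ]
  gcongr
  have : (0:ℝ) < (1 / 16) ^ K := by positivity
  linarith

end Pool.Agent.H651R3.Berg
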