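import Pool.Agent.H651R3.Berg1

set_option autoImplicit false

open MeasureTheory Set Filter Topology Polynomial Metric
open scoped ENNReal Real

namespace Pool.Agent.H651R3.Berg

/-- partial products -/
noncomputable def pp (K : ℕ) : ℂ[X] := ∏ k ∈ Finset.range K, (1 - C (mu k : ℂ) * X ^ nn k)

lemma pp_succ (K : ℕ) : pp (K + 1) = pp K - C (mu K : ℂ) * X ^ nn K * pp K := by
  unfold pp
  rw [Finset.prod_range_succ]; ring

lemma pp_degree (K : ℕ) : (pp K).natDegree ≤ ∑ k ∈ Finset.range K, nn k := by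
  unfold pp
  refine (natDegree_prod_le _ _).trans (Finset.sum_le_sum fun k _ => ?_)
  refine (natDegree_sub_le _ _).trans ?_
  rw [natDegree_one]
  simp only [Nat.zero_le, sup_of_le_right]
  refine (natDegree_C_mul_le _ _).trans ?_
  simp

lemma pp_degree_lt (K : ℕ) : (pp K).natDegree < nn K := (pp_degree K).trans_lt (sum_nn_lt K)

/-- sum of squares of the coefficients on the circle of radius `r` -/
noncomputable def sq (p : ℂ[X]) (r : ℝ) : ℝ := Real.circleAverage (fun z => ‖p.eval z‖ ^ 2) 0 r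

lemma sq_eq (p : ℂ[X]) {r : ℝ} (N : ℕ) (hN : p.natDegree < N) :
    sq p r = ∑ i ∈ Finset.range N, ‖p.coeff i‖ ^ 2 * r ^ (2 * i) := by
  unfold sq
  rw [Real.circleAverage_eq_circleAverage_zero_one]
  have h := Polynomial.sum_sq_norm_coeff_eq_circleAverage (p.comp (C (r:ℂ) * X))
  have e : (fun θ : ℂ => ‖(p.comp (C (r:ℂ) * X)).eval θ‖ ^ 2) = fun z => ‖p.eval ((r:ℂ) * z)‖ ^ 2 := by
    ext z; simp [eval_comp]
  rw [e] at h
  have e2 : (fun z : ℂ => ‖p.eval ((r:ℂ) * z + 0)‖ ^ 2) = fun z => ‖p.eval ((r:ℂ) * z)‖ ^ 2 := by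
    ext z; simp
  have e3 : (fun z : ℂ => (fun z : ℂ => ‖p.eval z‖ ^ 2) ((r:ℂ) * z + 0)) = fun z => ‖p.eval ((r:ℂ) * z)‖ ^ 2 := by
    ext z; simp
  rw [e3, ← h]
  have hc : ∀ i, (p.comp (C (r:ℂ) * X)).coeff i = p.coeff i * (r:ℂ) ^ i := by
    intro i
    exact comp_C_mul_X_coeff
  have hsub : (p.comp (C (r:ℂ) * X)).support ⊆ Finset.range N := by
    intro i hi
    rw [mem_support_iff, hc] at hi
    rw [Finset.mem_range]
    by_contra hcon
    push Not at hcon
    apply hi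
    rw [coeff_eq_zero_of_natDegree_lt (lt_of_lt_of_le hN hcon), zero_mul]
  rw [Finset.sum_subset hsub]
  · apply Finset.sum_congr rfl
    intro i _
    rw [hc, norm_mul, norm_pow, Complex.norm_real, mul_pow, ← pow_mul, mul_comm i 2, pow_mul, pow_mul]
    simp
  · intro i _ hi
    rw [notMem_support_iff.1 hi]; simp

lemma sq_succ (K : ℕ) (r : ℝ) : sq (pp (K + 1)) r = (1 + mu K ^ 2 * r ^ (2 * nn K)) * sq (pp K) r := by
  have hd := pp_degree_lt K
  have hd' : (pp (K + 1)).natDegree < nn K + nn K := by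
    rw [pp_succ]
    refine (natDegree_sub_le _ _).trans_lt ?_
    rw [max_lt_iff]
    refine ⟨by omega, ?_⟩
    rw [mul_assoc]
    refine (natDegree_C_mul_le _ _).trans_lt ?_
    refine (natDegree_mul_le).trans_lt ?_
    rw [natDegree_X_pow]; omega
  rw [sq_eq _ _ hd', sq_eq _ _ hd, Finset.sum_range_add]
  have e1 : ∀ i ∈ Finset.range (nn K), ‖(pp (K + 1)).coeff i‖ ^ 2 * r ^ (2 * i) =
      ‖(pp K).coeff i‖ ^ 2 * r ^ (2 * i) := by
    intro i hi
    rw [Finset.mem_range] at hi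
    have : (pp (K + 1)).coeff i = (pp K).coeff i := by
      rw [pp_succ, coeff_sub, mul_assoc, coeff_C_mul, coeff_X_pow_mul', if_neg (by omega)]
      simp
    rw [this]
  have e2 : ∀ i ∈ Finset.range (nn K), ‖(pp (K + 1)).coeff (nn K + i)‖ ^ 2 * r ^ (2 * (nn K + i)) =
      mu K ^ 2 * r ^ (2 * nn K) * (‖(pp K).coeff i‖ ^ 2 * r ^ (2 * i)) := by
    intro i hi
    rw [Finset.mem_range] at hi
    have : (pp (K + 1)).coeff (nn K + i) = - ((mu K : ℂ) * (pp K).coeff i) := by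
      rw [pp_succ, coeff_sub, mul_assoc, coeff_C_mul, coeff_X_pow_mul', if_pos (by omega),
        coeff_eq_zero_of_natDegree_lt (by omega : (pp K).natDegree < nn K + i)]
      simp
    rw [this, norm_neg, norm_mul, Complex.norm_real, mul_pow, Real.norm_eq_abs, sq_abs]
    ring
  rw [Finset.sum_congr rfl e1, Finset.sum_congr rfl e2, ← Finset.mul_sum]
  ring

lemma sq_nonneg' (K : ℕ) (r : ℝ) : 0 ≤ sq (pp K) r := by
  rw [sq_eq _ _ (pp_degree_lt K)]
  apply Finset.sum_nonneg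
  intro i _
  rw [pow_mul]; positivity

lemma sq_le (K : ℕ) {r : ℝ} (hr0 : 0 ≤ r) (hr : r ≤ 1) :
    sq (pp K) r ≤ ∏ k ∈ Finset.range K, (1 + mu k ^ 2) := by
  induction K with
  | zero =>
    simp [pp, sq, Real.circleAverage_const]
  | succ K ih =>
    rw [sq_succ, Finset.prod_range_succ, mul_comm]
    have h1 : r ^ (2 * nn K) ≤ 1 := pow_le_one₀ hr0 hr
    have h2 : 0 ≤ ∏ k ∈ Finset.range K, (1 + mu k ^ 2) := Finset.prod_nonneg fun k _ => by positivity
    have h3 : mu K ^ 2 * r ^ (2 * nn K) ≤ mu K ^ 2 := by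
      have : 0 ≤ mu K ^ 2 := by positivity
      nlinarith
    gcongr

/-- the weighted norm -/
noncomputable def EE (K : ℕ) : ℝ≥0∞ :=
  ∫⁻ r in Ioo (0 : ℝ) 1, ENNReal.ofReal ((1 - r) * sq (pp K) r)

lemma int_pow (n : ℕ) (hn : 0 < n) : ∫⁻ r in Ioo (0 : ℝ) 1, ENNReal.ofReal ((1 - r) * r ^ (2 * n)) ≤
    ENNReal.ofReal (1 / n ^ 2) := by
  rw [← ofReal_integral_eq_lintegral_ofReal]
  · apply ENNReal.ofReal_le_ofReal
    rw [← integral_Ioc_eq_integral_Ioo, ← intervalIntegral.integral_of_le zero_le_one]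
    have : ∀ r : ℝ, (1 - r) * r ^ (2 * n) = r ^ (2 * n) - r ^ (2 * n + 1) := by intro r; ring
    simp_rw [this]
    rw [intervalIntegral.integral_sub (by apply Continuous.intervalIntegrable; fun_prop)
      (by apply Continuous.intervalIntegrable; fun_prop), integral_pow, integral_pow]
    simp only [one_pow, ne_eq, Nat.add_eq_zero_iff, one_ne_zero,
      and_false, not_false_eq_true, zero_pow, sub_zero]
    have hn' : (0:ℝ) < n := by exact_mod_cast hn
    push_cast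
    rw [div_sub_div _ _ (by positivity) (by positivity), div_le_div_iff₀ (by positivity) (by positivity)]
    nlinarith
  · have : Continuous (fun r : ℝ => (1 - r) * r ^ (2 * n)) := by fun_prop
    exact this.continuousOn.integrableOn_Icc.mono_set Ioo_subset_Icc_self
  · rw [EventuallyLE, ae_restrict_iff' measurableSet_Ioo]
    refine Eventually.of_forall fun r hr => ?_
    have := hr.1; have := hr.2
    have : 0 ≤ 1 - r := by linarith
    simp only [Pi.zero_apply]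
    positivity

lemma sq_meas (K : ℕ) : Measurable (fun r : ℝ => sq (pp K) r) := by
  have : (fun r : ℝ => sq (pp K) r) = fun r => ∑ i ∈ Finset.range (nn K), ‖(pp K).coeff i‖ ^ 2 * r ^ (2 * i) := by
    ext r; exact sq_eq _ _ (pp_degree_lt K)
  rw [this]; fun_prop

lemma EE_succ (K : ℕ) : EE (K + 2) ≤ EE (K + 1) + ENNReal.ofReal (4 * (1 / (K + 1) ^ 2)) := by
  unfold EE
  have h1 : ∀ r ∈ Ioo (0:ℝ) 1, ENNReal.ofReal ((1 - r) * sq (pp (K + 2)) r) ≤
      ENNReal.ofReal ((1 - r) * sq (pp (K + 1)) r) +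
        ENNReal.ofReal ((mu (K + 1) ^ 2 * (4 * (nn K / (K + 1) : ℝ) ^ 2)) * ((1 - r) * r ^ (2 * nn (K + 1)))) := by
    intro r hr
    have h0 : 0 ≤ 1 - r := by linarith [hr.2]
    have hr0 := hr.1.le
    rw [← ENNReal.ofReal_add (mul_nonneg h0 (sq_nonneg' _ _)) (by positivity)]
    apply ENNReal.ofReal_le_ofReal
    rw [sq_succ (K + 1)]
    have h2 := (sq_le (K + 1) hr0 hr.2.le).trans (prod_one_add' K)
    have h3 : 0 ≤ mu (K + 1) ^ 2 * r ^ (2 * nn (K + 1)) * (1 - r) := by positivity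
    nlinarith [mul_le_mul_of_nonneg_left h2 h3]
  refine (setLIntegral_mono' measurableSet_Ioo h1).trans ?_
  have hmm : Measurable (fun r : ℝ => ENNReal.ofReal ((1 - r) * sq (pp (K + 1)) r)) := by
    have := sq_meas (K + 1)
    fun_prop
  rw [lintegral_add_left hmm]
  gcongr
  simp_rw [ENNReal.ofReal_mul (show 0 ≤ mu (K + 1) ^ 2 * (4 * (nn K / (K + 1) : ℝ) ^ 2) by positivity)]
  rw [lintegral_const_mul' _ _ ENNReal.ofReal_ne_top]
  refine (mul_le_mul_right (int_pow _ (nn_pos (K + 1))) _).trans ?_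
  rw [← ENNReal.ofReal_mul (by positivity)]
  apply ENNReal.ofReal_le_ofReal
  have h4 : mu (K + 1) * (nn K / (K + 1) : ℝ) = nn (K + 1) / (K + 2) := by
    have e1 := prod_mu_succ K
    have e2 := prod_mu_succ (K + 1)
    rw [Finset.prod_range_succ, e1] at e2
    rw [mul_comm, e2]; push_cast; ring
  have h5 : mu (K + 1) ^ 2 * (4 * (nn K / (K + 1) : ℝ) ^ 2) * (1 / (nn (K + 1)) ^ 2) = 4 * (1 / (K + 2) ^ 2) := by
    have h6 : (0:ℝ) < nn (K + 1) := by exact_mod_cast nn_pos (K + 1)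
    calc _ = 4 * (mu (K + 1) * (nn K / (K + 1) : ℝ)) ^ 2 * (1 / (nn (K + 1)) ^ 2) := by ring
      _ = _ := by rw [h4]; field_simp
  rw [h5]
  gcongr
  linarith

lemma EE_bdd : ∃ C : ℝ≥0∞, C < ⊤ ∧ ∀ K, EE (K + 1) ≤ C := by
  have hs : Summable (fun K : ℕ => (4 * (1 / ((K:ℝ) + 1) ^ 2))) := by
    apply Summable.mul_left
    have := (summable_nat_add_iff 1).2 (Real.summable_one_div_nat_pow.2 (by norm_num : 1 < 2))
    refine this.congr (fun K => ?_)
    push_cast; rfl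
  refine ⟨EE 1 + ENNReal.ofReal (∑' K : ℕ, (4 * (1 / ((K:ℝ) + 1) ^ 2))), ?_, ?_⟩
  · rw [ENNReal.add_lt_top]
    refine ⟨?_, ENNReal.ofReal_lt_top⟩
    unfold EE
    have : ∀ r ∈ Ioo (0:ℝ) 1, ENNReal.ofReal ((1 - r) * sq (pp 1) r) ≤ ENNReal.ofReal (2 : ℝ) := by
      intro r hr
      apply ENNReal.ofReal_le_ofReal
      have h2 := sq_le 1 hr.1.le hr.2.le
      simp [mu] at h2
      have h3 := sq_nonneg' 1 r
      nlinarith [hr.1, hr.2]
    refine (setLIntegral_mono' measurableSet_Ioo this).trans_lt ?_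
    simp
  · have h : ∀ K, EE (K + 1) ≤ EE 1 + ENNReal.ofReal (∑ j ∈ Finset.range K, (4 * (1 / ((j:ℝ) + 1) ^ 2))) := by
      intro K
      induction K with
      | zero => simp
      | succ K ih =>
        refine (EE_succ K).trans ?_
        rw [Finset.sum_range_succ, ENNReal.ofReal_add (Finset.sum_nonneg fun j _ => by positivity) (by positivity),
          ← add_assoc]
        gcongr
    intro K
    refine (h K).trans ?_
    gcongr
    exact hs.sum_le_tsum _ (fun j _ => by positivity)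

/-- the weighted norms of the partial products are bounded -/
lemma norm_bdd : ∃ C : ℝ≥0∞, C < ⊤ ∧ ∀ K,
    ∫⁻ z in ball (0 : ℂ) 1, ENNReal.ofReal (‖(pp (K + 1)).eval z‖ ^ 2 * (1 - ‖z‖)) ≤ C := by
  obtain ⟨C, hC, h⟩ := EE_bdd
  refine ⟨ENNReal.ofReal (2 * π) * C, ENNReal.mul_lt_top ENNReal.ofReal_lt_top hC, fun K => ?_⟩
  have hm : Measurable (fun z : ℂ => ENNReal.ofReal (‖(pp (K + 1)).eval z‖ ^ 2 * (1 - ‖z‖))) := by
    have : Continuous (fun z : ℂ => ‖(pp (K + 1)).eval z‖ ^ 2 * (1 - ‖z‖)) := by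
      have := (pp (K + 1)).continuous
      fun_prop
    exact this.measurable.ennreal_ofReal
  rw [lintegral_ball hm]
  have h1 : ∀ r ∈ Ioo (0:ℝ) 1, ENNReal.ofReal r * ∫⁻ θ in Ioo (-π) π,
      ENNReal.ofReal (‖(pp (K + 1)).eval (circleMap 0 r θ)‖ ^ 2 * (1 - ‖circleMap 0 r θ‖)) ≤
      ENNReal.ofReal (2 * π) * ENNReal.ofReal ((1 - r) * sq (pp (K + 1)) r) := by
    intro r hr
    have h0 : 0 ≤ 1 - r := by linarith [hr.2]
    have e : ∀ θ : ℝ, ENNReal.ofReal (‖(pp (K + 1)).eval (circleMap 0 r θ)‖ ^ 2 * (1 - ‖circleMap 0 r θ‖)) =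
        ENNReal.ofReal (1 - r) * ENNReal.ofReal (‖(pp (K + 1)).eval (circleMap 0 r θ)‖ ^ 2) := by
      intro θ
      rw [← ENNReal.ofReal_mul h0, norm_circleMap_zero, abs_of_pos hr.1, mul_comm]
    simp_rw [e]
    rw [lintegral_const_mul' _ _ ENNReal.ofReal_ne_top,
      inner_eq (φ := fun z => ‖(pp (K + 1)).eval z‖ ^ 2) hr.1.le
        ((((pp (K + 1)).continuous).norm.pow 2).continuousOn) (fun z => by positivity)]
    rw [← ENNReal.ofReal_mul h0, ← ENNReal.ofReal_mul hr.1.le, ← ENNReal.ofReal_mul (by positivity)]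
    apply ENNReal.ofReal_le_ofReal
    change r * ((1 - r) * (2 * π * sq (pp (K + 1)) r)) ≤ 2 * π * ((1 - r) * sq (pp (K + 1)) r)
    have h2 := sq_nonneg' (K + 1) r
    have h3 : 0 ≤ 2 * π * ((1 - r) * sq (pp (K + 1)) r) := by positivity
    nlinarith [hr.2]
  refine (setLIntegral_mono' measurableSet_Ioo h1).trans ?_
  rw [lintegral_const_mul' _ _ ENNReal.ofReal_ne_top]
  gcongr
  exact h K

end Pool.Agent.H651R3.Berg
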