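import Pool.Agent.H651R3.Berg2

set_option autoImplicit false

open MeasureTheory Set Filter Topology Polynomial Metric
open scoped ENNReal Real

namespace Pool.Agent.H651R3.Berg

/-- tails of the infinite product -/
noncomputable def TT (K : ℕ) (z : ℂ) : ℂ := ∏' k : ℕ, (1 + -((mu (k + K) : ℂ) * z ^ nn (k + K)))

lemma pow_bound (k : ℕ) : k * k ≤ nn k := by
  unfold nn
  have : k ≤ 2 ^ (k * (k + 1)) := by
    calc k ≤ k * (k + 1) := Nat.le_mul_of_pos_right _ (by omega)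
      _ ≤ 2 ^ (k * (k + 1)) := Nat.lt_two_pow_self.le
  nlinarith

lemma summable_mu {r : ℝ} (hr0 : 0 ≤ r) (hr : r < 1) (K : ℕ) :
    Summable (fun k : ℕ => mu (k + K) * r ^ nn (k + K)) := by
  suffices h : Summable (fun k : ℕ => mu k * r ^ nn k) from
    (summable_nat_add_iff (f := fun k : ℕ => mu k * r ^ nn k) K).2 h
  -- (4 r^k)^k
  have h1 : ∀ k, mu k * r ^ nn k ≤ (4 * r ^ k) ^ k := by
    intro k
    have h3 : r ^ nn k ≤ r ^ (k * k) := pow_le_pow_of_le_one hr0 hr.le (pow_bound k)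
    rw [mul_pow, ← pow_mul]
    exact mul_le_mul_of_nonneg_left h3 (mu_pos k).le
  have h2 : Tendsto (fun k : ℕ => 4 * r ^ k) atTop (𝓝 0) := by
    have := (tendsto_pow_atTop_nhds_zero_of_lt_one hr0 hr).const_mul 4
    simpa using this
  have h3 : ∀ᶠ k : ℕ in atTop, 4 * r ^ k < 1 / 2 := h2.eventually_lt_const (by norm_num)
  refine Summable.of_norm_bounded_eventually_nat (g := fun k : ℕ => (1 / 2 : ℝ) ^ k)
    (summable_geometric_of_lt_one (by norm_num) (by norm_num)) ?_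
  filter_upwards [h3] with k hk
  rw [Real.norm_of_nonneg (mul_nonneg (mu_pos k).le (by positivity))]
  exact (h1 k).trans (pow_le_pow_left₀ (by positivity) hk.le k)

lemma TT_prod (K : ℕ) : HasProdLocallyUniformlyOn (fun (k : ℕ) (z : ℂ) => 1 + -((mu (k + K) : ℂ) * z ^ nn (k + K)))
    (TT K) (ball 0 1) := by
  apply hasProdLocallyUniformlyOn_of_forall_compact isOpen_ball
  intro S hS hcS
  rcases S.eq_empty_or_nonempty with hN | hN
  · simp [hasProdUniformlyOn_iff_tendstoUniformlyOn, hN, tendstoUniformlyOn_empty]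
  · obtain ⟨q₀, hq₀, _, HB⟩ := hcS.exists_sSup_image_eq_and_ge hN
      (show ContinuousOn (fun q : ℂ ↦ ‖q‖) S by fun_prop)
    refine (summable_mu (norm_nonneg q₀) (by simpa using hS hq₀) K).hasProdUniformlyOn_nat_one_add
      hcS (.of_forall fun n x hx ↦ ?_) (fun _ ↦ by fun_prop)
    rw [norm_neg, norm_mul, norm_pow, Complex.norm_real, Real.norm_eq_abs, abs_of_pos (mu_pos _)]
    exact mul_le_mul_of_nonneg_left (pow_le_pow_left₀ (norm_nonneg _) (HB x hx) _) (mu_pos _).le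

lemma TT_diff (K : ℕ) : DifferentiableOn ℂ (TT K) (ball 0 1) :=
  (TT_prod K).differentiableOn
    (.of_forall fun _ ↦ by simpa [Finset.prod_fn] using
      DifferentiableOn.finsetProd (fun _ _ ↦ by fun_prop)) Metric.isOpen_ball

lemma TT_zero (K : ℕ) : TT K 0 = 1 := by
  unfold TT
  have : ∀ k : ℕ, (1 : ℂ) + -((mu (k + K) : ℂ) * 0 ^ nn (k + K)) = 1 := by
    intro k
    rw [zero_pow (nn_pos _).ne']; simp
  simp_rw [this]
  exact tprod_one

lemma mult0 {z : ℂ} (hz : z ∈ ball (0:ℂ) 1) : Multipliable (fun k : ℕ => 1 + -((mu k : ℂ) * z ^ nn k)) := by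
  have := (TT_prod 0).hasProd hz
  exact this.multipliable

lemma pp_eval (K : ℕ) (z : ℂ) : (pp K).eval z = ∏ k ∈ Finset.range K, (1 + -((mu k : ℂ) * z ^ nn k)) := by
  unfold pp
  rw [eval_prod]
  apply Finset.prod_congr rfl
  intro k _
  simp [sub_eq_add_neg]

lemma pp_zero (K : ℕ) : (pp K).eval 0 = 1 := by
  rw [pp_eval]
  apply Finset.prod_eq_one
  intro k _
  rw [zero_pow (nn_pos _).ne']; simp

lemma pp_tendsto {z : ℂ} (hz : z ∈ ball (0:ℂ) 1) :
    Tendsto (fun K => (pp (K + 1)).eval z) atTop (𝓝 (TT 0 z)) := by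
  have h := ((TT_prod 0).hasProd hz).tendsto_prod_nat
  have h2 := h.comp (tendsto_add_atTop_nat 1)
  refine h2.congr (fun K => ?_)
  rw [pp_eval]; rfl

lemma TT_split (K : ℕ) {z : ℂ} (hz : z ∈ ball (0:ℂ) 1) : TT 0 z = (pp K).eval z * TT K z := by
  have hT := (TT_prod K).hasProd hz
  have h1 : Tendsto (fun n => ∏ k ∈ Finset.range n, (1 + -((mu (k + K) : ℂ) * z ^ nn (k + K)))) atTop (𝓝 (TT K z)) :=
    hT.tendsto_prod_nat
  have h2 := h1.const_mul ((pp K).eval z)
  have h3 : Tendsto (fun n => (pp (n + K)).eval z) atTop (𝓝 (TT 0 z)) := by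
    have := ((TT_prod 0).hasProd hz).tendsto_prod_nat.comp (tendsto_add_atTop_nat K)
    refine this.congr (fun n => ?_)
    rw [pp_eval]; rfl
  refine tendsto_nhds_unique h3 (h2.congr (fun n => ?_))
  rw [pp_eval, pp_eval, add_comm n K, Finset.prod_range_add]
  congr 1
  apply Finset.prod_congr rfl
  intro k _
  rw [add_comm k K]

/-- the limit function belongs to the weighted Bergman space with `p = 2`, `alpha = 1` -/
lemma f_norm : ∫⁻ z in ball (0 : ℂ) 1, ENNReal.ofReal (‖TT 0 z‖ ^ 2 * (1 - ‖z‖)) < ⊤ := by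
  obtain ⟨C, hC, h⟩ := norm_bdd
  refine lt_of_le_of_lt ?_ hC
  have h1 : ∀ z ∈ ball (0:ℂ) 1, ENNReal.ofReal (‖TT 0 z‖ ^ 2 * (1 - ‖z‖)) =
      liminf (fun K => ENNReal.ofReal (‖(pp (K + 1)).eval z‖ ^ 2 * (1 - ‖z‖))) atTop := by
    intro z hz
    symm
    apply Tendsto.liminf_eq
    apply ENNReal.tendsto_ofReal
    exact ((pp_tendsto hz).norm.pow 2).mul_const _
  rw [setLIntegral_congr_fun isOpen_ball.measurableSet h1]
  refine (lintegral_liminf_le (fun K => ?_)).trans ?_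
  · have : Continuous (fun z : ℂ => ‖(pp (K + 1)).eval z‖ ^ 2 * (1 - ‖z‖)) := by
      have := (pp (K + 1)).continuous
      fun_prop
    exact this.measurable.ennreal_ofReal
  · refine liminf_le_of_le ?_ ?_
    · isBoundedDefault
    · intro b hb
      obtain ⟨K, hK⟩ := hb.exists
      exact hK.trans (h K)

/-- division of two analytic functions with the same orders -/
lemma exists_quot {f g : ℂ → ℂ} (hf : DifferentiableOn ℂ f (ball 0 1)) (hg : DifferentiableOn ℂ g (ball 0 1))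
    (h : ∀ z ∈ ball (0:ℂ) 1, analyticOrderAt g z = analyticOrderAt f z ∧ analyticOrderAt f z ≠ ⊤) :
    ∃ q : ℂ → ℂ, DifferentiableOn ℂ q (ball 0 1) ∧ ∀ z ∈ ball (0:ℂ) 1, g z = f z * q z := by
  have hfa : ∀ z ∈ ball (0:ℂ) 1, AnalyticAt ℂ f z := fun z hz => hf.analyticAt (isOpen_ball.mem_nhds hz)
  have hga : ∀ z ∈ ball (0:ℂ) 1, AnalyticAt ℂ g z := fun z hz => hg.analyticAt (isOpen_ball.mem_nhds hz)
  have hm : MeromorphicOn (g / f) (ball 0 1) := fun z hz => (hga z hz).meromorphicAt.div (hfa z hz).meromorphicAt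
  set q := toMeromorphicNFOn (g / f) (ball 0 1) with hq
  have hqa : ∀ z ∈ ball (0:ℂ) 1, AnalyticAt ℂ q z := by
    intro z hz
    have h1 : MeromorphicNFAt q z := meromorphicNFOn_toMeromorphicNFOn (g / f) (ball 0 1) hz
    rw [← h1.meromorphicOrderAt_nonneg_iff_analyticAt, hq, meromorphicOrderAt_toMeromorphicNFOn hm hz,
      meromorphicOrderAt_div (hga z hz).meromorphicAt (hfa z hz).meromorphicAt,
      (hga z hz).meromorphicOrderAt_eq, (hfa z hz).meromorphicOrderAt_eq, (h z hz).1]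
    obtain ⟨n, hn⟩ := ENat.ne_top_iff_exists.1 (h z hz).2
    rw [← hn]
    simp
  refine ⟨q, fun z hz => (hqa z hz).differentiableAt.differentiableWithinAt, fun z hz => ?_⟩
  have h1 : g =ᶠ[𝓝[≠] z] fun w => f w * q w := by
    have h2 : (g / f) =ᶠ[𝓝[≠] z] q := (hm.toMeromorphicNFOn_eq_self_on_nhdsNE hz).symm
    have h3 : ∀ᶠ w in 𝓝[≠] z, f w ≠ 0 := by
      rcases (hfa z hz).eventually_eq_zero_or_eventually_ne_zero with h4 | h4
      · exact absurd (analyticOrderAt_eq_top.2 h4) (h z hz).2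
      · exact h4
    filter_upwards [h2, h3] with w hw hw'
    rw [← hw, Pi.div_apply, mul_div_cancel₀ _ hw']
  have h4 : Tendsto g (𝓝[≠] z) (𝓝 (g z)) := (hga z hz).continuousAt.tendsto.mono_left nhdsWithin_le_nhds
  have h5 : Tendsto (fun w => f w * q w) (𝓝[≠] z) (𝓝 (f z * q z)) :=
    ((hfa z hz).continuousAt.mul (hqa z hz).continuousAt).tendsto.mono_left nhdsWithin_le_nhds
  exact tendsto_nhds_unique (h4.congr' h1) h5

lemma reflect {m s : ℝ} {a : ℂ} (hm : 0 < m) (hs : 0 < s) (hna : ‖a‖ = s) :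
    ‖1 + -((m:ℂ) * a)‖ = m * s * ‖1 - a / ((m:ℂ) * (s:ℂ) ^ 2)‖ := by
  have hsq : a * (starRingEnd ℂ) a = (s:ℂ) ^ 2 := by
    rw [Complex.mul_conj, Complex.normSq_eq_norm_sq, hna]; push_cast; rfl
  have hmuC : (m : ℂ) ≠ 0 := by exact_mod_cast hm.ne'
  have hsC : (s : ℂ) ≠ 0 := by exact_mod_cast hs.ne'
  have e2 : (m : ℂ) * a * (starRingEnd ℂ) (1 - a / ((m : ℂ) * (s:ℂ) ^ 2)) =
      (m : ℂ) * a - 1 := by
    rw [map_sub, map_one, map_div₀, map_mul, map_pow, Complex.conj_ofReal, Complex.conj_ofReal, mul_sub, mul_one]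
    congr 1
    rw [mul_div_assoc', mul_assoc, hsq]
    field_simp
  have e3 : ‖1 + -((m : ℂ) * a)‖ = ‖(m : ℂ) * a - 1‖ := by
    rw [← norm_neg]; congr 1; ring
  rw [e3, ← e2, norm_mul, norm_mul, Complex.norm_real, RCLike.norm_conj, hna, Real.norm_eq_abs, abs_of_pos hm]

/-- the main lower bound -/
lemma mean_lower {g : ℂ → ℂ} {q : ℂ → ℂ}
    (hq : DifferentiableOn ℂ q (ball 0 1)) (hgq : ∀ z ∈ ball (0:ℂ) 1, g z = TT 0 z * q z) (K : ℕ) {r : ℝ}
    (hr0 : 0 < r) (hr : r < 1) :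
    ‖g 0‖ * ∏ k ∈ Finset.range K, (mu k * r ^ nn k) ≤ Real.circleAverage (fun z => ‖g z‖) 0 r := by
  set w : ℂ → ℂ := fun z => ∏ k ∈ Finset.range K, (1 - z ^ nn k / ((mu k : ℂ) * (r:ℂ) ^ (2 * nn k))) with hw
  set G : ℂ → ℂ := fun z => w z * TT K z * q z with hG
  have hwd : Differentiable ℂ w := by
    rw [hw]
    fun_prop
  have hGd : DifferentiableOn ℂ G (ball 0 1) := (hwd.differentiableOn.mul (TT_diff K)).mul hq
  have h0 : (0:ℂ) ∈ ball (0:ℂ) 1 := mem_ball_self one_pos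
  have hG0 : G 0 = g 0 := by
    have : w 0 = 1 := by
      rw [hw]
      apply Finset.prod_eq_one
      intro k _
      rw [zero_pow (nn_pos k).ne']; simp
    simp only [hG, this, one_mul]
    rw [hgq 0 h0, TT_zero, TT_zero]
  have hcl : closedBall (0:ℂ) r ⊆ ball 0 1 := closedBall_subset_ball hr
  have havg : Real.circleAverage G 0 r = G 0 := by
    apply DiffContOnCl.circleAverage
    rw [abs_of_pos hr0]
    refine ⟨hGd.mono ((ball_subset_closedBall).trans hcl), ?_⟩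
    rw [closure_ball _ hr0.ne']
    exact hGd.continuousOn.mono hcl
  have hmod : ∀ z ∈ sphere (0:ℂ) |r|, ‖g z‖ = (∏ k ∈ Finset.range K, (mu k * r ^ nn k)) * ‖G z‖ := by
    intro z hz
    rw [abs_of_pos hr0, mem_sphere_zero_iff_norm] at hz
    have hz1 : z ∈ ball (0:ℂ) 1 := by rw [mem_ball_zero_iff, hz]; exact hr
    have hprod : ‖(pp K).eval z‖ = (∏ k ∈ Finset.range K, (mu k * r ^ nn k)) * ‖w z‖ := by
      rw [pp_eval, hw, norm_prod, norm_prod, ← Finset.prod_mul_distrib]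
      apply Finset.prod_congr rfl
      intro k _
      have e1 : (r:ℂ) ^ (2 * nn k) = ((r ^ nn k : ℝ):ℂ) ^ 2 := by
        rw [mul_comm, pow_mul]; push_cast; rfl
      rw [e1]
      exact reflect (mu_pos k) (by positivity) (by rw [norm_pow, hz])
    rw [hgq z hz1, TT_split K hz1, norm_mul, norm_mul, hprod]
    simp only [hG, norm_mul]; ring
  rw [Real.circleAverage_congr_sphere hmod]
  have e4 : Real.circleAverage (fun z => (∏ k ∈ Finset.range K, (mu k * r ^ nn k)) * ‖G z‖) 0 r =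
      (∏ k ∈ Finset.range K, (mu k * r ^ nn k)) * Real.circleAverage (fun z => ‖G z‖) 0 r := by
    have := Real.circleAverage_fun_smul (a := (∏ k ∈ Finset.range K, (mu k * r ^ nn k)))
      (f := fun z => ‖G z‖) (c := 0) (R := r)
    simpa using this
  rw [e4, mul_comm]
  have hpos : 0 ≤ ∏ k ∈ Finset.range K, (mu k * r ^ nn k) :=
    Finset.prod_nonneg fun k _ => mul_nonneg (mu_pos k).le (by positivity)
  apply mul_le_mul_of_nonneg_left _ hpos
  rw [← hG0, ← havg, Real.circleAverage_def, Real.circleAverage_def, norm_smul]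
  have h2 : (0:ℝ) < (2 * π)⁻¹ := by positivity
  rw [Real.norm_eq_abs, abs_of_pos h2, smul_eq_mul]
  apply mul_le_mul_of_nonneg_left _ h2.le
  exact intervalIntegral.norm_integral_le_integral_norm (by positivity)

end Pool.Agent.H651R3.Berg
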