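import Pool.Agent.H651R3.Berg3

set_option autoImplicit false

open MeasureTheory Set Filter Topology Polynomial Metric
open scoped ENNReal Real

namespace Pool.Agent.H651R3.Berg

/-- the intervals of radii -/
def II (K : ℕ) : Set ℝ := Ioo (1 - 1 / (4 * (nn K : ℝ))) (1 - 1 / (8 * (nn K : ℝ)))

lemma II_sub (K : ℕ) : II K ⊆ Ioo (0:ℝ) 1 := by
  intro r hr
  have h1 : (1:ℝ) ≤ nn K := by exact_mod_cast nn_pos K
  have h2 : 1 / (4 * (nn K : ℝ)) ≤ 1 / 4 := by
    rw [div_le_div_iff₀ (by positivity) (by norm_num)]; linarith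
  have h3 : 0 < 1 / (8 * (nn K : ℝ)) := by positivity
  exact ⟨by linarith [hr.1], by linarith [hr.2]⟩

lemma nn_mono {i j : ℕ} (h : i < j) : 4 * nn i ≤ nn j := by
  induction j, h using Nat.le_induction with
  | base => exact nn_succ i
  | succ j _ ih =>
    have := nn_succ j
    omega

lemma II_disj : Pairwise (Function.onFun Disjoint II) := by
  have key : ∀ i j : ℕ, i < j → Disjoint (II i) (II j) := by
    intro i j h
    rw [Set.disjoint_left]
    intro r h1 h2
    have h3 : (4:ℝ) * nn i ≤ nn j := by exact_mod_cast nn_mono h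
    have h4 : (0:ℝ) < nn i := by exact_mod_cast nn_pos i
    have h5 := h1.2
    have h6 := h2.1
    have h8 : (0:ℝ) < nn j := by exact_mod_cast nn_pos j
    have h7 : 1 / (4 * (nn j : ℝ)) ≤ 1 / (8 * (nn i : ℝ)) := by
      rw [div_le_div_iff₀ (by positivity) (by positivity)]; linarith
    linarith
  intro i j hij
  rcases lt_or_gt_of_ne hij with h | h
  · exact key i j h
  · exact (key j i h).symm

lemma prod_lower {K : ℕ} {r : ℝ} (hr : r ∈ II K) :
    (nn K : ℝ) / (K + 1) / 2 ≤ ∏ k ∈ Finset.range (K + 1), (mu k * r ^ nn k) := by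
  have hr01 := II_sub K hr
  rw [Finset.prod_mul_distrib, prod_mu_succ, Finset.prod_pow_eq_pow_sum]
  have h1 : (1:ℝ) / 2 ≤ r ^ (∑ k ∈ Finset.range (K + 1), nn k) := by
    have h2 : r ^ (2 * nn K) ≤ r ^ (∑ k ∈ Finset.range (K + 1), nn k) :=
      pow_le_pow_of_le_one hr01.1.le hr01.2.le (sum_nn_le K)
    refine le_trans ?_ h2
    have h3 : (0:ℝ) < nn K := by exact_mod_cast nn_pos K
    have h4 : 1 - 1 / (4 * (nn K : ℝ)) ≤ r := hr.1.le
    have h5 : (0:ℝ) ≤ 1 - 1 / (4 * (nn K : ℝ)) := by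
      have h1 : (1:ℝ) ≤ nn K := by exact_mod_cast nn_pos K
      have h2 : 1 / (4 * (nn K : ℝ)) ≤ 1 / 4 := by
        rw [div_le_div_iff₀ (by positivity) (by norm_num)]; linarith
      linarith
    refine le_trans ?_ (pow_le_pow_left₀ h5 h4 _)
    have h6 := one_add_mul_le_pow (a := - (1 / (4 * (nn K : ℝ)))) (by linarith) (2 * nn K)
    rw [← sub_eq_add_neg] at h6
    refine le_trans (le_of_eq ?_) h6
    push_cast
    field_simp
    norm_num
  have h7 : (0:ℝ) ≤ (nn K : ℝ) / (K + 1) := by positivity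
  calc (nn K : ℝ) / (K + 1) / 2 = (nn K : ℝ) / (K + 1) * (1 / 2) := by ring
    _ ≤ _ := by gcongr

lemma g_infinite {g : ℂ → ℂ} (hg : DifferentiableOn ℂ g (ball 0 1)) {q : ℂ → ℂ}
    (hq : DifferentiableOn ℂ q (ball 0 1)) (hgq : ∀ z ∈ ball (0:ℂ) 1, g z = TT 0 z * q z) (h0 : g 0 ≠ 0) :
    ∫⁻ z in ball (0 : ℂ) 1, ENNReal.ofReal ‖g z‖ = ⊤ := by
  -- a measurable version
  set F : ℂ → ℝ≥0∞ := (ball (0:ℂ) 1).indicator (fun z => ENNReal.ofReal ‖g z‖) with hF
  have hFm : Measurable F := by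
    classical
    have h1 : Measurable ((ball (0:ℂ) 1).piecewise (fun z => ENNReal.ofReal ‖g z‖) (fun _ => 0)) := by
      apply ContinuousOn.measurable_piecewise
      · exact ENNReal.continuous_ofReal.comp_continuousOn hg.continuousOn.norm
      · exact continuousOn_const
      · exact isOpen_ball.measurableSet
    have h2 : F = (ball (0:ℂ) 1).piecewise (fun z => ENNReal.ofReal ‖g z‖) (fun _ => 0) := by
      ext z
      by_cases hz : z ∈ ball (0:ℂ) 1
      · rw [hF, indicator_of_mem hz, piecewise_eq_of_mem _ _ _ hz]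
      · rw [hF, indicator_of_notMem hz, piecewise_eq_of_notMem _ _ _ hz]
    rw [h2]; exact h1
  have e1 : ∫⁻ z in ball (0 : ℂ) 1, ENNReal.ofReal ‖g z‖ = ∫⁻ z in ball (0 : ℂ) 1, F z := by
    apply setLIntegral_congr_fun isOpen_ball.measurableSet
    intro z hz
    rw [hF, indicator_of_mem hz]
  rw [e1, lintegral_ball hFm]
  set c := ‖g 0‖ with hc
  have hc0 : 0 < c := norm_pos_iff.2 h0
  have h1 : ∀ r ∈ Ioo (0:ℝ) 1, ENNReal.ofReal r * ∫⁻ θ in Ioo (-π) π, F (circleMap 0 r θ) =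
      ENNReal.ofReal (r * (2 * π * Real.circleAverage (fun z => ‖g z‖) 0 r)) := by
    intro r hr
    have hin : ∀ θ : ℝ, circleMap 0 r θ ∈ ball (0:ℂ) 1 := by
      intro θ
      rw [mem_ball_zero_iff, norm_circleMap_zero, abs_of_pos hr.1]; exact hr.2
    have e2 : ∀ θ : ℝ, F (circleMap 0 r θ) = ENNReal.ofReal ‖g (circleMap 0 r θ)‖ := by
      intro θ
      rw [hF, indicator_of_mem (hin θ)]
    simp_rw [e2]
    rw [inner_eq (φ := fun z => ‖g z‖) hr.1.le ?_ (fun z => norm_nonneg _), ← ENNReal.ofReal_mul hr.1.le]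
    apply hg.continuousOn.norm.mono
    intro z hz
    rw [mem_sphere_zero_iff_norm] at hz
    rw [mem_ball_zero_iff, hz]; exact hr.2
  rw [setLIntegral_congr_fun measurableSet_Ioo h1]
  have hsub : (⋃ K, II K) ⊆ Ioo (0:ℝ) 1 := iUnion_subset II_sub
  rw [eq_top_iff]
  refine le_trans ?_ (lintegral_mono_set hsub)
  rw [lintegral_iUnion (s := II) (fun K => measurableSet_Ioo) II_disj]
  have h2 : ∀ K : ℕ, ENNReal.ofReal (c / 32 * (1 / (K + 1))) ≤
      ∫⁻ r in II K, ENNReal.ofReal (r * (2 * π * Real.circleAverage (fun z => ‖g z‖) 0 r)) := by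
    intro K
    have hn : (1:ℝ) ≤ nn K := by exact_mod_cast nn_pos K
    have h3 : ∀ r ∈ II K, ENNReal.ofReal (c / 4 * (nn K / (K + 1))) ≤
        ENNReal.ofReal (r * (2 * π * Real.circleAverage (fun z => ‖g z‖) 0 r)) := by
      intro r hr
      have hr01 := II_sub K hr
      apply ENNReal.ofReal_le_ofReal
      have h4 := mean_lower hq hgq (K + 1) hr01.1 hr01.2
      have h5 := prod_lower hr
      have h6 : c * ((nn K : ℝ) / (K + 1) / 2) ≤ Real.circleAverage (fun z => ‖g z‖) 0 r :=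
        (mul_le_mul_of_nonneg_left h5 hc0.le).trans h4
      have h7 : (1:ℝ) / 2 ≤ r := by
        have : 1 / (4 * (nn K : ℝ)) ≤ 1 / 4 := by
          rw [div_le_div_iff₀ (by positivity) (by norm_num)]; linarith
        linarith [hr.1]
      have h8 : 0 ≤ c * ((nn K : ℝ) / (K + 1) / 2) := by positivity
      have h9 : (1:ℝ) ≤ 2 * π := by linarith [Real.pi_gt_three]
      calc c / 4 * (nn K / (K + 1)) = 1 / 2 * (1 * (c * ((nn K : ℝ) / (K + 1) / 2))) := by ring
        _ ≤ r * (2 * π * Real.circleAverage (fun z => ‖g z‖) 0 r) := by gcongr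
    refine le_trans ?_ (setLIntegral_mono' measurableSet_Ioo h3)
    rw [setLIntegral_const, II, Real.volume_Ioo, ← ENNReal.ofReal_mul (by positivity)]
    apply ENNReal.ofReal_le_ofReal
    apply le_of_eq
    have : (nn K : ℝ) ≠ 0 := by positivity
    field_simp
    ring
  refine le_trans ?_ (ENNReal.tsum_le_tsum h2)
  rw [← eq_top_iff]
  by_contra hcon
  have hs := ENNReal.summable_toReal hcon
  have e3 : (fun K : ℕ => (ENNReal.ofReal (c / 32 * (1 / ((K:ℝ) + 1)))).toReal) = fun K : ℕ => c / 32 * (1 / ((K:ℝ) + 1)) := by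
    ext K
    rw [ENNReal.toReal_ofReal (by positivity)]
  rw [e3, summable_mul_left_iff (by positivity)] at hs
  have h4 := (summable_nat_add_iff (f := fun K : ℕ => 1 / (K:ℝ)) 1).1 (by
    refine hs.congr (fun K => ?_)
    push_cast; rfl)
  exact Real.not_summable_one_div_natCast h4

end Pool.Agent.H651R3.Berg
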