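import Mathlib

set_option autoImplicit false

open Set Filter Topology Polynomial

namespace Pool.Agent.H651R3.Nev

/-- partial fractions -/
lemma pf {s : Finset ℕ} {v : ℕ → ℂ} (hv : Set.InjOn v s) {f : ℂ[X]} (hf : f.degree < s.card) {x : ℂ}
    (hx : ∀ i ∈ s, x ≠ v i) :
    f.eval x / ∏ i ∈ s, (v i - x) = ∑ i ∈ s, (f.eval (v i) / ∏ j ∈ s.erase i, (v j - v i)) / (v i - x) := by
  have h1 := Lagrange.eq_interpolate hv hf
  have h2 := Lagrange.eval_interpolate_not_at_node (fun i => f.eval (v i)) hx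
  rw [← h1] at h2
  have hne : ∏ i ∈ s, (v i - x) ≠ 0 := Finset.prod_ne_zero_iff.2 fun i hi => sub_ne_zero.2 (hx i hi).symm
  have e1 : eval x (Lagrange.nodal s v) = (-1) ^ s.card * ∏ i ∈ s, (v i - x) := by
    rw [Lagrange.eval_nodal, ← Finset.prod_const, ← Finset.prod_mul_distrib]
    apply Finset.prod_congr rfl
    intro i _; ring
  rw [h2, e1, mul_comm ((-1 : ℂ) ^ s.card), mul_assoc, mul_div_assoc, mul_comm, div_mul_cancel₀ _ hne, Finset.mul_sum]
  apply Finset.sum_congr rfl
  intro i hi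
  have e2 : Lagrange.nodalWeight s v i = (-1) ^ (s.card - 1) * (∏ j ∈ s.erase i, (v j - v i))⁻¹ := by
    rw [Lagrange.nodalWeight, ← Finset.card_erase_of_mem hi, ← Finset.prod_const, ← Finset.prod_inv_distrib,
      ← Finset.prod_mul_distrib]
    apply Finset.prod_congr rfl
    intro j _
    rw [show v i - v j = (-1) * (v j - v i) by ring, mul_inv]
    norm_num
  rw [e2]
  have e3 : (x - v i)⁻¹ = - (v i - x)⁻¹ := by rw [← inv_neg]; congr 1; ring
  rw [e3]
  have hc : s.card = (s.card - 1) + 1 := by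
    have := Finset.card_pos.2 ⟨i, hi⟩
    omega
  have e4 : (-1 : ℂ) ^ s.card * (-1) ^ (s.card - 1) = -1 := by
    conv_lhs => rw [hc]
    rw [Nat.add_sub_cancel, pow_succ, mul_assoc, mul_comm (-1 : ℂ), ← mul_assoc, ← pow_add, ← two_mul, pow_mul]
    norm_num
  calc (-1 : ℂ) ^ s.card * ((-1) ^ (s.card - 1) * (∏ j ∈ s.erase i, (v j - v i))⁻¹ * -(v i - x)⁻¹ * eval (v i) f)
      = ((-1 : ℂ) ^ s.card * (-1) ^ (s.card - 1)) * ((∏ j ∈ s.erase i, (v j - v i))⁻¹ * -(v i - x)⁻¹ * eval (v i) f) := by ring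
    _ = (eval (v i) f / ∏ j ∈ s.erase i, (v j - v i)) / (v i - x) := by
      rw [e4]
      rw [div_eq_mul_inv, div_eq_mul_inv]; ring

/-- sign of a product -/
lemma sign_prod {f : ℕ → ℝ} {i n : ℕ} (hin : i ≤ n) (h1 : ∀ l < i, f l < 0) (h2 : ∀ l, i ≤ l → l < n → 0 < f l) :
    0 < (-1) ^ i * ∏ l ∈ Finset.range n, f l := by
  obtain ⟨k, rfl⟩ := Nat.exists_eq_add_of_le hin
  rw [Finset.prod_range_add, ← mul_assoc]
  apply mul_pos
  · have : (-1 : ℝ) ^ i * ∏ l ∈ Finset.range i, f l = ∏ l ∈ Finset.range i, (- f l) := by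
      rw [Finset.prod_neg, Finset.card_range]
    rw [this]
    exact Finset.prod_pos fun l hl => by
      have := h1 l (Finset.mem_range.1 hl)
      linarith
  · exact Finset.prod_pos fun l hl => h2 _ (by omega) (by have := Finset.mem_range.1 hl; omega)

/-- the nodes: `N` poles in `(0,1)`, then the integers `1, 2, ...` -/
noncomputable def v (N i : ℕ) : ℝ := if i < N then (2 * i + 1) / (2 * N) else (i : ℝ) - N + 1
/-- the zeros -/
noncomputable def y (N i : ℕ) : ℝ := (i + 1) / N

lemma v_lt_one {N i : ℕ} (hi : i < N) : v N i < 1 := by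
  have h0 : (0:ℝ) < N := by exact_mod_cast (by omega : 0 < N)
  unfold v
  rw [if_pos hi, div_lt_one (by positivity)]
  have : (i:ℝ) + 1 ≤ N := by exact_mod_cast hi
  linarith

lemma v_pos {N : ℕ} (hN : 0 < N) (i : ℕ) : 0 < v N i := by
  have h0 : (0:ℝ) < N := by exact_mod_cast hN
  unfold v
  split_ifs with h
  · positivity
  · push Not at h
    have : (N:ℝ) ≤ i := by exact_mod_cast h
    linarith

lemma v_ge_one {N i : ℕ} (hi : N ≤ i) : 1 ≤ v N i := by
  unfold v
  rw [if_neg (by omega)]
  have : (N:ℝ) ≤ i := by exact_mod_cast hi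
  linarith

lemma v_mono {N : ℕ} (hN : 0 < N) : StrictMono (v N) := by
  have h0 : (0:ℝ) < N := by exact_mod_cast hN
  apply strictMono_nat_of_lt_succ
  intro i
  by_cases h : i + 1 < N
  · unfold v
    rw [if_pos (by omega), if_pos h]
    gcongr
    linarith
  · by_cases h' : i < N
    · exact (v_lt_one h').trans_le (v_ge_one (by omega))
    · unfold v
      rw [if_neg h', if_neg h]
      push_cast; linarith

lemma y_pos {N : ℕ} (hN : 0 < N) (i : ℕ) : 0 < y N i := by
  have h0 : (0:ℝ) < N := by exact_mod_cast hN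
  unfold y; positivity

lemma y_mono {N : ℕ} (hN : 0 < N) : StrictMono (y N) := by
  have h0 : (0:ℝ) < N := by exact_mod_cast hN
  intro a b hab
  unfold y
  have : (a:ℝ) < b := by exact_mod_cast hab
  gcongr

lemma v_lt_y {N i : ℕ} (hi : i < N) : v N i < y N i := by
  have h0 : (0:ℝ) < N := by exact_mod_cast (by omega : 0 < N)
  unfold v y
  rw [if_pos hi, div_lt_div_iff₀ (by positivity) (by positivity)]
  nlinarith

lemma y_lt_v {N i : ℕ} (hi : i + 1 < N) : y N i < v N (i + 1) := by
  have h0 : (0:ℝ) < N := by exact_mod_cast (by omega : 0 < N)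
  unfold v y
  rw [if_pos hi, div_lt_div_iff₀ (by positivity) (by positivity)]
  push_cast
  nlinarith

lemma y_lt_one {N i : ℕ} (hi : i + 1 < N) : y N i < 1 := (y_lt_v hi).trans (v_lt_one hi)

/-- residues -/
noncomputable def res (N i : ℕ) : ℝ := (∏ l ∈ Finset.range (N - 1), (y N l - v N i) ^ 3) /
  ∏ j ∈ (Finset.range (3 * N)).erase i, (v N j - v N i)

lemma res_pos {N i : ℕ} (hi : i < N) : 0 < res N i := by
  have hN : 0 < N := by omega
  have hm := v_mono hN
  unfold res
  have hA : 0 < (-1 : ℝ) ^ i * ∏ l ∈ Finset.range (N - 1), (y N l - v N i) ^ 3 := by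
    apply sign_prod (by omega)
    · intro l hl
      have h1 : y N l < v N i := (y_lt_v (by omega : l + 1 < N)).trans_le (hm.monotone (by omega))
      exact Odd.pow_neg (by decide) (by linarith)
    · intro l hl1 hl2
      have h1 : v N i < y N l := (v_lt_y hi).trans_le ((y_mono hN).monotone hl1)
      exact pow_pos (by linarith) 3
  have hB : 0 < (-1 : ℝ) ^ i * ∏ j ∈ (Finset.range (3 * N)).erase i, (v N j - v N i) := by
    have e : ∏ j ∈ (Finset.range (3 * N)).erase i, (v N j - v N i) =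
        ∏ j ∈ Finset.range (3 * N), (if j = i then 1 else v N j - v N i) := by
      rw [← Finset.mul_prod_erase (Finset.range (3 * N)) (fun j => if j = i then 1 else v N j - v N i)
        (Finset.mem_range.2 (by omega : i < 3 * N))]
      rw [if_pos rfl, one_mul]
      apply Finset.prod_congr rfl
      intro j hj
      rw [if_neg (Finset.ne_of_mem_erase hj)]
    rw [e]
    apply sign_prod (by omega)
    · intro l hl
      rw [if_neg (by omega)]
      have := hm hl
      linarith
    · intro l hl1 hl2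
      split_ifs with h
      · exact one_pos
      · have := hm (show i < l by omega)
        linarith
  set A := ∏ l ∈ Finset.range (N - 1), (y N l - v N i) ^ 3
  set B := ∏ j ∈ (Finset.range (3 * N)).erase i, (v N j - v N i)
  have h2 : A / B = ((-1) ^ i * A) / ((-1) ^ i * B) := by
    rw [mul_div_mul_left]
    exact pow_ne_zero _ (by norm_num)
  rw [h2]
  exact div_pos hA hB

/-- the rational function -/
noncomputable def W (N : ℕ) (x : ℂ) : ℂ := (∏ l ∈ Finset.range (N - 1), ((y N l : ℂ) - x) ^ 3) /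
  ∏ i ∈ Finset.range (3 * N), ((v N i : ℂ) - x)

lemma W_pf {N : ℕ} (hN : 0 < N) {x : ℂ} (hx : ∀ i, x ≠ (v N i : ℂ)) :
    W N x = ∑ i ∈ Finset.range (3 * N), (res N i : ℂ) / ((v N i : ℂ) - x) := by
  set f : ℂ[X] := ∏ l ∈ Finset.range (N - 1), (C (y N l : ℂ) - X) ^ 3 with hf
  have hev : ∀ z : ℂ, f.eval z = ∏ l ∈ Finset.range (N - 1), ((y N l : ℂ) - z) ^ 3 := by
    intro z
    rw [hf, eval_prod]
    simp
  have hdeg : f.degree < (Finset.range (3 * N)).card := by
    rw [Finset.card_range]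
    refine lt_of_le_of_lt (degree_le_natDegree) ?_
    have h1 : f.natDegree ≤ ∑ l ∈ Finset.range (N - 1), 3 := by
      refine (natDegree_prod_le _ _).trans (Finset.sum_le_sum fun l _ => ?_)
      refine (natDegree_pow_le).trans ?_
      have : (C (y N l : ℂ) - X).natDegree ≤ 1 := by
        refine (natDegree_sub_le _ _).trans ?_
        simp
      omega
    rw [Finset.sum_const, Finset.card_range, smul_eq_mul] at h1
    exact_mod_cast (by omega : f.natDegree < 3 * N)
  have h := pf (s := Finset.range (3 * N)) (v := fun i => (v N i : ℂ))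
    (fun a _ b _ hab => (v_mono hN).injective (Complex.ofReal_injective hab)) hdeg (x := x) (fun i _ => hx i)
  rw [hev] at h
  unfold W
  rw [h]
  apply Finset.sum_congr rfl
  intro i _
  rw [hev]
  unfold res
  push_cast
  rfl

end Pool.Agent.H651R3.Nev
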