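import Pool.Agent.H651R3.Nev1

set_option autoImplicit false

open Set Filter Topology Polynomial

namespace Pool.Agent.H651R3.Nev

/-- the function `-pi cot (pi z)` -/
noncomputable def g (z : ℂ) : ℂ := -(Real.pi * Complex.cot (Real.pi * z))

/-- the small parameter -/
noncomputable def del (N : ℕ) : ℝ := 1 / (1 + ∑ i ∈ Finset.range (3 * N), |res N i|)

lemma del_pos (N : ℕ) : 0 < del N := by
  unfold del
  have : 0 ≤ ∑ i ∈ Finset.range (3 * N), |res N i| := Finset.sum_nonneg fun i _ => abs_nonneg _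
  positivity

lemma del_mul {N i : ℕ} (hi : i < 3 * N) : |del N * res N i| < 1 := by
  rw [abs_mul, abs_of_pos (del_pos N), del]
  have h0 : 0 ≤ ∑ i ∈ Finset.range (3 * N), |res N i| := Finset.sum_nonneg fun i _ => abs_nonneg _
  have h1 : |res N i| ≤ ∑ i ∈ Finset.range (3 * N), |res N i| :=
    Finset.single_le_sum (f := fun i => |res N i|) (fun i _ => abs_nonneg _) (Finset.mem_range.2 hi)
  rw [one_div, inv_mul_lt_iff₀ (by positivity)]
  linarith

/-- the Nevanlinna functions -/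
noncomputable def m (N : ℕ) (z : ℂ) : ℂ := g z + del N * W N z

lemma num_diff (N : ℕ) (s : Finset ℕ) : Differentiable ℂ (fun x : ℂ => ∏ l ∈ s, ((y N l : ℂ) - x) ^ 3) := by
  fun_prop

lemma den_diff (N : ℕ) (s : Finset ℕ) : Differentiable ℂ (fun x : ℂ => ∏ l ∈ s, ((v N l : ℂ) - x)) := by
  fun_prop

lemma W_mero (N : ℕ) (z : ℂ) : MeromorphicAt (fun x => (del N : ℂ) * W N x) z := by
  unfold W
  exact (analyticAt_const.meromorphicAt).mul (((num_diff N _).analyticAt z).meromorphicAt.div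
    ((den_diff N _).analyticAt z).meromorphicAt)

lemma del_ne (N : ℕ) : (del N : ℂ) ≠ 0 := by exact_mod_cast (del_pos N).ne'

lemma y_ne_v {N : ℕ} (hN : 0 < N) {l : ℕ} (hl : l + 1 < N) (i : ℕ) : (v N i : ℂ) ≠ (y N l : ℂ) := by
  intro h
  have h' : v N i = y N l := by exact_mod_cast h
  rcases Nat.lt_or_ge l i with h1 | h1
  · have := (y_lt_v hl).trans_le ((v_mono hN).monotone (show l + 1 ≤ i by omega))
    linarith
  · have := ((v_mono hN).monotone h1).trans_lt (v_lt_y (show l < N by omega))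
    linarith

lemma order_y {N l : ℕ} (hl : l + 1 < N) :
    meromorphicOrderAt (fun x => (del N : ℂ) * W N x) (y N l : ℂ) = 3 := by
  have hN : 0 < N := by omega
  have h3 : (3 : WithTop ℤ) = ((3 : ℤ) : WithTop ℤ) := rfl
  rw [h3, meromorphicOrderAt_eq_int_iff (W_mero N _)]
  have hmem : l ∈ Finset.range (N - 1) := Finset.mem_range.2 (by omega)
  have hden : ∏ i ∈ Finset.range (3 * N), ((v N i : ℂ) - (y N l : ℂ)) ≠ 0 :=
    Finset.prod_ne_zero_iff.2 fun i _ => sub_ne_zero.2 (y_ne_v hN hl i)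
  refine ⟨fun x => -(del N : ℂ) * ((∏ k ∈ (Finset.range (N - 1)).erase l, ((y N k : ℂ) - x) ^ 3) /
    ∏ i ∈ Finset.range (3 * N), ((v N i : ℂ) - x)), ?_, ?_, ?_⟩
  · exact analyticAt_const.mul (((num_diff N _).analyticAt _).div ((den_diff N _).analyticAt _) hden)
  · refine mul_ne_zero (neg_ne_zero.2 (del_ne N)) (div_ne_zero ?_ hden)
    refine Finset.prod_ne_zero_iff.2 fun k hk => pow_ne_zero _ (sub_ne_zero.2 ?_)
    intro h
    exact Finset.ne_of_mem_erase hk ((y_mono hN).injective (by exact_mod_cast h))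
  · refine Eventually.of_forall fun x => ?_
    unfold W
    rw [← Finset.mul_prod_erase _ _ hmem, smul_eq_mul]
    have : (x - (y N l : ℂ)) ^ (3:ℤ) = (x - (y N l : ℂ)) ^ 3 := by norm_cast
    rw [this]
    ring

lemma order_v {N i : ℕ} (hi : i < 3 * N) :
    meromorphicOrderAt (fun x => (del N : ℂ) * W N x) (v N i : ℂ) = -1 := by
  have hN : 0 < N := by omega
  have h3 : (-1 : WithTop ℤ) = ((-1 : ℤ) : WithTop ℤ) := rfl
  rw [h3, meromorphicOrderAt_eq_int_iff (W_mero N _)]
  have hmem : i ∈ Finset.range (3 * N) := Finset.mem_range.2 hi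
  have hden : ∏ k ∈ (Finset.range (3 * N)).erase i, ((v N k : ℂ) - (v N i : ℂ)) ≠ 0 := by
    refine Finset.prod_ne_zero_iff.2 fun k hk => sub_ne_zero.2 ?_
    intro h
    exact Finset.ne_of_mem_erase hk ((v_mono hN).injective (by exact_mod_cast h))
  refine ⟨fun x => -(del N : ℂ) * ((∏ k ∈ (Finset.range (N - 1)), ((y N k : ℂ) - x) ^ 3) /
    ∏ k ∈ (Finset.range (3 * N)).erase i, ((v N k : ℂ) - x)), ?_, ?_, ?_⟩
  · exact analyticAt_const.mul (((num_diff N _).analyticAt _).div ((den_diff N _).analyticAt _) hden)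
  · refine mul_ne_zero (neg_ne_zero.2 (del_ne N)) (div_ne_zero ?_ hden)
    refine Finset.prod_ne_zero_iff.2 fun k hk => pow_ne_zero _ (sub_ne_zero.2 ?_)
    exact (y_ne_v hN (by have := Finset.mem_range.1 hk; omega) i).symm
  · filter_upwards [self_mem_nhdsWithin] with x hx
    unfold W
    rw [← Finset.mul_prod_erase (Finset.range (3 * N)) _ hmem, smul_eq_mul, zpow_neg_one]
    have hx' : x - (v N i : ℂ) ≠ 0 := sub_ne_zero.2 hx
    have hx2 : (v N i : ℂ) - x ≠ 0 := sub_ne_zero.2 (Ne.symm hx)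
    have e : ((v N i : ℂ) - x) = -(x - (v N i : ℂ)) := by ring
    rw [e, neg_mul, div_neg]
    by_cases h0 : ∏ k ∈ (Finset.range (3 * N)).erase i, ((v N k : ℂ) - x) = 0
    · rw [h0]; simp
    · field_simp

lemma order_other {N : ℕ} {z : ℂ} (hy : ∀ l, l + 1 < N → z ≠ (y N l : ℂ)) (hv : ∀ i < 3 * N, z ≠ (v N i : ℂ)) :
    meromorphicOrderAt (fun x => (del N : ℂ) * W N x) z = 0 := by
  have h3 : (0 : WithTop ℤ) = ((0 : ℤ) : WithTop ℤ) := rfl
  rw [h3, meromorphicOrderAt_eq_int_iff (W_mero N _)]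
  have hden : ∏ i ∈ Finset.range (3 * N), ((v N i : ℂ) - z) ≠ 0 :=
    Finset.prod_ne_zero_iff.2 fun i hi => sub_ne_zero.2 (hv i (Finset.mem_range.1 hi)).symm
  refine ⟨fun x => (del N : ℂ) * W N x, ?_, ?_, ?_⟩
  · unfold W
    exact analyticAt_const.mul (((num_diff N _).analyticAt _).div ((den_diff N _).analyticAt _) hden)
  · unfold W
    refine mul_ne_zero (del_ne N) (div_ne_zero ?_ hden)
    refine Finset.prod_ne_zero_iff.2 fun k hk => pow_ne_zero _ (sub_ne_zero.2 ?_)
    exact (hy k (by have := Finset.mem_range.1 hk; omega)).symm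
  · refine Eventually.of_forall fun x => ?_
    simp

lemma sin_ne {z : ℂ} (h0 : 0 < z.re) (h1 : z.re < 1) : Complex.sin (Real.pi * z) ≠ 0 := by
  rw [Ne, Complex.sin_eq_zero_iff]
  rintro ⟨k, hk⟩
  have hpi : (Real.pi : ℂ) ≠ 0 := by exact_mod_cast Real.pi_ne_zero
  have h2 : z = k := by
    rw [mul_comm (k:ℂ)] at hk
    exact mul_left_cancel₀ hpi hk
  rw [h2] at h0 h1
  simp at h0 h1
  have h3 : (0:ℤ) < k := by exact_mod_cast h0
  have h4 : k < 1 := by exact_mod_cast h1
  omega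

lemma g_analytic {z : ℂ} (h0 : 0 < z.re) (h1 : z.re < 1) : AnalyticAt ℂ g z := by
  have hs := sin_ne h0 h1
  unfold g Complex.cot
  have a1 : AnalyticAt ℂ (fun z : ℂ => Complex.cos (Real.pi * z)) z :=
    (by fun_prop : Differentiable ℂ (fun z : ℂ => Complex.cos (Real.pi * z))).analyticAt z
  have a2 : AnalyticAt ℂ (fun z : ℂ => Complex.sin (Real.pi * z)) z :=
    (by fun_prop : Differentiable ℂ (fun z : ℂ => Complex.sin (Real.pi * z))).analyticAt z
  exact (analyticAt_const.mul (a1.div a2 hs)).neg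

lemma g_mero (z : ℂ) : MeromorphicAt g z := by
  unfold g Complex.cot
  have a1 : AnalyticAt ℂ (fun z : ℂ => Complex.cos (Real.pi * z)) z :=
    (by fun_prop : Differentiable ℂ (fun z : ℂ => Complex.cos (Real.pi * z))).analyticAt z
  have a2 : AnalyticAt ℂ (fun z : ℂ => Complex.sin (Real.pi * z)) z :=
    (by fun_prop : Differentiable ℂ (fun z : ℂ => Complex.sin (Real.pi * z))).analyticAt z
  exact (analyticAt_const.meromorphicAt.mul (a1.meromorphicAt.div a2.meromorphicAt)).neg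

lemma g_real (x : ℝ) : (g x).im = 0 := by
  have : g x = ((-(Real.pi * Real.cot (Real.pi * x)) : ℝ) : ℂ) := by
    unfold g
    push_cast
    rfl
  rw [this, Complex.ofReal_im]

lemma m_mero (N : ℕ) (z : ℂ) : MeromorphicAt (m N) z := (g_mero z).add (W_mero N z)

lemma m_order_v {N i : ℕ} (hi : i < N) : meromorphicOrderAt (m N) (v N i : ℂ) = -1 := by
  have hN : 0 < N := by omega
  have h1 : m N = g + fun x => (del N : ℂ) * W N x := by ext x; rfl
  have ha : AnalyticAt ℂ g (v N i : ℂ) := g_analytic (by simpa using v_pos hN i) (by simpa using v_lt_one hi)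
  have h2 := order_v (show i < 3 * N by omega)
  rw [h1, meromorphicOrderAt_add_eq_right_of_lt ha.meromorphicAt, h2]
  rw [h2]
  refine lt_of_lt_of_le ?_ ha.meromorphicOrderAt_nonneg
  exact WithTop.coe_lt_coe.2 (by norm_num : (-1 : ℤ) < 0)

lemma m_analytic {N : ℕ} {z : ℂ} (h0 : 0 < z.re) (h1 : z.re < 1) (hv : ∀ i < N, z ≠ (v N i : ℂ)) :
    AnalyticAt ℂ (m N) z := by
  have hden : ∏ i ∈ Finset.range (3 * N), ((v N i : ℂ) - z) ≠ 0 := by
    refine Finset.prod_ne_zero_iff.2 fun i _ => sub_ne_zero.2 ?_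
    by_cases hi : i < N
    · exact (hv i hi).symm
    · intro h
      have := v_ge_one (N := N) (i := i) (by omega)
      rw [← h] at h1
      simp at h1
      linarith
  have h2 : AnalyticAt ℂ (fun x => (del N : ℂ) * W N x) z := by
    unfold W
    exact analyticAt_const.mul (((num_diff N _).analyticAt _).div ((den_diff N _).analyticAt _) hden)
  exact (g_analytic h0 h1).add h2

/-- imaginary part of a simple fraction -/
lemma im_frac (a t : ℝ) (z : ℂ) (_hz : z.im ≠ 0) :
    ((a : ℂ) / ((t : ℂ) - z)).im = a * z.im / Complex.normSq ((t : ℂ) - z) := by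
  rw [Complex.div_im]
  simp
  ring

lemma nonint {z : ℂ} (hz : z.im ≠ 0) : z ∈ Complex.integerComplement := by
  rintro ⟨n, hn⟩
  apply hz
  rw [← hn]; simp

/-- lower bound for the imaginary part of `g` -/
lemma g_im {z : ℂ} (hz : 0 < z.im) (s : Finset ℕ) :
    ∑ n ∈ s, z.im / Complex.normSq (((n : ℝ) + 1 : ℝ) - z) < (g z).im := by
  have hz' := nonint hz.ne'
  have h1 := cot_series_rep hz'
  have hsum : Summable (fun n : ℕ+ => (1 / (z - n) + 1 / (z + n))) := by
    have h2 := summable_cotTerm hz'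
    have h3 : (fun n : ℕ+ => (1 / (z - n) + 1 / (z + n))) = (fun n : ℕ => cotTerm z n) ∘ (fun n : ℕ+ => n.natPred) := by
      ext n
      simp only [Function.comp, cotTerm]
      have : ((n.natPred : ℕ) : ℂ) + 1 = (n : ℂ) := by
        have := PNat.natPred_add_one n
        exact_mod_cast this
      rw [this]
    rw [h3]
    exact h2.comp_injective PNat.natPred_injective
  have h4 : (g z).im = (- (1 / z)).im + ∑' n : ℕ+, (- (1 / (z - n) + 1 / (z + n))).im := by
    have e : g z = -(1 / z) + ∑' n : ℕ+, (-(1 / (z - n) + 1 / (z + n))) := by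
      rw [tsum_neg]
      unfold g
      rw [h1]
      ring
    rw [e, Complex.add_im, Complex.im_tsum hsum.neg]
  have hterm : ∀ n : ℕ+, (- (1 / (z - n) + 1 / (z + n))).im =
      z.im / Complex.normSq (((n : ℝ) : ℂ) - z) + z.im / Complex.normSq (((-(n:ℝ) : ℝ) : ℂ) - z) := by
    intro n
    have e1 : - (1 / (z - (n:ℂ)) + 1 / (z + (n:ℂ))) = ((1:ℝ):ℂ) / (((n:ℝ):ℂ) - z) + ((1:ℝ):ℂ) / (((-(n:ℝ):ℝ):ℂ) - z) := by
      have e2 : (((n:ℝ):ℂ) - z) = -(z - (n:ℂ)) := by push_cast; ring
      have e3 : (((-(n:ℝ):ℝ):ℂ) - z) = -(z + (n:ℂ)) := by push_cast; ring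
      rw [e2, e3, div_neg, div_neg]
      push_cast
      ring
    rw [e1, Complex.add_im, im_frac _ _ _ hz.ne', im_frac _ _ _ hz.ne', one_mul]
  have hpos : ∀ t : ℝ, 0 < z.im / Complex.normSq ((t:ℂ) - z) := by
    intro t
    apply div_pos hz
    rw [Complex.normSq_pos, sub_ne_zero]
    intro h
    rw [← h] at hz
    simp at hz
  have h5 : 0 < (-(1 / z)).im := by
    have e : -(1 / z) = ((1:ℝ):ℂ) / (((0:ℝ):ℂ) - z) := by
      push_cast
      rw [zero_sub, div_neg]
    rw [e, im_frac _ _ _ hz.ne', one_mul]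
    exact hpos 0
  rw [h4]
  have hs2 : Summable (fun n : ℕ+ => (- (1 / (z - n) + 1 / (z + n))).im) := by
    have := hsum.neg
    exact (Complex.hasSum_im this.hasSum).summable
  have h6 : ∑ n ∈ s.map ⟨Nat.succPNat, Nat.succPNat_injective⟩, (- (1 / (z - (n:ℕ+)) + 1 / (z + n))).im ≤
      ∑' n : ℕ+, (- (1 / (z - n) + 1 / (z + n))).im := by
    apply hs2.sum_le_tsum
    intro n _
    rw [hterm]
    exact (add_pos (hpos _) (hpos _)).le
  have h7 : ∑ n ∈ s, z.im / Complex.normSq (((n : ℝ) + 1 : ℝ) - z) ≤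
      ∑ n ∈ s.map ⟨Nat.succPNat, Nat.succPNat_injective⟩, (- (1 / (z - (n:ℕ+)) + 1 / (z + n))).im := by
    rw [Finset.sum_map]
    apply Finset.sum_le_sum
    intro n _
    rw [hterm]
    have e : (((Nat.succPNat n : ℕ+) : ℕ) : ℝ) = (n:ℝ) + 1 := by simp
    simp only [Function.Embedding.coeFn_mk]
    rw [e]
    have := hpos (-((n:ℝ) + 1))
    linarith
  linarith

/-- the positivity of the imaginary part -/
lemma m_im_pos {N : ℕ} (hN : 0 < N) {z : ℂ} (hz : 0 < z.im) : 0 < (m N z).im := by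
  have hne : ∀ i, z ≠ (v N i : ℂ) := by
    intro i h
    rw [h] at hz
    simp at hz
  have hpos : ∀ t : ℝ, 0 < z.im / Complex.normSq ((t:ℂ) - z) := by
    intro t
    apply div_pos hz
    rw [Complex.normSq_pos, sub_ne_zero]
    intro h
    rw [← h] at hz
    simp at hz
  unfold m
  rw [Complex.add_im, W_pf hN hne, Finset.mul_sum]
  have e1 : (∑ i ∈ Finset.range (3 * N), (del N : ℂ) * ((res N i : ℂ) / ((v N i : ℂ) - z))).im =
      ∑ i ∈ Finset.range (3 * N), del N * res N i * (z.im / Complex.normSq ((v N i : ℂ) - z)) := by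
    rw [Complex.im_sum]
    apply Finset.sum_congr rfl
    intro i _
    rw [Complex.im_ofReal_mul, im_frac _ _ _ hz.ne']
    ring
  have e2 : Finset.range (3 * N) = Finset.range (N + 2 * N) := by congr 1; ring
  rw [e1, e2, Finset.sum_range_add]
  have h1 : 0 ≤ ∑ i ∈ Finset.range N, del N * res N i * (z.im / Complex.normSq ((v N i : ℂ) - z)) := by
    apply Finset.sum_nonneg
    intro i hi
    have := res_pos (Finset.mem_range.1 hi)
    have := del_pos N
    have := hpos (v N i)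
    positivity
  have h2 := g_im hz (Finset.range (2 * N))
  have h3 : -∑ n ∈ Finset.range (2 * N), z.im / Complex.normSq (((n : ℝ) + 1 : ℝ) - z) ≤
      ∑ i ∈ Finset.range (2 * N), del N * res N (N + i) * (z.im / Complex.normSq ((v N (N + i) : ℂ) - z)) := by
    rw [← Finset.sum_neg_distrib]
    apply Finset.sum_le_sum
    intro i hi
    have hv : v N (N + i) = (i:ℝ) + 1 := by
      unfold v
      rw [if_neg (by omega)]
      push_cast; ring
    rw [hv]
    have h4 := del_mul (N := N) (i := N + i) (by have := Finset.mem_range.1 hi; omega)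
    have h5 := (abs_lt.1 h4).1
    have h6 := hpos ((i:ℝ) + 1)
    nlinarith
  linarith

end Pool.Agent.H651R3.Nev
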