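import Mathlib

open Complex Set

namespace H651P

/-- closed upper half plane -/
def UC : Set ℂ := {z | 0 ≤ z.im}
/-- open upper half plane -/
def UO : Set ℂ := {z | 0 < z.im}

lemma UO_sub_UC : UO ⊆ UC := fun z hz => le_of_lt (show 0 < z.im from hz)

lemma isOpen_UO : IsOpen UO := isOpen_lt continuous_const Complex.continuous_im

noncomputable def ra (w : ℂ) : ℂ := (-I * (w - 1)) ^ (2⁻¹ : ℂ)
noncomputable def rb (w : ℂ) : ℂ := (-I * (w + 1)) ^ (2⁻¹ : ℂ)
noncomputable def qq (w : ℂ) : ℂ := I * ra w * rb w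
noncomputable def vv (w : ℂ) : ℂ := w - qq w

lemma root_sq (z : ℂ) : (z ^ (2⁻¹ : ℂ)) ^ 2 = z := by
  have := Complex.cpow_nat_inv_pow z (n := 2) two_ne_zero
  simpa using this

lemma ra_sq (w : ℂ) : ra w ^ 2 = -I * (w - 1) := root_sq _
lemma rb_sq (w : ℂ) : rb w ^ 2 = -I * (w + 1) := root_sq _

lemma root_re_nonneg (z : ℂ) : 0 ≤ (z ^ (2⁻¹ : ℂ)).re := by
  rw [Complex.cpow_inv_two_re]; positivity

lemma root_re_ge {z : ℂ} (hz : 0 ≤ z.re) : |(z ^ (2⁻¹ : ℂ)).im| ≤ (z ^ (2⁻¹ : ℂ)).re := by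
  have h1 := root_sq z
  have h2 : (z ^ (2⁻¹ : ℂ)).re ^ 2 - (z ^ (2⁻¹ : ℂ)).im ^ 2 = z.re := by
    have := congrArg Complex.re h1
    rw [pow_two, Complex.mul_re] at this
    linarith [this]
  apply abs_le_of_sq_le_sq _ (root_re_nonneg z)
  linarith

lemma root_re_gt {z : ℂ} (hz : 0 < z.re) : |(z ^ (2⁻¹ : ℂ)).im| < (z ^ (2⁻¹ : ℂ)).re := by
  have h1 := root_sq z
  have h2 : (z ^ (2⁻¹ : ℂ)).re ^ 2 - (z ^ (2⁻¹ : ℂ)).im ^ 2 = z.re := by
    have := congrArg Complex.re h1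
    rw [pow_two, Complex.mul_re] at this
    linarith [this]
  apply abs_lt_of_sq_lt_sq _ (root_re_nonneg z)
  linarith

lemma re_arg (w : ℂ) (t : ℂ) (ht : t.im = 0) : (-I * (w + t)).re = w.im := by
  simp [ht]

lemma ra_ge {w : ℂ} (hw : w ∈ UC) : |(ra w).im| ≤ (ra w).re := by
  apply root_re_ge
  have := re_arg w (-1) (by simp)
  rw [← sub_eq_add_neg] at this
  rw [this]; exact hw

lemma rb_ge {w : ℂ} (hw : w ∈ UC) : |(rb w).im| ≤ (rb w).re := by
  apply root_re_ge
  rw [re_arg w 1 (by simp)]; exact hw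

lemma ra_gt {w : ℂ} (hw : w ∈ UO) : |(ra w).im| < (ra w).re := by
  apply root_re_gt
  have := re_arg w (-1) (by simp)
  rw [← sub_eq_add_neg] at this
  rw [this]; exact hw

lemma rb_gt {w : ℂ} (hw : w ∈ UO) : |(rb w).im| < (rb w).re := by
  apply root_re_gt
  rw [re_arg w 1 (by simp)]; exact hw

lemma qq_sq (w : ℂ) : qq w ^ 2 = w ^ 2 - 1 := by
  unfold qq
  have h : (I * ra w * rb w) ^ 2 = I ^ 2 * ra w ^ 2 * rb w ^ 2 := by ring
  rw [h, ra_sq, rb_sq]
  linear_combination (I ^ 2 * (w ^ 2 - 1) - (w ^ 2 - 1)) * Complex.I_sq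

lemma vv_eq (w : ℂ) : vv w = I / 2 * (ra w - rb w) ^ 2 := by
  have h1 := ra_sq w
  have h2 := rb_sq w
  unfold vv qq
  linear_combination (-I / 2) * h1 + (-I / 2) * h2 + w * Complex.I_sq

lemma wq_eq (w : ℂ) : w + qq w = I / 2 * (ra w + rb w) ^ 2 := by
  have h1 := ra_sq w
  have h2 := rb_sq w
  unfold qq
  linear_combination (-I / 2) * h1 + (-I / 2) * h2 + w * Complex.I_sq

lemma vv_mul (w : ℂ) : vv w * (w + qq w) = 1 := by
  have := qq_sq w
  unfold vv
  linear_combination -this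

lemma vv_ne (w : ℂ) : vv w ≠ 0 := by
  intro h
  have := vv_mul w
  rw [h] at this
  simp at this

lemma w_eq (w : ℂ) : w = (vv w + (vv w)⁻¹) / 2 := by
  have h := vv_mul w
  have h2 : (vv w)⁻¹ = w + qq w := by
    rw [inv_eq_iff_eq_inv]
    exact eq_inv_of_mul_eq_one_left h
  rw [h2]; unfold vv; ring

lemma q_eq (w : ℂ) : qq w = ((vv w)⁻¹ - vv w) / 2 := by
  have h := vv_mul w
  have h2 : (vv w)⁻¹ = w + qq w := by
    rw [inv_eq_iff_eq_inv]
    exact eq_inv_of_mul_eq_one_left h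
  rw [h2]; unfold vv; ring

lemma diff_le_sum {a b : ℂ} (ha : |a.im| ≤ a.re) (hb : |b.im| ≤ b.re) : ‖a - b‖ ≤ ‖a + b‖ := by
  have h1 : ‖a - b‖ ^ 2 ≤ ‖a + b‖ ^ 2 := by
    rw [← Complex.normSq_eq_norm_sq, ← Complex.normSq_eq_norm_sq, Complex.normSq_apply,
      Complex.normSq_apply]
    simp only [Complex.sub_re, Complex.sub_im, Complex.add_re, Complex.add_im]
    have h3 : |a.im| * |b.im| ≤ a.re * b.re :=
      mul_le_mul ha hb (abs_nonneg _) ((abs_nonneg _).trans ha)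
    have h4 : -(a.im * b.im) ≤ |a.im| * |b.im| := by
      rw [← abs_mul]; exact neg_le_abs _
    nlinarith
  exact le_of_sq_le_sq h1 (norm_nonneg _)

lemma diff_lt_sum {a b : ℂ} (ha : |a.im| < a.re) (hb : |b.im| < b.re) : ‖a - b‖ < ‖a + b‖ := by
  have h1 : ‖a - b‖ ^ 2 < ‖a + b‖ ^ 2 := by
    rw [← Complex.normSq_eq_norm_sq, ← Complex.normSq_eq_norm_sq, Complex.normSq_apply,
      Complex.normSq_apply]
    simp only [Complex.sub_re, Complex.sub_im, Complex.add_re, Complex.add_im]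
    have h3 : |a.im| * |b.im| < a.re * b.re :=
      mul_lt_mul'' ha hb (abs_nonneg _) (abs_nonneg _)
    have h4 : -(a.im * b.im) ≤ |a.im| * |b.im| := by
      rw [← abs_mul]; exact neg_le_abs _
    nlinarith
  exact lt_of_pow_lt_pow_left₀ 2 (norm_nonneg _) h1

lemma norm_prod (w : ℂ) : ‖ra w - rb w‖ * ‖ra w + rb w‖ = 2 := by
  rw [← norm_mul]
  have : (ra w - rb w) * (ra w + rb w) = 2 * I := by
    have h1 := ra_sq w
    have h2 := rb_sq w
    linear_combination h1 - h2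
  rw [this]; simp

lemma vv_le {w : ℂ} (hw : w ∈ UC) : ‖vv w‖ ≤ 1 := by
  rw [vv_eq, norm_mul, norm_pow]
  have h := norm_prod w
  have h2 := diff_le_sum (ra_ge hw) (rb_ge hw)
  have h3 : ‖ra w - rb w‖ ^ 2 ≤ 2 := by
    calc ‖ra w - rb w‖ ^ 2 = ‖ra w - rb w‖ * ‖ra w - rb w‖ := by ring
      _ ≤ ‖ra w - rb w‖ * ‖ra w + rb w‖ := by gcongr
      _ = 2 := h
  have : ‖I / 2‖ = 1 / 2 := by simp
  rw [this]; linarith

lemma vv_lt {w : ℂ} (hw : w ∈ UO) : ‖vv w‖ < 1 := by
  rw [vv_eq, norm_mul, norm_pow]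
  have h := norm_prod w
  have h2 := diff_lt_sum (ra_gt hw) (rb_gt hw)
  have h0 : 0 < ‖ra w - rb w‖ := by
    rcases (norm_nonneg (ra w - rb w)).eq_or_lt with h' | h'
    · rw [← h'] at h; simp at h
    · exact h'
  have h3 : ‖ra w - rb w‖ ^ 2 < 2 := by
    calc ‖ra w - rb w‖ ^ 2 = ‖ra w - rb w‖ * ‖ra w - rb w‖ := by ring
      _ < ‖ra w - rb w‖ * ‖ra w + rb w‖ := by gcongr
      _ = 2 := h
  have : ‖I / 2‖ = 1 / 2 := by simp
  rw [this]; linarith

lemma continuousOn_root : ContinuousOn (fun z : ℂ => z ^ (2⁻¹ : ℂ)) {z | 0 ≤ z.re} := by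
  intro z hz
  by_cases h : z = 0
  · subst h
    apply ContinuousAt.continuousWithinAt
    have : ContinuousAt (fun z : ℂ => z ^ (2⁻¹ : ℂ)) 0 := by
      apply Complex.continuousAt_cpow_const_of_re_pos
      · simp
      · norm_num
    exact this
  · apply ContinuousAt.continuousWithinAt
    apply continuousAt_cpow_const
    rw [Complex.mem_slitPlane_iff]
    by_cases h2 : z.im = 0
    · left
      rcases (show 0 ≤ z.re from hz).eq_or_lt with h3 | h3
      · exact absurd (Complex.ext h3.symm h2) h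
      · exact h3
    · right; exact h2

lemma continuousOn_ra : ContinuousOn ra UC := by
  apply continuousOn_root.comp (by fun_prop)
  intro w hw
  have := re_arg w (-1) (by simp)
  rw [← sub_eq_add_neg] at this
  show 0 ≤ (-I * (w - 1)).re
  rw [this]; exact hw

lemma continuousOn_rb : ContinuousOn rb UC := by
  apply continuousOn_root.comp (by fun_prop)
  intro w hw
  show 0 ≤ (-I * (w + 1)).re
  rw [re_arg w 1 (by simp)]; exact hw

lemma continuousOn_qq : ContinuousOn qq UC :=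
  (continuousOn_const.mul continuousOn_ra).mul continuousOn_rb

lemma continuousOn_vv : ContinuousOn vv UC := continuousOn_id.sub continuousOn_qq

lemma differentiableAt_ra {w : ℂ} (hw : w ∈ UO) : DifferentiableAt ℂ ra w := by
  unfold ra
  apply DifferentiableAt.cpow_const
  · fun_prop
  · rw [Complex.mem_slitPlane_iff]; left
    have := re_arg w (-1) (by simp)
    rw [← sub_eq_add_neg] at this
    rw [this]; exact hw

lemma differentiableAt_rb {w : ℂ} (hw : w ∈ UO) : DifferentiableAt ℂ rb w := by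
  unfold rb
  apply DifferentiableAt.cpow_const
  · fun_prop
  · rw [Complex.mem_slitPlane_iff]; left
    rw [re_arg w 1 (by simp)]; exact hw

lemma differentiableAt_qq {w : ℂ} (hw : w ∈ UO) : DifferentiableAt ℂ qq w :=
  ((differentiableAt_const _).mul (differentiableAt_ra hw)).mul (differentiableAt_rb hw)

lemma qq_ne {w : ℂ} (hw : w ∈ UO) : qq w ≠ 0 := by
  intro h
  have h1 := qq_sq w
  rw [h] at h1
  have h2 : w ^ 2 = 1 := by linear_combination -h1
  rcases (sq_eq_sq_iff_eq_or_eq_neg.mp (h2.trans (one_pow 2).symm)) with h3 | h3 <;> (subst h3; simp [UO] at hw)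

lemma hasDerivAt_qq {w : ℂ} (hw : w ∈ UO) : HasDerivAt qq (w / qq w) w := by
  have hd := (differentiableAt_qq hw).hasDerivAt
  have h1 : HasDerivAt (fun z => qq z ^ 2) (2 * qq w * deriv qq w) w := by
    have := hd.mul hd
    have e : (fun z => qq z ^ 2) = fun z => qq z * qq z := by funext z; ring
    rw [e]
    refine this.congr_deriv ?_
    ring
  have h2 : HasDerivAt (fun z => qq z ^ 2) (2 * w) w := by
    have : (fun z => qq z ^ 2) = fun z => z ^ 2 - 1 := funext qq_sq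
    rw [this]
    simpa using (hasDerivAt_pow 2 w).sub_const 1
  have h3 := h1.unique h2
  have h4 : deriv qq w = w / qq w := by
    rw [eq_div_iff (qq_ne hw)]
    linear_combination h3 / 2
  rw [← h4]; exact hd

lemma hasDerivAt_vv {w : ℂ} (hw : w ∈ UO) : HasDerivAt vv (-(vv w) / qq w) w := by
  have h := (hasDerivAt_id w).sub (hasDerivAt_qq hw)
  have e : (1 : ℂ) - w / qq w = -(vv w) / qq w := by
    unfold vv; field_simp [qq_ne hw]; ring
  rw [← e]; exact h

lemma im_vv_neg {w : ℂ} (hw : w ∈ UO) : (vv w).im < 0 := by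
  have h := w_eq w
  have hv := vv_ne w
  have h1 : w.im = ((vv w).im - (vv w).im / normSq (vv w)) / 2 := by
    conv_lhs => rw [h]
    rw [show (vv w + (vv w)⁻¹) / 2 = ((1/2 : ℝ) : ℂ) * (vv w + (vv w)⁻¹) by push_cast; ring]
    rw [Complex.im_ofReal_mul, Complex.add_im, Complex.inv_im]; ring
  have h2 : normSq (vv w) < 1 := by
    rw [Complex.normSq_eq_norm_sq]
    have := vv_lt hw
    nlinarith [norm_nonneg (vv w)]
  have h3 : 0 < normSq (vv w) := Complex.normSq_pos.mpr hv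
  have h4 : 0 < w.im := hw
  rw [h1] at h4
  have h5 : (vv w).im - (vv w).im / normSq (vv w)
      = (vv w).im * ((normSq (vv w) - 1) / normSq (vv w)) := by
    field_simp
  rw [h5] at h4
  have h6 : (normSq (vv w) - 1) / normSq (vv w) < 0 := div_neg_of_neg_of_pos (by linarith) h3
  by_contra h7
  push Not at h7
  have : (vv w).im * ((normSq (vv w) - 1) / normSq (vv w)) ≤ 0 :=
    mul_nonpos_of_nonneg_of_nonpos h7 h6.le
  linarith

end H651P
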