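import Pool.Agent.H651R3.P9

open Complex Set Filter Topology

namespace H651P

lemma Good.perm {g : ℂ → ℂ} {Q Q2 : List (ℝ × ℝ)} (hG : Good g Q) (h : Q.Perm Q2) : Good g Q2 := by
  refine ⟨hG.dif, hG.ne, hG.lip, ?_, ?_, ?_, ?_, ?_⟩
  · intro z hz
    have : poleSum Q2 z = poleSum Q z := by
      unfold poleSum
      exact ((h.map _).sum_eq).symm
    rw [this]; exact hG.pos z hz
  · intro p hp; exact hG.mass p (h.mem_iff.mpr hp)
  · intro p hp; exact hG.loc p (h.mem_iff.mpr hp)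
  · exact (h.map _).nodup_iff.mp hG.nodup
  · intro p hp; exact hG.K p (h.mem_iff.mpr hp)

lemma Good.tendsto_zero {g : ℂ → ℂ} {Q : List (ℝ × ℝ)} (hG : Good g Q) {p : ℝ × ℝ} (hp : p ∈ Q) :
    Tendsto g (𝓝[UO] (p.1:ℂ)) (𝓝 0) := by
  classical
  have hG2 : Good g ((p.1, p.2) :: Q.erase p) := hG.perm (List.perm_cons_erase hp)
  obtain ⟨r1, B, M, hl⟩ := exists_loc hG2
  have hb : ∀ᶠ z in 𝓝[UO] (p.1:ℂ), ‖g z‖ ≤ 2 / p.2 * ‖z - p.1‖ := by
    have h1 : Metric.ball (p.1:ℂ) r1 ∈ 𝓝 (p.1:ℂ) := Metric.ball_mem_nhds _ hl.pos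
    filter_upwards [self_mem_nhdsWithin, mem_nhdsWithin_of_mem_nhds h1] with z hz hz2
    have := Loc.g_small hG2 hl ⟨hz, hz2⟩
    calc ‖g z‖ ≤ 2 * ‖z - p.1‖ / p.2 := this
      _ = 2 / p.2 * ‖z - p.1‖ := by ring
  apply squeeze_zero_norm' hb
  have h2 : Tendsto (fun z : ℂ => 2 / p.2 * ‖z - p.1‖) (𝓝 (p.1:ℂ)) (𝓝 (2 / p.2 * ‖(p.1:ℂ) - p.1‖)) := by
    apply Continuous.tendsto; fun_prop
  rw [sub_self, norm_zero, mul_zero] at h2
  exact h2.mono_left nhdsWithin_le_nhds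

lemma half_disc {w : ℂ} (hw : w ≠ 0) (h : 1 ≤ (w⁻¹).re) : ‖w - 1 / 2‖ ≤ 1 / 2 := by
  have h1 : 0 < normSq w := Complex.normSq_pos.mpr hw
  rw [Complex.inv_re, le_div_iff₀ h1, one_mul] at h
  apply le_of_sq_le_sq _ (by norm_num)
  rw [← Complex.normSq_eq_norm_sq]
  rw [Complex.normSq_apply] at h ⊢
  simp only [Complex.sub_re, Complex.sub_im]
  have e1 : ((1:ℂ) / 2).re = 1 / 2 := by norm_num
  have e2 : ((1:ℂ) / 2).im = 0 := by norm_num
  rw [e1, e2]
  nlinarith

section lim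
variable {α θ : ℝ} {s : ℕ → St} {d : ℕ → Dat}
  (hR : ∀ n, Rel α θ (s n) (d n) (s (n + 1)))
include hR

lemma eps_step (n : ℕ) : (d (n + 1)).ε ≤ (d n).ε / 4 := by
  have h1 := (hR (n + 1)).ε_e
  have h2 := (hR n).e_ε
  linarith

lemma eps_pow (n j : ℕ) : (d (n + j)).ε ≤ (d n).ε * (1 / 4) ^ j := by
  induction j with
  | zero => simp
  | succ j ih =>
    have := eps_step hR (n + j)
    rw [← add_assoc, pow_succ]
    linarith

lemma close_n (n j : ℕ) {z : ℂ} (hz : z ∈ UO) :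
    ‖(s (n + j)).g z - (s n).g z‖ ≤ 4 / 3 * (d n).ε * (1 - (1 / 4) ^ j) / (1 + ‖z‖) := by
  induction j with
  | zero => simp
  | succ j ih =>
    have h1 := (hR (n + j)).close z hz
    have h2 := eps_pow hR n j
    have h3 : (s (n + (j + 1))).g z - (s n).g z
        = ((s (n + j + 1)).g z - (s (n + j)).g z) + ((s (n + j)).g z - (s n).g z) := by
      rw [← add_assoc]; ring
    rw [h3]
    refine (norm_add_le _ _).trans ?_
    have h4 : (d (n + j)).ε / (1 + ‖z‖) ≤ (d n).ε * (1 / 4) ^ j / (1 + ‖z‖) := by gcongr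
    have h5 : 4 / 3 * (d n).ε * (1 - (1 / 4) ^ (j + 1)) / (1 + ‖z‖)
        = (d n).ε * (1 / 4) ^ j / (1 + ‖z‖) + 4 / 3 * (d n).ε * (1 - (1 / 4) ^ j) / (1 + ‖z‖) := by
      rw [pow_succ]; ring
    rw [h5]; linarith

lemma close_le (n j : ℕ) {z : ℂ} (hz : z ∈ UO) :
    ‖(s (n + j)).g z - (s n).g z‖ ≤ 4 / 3 * (d n).ε / (1 + ‖z‖) := by
  refine (close_n hR n j hz).trans ?_
  have h1 := (hR n).ε_pos
  have h2 : (0:ℝ) ≤ (1 / 4) ^ j := by positivity
  apply div_le_div_of_nonneg_right _ (by positivity)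
  nlinarith

lemma cauchy {z : ℂ} (hz : z ∈ UO) : CauchySeq (fun n => (s n).g z) := by
  apply cauchySeq_of_le_geometric (1 / 4) (d 0).ε (by norm_num)
  intro n
  rw [dist_comm, dist_eq_norm]
  refine ((hR n).close z hz).trans ?_
  have h1 := eps_pow hR 0 n
  rw [zero_add] at h1
  refine le_trans ?_ h1
  apply div_le_self (hR n).ε_pos.le
  linarith [norm_nonneg z]

noncomputable def GG (s : ℕ → St) (z : ℂ) : ℂ := limUnder atTop (fun n => (s n).g z)

lemma tendsto_GG {z : ℂ} (hz : z ∈ UO) : Tendsto (fun n => (s n).g z) atTop (𝓝 (GG s z)) :=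
  (cauchy hR hz).tendsto_limUnder

lemma GG_close (n : ℕ) {z : ℂ} (hz : z ∈ UO) :
    ‖GG s z - (s n).g z‖ ≤ 4 / 3 * (d n).ε / (1 + ‖z‖) := by
  have h1 : Tendsto (fun j => (s (n + j)).g z) atTop (𝓝 (GG s z)) := by
    have := (tendsto_add_atTop_iff_nat n).mpr (tendsto_GG hR hz)
    refine this.congr ?_
    intro j; rw [add_comm]
  have h2 : Tendsto (fun j => ‖(s (n + j)).g z - (s n).g z‖) atTop (𝓝 ‖GG s z - (s n).g z‖) :=
    (h1.sub_const _).norm
  exact le_of_tendsto h2 (Eventually.of_forall fun j => close_le hR n j hz)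

lemma GG_close' (n : ℕ) {z : ℂ} (hz : z ∈ UO) : ‖GG s z - (s n).g z‖ ≤ 4 / 3 * (d n).ε := by
  refine (GG_close hR n hz).trans ?_
  apply div_le_self (by have := (hR n).ε_pos; positivity)
  linarith [norm_nonneg z]

lemma eps_tendsto : Tendsto (fun n => 4 / 3 * (d n).ε) atTop (𝓝 0) := by
  have h1 : Tendsto (fun n : ℕ => 4 / 3 * ((d 0).ε * (1 / 4 : ℝ) ^ n)) atTop (𝓝 0) := by
    have := tendsto_pow_atTop_nhds_zero_of_lt_one (show (0:ℝ) ≤ 1 / 4 by norm_num) (by norm_num)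
    have := (this.const_mul ((d 0).ε)).const_mul (4 / 3)
    simpa using this
  apply squeeze_zero _ _ h1
  · intro n; have := (hR n).ε_pos; positivity
  · intro n
    have := eps_pow hR 0 n
    rw [zero_add] at this
    gcongr

lemma GG_unif : TendstoUniformlyOn (fun n => (s n).g) (GG s) atTop UO := by
  rw [Metric.tendstoUniformlyOn_iff]
  intro ε hε
  filter_upwards [(eps_tendsto hR).eventually (gt_mem_nhds hε)] with n hn z hz
  rw [dist_eq_norm]
  exact (GG_close' hR n hz).trans_lt hn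

lemma GG_diff : DifferentiableOn ℂ (GG s) UO :=
  (GG_unif hR).tendstoLocallyUniformlyOn.differentiableOn
    (Eventually.of_forall fun n => (s n).good.dif) isOpen_UO

lemma GG_half {z : ℂ} (hz : z ∈ UO) : ‖GG s z - 1 / 2‖ ≤ 1 / 2 := by
  have h2 : Tendsto (fun j => ‖(s j).g z - 1 / 2‖) atTop (𝓝 ‖GG s z - 1 / 2‖) :=
    ((tendsto_GG hR hz).sub_const _).norm
  exact le_of_tendsto h2 (Eventually.of_forall fun j =>
    half_disc ((s j).good.ne z hz) ((s j).good.inv_re hz))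

lemma GG_hold (hα0 : 0 < α) : ∃ C : ℝ, 0 ≤ C ∧ ∀ z ∈ UO, ∀ z' ∈ UO,
    ‖GG s z - GG s z'‖ ≤ C * rho z z' ^ α := by
  have hδ0 := (hR 0).δ_pos
  refine ⟨1101 + 2 / (d 0).δ ^ α, by positivity, ?_⟩
  intro z hz z' hz'
  have hrho := rho_nonneg z z'
  have hra : 0 ≤ rho z z' ^ α := Real.rpow_nonneg hrho _
  by_cases hex : ∃ n, (d n).δ ≤ rho z z'
  · classical
    obtain ⟨n, hn, hmin⟩ : ∃ n, (d n).δ ≤ rho z z' ∧ ∀ m < n, rho z z' < (d m).δ :=
      ⟨Nat.find hex, Nat.find_spec hex, fun m hm => not_le.mp (Nat.find_min hex hm)⟩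
    rcases Nat.eq_zero_or_pos n with h0 | h0
    · subst h0
      have h1 := GG_half hR hz
      have h2 := GG_half hR hz'
      have h3 : ‖GG s z - GG s z'‖ ≤ 1 := by
        have e : GG s z - GG s z' = (GG s z - 1 / 2) - (GG s z' - 1 / 2) := by ring
        rw [e]
        refine (norm_sub_le _ _).trans ?_
        linarith
      have h4 : (d 0).δ ^ α ≤ rho z z' ^ α := Real.rpow_le_rpow hδ0.le hn hα0.le
      have h5 : 1 ≤ 2 / (d 0).δ ^ α * rho z z' ^ α := by
        have hp : 0 < (d 0).δ ^ α := by positivity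
        calc (1:ℝ) ≤ 2 / (d 0).δ ^ α * (d 0).δ ^ α := by rw [div_mul_cancel₀ _ hp.ne']; norm_num
          _ ≤ _ := by gcongr
      nlinarith
    · obtain ⟨m, rfl⟩ : ∃ m, n = m + 1 := ⟨n - 1, by omega⟩
      have h1 := (hR m).hold z hz z' hz' (hmin m (by omega)).le
      have h2 := GG_close' hR (m + 1) hz
      have h3 := GG_close' hR (m + 1) hz'
      have h4 := (hR (m + 1)).ε_δ
      have h5 : (d (m + 1)).δ ^ α ≤ rho z z' ^ α :=
        Real.rpow_le_rpow (hR (m + 1)).δ_pos.le hn hα0.le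
      have e : GG s z - GG s z' = (GG s z - (s (m + 1)).g z) - (GG s z' - (s (m + 1)).g z')
          + ((s (m + 1)).g z - (s (m + 1)).g z') := by ring
      rw [e]
      have h6 := norm_add_le ((GG s z - (s (m + 1)).g z) - (GG s z' - (s (m + 1)).g z'))
        ((s (m + 1)).g z - (s (m + 1)).g z')
      have h7 := norm_sub_le (GG s z - (s (m + 1)).g z) (GG s z' - (s (m + 1)).g z')
      have h8 : 0 ≤ 2 / (d 0).δ ^ α * rho z z' ^ α := by positivity
      nlinarith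
  · push Not at hex
    have h1 : Tendsto (fun n => ‖(s (n + 1)).g z - (s (n + 1)).g z'‖) atTop
        (𝓝 ‖GG s z - GG s z'‖) := by
      have a := (tendsto_add_atTop_iff_nat 1).mpr (tendsto_GG hR hz)
      have b := (tendsto_add_atTop_iff_nat 1).mpr (tendsto_GG hR hz')
      exact (a.sub b).norm
    have h2 : ‖GG s z - GG s z'‖ ≤ 1100 * rho z z' ^ α :=
      le_of_tendsto h1 (Eventually.of_forall fun n => (hR n).hold z hz z' hz' (hex n).le)
    have h8 : 0 ≤ 2 / (d 0).δ ^ α * rho z z' ^ α := by positivity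
    nlinarith

/-- positions persist -/
lemma pos_step (n : ℕ) {x : ℝ} (hx : x ∈ (s n).Q.map Prod.fst) :
    x ∈ (s (n + 1)).Q.map Prod.fst := by
  have h := hR n
  rw [h.hQ] at hx
  rw [h.hQ', List.map_append, List.mem_append]
  rw [List.map_cons, List.mem_cons] at hx
  rcases hx with hx | hx
  · right
    have hl := h.l_pos
    unfold children
    rw [List.map_map, List.mem_map]
    refine ⟨(d n).l - 1, by rw [List.mem_range]; omega, ?_⟩
    simp only [Function.comp]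
    rw [Nat.sub_add_cancel hl, tn_mid hl, hx]
    simp
  · left; exact hx

lemma pos_mono (n j : ℕ) {x : ℝ} (hx : x ∈ (s n).Q.map Prod.fst) :
    x ∈ (s (n + j)).Q.map Prod.fst := by
  induction j with
  | zero => exact hx
  | succ j ih => rw [← add_assoc]; exact pos_step hR _ ih

lemma GG_zero (n : ℕ) {x : ℝ} (hx : x ∈ (s n).Q.map Prod.fst) :
    Tendsto (GG s) (𝓝[UO] (x:ℂ)) (𝓝 0) := by
  rw [Metric.tendsto_nhds]
  intro ε hε
  obtain ⟨N, hN⟩ := ((eps_tendsto hR).eventually (gt_mem_nhds (half_pos hε))).exists_forall_of_atTop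
  have hm := hN (n + N) (by omega)
  have hx' := pos_mono hR n N hx
  rw [List.mem_map] at hx'
  obtain ⟨p, hp, rfl⟩ := hx'
  have h2 := (s (n + N)).good.tendsto_zero hp
  rw [Metric.tendsto_nhds] at h2
  filter_upwards [h2 (ε / 2) (half_pos hε), self_mem_nhdsWithin] with z hz hzU
  rw [dist_zero_right] at hz ⊢
  have h3 := GG_close' hR (n + N) hzU
  have h4 := norm_add_le (GG s z - (s (n + N)).g z) ((s (n + N)).g z)
  rw [sub_add_cancel] at h4
  linarith

/-- covering of the `n`-th interval by the positions at stage `n+1` -/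
lemma cover_n (n : ℕ) {x : ℝ} (hx : |x - (d n).c| ≤ (d n).L) :
    ∃ t ∈ (s (n + 1)).Q.map Prod.fst, |x - t| ≤ Real.pi * (d n).L / ((2 * (d n).l : ℕ) : ℝ) := by
  have h := hR n
  have hL := h.L_pos
  have hl := h.l_pos
  obtain ⟨j, hj, hjx⟩ := cover (k := 2 * (d n).l) (by omega) (x := (x - (d n).c) / (d n).L)
    (by rw [abs_div, abs_of_pos hL, div_le_one hL]; exact hx)
  refine ⟨(d n).c + (d n).L * tn (2 * (d n).l) j, ?_, ?_⟩
  · rw [h.hQ', List.map_append, List.mem_append]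
    right
    unfold children
    rw [List.map_map, List.mem_map]
    rw [Finset.mem_Ico] at hj
    refine ⟨j - 1, by rw [List.mem_range]; omega, ?_⟩
    simp only [Function.comp]
    rw [Nat.sub_add_cancel hj.1]
  · have e : x - ((d n).c + (d n).L * tn (2 * (d n).l) j)
        = (d n).L * ((x - (d n).c) / (d n).L - tn (2 * (d n).l) j) := by field_simp; ring
    rw [e, abs_mul, abs_of_pos hL]
    calc (d n).L * |(x - (d n).c) / (d n).L - tn (2 * (d n).l) j|
        ≤ (d n).L * (Real.pi / ((2 * (d n).l : ℕ) : ℝ)) := by gcongr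
      _ = _ := by ring

lemma L_small (n j : ℕ) : 2 * (d (n + 1 + j)).L ≤ (d n).L / 4 * (1 / 4) ^ j := by
  have h1 := (hR (n + 1 + j)).L_ε
  have h2 := eps_pow hR (n + 1) j
  have h3 := (hR (n + 1)).ε_e
  have h4 := (hR n).e_L
  have h5 : (d (n + 1)).ε * (1 / 4) ^ j ≤ (d n).L / 4 * (1 / 4) ^ j := by
    gcongr; linarith
  linarith

lemma c_lt (n : ℕ) : |(d n).c| < 1 :=
  (s n).good.loc ((d n).c, (d n).μ) (by rw [(hR n).hQ]; exact List.mem_cons_self)

end lim

end H651P
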