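import Mathlib

open Complex Set Filter Topology Metric MeasureTheory Real

namespace H651P

def InGevrey (α : ℝ) (f : ℂ → ℂ) : Prop :=
  DifferentiableOn ℂ f (ball 0 1) ∧
    ∃ C : ℝ, ∀ n : ℕ, ∀ z ∈ ball (0:ℂ) 1,
      ‖iteratedDeriv n f z‖ ≤ C ^ (n + 1) * (n.factorial : ℝ) ^ (1 + 1 / α)

/-- divergence certificate for the integral of `dist(·,E)^(-α)` -/
def Dvg (α : ℝ) (E : Set ℂ) : Prop :=
  ∃ (B : ℕ → Set ℝ) (b D : ℕ → ℝ), (∀ n, MeasurableSet (B n)) ∧
    (Pairwise fun i j => Disjoint (B i) (B j)) ∧ (∀ n, B n ⊆ Ioc (-π) π) ∧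
    (∀ n, b n ≤ (volume (B n)).toReal) ∧ (∀ n, 0 < D n) ∧
    (∀ n, ∀ θ ∈ B n, infDist (Complex.exp (θ * I)) E ≤ D n) ∧
    ∀ A : ℝ, ∃ N, A ≤ ∑ n ∈ Finset.range N, b n * (D n) ^ (-α)

lemma jensen_lower {f : ℂ → ℂ} (hf : DifferentiableOn ℂ f (ball 0 1)) :
    ∃ A : ℝ, ∀ r ∈ Ico (1 / 2 : ℝ) 1, A ≤ circleAverage (fun z => Real.log ‖f z‖) 0 r := by
  have hfa : AnalyticOnNhd ℂ f (ball 0 1) := hf.analyticOnNhd isOpen_ball
  refine ⟨((meromorphicOrderAt f 0).untop₀ : ℝ) * Real.log (1 / 2)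
    + Real.log ‖meromorphicTrailingCoeffAt f 0‖, ?_⟩
  intro r hr
  have hr0 : 0 < r := by linarith [hr.1]
  have hsub : closedBall (0:ℂ) |r| ⊆ ball 0 1 := by
    rw [abs_of_pos hr0]; exact closedBall_subset_ball hr.2
  have hA : AnalyticOnNhd ℂ f (closedBall 0 |r|) := hfa.mono hsub
  have hM : MeromorphicOn f (closedBall 0 |r|) := hA.meromorphicOn
  rw [MeromorphicOn.circleAverage_log_norm hr0.ne' hM]
  have hnn : ∀ u, 0 ≤ MeromorphicOn.divisor f (closedBall 0 |r|) u := fun u =>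
    MeromorphicOn.AnalyticOnNhd.divisor_nonneg hA u
  have h1 : 0 ≤ ∑ᶠ u, (MeromorphicOn.divisor f (closedBall 0 |r|) u : ℝ)
      * Real.log (r * ‖0 - u‖⁻¹) := by
    apply finsum_nonneg
    intro u
    by_cases hu : u ∈ closedBall (0:ℂ) |r|
    · apply mul_nonneg
      · exact_mod_cast hnn u
      · rw [zero_sub, norm_neg]
        rcases (norm_nonneg u).eq_or_lt with h0 | h0
        · rw [← h0]; simp
        · apply Real.log_nonneg
          rw [← div_eq_mul_inv, one_le_div h0]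
          rw [mem_closedBall, dist_zero_right, abs_of_pos hr0] at hu
          exact hu
    · have : MeromorphicOn.divisor f (closedBall 0 |r|) u = 0 := by
        by_contra h
        exact hu ((MeromorphicOn.divisor f (closedBall 0 |r|)).supportWithinDomain h)
      rw [this]; simp
  have h0m : (0:ℂ) ∈ closedBall (0:ℂ) |r| := by simp
  have h2 : MeromorphicOn.divisor f (closedBall 0 |r|) 0 = (meromorphicOrderAt f 0).untop₀ :=
    MeromorphicOn.divisor_apply hM h0m
  have h3 : (0:ℝ) ≤ ((meromorphicOrderAt f 0).untop₀ : ℝ) := by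
    have := hnn 0
    rw [h2] at this
    exact_mod_cast this
  have h4 : Real.log (1 / 2) ≤ Real.log r := Real.log_le_log (by norm_num) hr.1
  rw [h2]
  have := mul_le_mul_of_nonneg_left h4 h3
  linarith

lemma avg_upper {f : ℂ → ℂ} (hf : DifferentiableOn ℂ f (ball 0 1)) (hne : ∃ z ∈ ball (0:ℂ) 1, f z ≠ 0)
    {r : ℝ} (hr : r ∈ Ico (1 / 2 : ℝ) 1) {φ : ℂ → ℝ} (hφ : ContinuousOn φ (sphere 0 r))
    (hle : ∀ z ∈ sphere (0:ℂ) r, f z ≠ 0 → Real.log ‖f z‖ ≤ φ z) :
    circleAverage (fun z => Real.log ‖f z‖) 0 r ≤ circleAverage φ 0 r := by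
  classical
  have hr0 : 0 < r := by linarith [hr.1]
  have habs : |r| = r := abs_of_pos hr0
  have hfa : AnalyticOnNhd ℂ f (ball 0 1) := hf.analyticOnNhd isOpen_ball
  have hsub : sphere (0:ℂ) |r| ⊆ ball 0 1 := by
    rw [habs]; exact sphere_subset_closedBall.trans (closedBall_subset_ball hr.2)
  have hcod : ∀ᶠ x in codiscreteWithin (ball (0:ℂ) 1), f x ≠ 0 := by
    rcases hfa.eqOn_zero_or_eventually_ne_zero_of_preconnected (convex_ball 0 1).isPreconnected with h | h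
    · obtain ⟨z, hz, hz2⟩ := hne
      exact absurd (h hz) hz2
    · exact h
  have hcod2 : ∀ᶠ x in codiscreteWithin (sphere (0:ℂ) |r|), f x ≠ 0 :=
    codiscreteWithin_mono hsub hcod
  set h : ℂ → ℝ := fun z => if f z = 0 then φ z else Real.log ‖f z‖ with hh
  have heq : (fun z => Real.log ‖f z‖) =ᶠ[codiscreteWithin (sphere (0:ℂ) |r|)] h := by
    filter_upwards [hcod2] with z hz
    simp [hh, hz]
  rw [circleAverage_congr_codiscreteWithin heq hr0.ne']
  have hM : MeromorphicOn f (sphere 0 |r|) := (hfa.mono hsub).meromorphicOn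
  have hint : CircleIntegrable (fun z => Real.log ‖f z‖) 0 r := hM.circleIntegrable_log_norm
  have hint2 : CircleIntegrable h 0 r := hint.congr_codiscreteWithin heq
  apply circleAverage_mono hint2
  · exact hφ.circleIntegrable hr0.le
  · intro z hz
    rw [habs] at hz
    simp only [hh]
    split_ifs with h1
    · exact le_rfl
    · exact hle z hz h1

/-- Taylor estimate at a flat boundary point -/
lemma flat_est {f : ℂ → ℂ} (hf : DifferentiableOn ℂ f (ball 0 1)) {n : ℕ} {M : ℝ}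
    (hM : ∀ z ∈ ball (0:ℂ) 1, ‖iteratedDeriv n f z‖ ≤ M) {ζ : ℂ} (hζ : ‖ζ‖ = 1)
    (hflat : ∀ m, Tendsto (iteratedDeriv m f) (𝓝[ball 0 1] ζ) (𝓝 0)) {z : ℂ} (hz : z ∈ ball (0:ℂ) 1) :
    ∀ j ≤ n, ∀ t ∈ Ioc (0:ℝ) 1,
      ‖iteratedDeriv (n - j) f (ζ + t * (z - ζ))‖ ≤ M * (t * ‖z - ζ‖) ^ j / j.factorial := by
  have hfa : AnalyticOnNhd ℂ f (ball 0 1) := hf.analyticOnNhd isOpen_ball
  have hmem : ∀ t ∈ Ioc (0:ℝ) 1, ζ + t * (z - ζ) ∈ ball (0:ℂ) 1 := by
    intro t ht
    rw [mem_ball, dist_zero_right] at hz ⊢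
    have e : ζ + t * (z - ζ) = ((1 - t : ℝ) : ℂ) * ζ + (t:ℂ) * z := by push_cast; ring
    rw [e]
    calc ‖((1 - t : ℝ) : ℂ) * ζ + (t:ℂ) * z‖ ≤ ‖((1 - t : ℝ) : ℂ) * ζ‖ + ‖(t:ℂ) * z‖ := norm_add_le _ _
      _ = (1 - t) * 1 + t * ‖z‖ := by
          rw [norm_mul, norm_mul, Complex.norm_real, Complex.norm_real, hζ,
            Real.norm_of_nonneg (by linarith [ht.2]), Real.norm_of_nonneg ht.1.le]
      _ < 1 := by nlinarith [ht.1]
  have hderiv : ∀ m, ∀ w ∈ ball (0:ℂ) 1, HasDerivAt (iteratedDeriv m f) (iteratedDeriv (m + 1) f w) w := by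
    intro m w hw
    have h1 : AnalyticOnNhd ℂ (iteratedDeriv m f) (ball 0 1) := by
      rw [iteratedDeriv_eq_iterate]
      exact hfa.iterated_deriv m
    have h2 := (h1 w hw).differentiableAt.hasDerivAt
    rw [iteratedDeriv_succ]
    exact h2
  intro j
  induction j with
  | zero =>
    intro _ t ht
    simpa using hM _ (hmem t ht)
  | succ j ih =>
    intro hj t ht
    have ih' := ih (by omega)
    set d := ‖z - ζ‖ with hd
    have hd0 : 0 ≤ d := norm_nonneg _
    set K := M * d ^ (j + 1) / ((j + 1).factorial : ℝ) with hK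
    have hnj : n - j = (n - (j + 1)) + 1 := by omega
    set m := n - (j + 1) with hm
    have hM0 : 0 ≤ M := (norm_nonneg _).trans (hM z hz)
    have key : ∀ s ∈ Ioc (0:ℝ) t, ‖iteratedDeriv m f (ζ + t * (z - ζ)) - iteratedDeriv m f (ζ + s * (z - ζ))‖
        ≤ K * t ^ (j + 1) := by
      intro s hs
      have hpath : ∀ x ∈ Icc s t, HasDerivAt (fun x : ℝ => iteratedDeriv m f (ζ + x * (z - ζ))
          - iteratedDeriv m f (ζ + s * (z - ζ)))
          ((z - ζ) * iteratedDeriv (m + 1) f (ζ + x * (z - ζ))) x := by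
        intro x hx
        have hx1 : x ∈ Ioc (0:ℝ) 1 := ⟨lt_of_lt_of_le hs.1 hx.1, hx.2.trans ht.2⟩
        have a1 := hderiv m _ (hmem x hx1)
        have a2 : HasDerivAt (fun x : ℝ => ζ + (x:ℂ) * (z - ζ)) (z - ζ) x := by
          have := ((Complex.ofRealCLM.hasDerivAt (x := x)).mul_const (z - ζ)).const_add ζ
          simpa using this
        have a3 := (a1.comp x a2).sub_const (iteratedDeriv m f (ζ + s * (z - ζ)))
        refine a3.congr_deriv ?_
        ring
      have hB : ∀ x, HasDerivAt (fun x : ℝ => K * (x ^ (j + 1) - s ^ (j + 1)))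
          (K * ((j + 1 : ℕ) * x ^ j)) x := by
        intro x
        have := ((hasDerivAt_pow (j + 1) x).sub_const (s ^ (j + 1))).const_mul K
        simpa using this
      have := image_norm_le_of_norm_deriv_right_le_deriv_boundary
        (f := fun x : ℝ => iteratedDeriv m f (ζ + x * (z - ζ)) - iteratedDeriv m f (ζ + s * (z - ζ)))
        (a := s) (b := t)
        (fun x hx => (hpath x hx).continuousAt.continuousWithinAt)
        (fun x hx => (hpath x ⟨hx.1, hx.2.le⟩).hasDerivWithinAt)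
        (by simp) hB
        (by
          intro x hx
          have hx1 : x ∈ Ioc (0:ℝ) 1 := ⟨lt_of_lt_of_le hs.1 hx.1, hx.2.le.trans ht.2⟩
          have h5 := ih' x hx1
          rw [hnj] at h5
          rw [norm_mul, ← hd]
          calc d * ‖iteratedDeriv (m + 1) f (ζ + x * (z - ζ))‖
              ≤ d * (M * (x * d) ^ j / (j.factorial : ℝ)) := by gcongr
            _ = K * ((j + 1 : ℕ) * x ^ j) := by
                rw [hK, Nat.factorial_succ]
                push_cast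
                field_simp
                ring)
        (right_mem_Icc.mpr hs.2)
      refine this.trans ?_
      have hK0 : 0 ≤ K := by rw [hK]; positivity
      apply mul_le_mul_of_nonneg_left _ hK0
      have : 0 ≤ s ^ (j + 1) := by have := hs.1; positivity
      linarith
    -- let s → 0
    have hlim : Tendsto (fun s : ℝ => iteratedDeriv m f (ζ + s * (z - ζ))) (𝓝[>] 0) (𝓝 0) := by
      apply (hflat m).comp
      apply tendsto_nhdsWithin_of_tendsto_nhds_of_eventually_within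
      · have : Tendsto (fun s : ℝ => ζ + (s:ℂ) * (z - ζ)) (𝓝 0) (𝓝 (ζ + ((0:ℝ):ℂ) * (z - ζ))) := by
          apply Continuous.tendsto; fun_prop
        simp only [Complex.ofReal_zero, zero_mul, add_zero] at this
        exact this.mono_left nhdsWithin_le_nhds
      · have : Ioo (0:ℝ) 1 ∈ 𝓝[>] (0:ℝ) := Ioo_mem_nhdsGT one_pos
        filter_upwards [this] with s hs
        exact hmem s ⟨hs.1, hs.2.le⟩
    have hlim2 : Tendsto (fun s : ℝ => ‖iteratedDeriv m f (ζ + t * (z - ζ))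
        - iteratedDeriv m f (ζ + s * (z - ζ))‖) (𝓝[>] 0)
        (𝓝 ‖iteratedDeriv m f (ζ + t * (z - ζ)) - 0‖) :=
      (tendsto_const_nhds.sub hlim).norm
    rw [sub_zero] at hlim2
    have hfin := le_of_tendsto hlim2 (by
      have : Ioo (0:ℝ) t ∈ 𝓝[>] (0:ℝ) := Ioo_mem_nhdsGT ht.1
      filter_upwards [this] with s hs
      exact key s ⟨hs.1, hs.2.le⟩)
    refine hfin.trans ?_
    apply le_of_eq
    rw [hK, mul_pow]; ring

lemma flat_exp {α : ℝ} (hα : 0 < α) {f : ℂ → ℂ} (hf : InGevrey α f) :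
    ∃ C1 > 0, ∃ c2 > 0, ∀ ζ : ℂ, ‖ζ‖ = 1 → (∀ m, Tendsto (iteratedDeriv m f) (𝓝[ball 0 1] ζ) (𝓝 0)) →
      ∀ z ∈ ball (0:ℂ) 1, ‖f z‖ ≤ C1 * Real.exp (-(c2 * ‖z - ζ‖ ^ (-α))) := by
  obtain ⟨hfd, C0, hC0⟩ := hf
  set C := max |C0| 1 with hCdef
  have hC1 : 1 ≤ C := le_max_right _ _
  have hCp : 0 < C := by linarith
  have hC : ∀ n : ℕ, ∀ z ∈ ball (0:ℂ) 1,
      ‖iteratedDeriv n f z‖ ≤ C ^ (n + 1) * (n.factorial : ℝ) ^ (1 + 1 / α) := by
    intro n z hz
    refine (hC0 n z hz).trans ?_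
    apply mul_le_mul_of_nonneg_right _ (by positivity)
    calc C0 ^ (n + 1) ≤ |C0 ^ (n + 1)| := le_abs_self _
      _ = |C0| ^ (n + 1) := abs_pow _ _
      _ ≤ C ^ (n + 1) := by gcongr; exact le_max_left _ _
  refine ⟨2 * C, by positivity, Real.log 2 * (2 * C) ^ (-α), by
    have := Real.log_pos (show (1:ℝ) < 2 by norm_num)
    positivity, ?_⟩
  intro ζ hζ hflat z hz
  set d := ‖z - ζ‖ with hd
  have hdp : 0 < d := by
    rw [hd, norm_pos_iff, sub_ne_zero]
    intro h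
    rw [h, mem_ball, dist_zero_right, hζ] at hz
    exact lt_irrefl _ hz
  set X := (2 * C * d) ^ (-α) with hX
  have hXp : 0 < X := by positivity
  set n := ⌊X⌋₊ with hn
  have hnX : (n:ℝ) ≤ X := Nat.floor_le hXp.le
  have hnX2 : X < n + 1 := Nat.lt_floor_add_one X
  have h1 := flat_est hfd (hC n) hζ hflat hz n le_rfl 1 ⟨one_pos, le_rfl⟩
  rw [Nat.sub_self, iteratedDeriv_zero] at h1
  simp only [Complex.ofReal_one, one_mul, add_sub_cancel] at h1
  rw [← hd] at h1
  have hfac : (0:ℝ) < n.factorial := by positivity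
  have h2 : C ^ (n + 1) * (n.factorial : ℝ) ^ (1 + 1 / α) * d ^ n / n.factorial
      = C * (C * d) ^ n * (n.factorial : ℝ) ^ (1 / α) := by
    rw [Real.rpow_add hfac, Real.rpow_one]
    field_simp
    ring
  rw [h2] at h1
  have h3 : (n.factorial : ℝ) ^ (1 / α) ≤ ((n:ℝ) ^ (1 / α)) ^ n := by
    calc (n.factorial : ℝ) ^ (1 / α) ≤ ((n:ℝ) ^ n) ^ (1 / α) := by
          gcongr
          exact_mod_cast Nat.factorial_le_pow n
      _ = ((n:ℝ) ^ (1 / α)) ^ n := by
          rw [← Real.rpow_natCast, ← Real.rpow_mul (by positivity), mul_comm,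
            Real.rpow_mul (by positivity), Real.rpow_natCast]
  have h4 : C * d * (n:ℝ) ^ (1 / α) ≤ 1 / 2 := by
    have : (n:ℝ) ^ (1 / α) ≤ X ^ (1 / α) := by gcongr
    have h5 : X ^ (1 / α) = (2 * C * d)⁻¹ := by
      rw [hX, ← Real.rpow_mul (by positivity)]
      have : -α * (1 / α) = -1 := by field_simp
      rw [this, Real.rpow_neg_one]
    rw [h5] at this
    calc C * d * (n:ℝ) ^ (1 / α) ≤ C * d * (2 * C * d)⁻¹ := by gcongr
      _ = 1 / 2 := by field_simp
  have h6 : ‖f z‖ ≤ C * (1 / 2) ^ n := by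
    calc ‖f z‖ ≤ C * (C * d) ^ n * (n.factorial : ℝ) ^ (1 / α) := h1
      _ ≤ C * (C * d) ^ n * ((n:ℝ) ^ (1 / α)) ^ n := by gcongr
      _ = C * (C * d * (n:ℝ) ^ (1 / α)) ^ n := by rw [mul_pow (C * d)]; ring
      _ ≤ C * (1 / 2) ^ n := by gcongr
  refine h6.trans ?_
  have h7 : ((1:ℝ) / 2) ^ n = Real.exp (-(Real.log 2 * n)) := by
    rw [Real.exp_neg, mul_comm, Real.exp_mul, ← Real.rpow_natCast, one_div, Real.inv_rpow (by norm_num)]
    rw [← Real.exp_mul, mul_comm, Real.exp_mul, Real.exp_log (by norm_num)]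
  have h8 : Real.log 2 * (2 * C) ^ (-α) * d ^ (-α) = Real.log 2 * X := by
    rw [hX, Real.mul_rpow (by positivity) hdp.le]; ring
  rw [h7, h8]
  have hl2 : 0 < Real.log 2 := Real.log_pos (by norm_num)
  have h9 : Real.exp (-(Real.log 2 * n)) ≤ 2 * Real.exp (-(Real.log 2 * X)) := by
    have : (2:ℝ) = Real.exp (Real.log 2) := (Real.exp_log (by norm_num)).symm
    conv_rhs => rw [this]
    rw [← Real.exp_add]
    apply Real.exp_le_exp.mpr
    rw [Real.exp_log (by norm_num)]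
    nlinarith
  nlinarith

end H651P
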