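import Pool.Agent.H651R3.P11

open Complex Set Filter Topology Metric MeasureTheory Real

namespace H651P

/-- lower bound for the integral of `(dist(·,E)+δ)^(-α)` -/
lemma int_lower {α : ℝ} (hα : 0 < α) {E : Set ℂ} {B : ℕ → Set ℝ} {b D : ℕ → ℝ}
    (hBm : ∀ n, MeasurableSet (B n)) (hBd : Pairwise fun i j => Disjoint (B i) (B j))
    (hBs : ∀ n, B n ⊆ Ioc (-π) π) (hb : ∀ n, b n ≤ (volume (B n)).toReal) (hDp : ∀ n, 0 < D n)
    (hBD : ∀ n, ∀ θ ∈ B n, infDist (Complex.exp (θ * I)) E ≤ D n) {δ : ℝ} (hδ : 0 < δ) (N : ℕ) :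
    ∑ n ∈ Finset.range N, b n * (D n + δ) ^ (-α) ≤
      ∫ θ in (-π)..π, (infDist (Complex.exp (θ * I)) E + δ) ^ (-α) := by
  set g : ℝ → ℝ := fun θ => (infDist (Complex.exp (θ * I)) E + δ) ^ (-α) with hg
  have hpos : ∀ θ : ℝ, 0 < infDist (Complex.exp (θ * I)) E + δ := fun θ => by
    have := infDist_nonneg (x := Complex.exp (θ * I)) (s := E)
    linarith
  have hcont : Continuous g := by
    apply Continuous.rpow_const
    · apply Continuous.add _ continuous_const
      exact (continuous_infDist_pt E).comp (by fun_prop)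
    · intro θ; left; exact (hpos θ).ne'
  have hgnn : ∀ θ, 0 ≤ g θ := fun θ => Real.rpow_nonneg (hpos θ).le _
  have hle : (-π : ℝ) ≤ π := by linarith [Real.pi_pos]
  rw [intervalIntegral.integral_of_le hle]
  have hint : IntegrableOn g (Ioc (-π) π) := by
    exact (hcont.integrableOn_Icc).mono_set Ioc_subset_Icc_self
  have hstep : ∫ θ in ⋃ n ∈ Finset.range N, B n, g θ ≤ ∫ θ in Ioc (-π) π, g θ := by
    apply setIntegral_mono_set hint
    · exact Eventually.of_forall hgnn
    · apply HasSubset.Subset.eventuallyLE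
      exact iUnion₂_subset fun n _ => hBs n
  refine le_trans ?_ hstep
  rw [integral_biUnion_finset _ (fun n _ => hBm n) (fun i _ j _ hij => hBd hij)
    (fun n _ => hint.mono_set (hBs n))]
  apply Finset.sum_le_sum
  intro n _
  have hBf : volume (B n) ≠ ⊤ := by
    apply ne_of_lt
    calc volume (B n) ≤ volume (Ioc (-π) π) := measure_mono (hBs n)
      _ < ⊤ := by rw [Real.volume_Ioc]; exact ENNReal.ofReal_lt_top
  calc b n * (D n + δ) ^ (-α) ≤ (volume (B n)).toReal * (D n + δ) ^ (-α) := by
        apply mul_le_mul_of_nonneg_right (hb n)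
        have := hDp n
        positivity
    _ = ∫ _ in B n, (D n + δ) ^ (-α) := by
        rw [setIntegral_const]; rfl
    _ ≤ ∫ θ in B n, g θ := by
        apply setIntegral_mono_on
        · exact integrableOn_const hBf
        · exact hint.mono_set (hBs n)
        · exact hBm n
        · intro θ hθ
          apply Real.rpow_le_rpow_of_nonpos (hpos θ)
          · linarith [hBD n θ hθ]
          · linarith

theorem not_flat {α : ℝ} (hα : 0 < α) {E : Set ℂ} (hE : IsClosed E) (hEs : E ⊆ sphere 0 1)
    (hne : E.Nonempty) (hD : Dvg α E) {f : ℂ → ℂ} (hf : InGevrey α f)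
    (hnz : ∃ z ∈ ball (0:ℂ) 1, f z ≠ 0)
    (hflat : ∀ ζ ∈ E, ∀ m, Tendsto (iteratedDeriv m f) (𝓝[ball 0 1] ζ) (𝓝 0)) : False := by
  obtain ⟨C1, hC1, c2, hc2, hexp⟩ := flat_exp hα hf
  obtain ⟨B, b, D, hBm, hBd, hBs, hb, hDp, hBD, hdiv⟩ := hD
  obtain ⟨A, hA⟩ := jensen_lower hf.1
  have hmain : ∀ z ∈ ball (0:ℂ) 1, 0 < infDist z E ∧
      ‖f z‖ ≤ C1 * Real.exp (-(c2 * (infDist z E) ^ (-α))) := by
    intro z hz
    obtain ⟨ζ, hζ, he⟩ := hE.exists_infDist_eq_dist hne z
    have hζ1 : ‖ζ‖ = 1 := by simpa using hEs hζ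
    rw [he, dist_eq_norm]
    constructor
    · rw [norm_pos_iff, sub_ne_zero]
      intro h
      rw [h, mem_ball, dist_zero_right, hζ1] at hz
      exact lt_irrefl _ hz
    · exact hexp ζ hζ1 (hflat ζ hζ) z hz
  have hstep : ∀ N : ℕ, ∀ δ ∈ Ioo (0:ℝ) (1 / 2),
      A ≤ Real.log C1 - c2 * ((2 * π)⁻¹ * ∑ n ∈ Finset.range N, b n * (D n + δ) ^ (-α)) := by
    intro N δ hδ
    set r := 1 - δ with hr
    have hrI : r ∈ Ico (1 / 2 : ℝ) 1 := ⟨by linarith [hδ.2], by linarith [hδ.1]⟩
    have hr0 : 0 < r := by linarith [hrI.1]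
    set φ : ℂ → ℝ := fun z => Real.log C1 - c2 * (infDist (z / r) E + δ) ^ (-α) with hφ
    have hpos : ∀ z : ℂ, 0 < infDist z E + δ := fun z => by
      have := infDist_nonneg (x := z) (s := E)
      linarith [hδ.1]
    have hφc : Continuous φ := by
      apply Continuous.sub continuous_const
      apply Continuous.mul continuous_const
      apply Continuous.rpow_const
      · apply Continuous.add _ continuous_const
        exact (continuous_infDist_pt E).comp (by fun_prop)
      · intro θ; left; exact (hpos _).ne'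
    have h1 := avg_upper hf.1 hnz hrI hφc.continuousOn (by
      intro z hz hfz
      rw [mem_sphere, dist_zero_right] at hz
      have hzb : z ∈ ball (0:ℂ) 1 := by
        rw [mem_ball, dist_zero_right, hz]; exact hrI.2
      obtain ⟨hp, hle⟩ := hmain z hzb
      have hn : 0 < ‖f z‖ := norm_pos_iff.mpr hfz
      have h2 := Real.log_le_log hn hle
      rw [Real.log_mul hC1.ne' (Real.exp_pos _).ne', Real.log_exp] at h2
      refine h2.trans ?_
      simp only [hφ]
      have h3 : infDist z E ≤ infDist (z / r) E + δ := by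
        refine (infDist_le_infDist_add_dist (y := z / r)).trans ?_
        have : dist z (z / r) = δ := by
          rw [dist_eq_norm]
          have e : z - z / r = ((1 - 1 / r : ℝ) : ℂ) * z := by
            push_cast; ring
          rw [e, norm_mul, Complex.norm_real, hz, Real.norm_eq_abs, abs_of_nonpos]
          · field_simp
            rw [hr]; ring
          · rw [sub_nonpos, le_div_iff₀ hr0]; linarith [hrI.2]
        rw [this]
      have h4 := Real.rpow_le_rpow_of_nonpos hp h3 (show -α ≤ 0 by linarith)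
      nlinarith)
    have h2 := (hA r hrI).trans h1
    have h3 : circleAverage φ 0 r = Real.log C1 - c2 * ((2 * π)⁻¹ *
        ∫ θ in (-π)..π, (infDist (Complex.exp (θ * I)) E + δ) ^ (-α)) := by
      rw [circleAverage_eq_integral_add (-π)]
      rw [intervalIntegral.integral_comp_add_right (fun θ => φ (circleMap 0 r θ))]
      have e1 : 0 + -π = -π := by ring
      have e2 : 2 * π + -π = π := by ring
      rw [e1, e2]
      have e3 : ∀ θ : ℝ, φ (circleMap 0 r θ)
          = Real.log C1 - c2 * (infDist (Complex.exp (θ * I)) E + δ) ^ (-α) := by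
        intro θ
        simp only [hφ, circleMap, zero_add]
        rw [mul_div_cancel_left₀]
        exact_mod_cast hr0.ne'
      simp_rw [e3]
      have hgc : Continuous fun θ : ℝ => (infDist (Complex.exp (θ * I)) E + δ) ^ (-α) := by
        apply Continuous.rpow_const
        · apply Continuous.add _ continuous_const
          exact (continuous_infDist_pt E).comp (by fun_prop)
        · intro θ; left; exact (hpos _).ne'
      have e4 : ∫ θ in (-π)..π, (Real.log C1 - c2 * (infDist (Complex.exp (θ * I)) E + δ) ^ (-α))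
          = (∫ θ in (-π)..π, Real.log C1)
            - ∫ θ in (-π)..π, c2 * (infDist (Complex.exp (θ * I)) E + δ) ^ (-α) :=
        intervalIntegral.integral_sub (continuous_const.intervalIntegrable _ _)
          ((continuous_const.mul hgc).intervalIntegrable _ _)
      rw [e4, intervalIntegral.integral_const_mul, intervalIntegral.integral_const]
      have hpi := Real.pi_pos
      simp only [smul_eq_mul]
      generalize (∫ θ in (-π)..π, (infDist (Complex.exp (θ * I)) E + δ) ^ (-α)) = J
      field_simp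
      ring
    rw [h3] at h2
    have h4 := int_lower hα hBm hBd hBs hb hDp hBD hδ.1 N
    have h5 : (2 * π)⁻¹ * ∑ n ∈ Finset.range N, b n * (D n + δ) ^ (-α) ≤
        (2 * π)⁻¹ * ∫ θ in (-π)..π, (infDist (Complex.exp (θ * I)) E + δ) ^ (-α) := by
      apply mul_le_mul_of_nonneg_left h4
      have := Real.pi_pos
      positivity
    have h6 := mul_le_mul_of_nonneg_left h5 hc2.le
    linarith
  have hlimit : ∀ N : ℕ,
      A ≤ Real.log C1 - c2 * ((2 * π)⁻¹ * ∑ n ∈ Finset.range N, b n * (D n) ^ (-α)) := by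
    intro N
    have ht : Tendsto (fun δ : ℝ => Real.log C1 - c2 * ((2 * π)⁻¹ *
        ∑ n ∈ Finset.range N, b n * (D n + δ) ^ (-α))) (𝓝[>] 0)
        (𝓝 (Real.log C1 - c2 * ((2 * π)⁻¹ *
        ∑ n ∈ Finset.range N, b n * (D n + 0) ^ (-α)))) := by
      apply Tendsto.mono_left _ nhdsWithin_le_nhds
      apply Tendsto.sub tendsto_const_nhds
      apply Tendsto.const_mul
      apply Tendsto.const_mul
      apply tendsto_finsetSum
      intro n _
      apply Tendsto.const_mul
      have hc : ContinuousAt (fun δ : ℝ => (D n + δ) ^ (-α)) 0 := by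
        apply ContinuousAt.rpow_const
        · fun_prop
        · left; rw [add_zero]; exact (hDp n).ne'
      exact hc.tendsto
    simp only [add_zero] at ht
    apply ge_of_tendsto ht
    have : Ioo (0:ℝ) (1 / 2) ∈ 𝓝[>] (0:ℝ) := Ioo_mem_nhdsGT (by norm_num)
    filter_upwards [this] with δ hδ
    exact hstep N δ hδ
  obtain ⟨N, hN⟩ := hdiv ((Real.log C1 - A + 1) * (2 * π) / c2)
  have h1 := hlimit N
  have hpi := Real.pi_pos
  have h2 : c2 * ((2 * π)⁻¹ * ((Real.log C1 - A + 1) * (2 * π) / c2)) ≤
      c2 * ((2 * π)⁻¹ * ∑ n ∈ Finset.range N, b n * (D n) ^ (-α)) := by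
    gcongr
  have h3 : c2 * ((2 * π)⁻¹ * ((Real.log C1 - A + 1) * (2 * π) / c2)) = Real.log C1 - A + 1 := by
    field_simp
  linarith

end H651P
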