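import Pool.Agent.H651R3.P10

open Complex Set Filter Topology Metric

namespace H651P

noncomputable def ww (z : ℂ) : ℂ := I * (1 - z) / (1 + z)

lemma one_add_ne {z : ℂ} (hz : z ∈ ball (0:ℂ) 1) : 1 + z ≠ 0 := by
  intro h
  have : z = -1 := by linear_combination h
  rw [this] at hz
  simp at hz

lemma ww_mem {z : ℂ} (hz : z ∈ ball (0:ℂ) 1) : ww z ∈ UO := by
  have h1 := one_add_ne hz
  have h2 : 0 < normSq (1 + z) := Complex.normSq_pos.mpr h1
  have h3 : normSq z < 1 := by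
    rw [Complex.normSq_eq_norm_sq]
    rw [mem_ball, dist_zero_right] at hz
    nlinarith [norm_nonneg z]
  have e : (ww z).im = (1 - normSq z) / normSq (1 + z) := by
    unfold ww
    rw [Complex.div_im]
    simp only [Complex.mul_re, Complex.mul_im, Complex.I_re, Complex.I_im, Complex.sub_re,
      Complex.sub_im, Complex.one_re, Complex.one_im, Complex.add_re, Complex.add_im]
    rw [Complex.normSq_apply z]
    ring
  show 0 < (ww z).im
  rw [e]
  apply div_pos (by linarith) h2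

lemma ww_inv_le {z : ℂ} (hz : z ∈ ball (0:ℂ) 1) : 1 / (1 + ‖ww z‖) ≤ ‖1 + z‖ / 2 := by
  have h1 := one_add_ne hz
  have h2 : 0 < ‖1 + z‖ := norm_pos_iff.mpr h1
  have e : ‖ww z‖ = ‖1 - z‖ / ‖1 + z‖ := by
    unfold ww
    rw [norm_div, norm_mul, Complex.norm_I, one_mul]
  have h3 : 2 ≤ ‖1 + z‖ + ‖1 - z‖ := by
    have := norm_add_le (1 + z) (1 - z)
    have e2 : (1 + z) + (1 - z) = 2 := by ring
    rw [e2] at this
    simpa using this
  have h4 : 1 + ‖ww z‖ = (‖1 + z‖ + ‖1 - z‖) / ‖1 + z‖ := by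
    rw [e]; field_simp
  rw [h4, one_div, inv_div]
  gcongr

lemma rho_ww {z z' : ℂ} (hz : z ∈ ball (0:ℂ) 1) (hz' : z' ∈ ball (0:ℂ) 1) :
    rho (ww z) (ww z') ≤ ‖z - z'‖ / 2 := by
  have h1 := one_add_ne hz
  have h1' := one_add_ne hz'
  have p1 : 0 < ‖1 + z‖ := norm_pos_iff.mpr h1
  have p1' : 0 < ‖1 + z'‖ := norm_pos_iff.mpr h1'
  have e : ww z - ww z' = I * 2 * (z' - z) / ((1 + z) * (1 + z')) := by
    unfold ww
    field_simp
    ring
  have e2 : ‖ww z - ww z'‖ = 2 * ‖z - z'‖ / (‖1 + z‖ * ‖1 + z'‖) := by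
    rw [e, norm_div, norm_mul, norm_mul, norm_mul, Complex.norm_I, norm_sub_rev z' z]
    norm_num
  have h2 := ww_inv_le hz
  have h2' := ww_inv_le hz'
  unfold rho
  rw [e2]
  calc 2 * ‖z - z'‖ / (‖1 + z‖ * ‖1 + z'‖) / ((1 + ‖ww z‖) * (1 + ‖ww z'‖))
      = 2 * ‖z - z'‖ / (‖1 + z‖ * ‖1 + z'‖) * ((1 / (1 + ‖ww z‖)) * (1 / (1 + ‖ww z'‖))) := by
        field_simp
    _ ≤ 2 * ‖z - z'‖ / (‖1 + z‖ * ‖1 + z'‖) * ((‖1 + z‖ / 2) * (‖1 + z'‖ / 2)) := by
        gcongr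
    _ = ‖z - z'‖ / 2 := by field_simp

lemma g0_ww {z : ℂ} (hz : z ∈ ball (0:ℂ) 1) : 1 - g0 (ww z) = (1 + z) / 2 := by
  have h1 := one_add_ne hz
  have h2 := zI_ne (ww_mem hz)
  unfold g0
  have e : ww z + I = 2 * I / (1 + z) := by
    unfold ww; field_simp; ring
  rw [e] at h2 ⊢
  unfold ww
  have hI := Complex.I_ne_zero
  field_simp
  ring

lemma ball_closure : closure (ball (0:ℂ) 1) = closedBall 0 1 := closure_ball 0 one_ne_zero

lemma r_mem {z : ℂ} (hz : z ∈ closedBall (0:ℂ) 1) {r : ℝ} (hr : r ∈ Ioo (0:ℝ) 1) :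
    (r:ℂ) * z ∈ ball (0:ℂ) 1 := by
  rw [mem_closedBall, dist_zero_right] at hz
  rw [mem_ball, dist_zero_right, norm_mul, Complex.norm_real, Real.norm_of_nonneg hr.1.le]
  nlinarith [hr.1, hr.2, norm_nonneg z]

lemma radial {F : ℂ → ℂ} (hF : ContinuousOn F (closedBall 0 1)) {z : ℂ}
    (hz : z ∈ closedBall (0:ℂ) 1) : Tendsto (fun r : ℝ => F (r * z)) (𝓝[<] 1) (𝓝 (F z)) := by
  apply (hF z hz).tendsto.comp
  apply tendsto_nhdsWithin_of_tendsto_nhds_of_eventually_within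
  · have : Tendsto (fun r : ℝ => (r:ℂ) * z) (𝓝 1) (𝓝 (((1:ℝ):ℂ) * z)) := by
      apply Continuous.tendsto; fun_prop
    simp only [Complex.ofReal_one, one_mul] at this
    exact this.mono_left nhdsWithin_le_nhds
  · have : Ioo (0:ℝ) 1 ∈ 𝓝[<] (1:ℝ) := Ioo_mem_nhdsLT one_pos
    filter_upwards [this] with r hr
    exact ball_subset_closedBall (r_mem hz hr)

lemma hold_ext {g : ℂ → ℂ} {C α : ℝ} (hC : 0 ≤ C) (hα : 0 < α)
    (hg : ∀ z ∈ ball (0:ℂ) 1, ∀ z' ∈ ball (0:ℂ) 1, ‖g z - g z'‖ ≤ C * ‖z - z'‖ ^ α) :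
    ∃ F : ℂ → ℂ, (∀ z ∈ ball (0:ℂ) 1, F z = g z) ∧ ContinuousOn F (closedBall 0 1) ∧
      ∀ z ∈ closedBall (0:ℂ) 1, ∀ z' ∈ closedBall (0:ℂ) 1, ‖F z - F z'‖ ≤ C * ‖z - z'‖ ^ α := by
  have hsmall : ∀ ε > 0, ∃ δ > 0, C * (2 * δ) ^ α < ε := by
    intro ε hε
    have hc : ContinuousAt (fun t : ℝ => C * (2 * t) ^ α) 0 := by
      apply ContinuousAt.mul continuousAt_const
      apply ContinuousAt.rpow_const
      · fun_prop
      · right; exact hα.le
    have ht := hc.tendsto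
    simp only [mul_zero, Real.zero_rpow hα.ne'] at ht
    have h1 := (ht.eventually (gt_mem_nhds hε)).filter_mono (nhdsWithin_le_nhds (s := Ioi (0:ℝ)))
    obtain ⟨δ, h2, h3⟩ := (h1.and self_mem_nhdsWithin).exists
    exact ⟨δ, h3, h2⟩
  have hlim : ∀ x ∈ closedBall (0:ℂ) 1, ∃ y, Tendsto g (𝓝[ball 0 1] x) (𝓝 y) := by
    intro x hx
    rw [← ball_closure, mem_closure_iff_nhdsWithin_neBot] at hx
    rw [← cauchy_map_iff_exists_tendsto, Metric.cauchy_iff]
    refine ⟨hx.map g, ?_⟩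
    intro ε hε
    obtain ⟨δ, hδ, hδε⟩ := hsmall ε hε
    refine ⟨g '' (ball 0 1 ∩ ball x δ), image_mem_map (inter_mem self_mem_nhdsWithin
      (mem_nhdsWithin_of_mem_nhds (ball_mem_nhds x hδ))), ?_⟩
    rintro _ ⟨a, ⟨ha, ha'⟩, rfl⟩ _ ⟨b, ⟨hb, hb'⟩, rfl⟩
    rw [dist_eq_norm]
    refine (hg a ha b hb).trans_lt (lt_of_le_of_lt ?_ hδε)
    apply mul_le_mul_of_nonneg_left _ hC
    apply Real.rpow_le_rpow (norm_nonneg _) _ hα.le
    rw [← dist_eq_norm]
    rw [mem_ball] at ha' hb'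
    have := dist_triangle_right a b x
    linarith
  have hcont : ContinuousOn g (ball 0 1) := by
    intro x hx
    rw [ContinuousWithinAt, Metric.tendsto_nhds]
    intro ε hε
    obtain ⟨δ, hδ, hδε⟩ := hsmall ε hε
    filter_upwards [self_mem_nhdsWithin, mem_nhdsWithin_of_mem_nhds (ball_mem_nhds x hδ)] with a ha ha'
    rw [dist_eq_norm]
    refine (hg a ha x hx).trans_lt (lt_of_le_of_lt ?_ hδε)
    apply mul_le_mul_of_nonneg_left _ hC
    apply Real.rpow_le_rpow (norm_nonneg _) _ hα.le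
    rw [← dist_eq_norm]
    rw [mem_ball] at ha'
    linarith
  have hFc : ContinuousOn (extendFrom (ball 0 1) g) (closedBall 0 1) :=
    continuousOn_extendFrom (by rw [ball_closure]) hlim
  have hFe : ∀ z ∈ ball (0:ℂ) 1, extendFrom (ball 0 1) g z = g z :=
    extendFrom_extends hcont
  refine ⟨extendFrom (ball 0 1) g, hFe, hFc, ?_⟩
  intro z hz z' hz'
  have t1 := radial hFc hz
  have t2 := radial hFc hz'
  have t3 := (t1.sub t2).norm
  apply le_of_tendsto t3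
  have : Ioo (0:ℝ) 1 ∈ 𝓝[<] (1:ℝ) := Ioo_mem_nhdsLT one_pos
  filter_upwards [this] with r hr
  rw [hFe _ (r_mem hz hr), hFe _ (r_mem hz' hr)]
  refine (hg _ (r_mem hz hr) _ (r_mem hz' hr)).trans ?_
  apply mul_le_mul_of_nonneg_left _ hC
  apply Real.rpow_le_rpow (norm_nonneg _) _ hα.le
  rw [← mul_sub, norm_mul, Complex.norm_real, Real.norm_of_nonneg hr.1.le]
  nlinarith [norm_nonneg (z - z'), hr.2]

lemma Ix_ne (x : ℝ) : I + (x:ℂ) ≠ 0 := by
  intro h
  have := congrArg Complex.im h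
  simp at this

lemma zeta_norm (x : ℝ) : ‖(I - (x:ℂ)) / (I + (x:ℂ))‖ = 1 := by
  have h : ‖I - (x:ℂ)‖ = ‖I + (x:ℂ)‖ := by
    have e1 : ‖I - (x:ℂ)‖ ^ 2 = ‖I + (x:ℂ)‖ ^ 2 := by
      rw [← Complex.normSq_eq_norm_sq, ← Complex.normSq_eq_norm_sq, Complex.normSq_apply,
        Complex.normSq_apply]
      simp
    exact (sq_eq_sq₀ (norm_nonneg _) (norm_nonneg _)).mp e1
  rw [norm_div, h, div_self]
  exact norm_ne_zero_iff.mpr (Ix_ne x)

lemma ww_zeta (x : ℝ) : 1 + (I - (x:ℂ)) / (I + (x:ℂ)) ≠ 0 ∧ ww ((I - (x:ℂ)) / (I + (x:ℂ))) = x := by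
  have h := Ix_ne x
  have hI := Complex.I_ne_zero
  have e1 : 1 + (I - (x:ℂ)) / (I + (x:ℂ)) = 2 * I / (I + x) := by field_simp; ring
  have e0 : 1 - (I - (x:ℂ)) / (I + (x:ℂ)) = 2 * x / (I + x) := by field_simp; ring
  constructor
  · rw [e1]
    exact div_ne_zero (mul_ne_zero two_ne_zero hI) h
  · unfold ww
    rw [e1, e0]
    field_simp

theorem exists_F {α θ : ℝ} {s : ℕ → St} {d : ℕ → Dat} (hs0 : s 0 = st0)
    (hR : ∀ n, Rel α θ (s n) (d n) (s (n + 1))) (hα0 : 0 < α) :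
    ∃ F : ℂ → ℂ, DifferentiableOn ℂ F (ball 0 1) ∧ ContinuousOn F (closedBall 0 1) ∧
      (∃ C : ℝ, ∀ z ∈ closedBall (0:ℂ) 1, ∀ z' ∈ closedBall (0:ℂ) 1, ‖F z - F z'‖ ≤ C * ‖z - z'‖ ^ α)
      ∧ (∀ z ∈ closedBall (0:ℂ) 1, ‖F z - 1 / 2‖ ≤ 1 / 2)
      ∧ (∀ n, ∀ x ∈ (s n).Q.map Prod.fst, F ((I - (x:ℂ)) / (I + (x:ℂ))) = 1) ∧ F (-1) = 0 := by
  obtain ⟨C, hC, hhold⟩ := GG_hold hR hα0
  have hg : ∀ z ∈ ball (0:ℂ) 1, ∀ z' ∈ ball (0:ℂ) 1,
      ‖(1 - GG s (ww z)) - (1 - GG s (ww z'))‖ ≤ C * ‖z - z'‖ ^ α := by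
    intro z hz z' hz'
    have h1 := hhold _ (ww_mem hz') _ (ww_mem hz)
    have e : (1 - GG s (ww z)) - (1 - GG s (ww z')) = GG s (ww z') - GG s (ww z) := by ring
    rw [e]
    refine h1.trans ?_
    apply mul_le_mul_of_nonneg_left _ hC
    apply Real.rpow_le_rpow (rho_nonneg _ _) _ hα0.le
    have := rho_ww hz' hz
    rw [norm_sub_rev z' z] at this
    linarith [norm_nonneg (z - z')]
  obtain ⟨F, hFe, hFc, hFh⟩ := hold_ext hC hα0 hg
  have hIoo : Ioo (0:ℝ) 1 ∈ 𝓝[<] (1:ℝ) := Ioo_mem_nhdsLT one_pos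
  refine ⟨F, ?_, hFc, ⟨C, hFh⟩, ?_, ?_, ?_⟩
  · have h1 : DifferentiableOn ℂ (fun z => 1 - GG s (ww z)) (ball 0 1) := by
      apply DifferentiableOn.sub (differentiableOn_const _)
      apply (GG_diff hR).comp
      · intro z hz
        have := one_add_ne hz
        unfold ww
        apply DifferentiableAt.differentiableWithinAt
        have d1 : DifferentiableAt ℂ (fun z : ℂ => I * (1 - z)) z := by fun_prop
        have d2 : DifferentiableAt ℂ (fun z : ℂ => 1 + z) z := by fun_prop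
        exact DifferentiableAt.fun_div d1 d2 this
      · intro z hz; exact ww_mem hz
    exact h1.congr (fun z hz => hFe z hz)
  · intro z hz
    have t := ((radial hFc hz).sub_const (1 / 2)).norm
    apply le_of_tendsto t
    filter_upwards [hIoo] with r hr
    rw [hFe _ (r_mem hz hr)]
    have := GG_half hR (ww_mem (r_mem hz hr))
    have e : 1 - GG s (ww (r * z)) - 1 / 2 = -(GG s (ww (r * z)) - 1 / 2) := by ring
    rw [e, norm_neg]
    exact this
  · intro n x hx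
    set ζ := (I - (x:ℂ)) / (I + (x:ℂ)) with hζ
    have hζn : ‖ζ‖ = 1 := zeta_norm x
    obtain ⟨h1, h2⟩ := ww_zeta x
    rw [← hζ] at h1 h2
    have hζc : ζ ∈ closedBall (0:ℂ) 1 := by rw [mem_closedBall, dist_zero_right, hζn]
    have hne : (𝓝[ball (0:ℂ) 1] ζ).NeBot := by
      rw [← mem_closure_iff_nhdsWithin_neBot, ball_closure]; exact hζc
    have t1 : Tendsto F (𝓝[ball (0:ℂ) 1] ζ) (𝓝 (F ζ)) :=
      (hFc ζ hζc).tendsto.mono_left (nhdsWithin_mono _ ball_subset_closedBall)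
    have t2 : Tendsto ww (𝓝[ball (0:ℂ) 1] ζ) (𝓝[UO] (x:ℂ)) := by
      apply tendsto_nhdsWithin_of_tendsto_nhds_of_eventually_within
      · rw [← h2]
        have : ContinuousAt ww ζ := by
          unfold ww
          apply ContinuousAt.div _ _ h1 <;> fun_prop
        exact this.tendsto.mono_left nhdsWithin_le_nhds
      · filter_upwards [self_mem_nhdsWithin] with z hz
        exact ww_mem hz
    have t3 : Tendsto (fun z => 1 - GG s (ww z)) (𝓝[ball (0:ℂ) 1] ζ) (𝓝 (1 - 0)) :=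
      ((GG_zero hR n hx).comp t2).const_sub 1
    rw [sub_zero] at t3
    have t4 : Tendsto F (𝓝[ball (0:ℂ) 1] ζ) (𝓝 1) := by
      apply t3.congr'
      filter_upwards [self_mem_nhdsWithin] with z hz
      exact (hFe z hz).symm
    exact tendsto_nhds_unique t1 t4
  · have hm1 : (-1 : ℂ) ∈ closedBall (0:ℂ) 1 := by simp
    have t := (radial hFc hm1).norm
    have hle : ‖F (-1)‖ ≤ 0 := by
      have t5 : Tendsto (fun r : ℝ => 1 - r) (𝓝[<] 1) (𝓝 0) := by
        have : Tendsto (fun r : ℝ => 1 - r) (𝓝 1) (𝓝 (1 - 1)) := by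
          apply Continuous.tendsto; fun_prop
        rw [sub_self] at this
        exact this.mono_left nhdsWithin_le_nhds
      apply le_of_tendsto_of_tendsto t t5
      filter_upwards [hIoo] with r hr
      have hb := r_mem hm1 hr
      rw [hFe _ hb]
      set z : ℂ := (r:ℂ) * (-1) with hz
      have e1 : 1 - GG s (ww z) = (1 - g0 (ww z)) - (GG s (ww z) - g0 (ww z)) := by ring
      have hc := GG_close hR 0 (ww_mem hb)
      rw [hs0] at hc
      have e2 : st0.g = g0 := rfl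
      rw [e2] at hc
      have he0 : (d 0).ε ≤ 1 / 40 := by
        have := (hR 0).ε_e
        rw [hs0] at this
        have e3 : st0.e = 1 / 10 := rfl
        rw [e3] at this
        linarith
      have hep := (hR 0).ε_pos
      have hi := ww_inv_le hb
      have hn : ‖1 + z‖ = 1 - r := by
        have : 1 + z = ((1 - r : ℝ) : ℂ) := by rw [hz]; push_cast; ring
        rw [this, Complex.norm_real, Real.norm_of_nonneg (by linarith [hr.2])]
      have h6 : ‖1 - g0 (ww z)‖ = (1 - r) / 2 := by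
        rw [g0_ww hb, norm_div, hn]; norm_num
      have h7 : 4 / 3 * (d 0).ε / (1 + ‖ww z‖) ≤ (1 - r) / 2 := by
        calc 4 / 3 * (d 0).ε / (1 + ‖ww z‖) = 4 / 3 * (d 0).ε * (1 / (1 + ‖ww z‖)) := by ring
          _ ≤ 1 * (‖1 + z‖ / 2) := by
              apply mul_le_mul _ hi (by positivity) (by norm_num)
              linarith
          _ = (1 - r) / 2 := by rw [hn]; ring
      rw [e1]
      refine (norm_sub_le _ _).trans ?_
      rw [h6]
      linarith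
    exact norm_le_zero_iff.mp hle

end H651P
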