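import Pool.Agent.H651R3.P12
import Pool.Agent.H651R3.P13

open Complex Set Filter Topology Metric MeasureTheory Real

namespace H651P

/-- the point of the circle over `x = tan(θ/2)` -/
lemma exp_zeta (x : ℝ) :
    Complex.exp ((2 * Real.arctan x : ℝ) * I) = (I - (x:ℂ)) / (I + (x:ℂ)) := by
  have h := Ix_ne x
  have hs : (0:ℝ) < 1 + x ^ 2 := by positivity
  have hc := Real.cos_arctan x
  have hsn := Real.sin_arctan x
  rw [Complex.exp_mul_I, ← Complex.ofReal_cos, ← Complex.ofReal_sin, Real.cos_two_mul,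
    Real.sin_two_mul, hc, hsn]
  have hq : (√(1 + x ^ 2)) ^ 2 = 1 + x ^ 2 := Real.sq_sqrt hs.le
  have hq0 : √(1 + x ^ 2) ≠ 0 := by positivity
  have e1 : 2 * (1 / √(1 + x ^ 2)) ^ 2 - 1 = (1 - x ^ 2) / (1 + x ^ 2) := by
    rw [div_pow, hq]; field_simp; ring
  have e2 : 2 * (x / √(1 + x ^ 2)) * (1 / √(1 + x ^ 2)) = 2 * x / (1 + x ^ 2) := by
    have : 2 * (x / √(1 + x ^ 2)) * (1 / √(1 + x ^ 2)) = 2 * x / (√(1 + x ^ 2)) ^ 2 := by
      field_simp
    rw [this, hq]
  rw [e1, e2]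
  push_cast
  have h3 : (1:ℂ) + (x:ℂ) ^ 2 ≠ 0 := by exact_mod_cast hs.ne'
  rw [eq_div_iff h]
  field_simp
  linear_combination 2 * (x:ℂ) * Complex.I_sq

lemma zeta_dist (x t : ℝ) :
    ‖(I - (x:ℂ)) / (I + (x:ℂ)) - (I - (t:ℂ)) / (I + (t:ℂ))‖ ≤ 2 * |x - t| := by
  have h := Ix_ne x
  have h' := Ix_ne t
  have e : (I - (x:ℂ)) / (I + (x:ℂ)) - (I - (t:ℂ)) / (I + (t:ℂ))
      = 2 * I * ((t - x : ℝ) : ℂ) / ((I + x) * (I + t)) := by
    rw [div_sub_div _ _ h h']
    push_cast
    ring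
  have n1 : ∀ y : ℝ, 1 ≤ ‖I + (y:ℂ)‖ := by
    intro y
    have := Complex.abs_im_le_norm (I + (y:ℂ))
    simpa using this
  rw [e, norm_div, norm_mul, norm_mul, norm_mul, Complex.norm_I, Complex.norm_real,
    Real.norm_eq_abs, abs_sub_comm t x]
  have n2 : ‖(2:ℂ)‖ = 2 := by norm_num
  rw [n2, mul_one]
  have h1 := n1 x
  have h2 := n1 t
  apply div_le_self (by positivity)
  nlinarith

section
variable {α θ : ℝ} {s : ℕ → St} {d : ℕ → Dat} (hs0 : s 0 = st0)
  (hR : ∀ n, Rel α θ (s n) (d n) (s (n + 1)))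
include hR hs0

lemma L_le (n : ℕ) : (d n).L ≤ 1 / 80 := by
  have h1 := (hR n).L_ε
  have h2 := eps_pow hR 0 n
  rw [zero_add] at h2
  have h3 := (hR 0).ε_e
  rw [hs0] at h3
  have e3 : st0.e = 1 / 10 := rfl
  rw [e3] at h3
  have h4 : (1 / 4 : ℝ) ^ n ≤ 1 := pow_le_one₀ (by norm_num) (by norm_num)
  have h5 := (hR 0).ε_pos
  nlinarith

end

/-- the interval of angles of the `n`-th step -/
noncomputable def Aint (d : ℕ → Dat) (n : ℕ) : Set ℝ :=
  Icc (2 * Real.arctan ((d n).c - (d n).L)) (2 * Real.arctan ((d n).c + (d n).L))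

noncomputable def Bset (d : ℕ → Dat) (n : ℕ) : Set ℝ :=
  Aint d n \ ⋃ j : ℕ, Aint d (n + 1 + j)

lemma arctan_sub_le {a b : ℝ} (hab : a ≤ b) : Real.arctan b - Real.arctan a ≤ b - a := by
  have h : Monotone fun x : ℝ => x - Real.arctan x := by
    apply monotone_of_deriv_nonneg
    · exact differentiable_id.sub Real.differentiable_arctan
    · intro x
      have : HasDerivAt (fun x : ℝ => x - Real.arctan x) (1 - 1 / (1 + x ^ 2)) x :=
        (hasDerivAt_id x).sub (Real.hasDerivAt_arctan x)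
      rw [this.deriv]
      have h1 : 1 / (1 + x ^ 2) ≤ 1 := by
        rw [div_le_one (by positivity)]; nlinarith [sq_nonneg x]
      linarith
  have := h hab
  simp only at this
  linarith

lemma arctan_sub_ge {a b : ℝ} (hab : a ≤ b) (ha : -(3 / 2) ≤ a) (hb : b ≤ 3 / 2) :
    (b - a) / 4 ≤ Real.arctan b - Real.arctan a := by
  have h : MonotoneOn (fun x : ℝ => Real.arctan x - x / 4) (Icc (-(3 / 2)) (3 / 2)) := by
    apply monotoneOn_of_deriv_nonneg (convex_Icc _ _)
    · exact (Real.continuous_arctan.sub (by fun_prop)).continuousOn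
    · exact (Real.differentiable_arctan.sub (by fun_prop)).differentiableOn
    · intro x hx
      rw [interior_Icc] at hx
      have : HasDerivAt (fun x : ℝ => Real.arctan x - x / 4) (1 / (1 + x ^ 2) - 1 / 4) x :=
        (Real.hasDerivAt_arctan x).sub ((hasDerivAt_id x).div_const 4)
      rw [this.deriv]
      have h1 : 1 / 4 ≤ 1 / (1 + x ^ 2) := by
        apply one_div_le_one_div_of_le (by positivity)
        nlinarith [hx.1, hx.2]
      linarith
  have := h ⟨ha, hab.trans hb⟩ ⟨ha.trans hab, hb⟩ hab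
  simp only at this
  linarith

section
variable {α θ : ℝ} {s : ℕ → St} {d : ℕ → Dat} (hs0 : s 0 = st0)
  (hR : ∀ n, Rel α θ (s n) (d n) (s (n + 1)))
include hR

lemma vol_A_le (n : ℕ) : volume (Aint d n) ≤ ENNReal.ofReal (4 * (d n).L) := by
  unfold Aint
  rw [Real.volume_Icc]
  apply ENNReal.ofReal_le_ofReal
  have hL := (hR n).L_pos
  have := arctan_sub_le (a := (d n).c - (d n).L) (b := (d n).c + (d n).L) (by linarith)
  linarith

lemma vol_A_ge (hs0 : s 0 = st0) (n : ℕ) : ENNReal.ofReal ((d n).L) ≤ volume (Aint d n) := by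
  unfold Aint
  rw [Real.volume_Icc]
  apply ENNReal.ofReal_le_ofReal
  have hL := (hR n).L_pos
  have hL1 := L_le hs0 hR n
  have hc := abs_lt.mp (c_lt hR n)
  have := arctan_sub_ge (a := (d n).c - (d n).L) (b := (d n).c + (d n).L) (by linarith)
    (by linarith [hc.1]) (by linarith [hc.2])
  linarith

lemma vol_tail (n : ℕ) : volume (⋃ j : ℕ, Aint d (n + 1 + j)) ≤ ENNReal.ofReal (2 / 3 * (d n).L) := by
  have hL := (hR n).L_pos
  calc volume (⋃ j : ℕ, Aint d (n + 1 + j)) ≤ ∑' j : ℕ, volume (Aint d (n + 1 + j)) :=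
        measure_iUnion_le _
    _ ≤ ∑' j : ℕ, ENNReal.ofReal ((d n).L / 2 * (1 / 4) ^ j) := by
        apply ENNReal.tsum_le_tsum
        intro j
        refine (vol_A_le hR _).trans ?_
        apply ENNReal.ofReal_le_ofReal
        have := L_small hR n j
        linarith
    _ = ENNReal.ofReal (∑' j : ℕ, (d n).L / 2 * (1 / 4) ^ j) := by
        rw [ENNReal.ofReal_tsum_of_nonneg]
        · intro j; positivity
        · exact (summable_geometric_of_lt_one (by norm_num) (by norm_num)).mul_left _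
    _ = ENNReal.ofReal (2 / 3 * (d n).L) := by
        rw [tsum_mul_left, tsum_geometric_of_lt_one (by norm_num) (by norm_num)]
        congr 1
        ring

lemma vol_B (hs0 : s 0 = st0) (n : ℕ) : (d n).L / 3 ≤ (volume (Bset d n)).toReal := by
  have hL := (hR n).L_pos
  have h1 : volume (Aint d n) - volume (⋃ j : ℕ, Aint d (n + 1 + j)) ≤ volume (Bset d n) :=
    le_measure_sdiff
  have h2 : ENNReal.ofReal ((d n).L / 3) ≤ volume (Bset d n) := by
    refine le_trans ?_ h1
    calc ENNReal.ofReal ((d n).L / 3) = ENNReal.ofReal ((d n).L) - ENNReal.ofReal (2 / 3 * (d n).L) := by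
          rw [← ENNReal.ofReal_sub _ (by positivity)]
          congr 1; ring
      _ ≤ _ := tsub_le_tsub (vol_A_ge hR hs0 n) (vol_tail hR n)
  have h3 : volume (Bset d n) ≠ ⊤ := by
    apply ne_of_lt
    calc volume (Bset d n) ≤ volume (Aint d n) := measure_mono sdiff_subset
      _ ≤ ENNReal.ofReal (4 * (d n).L) := vol_A_le hR n
      _ < ⊤ := ENNReal.ofReal_lt_top
  exact (ENNReal.ofReal_le_iff_le_toReal h3).mp h2

theorem dvg_of_seq (hs0 : s 0 = st0) (hα0 : 0 < α) (hα1 : α < 1) (hθ0 : 0 < θ)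
    (hθs : θ ^ 2 * (2 ^ (2 / (1 + α)) / (2 / (1 + α) - 1)) ≤ 1 / 2) {E : Set ℂ}
    (hE : ∀ n, ∀ x ∈ (s n).Q.map Prod.fst, (I - (x:ℂ)) / (I + (x:ℂ)) ∈ E) : Dvg α E := by
  have hAm : ∀ n, MeasurableSet (Aint d n) := fun n => measurableSet_Icc
  refine ⟨Bset d, fun n => (d n).L / 3, fun n => 2 * (π * (d n).L / ((2 * (d n).l : ℕ) : ℝ)),
    ?_, ?_, ?_, vol_B hR hs0, ?_, ?_, ?_⟩
  · intro n
    exact (hAm n).diff (MeasurableSet.iUnion fun j => hAm _)
  · have key : ∀ i j, i < j → Disjoint (Bset d i) (Bset d j) := by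
      intro i j hij
      rw [Set.disjoint_left]
      intro x hx hx'
      apply hx.2
      rw [mem_iUnion]
      refine ⟨j - i - 1, ?_⟩
      have : i + 1 + (j - i - 1) = j := by omega
      rw [this]; exact hx'.1
    intro i j hij
    rcases lt_or_gt_of_ne hij with h | h
    · exact key i j h
    · exact (key j i h).symm
  · intro n x hx
    have h1 := hx.1.1
    have h2 := hx.1.2
    have h3 := Real.neg_pi_div_two_lt_arctan ((d n).c - (d n).L)
    have h4 := Real.arctan_lt_pi_div_two ((d n).c + (d n).L)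
    constructor <;> linarith
  · intro n
    have hL := (hR n).L_pos
    have hl : (0:ℝ) < ((2 * (d n).l : ℕ) : ℝ) := by
      have := (hR n).l_pos
      exact_mod_cast (by omega : 0 < 2 * (d n).l)
    have := Real.pi_pos
    positivity
  · intro n φ hφ
    have h1 := hφ.1.1
    have h2 := hφ.1.2
    have h3 := Real.neg_pi_div_two_lt_arctan ((d n).c - (d n).L)
    have h4 := Real.arctan_lt_pi_div_two ((d n).c + (d n).L)
    obtain ⟨x, hx⟩ : ∃ x : ℝ, Real.arctan x = φ / 2 :=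
      ⟨Real.tan (φ / 2), Real.arctan_tan (by linarith) (by linarith)⟩
    have hφx : φ = 2 * Real.arctan x := by linarith
    have hx1 : (d n).c - (d n).L ≤ x := by
      rw [hφx] at h1
      exact Real.arctan_le_arctan_iff.mp (by linarith)
    have hx2 : x ≤ (d n).c + (d n).L := by
      rw [hφx] at h2
      exact Real.arctan_le_arctan_iff.mp (by linarith)
    obtain ⟨t, ht, hxt⟩ := cover_n hR n (x := x) (abs_le.mpr ⟨by linarith, by linarith⟩)
    refine (infDist_le_dist_of_mem (hE _ t ht)).trans ?_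
    rw [dist_eq_norm, hφx, exp_zeta]
    refine (zeta_dist x t).trans ?_
    show 2 * |x - t| ≤ 2 * (π * (d n).L / ((2 * (d n).l : ℕ) : ℝ))
    linarith
  · intro A
    have hK : (0:ℝ) < 1 / 3 * (2 * π) ^ (-α) * θ ^ (1 + α) := by
      have := Real.pi_pos
      positivity
    obtain ⟨N, hN⟩ := gain_unbounded hs0 hR hα0 hα1 hθs (A / (1 / 3 * (2 * π) ^ (-α) * θ ^ (1 + α)))
    refine ⟨N, ?_⟩
    rw [div_le_iff₀ hK] at hN
    refine hN.trans (le_of_eq ?_)
    rw [Finset.sum_mul]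
    apply Finset.sum_congr rfl
    intro n _
    have hL := (hR n).L_pos
    have hl : (0:ℝ) < ((2 * (d n).l : ℕ) : ℝ) := by
      have := (hR n).l_pos
      exact_mod_cast (by omega : 0 < 2 * (d n).l)
    set k : ℝ := ((2 * (d n).l : ℕ) : ℝ) with hk
    have hpi := Real.pi_pos
    have hLe := (hR n).L_eq
    rw [← hk, tau_pow hα0 hθ0 (s n).S_nn] at hLe
    have e1 : (2 * (π * (d n).L / k)) ^ (-α) = (2 * π) ^ (-α) * (d n).L ^ (-α) * (k ^ (-α))⁻¹ := by
      have : 2 * (π * (d n).L / k) = (2 * π) * (d n).L / k := by ring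
      rw [this, Real.div_rpow (by positivity) hl.le, Real.mul_rpow (by positivity) hL.le]
      rfl
    have e2 : (d n).L * (d n).L ^ (-α) = (d n).L ^ (1 - α) := by
      rw [sub_eq_add_neg, Real.rpow_add hL, Real.rpow_one]
    have hkp : (0:ℝ) < k ^ (-α) := by positivity
    rw [e1]
    calc (d n).μ * (1 + (s n).S)⁻¹ * (1 / 3 * (2 * π) ^ (-α) * θ ^ (1 + α))
        = 1 / 3 * (2 * π) ^ (-α) * (θ ^ (1 + α) * (1 + (s n).S)⁻¹ * k ^ (-α) * (d n).μ) * (k ^ (-α))⁻¹ := by
          field_simp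
      _ = 1 / 3 * (2 * π) ^ (-α) * ((d n).L * (d n).L ^ (-α)) * (k ^ (-α))⁻¹ := by
          rw [e2, hLe]
      _ = _ := by ring

end

end H651P
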