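import Pool.Agent.H651R3.P14

open Complex Set Filter Topology Metric MeasureTheory Real

namespace H651P

lemma half_sq {w : ℂ} (h : ‖w - 1 / 2‖ ≤ 1 / 2) : w.re ^ 2 + w.im ^ 2 ≤ w.re := by
  have h1 : ‖w - 1 / 2‖ ^ 2 ≤ (1 / 2) ^ 2 := pow_le_pow_left₀ (norm_nonneg _) h 2
  rw [← Complex.normSq_eq_norm_sq, Complex.normSq_apply] at h1
  simp only [Complex.sub_re, Complex.sub_im] at h1
  have e1 : ((1:ℂ) / 2).re = 1 / 2 := by norm_num
  have e2 : ((1:ℂ) / 2).im = 0 := by norm_num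
  rw [e1, e2] at h1
  nlinarith

/-- in the disc of centre `1/2` and radius `1/2` only `1` has modulus at least one -/
lemma norm_lt_of_half {w : ℂ} (h : ‖w - 1 / 2‖ ≤ 1 / 2) (hne : w ≠ 1) : ‖w‖ < 1 := by
  have h1 := half_sq h
  by_contra hc
  push Not at hc
  have h2 : 1 ≤ w.re ^ 2 + w.im ^ 2 := by
    have : ‖w‖ ^ 2 = w.re ^ 2 + w.im ^ 2 := by
      rw [← Complex.normSq_eq_norm_sq, Complex.normSq_apply]; ring
    rw [← this]; nlinarith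
  have h3 : 1 ≤ w.re := by linarith
  have h4 : w.re = 1 := by nlinarith [sq_nonneg w.im]
  have h5 : w.im = 0 := by
    have : w.im ^ 2 ≤ 0 := by rw [h4] at h1; linarith
    exact pow_eq_zero_iff (two_ne_zero) |>.mp (le_antisymm this (sq_nonneg _))
  exact hne (Complex.ext h4 h5)

lemma exists_theta {α : ℝ} (hα0 : 0 < α) (hα1 : α < 1) :
    ∃ θ : ℝ, 0 < θ ∧ θ ≤ 1 / 2 ∧ θ ^ 2 * (2 ^ (2 / (1 + α)) / (2 / (1 + α) - 1)) ≤ 1 / 2 := by
  have hβ : 1 < 2 / (1 + α) := by rw [lt_div_iff₀ (by linarith)]; linarith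
  set K := (2:ℝ) ^ (2 / (1 + α)) / (2 / (1 + α) - 1) with hK
  have hKp : 0 < K := by
    have : 0 < 2 / (1 + α) - 1 := by linarith
    positivity
  refine ⟨1 / (2 * (1 + K)), by positivity, ?_, ?_⟩
  · rw [div_le_div_iff₀ (by positivity) (by norm_num)]; linarith
  · rw [div_pow, div_mul_eq_mul_div, div_le_div_iff₀ (by positivity) (by norm_num)]
    nlinarith

/-- the function and the set, for `α < 1` -/
theorem main_lt {α : ℝ} (hα0 : 0 < α) (hα1 : α < 1) :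
    ∃ F : ℂ → ℂ, DifferentiableOn ℂ F (ball 0 1) ∧ ContinuousOn F (closedBall 0 1) ∧
      (∃ C : ℝ, ∀ z ∈ closedBall (0:ℂ) 1, ∀ z' ∈ closedBall (0:ℂ) 1, ‖F z - F z'‖ ≤ C * ‖z - z'‖ ^ α)
      ∧ (∀ z ∈ closedBall (0:ℂ) 1, ‖F z - 1 / 2‖ ≤ 1 / 2)
      ∧ F (-1) = 0 ∧ {ζ ∈ sphere (0:ℂ) 1 | F ζ = 1}.Nonempty
      ∧ Dvg α {ζ ∈ sphere (0:ℂ) 1 | F ζ = 1} := by
  obtain ⟨θ, hθ0, hθ1, hθs⟩ := exists_theta hα0 hα1
  obtain ⟨s, d, hs0, hR⟩ := exists_seq hα0 hα1 hθ0 hθ1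
  obtain ⟨F, h1, h2, h3, h4, h5, h6⟩ := exists_F hs0 hR hα0
  have hE : ∀ n, ∀ x ∈ (s n).Q.map Prod.fst,
      (I - (x:ℂ)) / (I + (x:ℂ)) ∈ {ζ ∈ sphere (0:ℂ) 1 | F ζ = 1} := by
    intro n x hx
    refine ⟨?_, h5 n x hx⟩
    rw [mem_sphere, dist_zero_right, zeta_norm]
  refine ⟨F, h1, h2, h3, h4, h6, ?_, dvg_of_seq hR hs0 hα0 hα1 hθ0 hθs hE⟩
  exact ⟨_, hE 0 0 (by rw [hs0]; simp [st0])⟩

/-- the case `α = 1` -/
theorem dvg_one : Dvg 1 {(1:ℂ)} := by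
  have hpi : (1:ℝ) < π := by linarith [Real.pi_gt_three]
  refine ⟨fun n => Ioc ((1 / 2) ^ (n + 1)) ((1 / 2) ^ n), fun n => (1 / 2) ^ (n + 1),
    fun n => (1 / 2) ^ n, fun n => measurableSet_Ioc, ?_, ?_, ?_, fun n => by positivity, ?_, ?_⟩
  · have key : ∀ i j : ℕ, i < j → Disjoint (Ioc ((1 / 2 : ℝ) ^ (i + 1)) ((1 / 2) ^ i))
        (Ioc ((1 / 2 : ℝ) ^ (j + 1)) ((1 / 2) ^ j)) := by
      intro i j hij
      rw [Set.disjoint_left]
      intro x hx hx'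
      have : (1 / 2 : ℝ) ^ j ≤ (1 / 2) ^ (i + 1) :=
        pow_le_pow_of_le_one (by norm_num) (by norm_num) hij
      linarith [hx.1, hx'.2]
    intro i j hij
    rcases lt_or_gt_of_ne hij with h | h
    · exact key i j h
    · exact (key j i h).symm
  · intro n x hx
    have h1 : (1 / 2 : ℝ) ^ n ≤ 1 := pow_le_one₀ (by norm_num) (by norm_num)
    have h2 : (0:ℝ) < (1 / 2) ^ (n + 1) := by positivity
    exact ⟨by linarith [hx.1], by linarith [hx.2]⟩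
  · intro n
    show (1 / 2 : ℝ) ^ (n + 1) ≤ (volume (Ioc ((1 / 2 : ℝ) ^ (n + 1)) ((1 / 2) ^ n))).toReal
    rw [Real.volume_Ioc, ENNReal.toReal_ofReal]
    · rw [pow_succ]; linarith [show (0:ℝ) < (1 / 2) ^ n by positivity]
    · rw [pow_succ]; linarith [show (0:ℝ) < (1 / 2) ^ n by positivity]
  · intro n x hx
    have h2 : (0:ℝ) < (1 / 2) ^ (n + 1) := by positivity
    rw [infDist_singleton, dist_eq_norm]
    have h3 := Real.norm_exp_I_mul_ofReal_sub_one_le (x := x)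
    rw [mul_comm] at h3
    refine h3.trans ?_
    rw [Real.norm_of_nonneg (by linarith [hx.1])]
    exact hx.2
  · intro A
    obtain ⟨N, hN⟩ := exists_nat_ge (2 * A)
    refine ⟨N, ?_⟩
    have : ∀ n ∈ Finset.range N, (1 / 2 : ℝ) ^ (n + 1) * ((1 / 2 : ℝ) ^ n) ^ (-(1:ℝ)) = 1 / 2 := by
      intro n _
      rw [Real.rpow_neg_one, pow_succ]
      have : (0:ℝ) < (1 / 2) ^ n := by positivity
      field_simp
    rw [Finset.sum_congr rfl this]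
    simp only [Finset.sum_const, Finset.card_range, nsmul_eq_mul]
    linarith

end H651P
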