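import Pool.Agent.H651R3.P1

open Complex Set Filter Topology

namespace H651P

noncomputable def YY (r : ℝ) (u : ℂ) : ℂ := (1 - u) * (1 + r ^ 2 * u) / (1 + r * u) ^ 2
noncomputable def dYY (r : ℝ) (u : ℂ) : ℂ :=
  (-(1 + r ^ 2 * u) + r ^ 2 * (1 - u)) / (1 + r * u) ^ 2
    - 2 * r * ((1 - u) * (1 + r ^ 2 * u)) / (1 + r * u) ^ 3

noncomputable def hh (r : ℝ) (k : ℕ) (w : ℂ) : ℂ := -I * qq w * YY r (vv w ^ (2 * k))
noncomputable def dhh (r : ℝ) (k : ℕ) (w : ℂ) : ℂ :=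
  -I * (w / qq w * YY r (vv w ^ (2 * k)) - 2 * k * vv w ^ (2 * k) * dYY r (vv w ^ (2 * k)))

lemma lip_cl {f f' : ℂ → ℂ} {V : Set ℂ} (hV : Convex ℝ V) (hVo : IsOpen V) {K : ℝ}
    (hd : ∀ w ∈ UO ∩ V, HasDerivAt f (f' w) w) (hb : ∀ w ∈ UO ∩ V, ‖f' w‖ ≤ K)
    {w w' : ℂ} (hw : w ∈ UC ∩ V) (hw' : w' ∈ UC ∩ V)
    (cw : ContinuousWithinAt f UC w) (cw' : ContinuousWithinAt f UC w') :
    ‖f w - f w'‖ ≤ K * ‖w - w'‖ := by
  have hconv : Convex ℝ (UO ∩ V) := by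
    apply Convex.inter _ hV
    exact convex_halfSpace_im_gt 0
  have t : ∀ z : ℂ, z ∈ UC ∩ V → ContinuousWithinAt f UC z →
      Tendsto (fun e : ℝ => f (z + e * I)) (𝓝[>] 0) (𝓝 (f z)) := by
    intro z hz hc
    have h1 : Tendsto (fun e : ℝ => z + e * I) (𝓝[>] 0) (𝓝[UC] z) := by
      apply tendsto_nhdsWithin_of_tendsto_nhds_of_eventually_within
      · have : Tendsto (fun e : ℝ => z + e * I) (𝓝 0) (𝓝 (z + (0:ℝ) * I)) := by
          apply Continuous.tendsto; fun_prop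
        simp only [Complex.ofReal_zero, zero_mul, add_zero] at this
        exact this.mono_left nhdsWithin_le_nhds
      · filter_upwards [self_mem_nhdsWithin] with e he
        have h0 : 0 ≤ z.im := hz.1
        have he' : (0:ℝ) < e := he
        simp [UC]; linarith
    exact hc.tendsto.comp h1
  have ev : ∀ z : ℂ, z ∈ UC ∩ V → ∀ᶠ e : ℝ in 𝓝[>] 0, z + e * I ∈ UO ∩ V := by
    intro z hz
    have h1 : Tendsto (fun e : ℝ => z + e * I) (𝓝[>] 0) (𝓝 z) := by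
      have : Tendsto (fun e : ℝ => z + e * I) (𝓝 0) (𝓝 (z + (0:ℝ) * I)) := by
        apply Continuous.tendsto; fun_prop
      simp only [Complex.ofReal_zero, zero_mul, add_zero] at this
      exact this.mono_left nhdsWithin_le_nhds
    filter_upwards [self_mem_nhdsWithin, h1 (hVo.mem_nhds hz.2)] with e he he2
    refine ⟨?_, he2⟩
    have h0 : 0 ≤ z.im := hz.1
    have he' : (0:ℝ) < e := he
    simp [UO]; linarith
  have h2 : Tendsto (fun e : ℝ => ‖f (w + e * I) - f (w' + e * I)‖) (𝓝[>] 0)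
      (𝓝 ‖f w - f w'‖) := ((t w hw cw).sub (t w' hw' cw')).norm
  apply le_of_tendsto h2
  filter_upwards [ev w hw, ev w' hw'] with e h3 h4
  have h5 := hconv.norm_image_sub_le_of_norm_hasDerivWithin_le
    (fun x hx => (hd x hx).hasDerivWithinAt) hb h4 h3
  have h6 : (w + e * I) - (w' + e * I) = w - w' := by ring
  rwa [h6] at h5

section bounds
variable {r : ℝ} (h0 : 1 / 2 ≤ r) (h1 : r < 1) {u : ℂ} (hu : ‖u‖ ≤ 1)
include h0 h1 hu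

lemma d_ge : 1 - r ≤ ‖1 + r * u‖ := by
  have : ‖(r : ℂ) * u‖ ≤ r := by
    rw [norm_mul, Complex.norm_real, Real.norm_of_nonneg (by linarith)]
    nlinarith [norm_nonneg u]
  calc 1 - r ≤ ‖(1:ℂ)‖ - ‖(r : ℂ) * u‖ := by simp only [norm_one]; linarith
    _ ≤ ‖1 + r * u‖ := by
      have := norm_sub_norm_le (1:ℂ) (-(r * u))
      simpa using this

lemma d_pos : 0 < ‖1 + r * u‖ := lt_of_lt_of_le (by linarith) (d_ge h0 h1 hu)

lemma n2_le : ‖1 + (r:ℂ) ^ 2 * u‖ ≤ 2 * ‖1 + r * u‖ := by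
  have e : 1 + (r:ℂ) ^ 2 * u = r * (1 + r * u) + ((1 - r : ℝ) : ℂ) := by push_cast; ring
  rw [e]
  calc ‖(r:ℂ) * (1 + r * u) + ((1 - r : ℝ) : ℂ)‖ ≤ ‖(r:ℂ) * (1 + r * u)‖ + ‖((1 - r : ℝ) : ℂ)‖ :=
        norm_add_le _ _
    _ = r * ‖1 + r * u‖ + (1 - r) := by
        rw [norm_mul, Complex.norm_real, Complex.norm_real, Real.norm_of_nonneg (by linarith),
          Real.norm_of_nonneg (by linarith)]
    _ ≤ 2 * ‖1 + r * u‖ := by
        have := d_ge h0 h1 hu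
        nlinarith [norm_nonneg (1 + r * u)]

lemma YY_le : ‖YY r u‖ ≤ 2 * ‖1 - u‖ / ‖1 + r * u‖ := by
  unfold YY
  rw [norm_div, norm_mul, norm_pow]
  have hd := d_pos h0 h1 hu
  rw [div_le_div_iff₀ (by positivity) hd]
  have := n2_le h0 h1 hu
  calc ‖1 - u‖ * ‖1 + (r:ℂ) ^ 2 * u‖ * ‖1 + r * u‖
      ≤ ‖1 - u‖ * (2 * ‖1 + r * u‖) * ‖1 + r * u‖ := by gcongr
    _ = 2 * ‖1 - u‖ * ‖1 + r * u‖ ^ 2 := by ring

lemma YY_le' : ‖YY r u‖ ≤ 2 * ‖1 - u‖ / (1 - r) := by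
  refine (YY_le h0 h1 hu).trans ?_
  have hp : 0 < 1 - r := by linarith
  have hg := d_ge h0 h1 hu
  gcongr

lemma norm_one_sub_le : ‖1 - u‖ ≤ 2 := by
  calc ‖1 - u‖ ≤ ‖(1:ℂ)‖ + ‖u‖ := norm_sub_le _ _
    _ ≤ 2 := by rw [norm_one]; linarith

lemma YY_le4 : ‖YY r u‖ ≤ 4 / (1 - r) := by
  refine (YY_le' h0 h1 hu).trans ?_
  have := norm_one_sub_le h0 h1 hu
  have hp : 0 < 1 - r := by linarith
  gcongr
  linarith

lemma dYY_le : ‖dYY r u‖ ≤ 2 / ‖1 + r * u‖ + 5 * ‖1 - u‖ / ‖1 + r * u‖ ^ 2 := by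
  have hd := d_pos h0 h1 hu
  have hn := n2_le h0 h1 hu
  have hr : ‖(r:ℂ)‖ = r := by rw [Complex.norm_real, Real.norm_of_nonneg (by linarith)]
  have e1 : ‖(-(1 + (r:ℂ) ^ 2 * u) + r ^ 2 * (1 - u)) / (1 + r * u) ^ 2‖
      ≤ 2 / ‖1 + r * u‖ + ‖1 - u‖ / ‖1 + r * u‖ ^ 2 := by
    rw [norm_div, norm_pow]
    have : ‖-(1 + (r:ℂ) ^ 2 * u) + r ^ 2 * (1 - u)‖ ≤ 2 * ‖1 + r * u‖ + ‖1 - u‖ := by
      refine (norm_add_le _ _).trans ?_
      rw [norm_neg, norm_mul, norm_pow, hr]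
      have : r ^ 2 * ‖1 - u‖ ≤ 1 * ‖1 - u‖ := by
        gcongr
        nlinarith
      linarith
    calc ‖-(1 + (r:ℂ) ^ 2 * u) + r ^ 2 * (1 - u)‖ / ‖1 + r * u‖ ^ 2
        ≤ (2 * ‖1 + r * u‖ + ‖1 - u‖) / ‖1 + r * u‖ ^ 2 := by gcongr
      _ = 2 / ‖1 + r * u‖ + ‖1 - u‖ / ‖1 + r * u‖ ^ 2 := by field_simp
  have e2 : ‖2 * (r:ℂ) * ((1 - u) * (1 + r ^ 2 * u)) / (1 + r * u) ^ 3‖
      ≤ 4 * ‖1 - u‖ / ‖1 + r * u‖ ^ 2 := by
    rw [norm_div, norm_mul, norm_mul, norm_mul, norm_pow, hr]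
    rw [div_le_div_iff₀ (by positivity) (by positivity)]
    have h2 : ‖(2:ℂ)‖ = 2 := by simp
    rw [h2]
    calc 2 * r * (‖1 - u‖ * ‖1 + (r:ℂ) ^ 2 * u‖) * ‖1 + r * u‖ ^ 2
        ≤ 2 * 1 * (‖1 - u‖ * (2 * ‖1 + r * u‖)) * ‖1 + r * u‖ ^ 2 := by gcongr
      _ = 4 * ‖1 - u‖ * ‖1 + r * u‖ ^ 3 := by ring
  unfold dYY
  refine (norm_sub_le _ _).trans ?_
  have : 5 * ‖1 - u‖ / ‖1 + r * u‖ ^ 2
    = ‖1 - u‖ / ‖1 + r * u‖ ^ 2 + 4 * ‖1 - u‖ / ‖1 + r * u‖ ^ 2 := by ring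
  linarith

lemma dYY_le' : ‖dYY r u‖ ≤ 12 / (1 - r) ^ 2 := by
  refine (dYY_le h0 h1 hu).trans ?_
  have hd := d_ge h0 h1 hu
  have hp : 0 < 1 - r := by linarith
  have h2 := norm_one_sub_le h0 h1 hu
  have e1 : 2 / ‖1 + r * u‖ ≤ 2 / (1 - r) ^ 2 := by
    gcongr
    nlinarith
  have e2 : 5 * ‖1 - u‖ / ‖1 + r * u‖ ^ 2 ≤ 10 / (1 - r) ^ 2 := by
    gcongr
    linarith
  calc _ ≤ 2 / (1 - r) ^ 2 + 10 / (1 - r) ^ 2 := add_le_add e1 e2
    _ = 12 / (1 - r) ^ 2 := by ring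

lemma den_ne : (1 + (r:ℂ) * u) ≠ 0 := by
  have := d_pos h0 h1 hu
  intro h; rw [h] at this; simp at this

lemma hasDerivAt_YY : HasDerivAt (YY r) (dYY r u) u := by
  have hne := den_ne h0 h1 hu
  have a1 : HasDerivAt (fun z : ℂ => 1 - z) (-1) u := by
    simpa using (hasDerivAt_id u).const_sub 1
  have a2 : HasDerivAt (fun z : ℂ => 1 + (r:ℂ) ^ 2 * z) ((r:ℂ) ^ 2) u := by
    simpa using ((hasDerivAt_id u).const_mul ((r:ℂ) ^ 2)).const_add 1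
  have a3 : HasDerivAt (fun z : ℂ => 1 + (r:ℂ) * z) (r:ℂ) u := by
    simpa using ((hasDerivAt_id u).const_mul (r:ℂ)).const_add 1
  have a4 := a3.fun_pow 2
  have a5 := (a1.mul a2).div a4 (pow_ne_zero 2 hne)
  refine a5.congr_deriv ?_
  unfold dYY
  simp only [Pi.mul_apply]
  field_simp
  ring

lemma YY_sub_one : YY r u - 1 = -u * ((1 + 2 * r - r ^ 2) + 2 * r ^ 2 * u) / (1 + r * u) ^ 2 := by
  have hne := den_ne h0 h1 hu
  unfold YY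
  rw [div_sub_one (pow_ne_zero 2 hne)]
  congr 1
  ring

end bounds

lemma vpow_le {w : ℂ} (hw : w ∈ UC) (m : ℕ) : ‖vv w ^ m‖ ≤ 1 := by
  rw [norm_pow]; exact pow_le_one₀ (norm_nonneg _) (vv_le hw)

lemma continuousOn_hh {r : ℝ} (h0 : 1 / 2 ≤ r) (h1 : r < 1) (k : ℕ) :
    ContinuousOn (hh r k) UC := by
  unfold hh
  apply ContinuousOn.mul
  · exact continuousOn_const.mul continuousOn_qq
  · intro w hw
    have h2 := (hasDerivAt_YY h0 h1 (vpow_le hw (2 * k))).continuousAt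
    exact ContinuousAt.comp_continuousWithinAt (f := fun w => vv w ^ (2 * k)) h2
      ((continuousOn_vv.pow (2 * k)) w hw)

lemma hasDerivAt_u {w : ℂ} (hw : w ∈ UO) (k : ℕ) :
    HasDerivAt (fun w => vv w ^ (2 * k)) (-(2 * k * vv w ^ (2 * k)) / qq w) w := by
  have h := (hasDerivAt_vv hw).fun_pow (2 * k)
  refine h.congr_deriv ?_
  rcases Nat.eq_zero_or_pos k with hk | hk
  · subst hk; simp
  · obtain ⟨m, hm⟩ : ∃ m, 2 * k = m + 1 := ⟨2 * k - 1, by omega⟩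
    have hq := qq_ne hw
    have : (2 * (k:ℂ)) = (m : ℂ) + 1 := by exact_mod_cast hm
    rw [this, hm]
    simp only [Nat.add_sub_cancel]
    push_cast
    field_simp
    ring

lemma hasDerivAt_hh {r : ℝ} (h0 : 1 / 2 ≤ r) (h1 : r < 1) (k : ℕ) {w : ℂ} (hw : w ∈ UO) :
    HasDerivAt (hh r k) (dhh r k w) w := by
  have hY := (hasDerivAt_YY h0 h1 (vpow_le (UO_sub_UC hw) (2 * k)))
  have h2 := HasDerivAt.comp w hY (hasDerivAt_u hw k)
  have h3 := ((hasDerivAt_qq hw).const_mul (-I)).mul h2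
  refine h3.congr_deriv ?_
  have hq := qq_ne hw
  unfold dhh
  simp only [Function.comp]
  field_simp
  ring

lemma wq_div {w : ℂ} (hw : w ∈ UO) : w / qq w = (1 + vv w ^ 2) / (1 - vv w ^ 2) := by
  have hv := vv_ne w
  have h1 := w_eq w
  have h2 := q_eq w
  have hq := qq_ne hw
  have h3 : (1 - vv w ^ 2) ≠ 0 := by
    intro h
    apply hq
    rw [h2]
    field_simp
    rw [h]; simp
  rw [div_eq_div_iff hq h3]
  have h4 : vv w * (vv w)⁻¹ = 1 := mul_inv_cancel₀ hv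
  linear_combination (1 - vv w ^ 2) * h1 - (1 + vv w ^ 2) * h2 - vv w * h4

lemma one_sub_pow_le {v : ℂ} (hv : ‖v‖ ≤ 1) (k : ℕ) : ‖1 - v ^ (2 * k)‖ ≤ k * ‖1 - v ^ 2‖ := by
  have h : 1 - v ^ (2 * k) = (1 - v ^ 2) * ∑ j ∈ Finset.range k, (v ^ 2) ^ j := by
    have := mul_neg_geom_sum (v ^ 2) k
    rw [this, ← pow_mul]
  rw [h, norm_mul, mul_comm]
  gcongr
  calc ‖∑ j ∈ Finset.range k, (v ^ 2) ^ j‖ ≤ ∑ j ∈ Finset.range k, (1:ℝ) := by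
        apply norm_sum_le_of_le
        intro j _
        rw [norm_pow, norm_pow]
        exact pow_le_one₀ (by positivity) (pow_le_one₀ (norm_nonneg _) hv)
    _ = k := by simp

lemma dhh_le {r : ℝ} (h0 : 1 / 2 ≤ r) (h1 : r < 1) (k : ℕ) {w : ℂ} (hw : w ∈ UO) :
    ‖dhh r k w‖ ≤ 28 * k / (1 - r) ^ 2 := by
  have hp : 0 < 1 - r := by linarith
  have hu := vpow_le (UO_sub_UC hw) (2 * k)
  have hv := vv_le (UO_sub_UC hw)
  have hv' := vv_lt hw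
  unfold dhh
  rw [norm_mul]
  simp only [norm_neg, norm_I, one_mul]
  have e1 : ‖w / qq w * YY r (vv w ^ (2 * k))‖ ≤ 4 * k / (1 - r) ^ 2 := by
    rw [wq_div hw, norm_mul, norm_div]
    have hne : 0 < ‖1 - vv w ^ 2‖ := by
      rw [norm_pos_iff]
      intro h
      have : vv w ^ 2 = 1 := by linear_combination -h
      have h2 : ‖vv w‖ ^ 2 = 1 := by rw [← norm_pow, this]; simp
      nlinarith [norm_nonneg (vv w)]
    have hY := YY_le' h0 h1 hu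
    have hs := one_sub_pow_le hv k
    have hn : ‖1 + vv w ^ 2‖ ≤ 2 := by
      calc ‖1 + vv w ^ 2‖ ≤ ‖(1:ℂ)‖ + ‖vv w ^ 2‖ := norm_add_le _ _
        _ ≤ 2 := by
          rw [norm_one, norm_pow]
          nlinarith [norm_nonneg (vv w)]
    calc ‖1 + vv w ^ 2‖ / ‖1 - vv w ^ 2‖ * ‖YY r (vv w ^ (2 * k))‖
        ≤ 2 / ‖1 - vv w ^ 2‖ * (2 * (k * ‖1 - vv w ^ 2‖) / (1 - r)) := by
          refine mul_le_mul (by gcongr) (hY.trans ?_) (norm_nonneg _) (by positivity)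
          gcongr
      _ = 4 * k / (1 - r) := by field_simp; ring
      _ ≤ 4 * k / (1 - r) ^ 2 := by
          gcongr
          nlinarith
  have e2 : ‖2 * (k:ℂ) * vv w ^ (2 * k) * dYY r (vv w ^ (2 * k))‖ ≤ 24 * k / (1 - r) ^ 2 := by
    rw [norm_mul, norm_mul, norm_mul]
    have h3 := dYY_le' h0 h1 hu
    have : ‖(2:ℂ)‖ = 2 := by simp
    rw [this, Complex.norm_natCast]
    calc 2 * (k:ℝ) * ‖vv w ^ (2 * k)‖ * ‖dYY r (vv w ^ (2 * k))‖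
        ≤ 2 * k * 1 * (12 / (1 - r) ^ 2) := by gcongr
      _ = 24 * k / (1 - r) ^ 2 := by ring
  refine (norm_sub_le _ _).trans ?_
  calc _ ≤ 4 * k / (1 - r) ^ 2 + 24 * k / (1 - r) ^ 2 := add_le_add e1 e2
    _ = 28 * k / (1 - r) ^ 2 := by ring

lemma hh_lip {r : ℝ} (h0 : 1 / 2 ≤ r) (h1 : r < 1) (k : ℕ) {w w' : ℂ} (hw : w ∈ UC)
    (hw' : w' ∈ UC) : ‖hh r k w - hh r k w'‖ ≤ 28 * k / (1 - r) ^ 2 * ‖w - w'‖ :=
  lip_cl (V := univ) convex_univ isOpen_univ (fun z hz => hasDerivAt_hh h0 h1 k hz.1)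
    (fun z hz => dhh_le h0 h1 k hz.1) ⟨hw, trivial⟩ ⟨hw', trivial⟩
    (continuousOn_hh h0 h1 k w hw) (continuousOn_hh h0 h1 k w' hw')

lemma qq_le (w : ℂ) : ‖qq w‖ ≤ (‖vv w‖⁻¹ + ‖vv w‖) / 2 := by
  rw [q_eq w, norm_div]
  have : ‖(2:ℂ)‖ = 2 := by simp
  rw [this]
  gcongr
  refine (norm_sub_le _ _).trans ?_
  rw [norm_inv]

/-- `h(w)` is `-iw` up to a bounded error -/
lemma hh_near {r : ℝ} (h0 : 1 / 2 ≤ r) (h1 : r < 1) {k : ℕ} (hk : 1 ≤ k) {w : ℂ} (hw : w ∈ UC) :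
    ‖hh r k w + I * w‖ ≤ 11 / (1 - r) := by
  have hp : 0 < 1 - r := by linarith
  have hu := vpow_le hw (2 * k)
  have hv := vv_le hw
  have hv0 : 0 < ‖vv w‖ := norm_pos_iff.mpr (vv_ne w)
  have e : hh r k w + I * w = -I * (qq w * (YY r (vv w ^ (2 * k)) - 1) - vv w) := by
    unfold hh vv; ring
  rw [e, norm_mul]
  simp only [norm_neg, norm_I, one_mul]
  have key : ‖qq w * (YY r (vv w ^ (2 * k)) - 1)‖ ≤ 10 / (1 - r) := by
    rw [norm_mul]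
    rcases le_or_gt (1/3) ‖vv w‖ with h3 | h3
    · have q2 : ‖qq w‖ ≤ 2 := by
        refine (qq_le w).trans ?_
        have : ‖vv w‖⁻¹ ≤ 3 := by
          rw [inv_le_comm₀ hv0 (by norm_num)]; linarith
        linarith
      have y2 : ‖YY r (vv w ^ (2 * k)) - 1‖ ≤ 5 / (1 - r) := by
        refine (norm_sub_le _ _).trans ?_
        have := YY_le4 h0 h1 hu
        have h5 : (1:ℝ) ≤ 1 / (1 - r) := by rw [le_div_iff₀ hp]; linarith
        rw [norm_one]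
        have h6 : 5 / (1 - r) = 4 / (1 - r) + 1 / (1 - r) := by ring
        linarith
      calc _ ≤ 2 * (5 / (1 - r)) := by gcongr
        _ = 10 / (1 - r) := by ring
    · have hu1 : ‖vv w ^ (2 * k)‖ ≤ ‖vv w‖ * (1/3) := by
        rw [norm_pow]
        calc ‖vv w‖ ^ (2 * k) ≤ ‖vv w‖ ^ 2 := by
              apply pow_le_pow_of_le_one (norm_nonneg _) hv; omega
          _ = ‖vv w‖ * ‖vv w‖ := by ring
          _ ≤ ‖vv w‖ * (1/3) := by gcongr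
      have hd : 5 / 6 ≤ ‖1 + r * vv w ^ (2 * k)‖ := by
        have := norm_sub_norm_le (1:ℂ) (-(r * vv w ^ (2 * k)))
        rw [norm_one, norm_neg, norm_mul, Complex.norm_real, Real.norm_of_nonneg (by linarith)] at this
        rw [sub_neg_eq_add] at this
        have h4 : r * ‖vv w ^ (2 * k)‖ ≤ 1 * (1 / 3 * (1/3)) := by
          gcongr
          calc ‖vv w ^ (2 * k)‖ ≤ ‖vv w‖ * (1/3) := hu1
            _ ≤ 1 / 3 * (1/3) := by gcongr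
        linarith
      have y2 : ‖YY r (vv w ^ (2 * k)) - 1‖ ≤ 8 * ‖vv w‖ * (1 / 3) := by
        rw [YY_sub_one h0 h1 hu, norm_div, norm_mul, norm_neg, norm_pow (1 + (r:ℂ) * vv w ^ (2 * k))]
        have hn : ‖(1 + 2 * (r:ℂ) - r ^ 2) + 2 * r ^ 2 * vv w ^ (2 * k)‖ ≤ 4 := by
          have e5 : (1 + 2 * (r:ℂ) - r ^ 2) = ((1 + 2 * r - r ^ 2 : ℝ) : ℂ) := by push_cast; ring
          have e6 : 2 * (r:ℂ) ^ 2 = ((2 * r ^ 2 : ℝ) : ℂ) := by push_cast; ring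
          rw [e5, e6]
          refine (norm_add_le _ _).trans ?_
          rw [norm_mul, Complex.norm_real, Complex.norm_real, Real.norm_of_nonneg (by nlinarith),
            Real.norm_of_nonneg (by positivity)]
          nlinarith [norm_nonneg (vv w ^ (2 * k))]
        have hd0 : 0 < ‖1 + r * vv w ^ (2 * k)‖ := by linarith
        rw [div_le_iff₀ (by positivity)]
        calc ‖vv w ^ (2 * k)‖ * ‖(1 + 2 * (r:ℂ) - r ^ 2) + 2 * r ^ 2 * vv w ^ (2 * k)‖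
            ≤ (‖vv w‖ * (1/3)) * 4 := by gcongr
          _ ≤ 8 * ‖vv w‖ * (1 / 3) * (5 / 6) ^ 2 := by nlinarith
          _ ≤ 8 * ‖vv w‖ * (1 / 3) * ‖1 + r * vv w ^ (2 * k)‖ ^ 2 := by gcongr
      have q2 : ‖qq w‖ ≤ ‖vv w‖⁻¹ := by
        refine (qq_le w).trans ?_
        have : 1 ≤ ‖vv w‖⁻¹ := (one_le_inv₀ hv0).mpr hv
        linarith
      calc ‖qq w‖ * ‖YY r (vv w ^ (2 * k)) - 1‖ ≤ ‖vv w‖⁻¹ * (8 * ‖vv w‖ * (1 / 3)) := by gcongr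
        _ = 8 / 3 := by field_simp
        _ ≤ 10 / (1 - r) := by rw [le_div_iff₀ hp]; nlinarith
  refine (norm_sub_le _ _).trans ?_
  have h5 : (1:ℝ) ≤ 1 / (1 - r) := by rw [le_div_iff₀ hp]; linarith
  have h6 : 11 / (1 - r) = 10 / (1 - r) + 1 / (1 - r) := by ring
  linarith

lemma vv_small {w : ℂ} (hw : w ∈ UC) (h2 : 2 ≤ ‖w‖) : ‖vv w‖ ≤ 1 / 3 := by
  by_contra h
  push Not at h
  have hv := vv_le hw
  have hv0 : 0 < ‖vv w‖ := norm_pos_iff.mpr (vv_ne w)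
  have h3 : ‖w‖ ≤ (‖vv w‖ + ‖vv w‖⁻¹) / 2 := by
    conv_lhs => rw [w_eq w]
    rw [norm_div]
    have : ‖(2:ℂ)‖ = 2 := by simp
    rw [this]
    gcongr
    refine (norm_add_le _ _).trans ?_
    rw [norm_inv]
  have h4 : ‖vv w‖ * ‖vv w‖⁻¹ = 1 := mul_inv_cancel₀ hv0.ne'
  have h5 : ‖vv w‖⁻¹ < 3 := by
    rw [inv_lt_comm₀ hv0 (by norm_num)]; linarith
  nlinarith

lemma dhh_far {r : ℝ} (h0 : 1 / 2 ≤ r) (h1 : r < 1) {k : ℕ} (hk : 1 ≤ k) {w : ℂ} (hw : w ∈ UO)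
    (h2 : 2 ≤ ‖w‖) : ‖dhh r k w‖ ≤ 8 := by
  have hu := vpow_le (UO_sub_UC hw) (2 * k)
  have hv3 := vv_small (UO_sub_UC hw) h2
  have hv0 := norm_nonneg (vv w)
  have hv2 : ‖vv w ^ 2‖ ≤ 1 / 9 := by rw [norm_pow]; nlinarith
  have hkk : (k:ℝ) * ‖vv w ^ (2 * k)‖ ≤ 1 / 9 := by
    rw [pow_mul, norm_pow]
    have hb : (k:ℝ) ≤ 9 ^ (k - 1) := by
      have : k < 2 ^ k := Nat.lt_two_pow_self
      have h9 : ∀ m : ℕ, m + 1 ≤ 9 ^ m := by
        intro m; induction m with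
        | zero => simp
        | succ m ih => rw [pow_succ]; omega
      have := h9 (k - 1)
      have hk' : k - 1 + 1 = k := by omega
      rw [hk'] at this
      exact_mod_cast this
    calc (k:ℝ) * ‖vv w ^ 2‖ ^ k ≤ 9 ^ (k - 1) * (1 / 9) ^ k := by gcongr
      _ = 1 / 9 := by
        obtain ⟨m, rfl⟩ : ∃ m, k = m + 1 := ⟨k - 1, by omega⟩
        simp only [Nat.add_sub_cancel]
        rw [pow_succ]
        rw [← mul_assoc, ← mul_pow]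
        norm_num
  have hus : ‖vv w ^ (2 * k)‖ ≤ 1 / 9 := by
    have : (1:ℝ) ≤ k := by exact_mod_cast hk
    nlinarith [norm_nonneg (vv w ^ (2 * k))]
  have hd : 8 / 9 ≤ ‖1 + r * vv w ^ (2 * k)‖ := by
    have := norm_sub_norm_le (1:ℂ) (-(r * vv w ^ (2 * k)))
    rw [norm_one, norm_neg, norm_mul, Complex.norm_real, Real.norm_of_nonneg (by linarith)] at this
    rw [sub_neg_eq_add] at this
    have h4 : r * ‖vv w ^ (2 * k)‖ ≤ 1 * (1 / 9) := by gcongr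
    linarith
  have hs : ‖1 - vv w ^ (2 * k)‖ ≤ 10 / 9 := by
    refine (norm_sub_le _ _).trans ?_
    rw [norm_one]; linarith
  unfold dhh
  rw [norm_mul]
  simp only [norm_neg, norm_I, one_mul]
  have e1 : ‖w / qq w * YY r (vv w ^ (2 * k))‖ ≤ 4 := by
    rw [wq_div hw, norm_mul, norm_div]
    have hY := YY_le h0 h1 hu
    have hne : 8 / 9 ≤ ‖1 - vv w ^ 2‖ := by
      have := norm_sub_norm_le (1:ℂ) (vv w ^ 2)
      rw [norm_one] at this; linarith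
    have hn : ‖1 + vv w ^ 2‖ ≤ 10 / 9 := by
      refine (norm_add_le _ _).trans ?_
      rw [norm_one]; linarith
    calc ‖1 + vv w ^ 2‖ / ‖1 - vv w ^ 2‖ * ‖YY r (vv w ^ (2 * k))‖
        ≤ (10 / 9) / (8 / 9) * (2 * (10 / 9) / (8 / 9)) := by
          refine mul_le_mul (by gcongr) (hY.trans ?_) (norm_nonneg _) (by positivity)
          gcongr
      _ ≤ 4 := by norm_num
  have e2 : ‖2 * (k:ℂ) * vv w ^ (2 * k) * dYY r (vv w ^ (2 * k))‖ ≤ 4 := by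
    rw [norm_mul, norm_mul, norm_mul]
    have h3 := dYY_le h0 h1 hu
    have h4 : ‖dYY r (vv w ^ (2 * k))‖ ≤ 2 / (8 / 9) + 5 * (10 / 9) / (8 / 9) ^ 2 := by
      refine h3.trans ?_
      gcongr
    have : ‖(2:ℂ)‖ = 2 := by simp
    rw [this, Complex.norm_natCast]
    calc 2 * (k:ℝ) * ‖vv w ^ (2 * k)‖ * ‖dYY r (vv w ^ (2 * k))‖
        = 2 * (k * ‖vv w ^ (2 * k)‖) * ‖dYY r (vv w ^ (2 * k))‖ := by ring
      _ ≤ 2 * (1 / 9) * (2 / (8 / 9) + 5 * (10 / 9) / (8 / 9) ^ 2) := by gcongr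
      _ ≤ 4 := by norm_num
  refine (norm_sub_le _ _).trans ?_
  linarith

end H651P
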