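import Pool.Agent.H651R3.P2

open Complex Set Filter Topology

namespace H651P

lemma im_pow_le (v : ℂ) (m : ℕ) : |(v ^ (m + 1)).im| ≤ (m + 1) * |v.im| * ‖v‖ ^ m := by
  induction m with
  | zero => simp
  | succ m ih =>
    rw [pow_succ, Complex.mul_im]
    have h1 : |(v ^ (m + 1)).re| ≤ ‖v‖ ^ (m + 1) := by
      rw [← norm_pow]; exact Complex.abs_re_le_norm _
    have h2 := Complex.abs_re_le_norm v
    calc |(v ^ (m + 1)).re * v.im + (v ^ (m + 1)).im * v.re|
        ≤ |(v ^ (m + 1)).re * v.im| + |(v ^ (m + 1)).im * v.re| := abs_add_le _ _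
      _ = |(v ^ (m + 1)).re| * |v.im| + |(v ^ (m + 1)).im| * |v.re| := by rw [abs_mul, abs_mul]
      _ ≤ ‖v‖ ^ (m + 1) * |v.im| + ((m + 1) * |v.im| * ‖v‖ ^ m) * ‖v‖ := by gcongr
      _ = ((m + 1 : ℕ) + 1) * |v.im| * ‖v‖ ^ (m + 1) := by push_cast; ring

lemma sum_ineq {n : ℝ} (hn0 : 0 ≤ n) (k : ℕ) :
    4 * k * n ^ k ≤ (1 + n) * ∑ j ∈ Finset.range (2 * k), n ^ j := by
  have e1 : (1 + n) * ∑ j ∈ Finset.range (2 * k), n ^ j
      = ∑ j ∈ Finset.range (2 * k), n ^ j + ∑ j ∈ Finset.range (2 * k), n ^ (j + 1) := by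
    rw [add_mul, one_mul, Finset.mul_sum]
    congr 1
    apply Finset.sum_congr rfl
    intro j _; ring
  have e2 : ∑ j ∈ Finset.range (2 * k), n ^ (j + 1)
      = ∑ j ∈ Finset.range (2 * k), n ^ (2 * k - j) := by
    rw [← Finset.sum_range_reflect]
    apply Finset.sum_congr rfl
    intro j hj
    rw [Finset.mem_range] at hj
    congr 1; omega
  rw [e1, e2, ← Finset.sum_add_distrib]
  have e3 : (4 * k * n ^ k : ℝ) = ∑ j ∈ Finset.range (2 * k), 2 * n ^ k := by
    simp; ring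
  rw [e3]
  apply Finset.sum_le_sum
  intro j hj
  rw [Finset.mem_range] at hj
  rcases le_total j k with h | h
  · obtain ⟨m, rfl⟩ := Nat.exists_eq_add_of_le h
    have : 2 * (j + m) - j = j + 2 * m := by omega
    rw [this]
    have h5 : n ^ j + n ^ (j + 2 * m) - 2 * n ^ (j + m) = n ^ j * (1 - n ^ m) ^ 2 := by ring
    have : 0 ≤ n ^ j * (1 - n ^ m) ^ 2 := by positivity
    linarith
  · obtain ⟨m, rfl⟩ := Nat.exists_eq_add_of_le h
    have : 2 * k - (k + m) = k - m := by omega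
    rw [this]
    obtain ⟨l, rfl⟩ : ∃ l, k = l + m := ⟨k - m, by omega⟩
    simp only [Nat.add_sub_cancel]
    have h5 : n ^ (l + m + m) + n ^ l - 2 * n ^ (l + m) = n ^ l * (1 - n ^ m) ^ 2 := by ring
    have : 0 ≤ n ^ l * (1 - n ^ m) ^ 2 := by positivity
    linarith

lemma key_ineq {n : ℝ} (hn0 : 0 ≤ n) (hn1 : n ≤ 1) (k : ℕ) {s : ℝ} (hs : |s| ≤ 1) :
    4 * k * |s| * (1 - n) * n ^ k ≤ (1 + n) * (1 - s ^ 2 * n ^ (2 * k)) := by
  have h1 := sum_ineq hn0 k
  have h2 : (1 - n) * ∑ j ∈ Finset.range (2 * k), n ^ j = 1 - n ^ (2 * k) := mul_neg_geom_sum n _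
  have h3 : n ^ (2 * k) ≤ 1 := pow_le_one₀ hn0 hn1
  have h3' : 0 ≤ n ^ (2 * k) := by positivity
  have h4 : |s| * (1 - n ^ (2 * k)) ≤ 1 - s ^ 2 * n ^ (2 * k) := by
    rw [← sq_abs s]
    have : 1 - |s| ^ 2 * n ^ (2 * k) - |s| * (1 - n ^ (2 * k))
      = (1 - |s|) * (1 + |s| * n ^ (2 * k)) := by ring
    have : 0 ≤ (1 - |s|) * (1 + |s| * n ^ (2 * k)) := by
      apply mul_nonneg (by linarith)
      positivity
    linarith
  calc 4 * k * |s| * (1 - n) * n ^ k = |s| * (1 - n) * (4 * k * n ^ k) := by ring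
    _ ≤ |s| * (1 - n) * ((1 + n) * ∑ j ∈ Finset.range (2 * k), n ^ j) := by
        apply mul_le_mul_of_nonneg_left h1
        apply mul_nonneg (abs_nonneg _) (by linarith)
    _ = (1 + n) * (|s| * ((1 - n) * ∑ j ∈ Finset.range (2 * k), n ^ j)) := by ring
    _ = (1 + n) * (|s| * (1 - n ^ (2 * k))) := by rw [h2]
    _ ≤ (1 + n) * (1 - s ^ 2 * n ^ (2 * k)) := by
        apply mul_le_mul_of_nonneg_left h4 (by linarith)

noncomputable def Zs (s : ℝ) (k : ℕ) (w : ℂ) : ℂ :=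
  I / qq w * ((1 - s * vv w ^ (2 * k)) / (1 + s * vv w ^ (2 * k)))

/-- positivity of the smoothed kernel -/
lemma Zs_re {s : ℝ} (hs : |s| ≤ 1) (k : ℕ) {w : ℂ} (hw : w ∈ UO) : 0 ≤ (Zs s k w).re := by
  have hv := vv_ne w
  have hq := qq_ne hw
  set v := vv w with hvdef
  set a := v.re with ha
  set b := v.im with hb
  have hb0 : b < 0 := im_vv_neg hw
  set n := normSq v with hn
  have hn1 : n < 1 := by
    rw [hn, Complex.normSq_eq_norm_sq]
    have := vv_lt hw
    nlinarith [norm_nonneg (vv w)]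
  have hn0 : 0 < n := Complex.normSq_pos.mpr hv
  have e0 : Zs s k w = (I * (1 - s * v ^ (2 * k))) / (qq w * (1 + s * v ^ (2 * k))) := by
    unfold Zs; rw [← hvdef]; rw [div_mul_div_comm]
  rw [e0]
  have gen : ∀ A B : ℂ, (A / B).re = (A * (starRingEnd ℂ) B).re / normSq B := by
    intro A B
    rw [Complex.div_re]
    simp only [Complex.mul_re, Complex.conj_re, Complex.conj_im]
    ring
  rw [gen]
  apply div_nonneg _ (Complex.normSq_nonneg _)
  have hqv : qq w = ((starRingEnd ℂ) v / n - v) / 2 := by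
    rw [q_eq w, ← hvdef, Complex.inv_def]
    push_cast
    rw [← div_eq_mul_inv]
  set U := v ^ (2 * k) with hU
  have hcq : (starRingEnd ℂ) (qq w) = ((a * (1 - n) / (2 * n) : ℝ) : ℂ)
      + ((b * (1 + n) / (2 * n) : ℝ) : ℂ) * I := by
    rw [hqv]
    apply Complex.ext
    · simp [Complex.div_re, Complex.div_im, Complex.normSq_apply, ← ha, ← hb]
      field_simp
    · simp [Complex.div_re, Complex.div_im, Complex.normSq_apply, ← ha, ← hb]
      field_simp
  have hNU : U.re ^ 2 + U.im ^ 2 = n ^ (2 * k) := by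
    have : normSq U = n ^ (2 * k) := by rw [hU, map_pow]
    rw [← this, Complex.normSq_apply]; ring
  have e1 : (I * (1 - s * U) * (starRingEnd ℂ) (qq w * (1 + s * U))).re
      = (-b * (1 + n) * (1 - s ^ 2 * n ^ (2 * k)) + 2 * s * U.im * a * (1 - n)) / (2 * n) := by
    obtain ⟨A, hA⟩ : ∃ A : ℝ, A = a * (1 - n) / (2 * n) := ⟨_, rfl⟩
    obtain ⟨B, hB⟩ : ∃ B : ℝ, B = b * (1 + n) / (2 * n) := ⟨_, rfl⟩
    rw [map_mul, hcq, ← hNU, ← hA, ← hB]
    have e2 : (I * (1 - s * U) * (((A:ℂ) + (B:ℂ) * I) * (starRingEnd ℂ) (1 + s * U))).re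
        = -B * (1 - s ^ 2 * (U.re ^ 2 + U.im ^ 2)) + 2 * s * U.im * A := by
      simp
      ring
    rw [e2, hA, hB]
    field_simp
  rw [e1]
  apply div_nonneg _ (by positivity)
  have h2 := key_ineq hn0.le hn1.le k hs
  have h3 : |U.im| * |a| ≤ 2 * k * |b| * n ^ k := by
    rcases Nat.eq_zero_or_pos k with hk | hk
    · subst hk; simp [hU]
    · obtain ⟨m, hm⟩ : ∃ m, 2 * k = m + 1 := ⟨2 * k - 1, by omega⟩
      have h4 := im_pow_le v m
      rw [← hm, ← hU, ← hb] at h4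
      have h5 : |a| ≤ ‖v‖ := Complex.abs_re_le_norm v
      have hmk : (m:ℝ) + 1 = 2 * k := by exact_mod_cast hm.symm
      calc |U.im| * |a| ≤ ((m + 1) * |b| * ‖v‖ ^ m) * ‖v‖ := by gcongr
        _ = (m + 1) * |b| * ‖v‖ ^ (m + 1) := by ring
        _ = 2 * k * |b| * n ^ k := by
            rw [hmk, ← hm, hn, Complex.normSq_eq_norm_sq, pow_mul]
  have h6 : -(2 * s * U.im * a * (1 - n)) ≤ 4 * k * |s| * (1 - n) * n ^ k * |b| := by
    calc -(2 * s * U.im * a * (1 - n)) ≤ |2 * s * U.im * a * (1 - n)| := neg_le_abs _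
      _ = 2 * |s| * (1 - n) * (|U.im| * |a|) := by
          rw [abs_mul, abs_mul, abs_mul, abs_mul, abs_of_pos (show (0:ℝ) < 2 by norm_num),
            abs_of_pos (show 0 < 1 - n by linarith)]
          ring
      _ ≤ 2 * |s| * (1 - n) * (2 * k * |b| * n ^ k) := by
          apply mul_le_mul_of_nonneg_left h3
          have : 0 ≤ 1 - n := by linarith
          positivity
      _ = 4 * k * |s| * (1 - n) * n ^ k * |b| := by ring
  have h7 : |b| = -b := abs_of_neg hb0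
  rw [h7] at h6
  have h8 : 4 * k * |s| * (1 - n) * n ^ k * (-b) ≤ (1 + n) * (1 - s ^ 2 * n ^ (2 * k)) * (-b) :=
    mul_le_mul_of_nonneg_right h2 (by linarith)
  nlinarith

/-- sum over roots of unity -/
lemma sum_roots {N : ℕ} (hN : 0 < N) {ζ : ℂ} (hζ : IsPrimitiveRoot ζ N) {v : ℂ} (hv : ‖v‖ < 1) :
    ∑ j ∈ Finset.range N, 1 / (1 - ζ ^ j * v) = N / (1 - v ^ N) := by
  have hζn : ‖ζ‖ = 1 := hζ.norm'_eq_one hN.ne'
  have hx : ∀ j, ‖ζ ^ j * v‖ < 1 := by
    intro j; rw [norm_mul, norm_pow, hζn, one_pow, one_mul]; exact hv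
  have hne : ∀ j, 1 - ζ ^ j * v ≠ 0 := by
    intro j h
    have : ζ ^ j * v = 1 := by linear_combination -h
    have h2 := hx j
    rw [this] at h2; simp at h2
  have hvN : 1 - v ^ N ≠ 0 := by
    intro h
    have : v ^ N = 1 := by linear_combination -h
    have h2 : ‖v‖ ^ N < 1 := pow_lt_one₀ (norm_nonneg _) hv hN.ne'
    rw [← norm_pow, this] at h2; simp at h2
  have e1 : ∀ j, 1 / (1 - ζ ^ j * v) = (∑ m ∈ Finset.range N, (ζ ^ j * v) ^ m) / (1 - v ^ N) := by
    intro j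
    rw [div_eq_div_iff (hne j) hvN]
    have h1 := mul_neg_geom_sum (ζ ^ j * v) N
    have h2 : (ζ ^ j * v) ^ N = v ^ N := by
      rw [mul_pow, ← pow_mul, mul_comm j N, pow_mul, hζ.pow_eq_one, one_pow, one_mul]
    rw [h2] at h1
    rw [← h1]; ring
  rw [Finset.sum_congr rfl (fun j _ => e1 j), ← Finset.sum_div]
  congr 1
  rw [Finset.sum_comm]
  have e2 : ∀ m ∈ Finset.range N, ∑ j ∈ Finset.range N, (ζ ^ j * v) ^ m
      = if m = 0 then (N:ℂ) else 0 := by
    intro m hm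
    rw [Finset.mem_range] at hm
    split_ifs with h
    · subst h; simp
    · have e3 : ∀ j ∈ Finset.range N, (ζ ^ j * v) ^ m = v ^ m * (ζ ^ m) ^ j := by
        intro j _; rw [mul_pow, ← pow_mul, ← pow_mul, mul_comm j m]; ring
      rw [Finset.sum_congr rfl e3, ← Finset.mul_sum]
      have h4 : ζ ^ m ≠ 1 := fun h5 => h (by
        have := hζ.dvd_of_pow_eq_one m h5
        exact Nat.eq_zero_of_dvd_of_lt this hm)
      have h5 := mul_neg_geom_sum (ζ ^ m) N
      rw [← pow_mul, mul_comm m N, pow_mul, hζ.pow_eq_one, one_pow, sub_self] at h5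
      rcases mul_eq_zero.mp h5 with h6 | h6
      · exact absurd (by linear_combination -h6) h4
      · rw [h6, mul_zero]
  rw [Finset.sum_congr rfl e2]
  simp [hN.ne']

noncomputable def tn (k j : ℕ) : ℝ := Real.cos (j * Real.pi / k)

lemma part_frac {k : ℕ} (hk : 0 < k) {w : ℂ} (hw : w ∈ UO) :
    ∑ j ∈ Finset.range (2 * k), 1 / (w - tn k j)
      = 2 * k / qq w * ((1 + vv w ^ (2 * k)) / (1 - vv w ^ (2 * k))) := by
  set v := vv w with hvdef
  have hv := vv_ne w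
  have hv1 := vv_lt hw
  have hq := qq_ne hw
  rw [← hvdef] at hv hv1
  have hN : 0 < 2 * k := by omega
  set ζ := Complex.exp (2 * Real.pi * I / (2 * k : ℕ)) with hζdef
  have hζ : IsPrimitiveRoot ζ (2 * k) := Complex.isPrimitiveRoot_exp _ hN.ne'
  have s1 := sum_roots hN hζ hv1
  have s2 := sum_roots hN hζ.inv hv1
  have hζn : ‖ζ‖ = 1 := hζ.norm'_eq_one hN.ne'
  have hζ0 : ζ ≠ 0 := hζ.ne_zero hN.ne'
  have hu1 : 1 - v ^ (2 * k) ≠ 0 := by
    intro h
    have : v ^ (2 * k) = 1 := by linear_combination -h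
    have h2 : ‖v‖ ^ (2 * k) < 1 := pow_lt_one₀ (norm_nonneg _) hv1 hN.ne'
    rw [← norm_pow, this] at h2; simp at h2
  have hcos : ∀ j : ℕ, ζ ^ j + (ζ⁻¹) ^ j = 2 * (tn k j : ℂ) := by
    intro j
    have hk' : (k:ℂ) ≠ 0 := by exact_mod_cast hk.ne'
    have e1 : ζ ^ j = Complex.exp ((j * Real.pi / k : ℝ) * I) := by
      rw [hζdef, ← Complex.exp_nat_mul]; congr 1; push_cast; field_simp
    have e2 : (ζ⁻¹) ^ j = Complex.exp (-((j * Real.pi / k : ℝ) * I)) := by
      rw [inv_pow, e1, Complex.exp_neg]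
    rw [e1, e2]
    unfold tn
    rw [Complex.ofReal_cos, Complex.cos]
    ring_nf
  have term : ∀ j ∈ Finset.range (2 * k), 1 / (w - tn k j)
      = (1 / (1 - ζ ^ j * v) + 1 / (1 - (ζ⁻¹) ^ j * v) - 1) / qq w := by
    intro j _
    have hA : 1 - ζ ^ j * v ≠ 0 := by
      intro h
      have h1 : ζ ^ j * v = 1 := by linear_combination -h
      have h2 : ‖ζ ^ j * v‖ < 1 := by
        rw [norm_mul, norm_pow, hζn, one_pow, one_mul]; exact hv1
      rw [h1] at h2; simp at h2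
    have hB : 1 - (ζ⁻¹) ^ j * v ≠ 0 := by
      intro h
      have h1 : (ζ⁻¹) ^ j * v = 1 := by linear_combination -h
      have h2 : ‖(ζ⁻¹) ^ j * v‖ < 1 := by
        rw [norm_mul, norm_pow, norm_inv, hζn, inv_one, one_pow, one_mul]; exact hv1
      rw [h1] at h2; simp at h2
    have hc := hcos j
    have hzz : ζ ^ j * (ζ⁻¹) ^ j = 1 := by rw [← mul_pow, mul_inv_cancel₀ hζ0, one_pow]
    have hAB : (1 - ζ ^ j * v) * (1 - (ζ⁻¹) ^ j * v) = 2 * v * (w - tn k j) := by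
      have hw2 : 2 * v * w = v ^ 2 + 1 := by
        have := w_eq w
        rw [← hvdef] at this
        calc 2 * v * w = 2 * v * ((v + v⁻¹) / 2) := by rw [← this]
          _ = v ^ 2 + 1 := by field_simp
      linear_combination v ^ 2 * hzz - v * hc - hw2
    have hq2 : 2 * v * qq w = 1 - v ^ 2 := by
      have := q_eq w
      rw [← hvdef] at this
      rw [this]; field_simp
    have hwt : w - tn k j ≠ 0 := by
      intro h; rw [h, mul_zero] at hAB
      exact mul_ne_zero hA hB hAB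
    rw [div_eq_div_iff hwt hq]
    have : 1 / (1 - ζ ^ j * v) + 1 / (1 - (ζ⁻¹) ^ j * v) - 1 = (1 - v ^ 2) / (2 * v * (w - tn k j)) := by
      rw [← hAB, div_add_div _ _ hA hB, div_sub_one (mul_ne_zero hA hB)]
      congr 1
      linear_combination (-v ^ 2) * hzz
    rw [this, ← hq2]
    field_simp
  rw [Finset.sum_congr rfl term, ← Finset.sum_div, Finset.sum_sub_distrib, Finset.sum_add_distrib,
    s1, s2]
  simp only [Finset.sum_const, Finset.card_range, nsmul_eq_mul, mul_one]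
  push_cast
  field_simp
  ring

end H651P
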