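import Pool.Agent.H651R3.P3

open Complex Set Filter Topology

namespace H651P

noncomputable def kap (r : ℝ) : ℝ := (1 - r) ^ 2 / (2 * (1 + r ^ 2))
noncomputable def mm (r : ℝ) (k : ℕ) : ℝ := (1 - kap r) / k

lemma kap_nonneg (r : ℝ) : 0 ≤ kap r := by unfold kap; positivity
lemma kap_le (r : ℝ) : kap r ≤ (1 - r) ^ 2 / 2 := by
  unfold kap
  rw [div_le_div_iff₀ (by positivity) (by norm_num)]
  nlinarith [sq_nonneg r, sq_nonneg (1 - r), mul_nonneg (sq_nonneg r) (sq_nonneg (1 - r))]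

lemma inv_hh {r : ℝ} (h0 : 1 / 2 ≤ r) (h1 : r < 1) {k : ℕ} (hk : 0 < k) {w : ℂ} (hw : w ∈ UO) :
    (hh r k w)⁻¹ = (1 - kap r) * (I / (2 * k)) * ∑ j ∈ Finset.range (2 * k), 1 / (w - tn k j)
      + kap r * Zs (r ^ 2) k w := by
  rw [part_frac hk hw]
  unfold hh Zs YY kap
  have hq := qq_ne hw
  have hu := vpow_le (UO_sub_UC hw) (2 * k)
  have hv1 := vv_lt hw
  set u := vv w ^ (2 * k) with hudef
  have hu1 : 1 - u ≠ 0 := by
    intro h
    have h3 : u = 1 := by linear_combination -h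
    have h2 : ‖vv w‖ ^ (2 * k) < 1 := pow_lt_one₀ (norm_nonneg _) hv1 (by omega)
    rw [← norm_pow, ← hudef, h3] at h2; simp at h2
  have hne := den_ne h0 h1 hu
  have hne2 : 1 + (r:ℂ) ^ 2 * u ≠ 0 := by
    intro h
    have h3 : (r:ℂ) ^ 2 * u = -1 := by linear_combination h
    have h4 : ‖(r:ℂ) ^ 2 * u‖ < 1 := by
      rw [norm_mul, norm_pow, Complex.norm_real, Real.norm_of_nonneg (by linarith)]
      nlinarith [norm_nonneg u]
    rw [h3] at h4; simp at h4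
  have hne2' : 1 + u * (r:ℂ) ^ 2 ≠ 0 := by rw [mul_comm]; exact hne2
  have hne' : 1 + u * (r:ℂ) ≠ 0 := by rw [mul_comm]; exact hne
  have hkc : (k:ℂ) ≠ 0 := by exact_mod_cast hk.ne'
  have hr2 : (1 + (r:ℂ) ^ 2) ≠ 0 := by
    have : (1 + (r:ℂ) ^ 2) = ((1 + r ^ 2 : ℝ) : ℂ) := by push_cast; ring
    rw [this]
    exact_mod_cast (by positivity : (1 + r ^ 2 : ℝ) ≠ 0)
  push_cast
  have hI : (I:ℂ) ≠ 0 := Complex.I_ne_zero
  have hI2 : (-I)⁻¹ = I := by rw [inv_neg, Complex.inv_I, neg_neg]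
  rw [mul_inv, mul_inv, hI2]
  field_simp
  ring

lemma tn_neg_one (k : ℕ) (hk : 0 < k) : tn k k = -1 := by
  unfold tn
  have : (k:ℝ) ≠ 0 := by exact_mod_cast hk.ne'
  rw [show (k:ℝ) * Real.pi / k = Real.pi by field_simp]
  exact Real.cos_pi

lemma tn_zero (k : ℕ) : tn k 0 = 1 := by unfold tn; simp

lemma tn_refl {k j : ℕ} (hk : 0 < k) (hj : j ≤ 2 * k) : tn k (2 * k - j) = tn k j := by
  unfold tn
  have : (k:ℝ) ≠ 0 := by exact_mod_cast hk.ne'
  rw [Nat.cast_sub hj]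
  rw [show (((2 * k : ℕ) : ℝ) - j) * Real.pi / k = 2 * Real.pi - j * Real.pi / k by
    push_cast; field_simp]
  rw [Real.cos_two_pi_sub]

lemma sum_split {k : ℕ} (hk : 0 < k) (f : ℝ → ℂ) :
    ∑ j ∈ Finset.range (2 * k), f (tn k j)
      = f 1 + f (-1) + 2 * ∑ j ∈ Finset.Ico 1 k, f (tn k j) := by
  have e1 : ∑ j ∈ Finset.range (2 * k), f (tn k j)
      = ∑ j ∈ Finset.range k, f (tn k j) + ∑ j ∈ Finset.range k, f (tn k (k + j)) := by
    rw [two_mul, Finset.sum_range_add]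
  have e2 : ∑ j ∈ Finset.range k, f (tn k (k + j)) = ∑ j ∈ Finset.range k, f (tn k (j + 1)) := by
    rw [← Finset.sum_range_reflect]
    apply Finset.sum_congr rfl
    intro j hj
    rw [Finset.mem_range] at hj
    have : k + (k - 1 - j) = 2 * k - (j + 1) := by omega
    rw [this, tn_refl hk (by omega)]
  have e3 : ∑ j ∈ Finset.range k, f (tn k j) = f 1 + ∑ j ∈ Finset.Ico 1 k, f (tn k j) := by
    rw [Finset.range_eq_Ico, Finset.sum_eq_sum_Ico_succ_bot hk, tn_zero]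
  have e4 : ∑ j ∈ Finset.range k, f (tn k (j + 1)) = ∑ j ∈ Finset.Ico 1 k, f (tn k j) + f (-1) := by
    have h5 : ∑ j ∈ Finset.range k, f (tn k (j + 1)) = ∑ j ∈ Finset.Ico 1 (k + 1), f (tn k j) := by
      rw [Finset.sum_Ico_eq_sum_range]
      apply Finset.sum_congr rfl
      intro j _
      rw [add_comm]
    rw [h5, Finset.sum_Ico_succ_top (by omega), tn_neg_one k hk]
  rw [e1, e2, e3, e4]
  ring

/-- the part of the kernel not carried by the interior nodes -/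
noncomputable def Rest (r : ℝ) (k : ℕ) (w : ℂ) : ℂ :=
  (1 - kap r) * (I / (2 * k)) * (1 / (w - 1) + 1 / (w + 1)) + kap r * Zs (r ^ 2) k w

lemma inv_hh_eq {r : ℝ} (h0 : 1 / 2 ≤ r) (h1 : r < 1) {k : ℕ} (hk : 0 < k) {w : ℂ} (hw : w ∈ UO) :
    (hh r k w)⁻¹ = ∑ j ∈ Finset.Ico 1 k, I * mm r k / (w - tn k j) + Rest r k w := by
  rw [inv_hh h0 h1 hk hw]
  have h := sum_split hk (fun t => 1 / (w - (t:ℂ)))
  rw [h]
  have hkc : (k:ℂ) ≠ 0 := by exact_mod_cast hk.ne'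
  have e : ∑ j ∈ Finset.Ico 1 k, I * mm r k / (w - tn k j)
      = I * mm r k * ∑ j ∈ Finset.Ico 1 k, 1 / (w - tn k j) := by
    rw [Finset.mul_sum]
    apply Finset.sum_congr rfl
    intro j _; ring
  rw [e]
  unfold Rest mm
  push_cast
  rw [show w - -1 = w + 1 by ring]
  field_simp
  ring

lemma re_I_div {t : ℝ} {w : ℂ} (hw : w ∈ UO) : 0 ≤ (I / (w - t)).re := by
  rw [Complex.div_re]
  simp only [Complex.I_re, zero_mul, zero_div, Complex.I_im, one_mul, zero_add,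
    Complex.sub_im, Complex.ofReal_im, sub_zero]
  exact div_nonneg (le_of_lt hw) (Complex.normSq_nonneg _)

lemma Rest_re {r : ℝ} (h0 : 1 / 2 ≤ r) (h1 : r < 1) {k : ℕ} (hk : 0 < k) {w : ℂ} (hw : w ∈ UO) :
    0 ≤ (Rest r k w).re := by
  have hka := kap_le r
  have hkn := kap_nonneg r
  have hk1 : kap r ≤ 1 := by nlinarith
  have e : Rest r k w = (((1 - kap r) / (2 * k) : ℝ) : ℂ) * (I / (w - (1:ℝ)))
      + (((1 - kap r) / (2 * k) : ℝ) : ℂ) * (I / (w - (-1:ℝ))) + ((kap r : ℝ) : ℂ) * Zs (r ^ 2) k w := by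
    unfold Rest; push_cast; ring
  rw [e, Complex.add_re, Complex.add_re, Complex.re_ofReal_mul, Complex.re_ofReal_mul,
    Complex.re_ofReal_mul]
  have p1 := re_I_div (t := 1) hw
  have p2 := re_I_div (t := -1) hw
  have p3 := Zs_re (s := r ^ 2) (by rw [abs_of_nonneg (by positivity)]; nlinarith) k hw
  have p4 : 0 ≤ (1 - kap r) / (2 * k) := div_nonneg (by linarith) (by positivity)
  positivity

noncomputable def FF (r : ℝ) (k : ℕ) (w : ℂ) : ℂ := (hh r k w)⁻¹ - I / w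

lemma hh_ge {r : ℝ} (h0 : 1 / 2 ≤ r) (h1 : r < 1) {k : ℕ} (hk : 1 ≤ k) {w : ℂ} (hw : w ∈ UO)
    (hbig : 22 / (1 - r) ≤ ‖w‖) : ‖w‖ / 2 ≤ ‖hh r k w‖ := by
  have h := hh_near h0 h1 hk (UO_sub_UC hw)
  have h2 := norm_sub_norm_le (I * w) (hh r k w + I * w)
  have h3 : I * w - (hh r k w + I * w) = - hh r k w := by ring
  rw [h3, norm_neg, norm_mul, Complex.norm_I, one_mul] at h2
  have h4 : 11 / (1 - r) ≤ ‖w‖ / 2 := by
    have : 22 / (1 - r) = 2 * (11 / (1 - r)) := by ring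
    linarith
  linarith

lemma w_ne {w : ℂ} (hw : w ∈ UO) : w ≠ 0 := by
  intro h; subst h; simp [UO] at hw

lemma FF_le {r : ℝ} (h0 : 1 / 2 ≤ r) (h1 : r < 1) {k : ℕ} (hk : 1 ≤ k) {w : ℂ} (hw : w ∈ UO)
    (hbig : 22 / (1 - r) ≤ ‖w‖) : ‖FF r k w‖ ≤ 22 / (1 - r) / ‖w‖ ^ 2 := by
  have hp : 0 < 1 - r := by linarith
  have hw0 : 0 < ‖w‖ := norm_pos_iff.mpr (w_ne hw)
  have h2 := hh_ge h0 h1 hk hw hbig
  have hh0 : hh r k w ≠ 0 := by
    intro h; rw [h, norm_zero] at h2; linarith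
  have e : FF r k w = -I * (hh r k w + I * w) / (hh r k w * w) := by
    unfold FF
    rw [inv_eq_one_div, div_sub_div _ _ hh0 (w_ne hw)]
    congr 1
    linear_combination w * Complex.I_sq
  rw [e, norm_div, norm_mul, norm_mul, norm_neg, Complex.norm_I, one_mul]
  have h := hh_near h0 h1 hk (UO_sub_UC hw)
  calc ‖hh r k w + I * w‖ / (‖hh r k w‖ * ‖w‖) ≤ (11 / (1 - r)) / (‖w‖ / 2 * ‖w‖) := by gcongr
    _ = 22 / (1 - r) / ‖w‖ ^ 2 := by field_simp; ring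

lemma hh_ne_UO {r : ℝ} (h0 : 1 / 2 ≤ r) (h1 : r < 1) {k : ℕ} (hk : 1 ≤ k) {w : ℂ} (hw : w ∈ UO) :
    hh r k w ≠ 0 := by
  have hu := vpow_le (UO_sub_UC hw) (2 * k)
  have hv1 := vv_lt hw
  have hne2 : 1 + (r:ℂ) ^ 2 * vv w ^ (2 * k) ≠ 0 := by
    intro h
    have h3 : (r:ℂ) ^ 2 * vv w ^ (2 * k) = -1 := by linear_combination h
    have h4 : ‖(r:ℂ) ^ 2 * vv w ^ (2 * k)‖ < 1 := by
      rw [norm_mul, norm_pow, Complex.norm_real, Real.norm_of_nonneg (by linarith)]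
      nlinarith [norm_nonneg (vv w ^ (2 * k))]
    rw [h3] at h4; simp at h4
  have hu1 : 1 - vv w ^ (2 * k) ≠ 0 := by
    intro h
    have h3 : vv w ^ (2 * k) = 1 := by linear_combination -h
    have h2 : ‖vv w‖ ^ (2 * k) < 1 := pow_lt_one₀ (norm_nonneg _) hv1 (by omega)
    rw [← norm_pow, h3] at h2; simp at h2
  unfold hh YY
  refine mul_ne_zero (mul_ne_zero (neg_ne_zero.mpr I_ne_zero) (qq_ne hw)) ?_
  exact div_ne_zero (mul_ne_zero hu1 hne2) (pow_ne_zero 2 (den_ne h0 h1 hu))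

lemma FF_lip {r : ℝ} (h0 : 1 / 2 ≤ r) (h1 : r < 1) {k : ℕ} (hk : 1 ≤ k) {w w' : ℂ} (hw : w ∈ UO)
    (hw' : w' ∈ UO) (hb : 22 / (1 - r) < ‖w‖) (hb' : 22 / (1 - r) < ‖w'‖) :
    ‖FF r k w - FF r k w'‖ ≤ 33 * ‖w⁻¹ - w'⁻¹‖ := by
  have hp : 0 < 1 - r := by linarith
  set R := 22 / (1 - r) with hR
  have hR0 : 0 < R := by positivity
  have hR2 : 2 ≤ R := by
    rw [hR, le_div_iff₀ hp]; nlinarith
  have hconv : Convex ℝ (UO ∩ Metric.ball (0:ℂ) (1 / R)) :=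
    (convex_halfSpace_im_gt 0).inter (convex_ball _ _)
  have inv_mem : ∀ z ∈ UO, -z⁻¹ ∈ UO := by
    intro z hz
    have h3 : 0 < z.im := hz
    show 0 < (-z⁻¹).im
    rw [Complex.neg_im, Complex.inv_im, neg_div, neg_neg]
    exact div_pos h3 (Complex.normSq_pos.mpr (w_ne hz))
  have hder : ∀ z ∈ UO ∩ Metric.ball (0:ℂ) (1 / R), HasDerivWithinAt (fun z => FF r k (-z⁻¹))
      ((-(dhh r k (-z⁻¹)) / (hh r k (-z⁻¹)) ^ 2 + I / (-z⁻¹) ^ 2) * (z ^ 2)⁻¹)
      (UO ∩ Metric.ball (0:ℂ) (1 / R)) z := by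
    intro z hz
    have hz0 := w_ne hz.1
    have hm := inv_mem z hz.1
    have a1 : HasDerivAt (fun z : ℂ => -z⁻¹) ((z ^ 2)⁻¹) z := by
      simpa using (hasDerivAt_inv hz0).fun_neg
    have a2 : HasDerivAt (FF r k) (-(dhh r k (-z⁻¹)) / (hh r k (-z⁻¹)) ^ 2 + I / (-z⁻¹) ^ 2) (-z⁻¹) := by
      have b1 := (hasDerivAt_hh h0 h1 k hm).fun_inv (hh_ne_UO h0 h1 hk hm)
      have b2 := (hasDerivAt_inv (w_ne hm)).const_mul I
      have b3 := b1.sub b2
      have : FF r k = (fun y => (hh r k y)⁻¹) - fun y => I * y⁻¹ := by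
        funext y; simp [FF, div_eq_mul_inv]
      rw [this]
      refine b3.congr_deriv ?_
      ring
    exact (a2.comp z a1).hasDerivWithinAt
  have hbd : ∀ z ∈ UO ∩ Metric.ball (0:ℂ) (1 / R),
      ‖(-(dhh r k (-z⁻¹)) / (hh r k (-z⁻¹)) ^ 2 + I / (-z⁻¹) ^ 2) * (z ^ 2)⁻¹‖ ≤ 33 := by
    intro z hz
    have hz0 := w_ne hz.1
    have hzn : 0 < ‖z‖ := norm_pos_iff.mpr hz0
    have hm := inv_mem z hz.1
    have hnb : ‖z‖ < 1 / R := by simpa using hz.2
    have hbig : R ≤ ‖-z⁻¹‖ := by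
      rw [norm_neg, norm_inv]
      rw [le_inv_comm₀ hR0 hzn]
      rw [one_div] at hnb; exact hnb.le
    have h8 := dhh_far h0 h1 hk hm (hR2.trans hbig)
    have hge := hh_ge h0 h1 hk hm hbig
    have hn : ‖-z⁻¹‖ = ‖z‖⁻¹ := by rw [norm_neg, norm_inv]
    rw [hn] at hge
    rw [norm_mul, norm_inv, norm_pow]
    have c1 : ‖-(dhh r k (-z⁻¹)) / (hh r k (-z⁻¹)) ^ 2 + I / (-z⁻¹) ^ 2‖ ≤ 33 * ‖z‖ ^ 2 := by
      refine (norm_add_le _ _).trans ?_
      rw [norm_div, norm_div, norm_neg, norm_pow, norm_pow, hn, Complex.norm_I]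
      have c2 : ‖dhh r k (-z⁻¹)‖ / ‖hh r k (-z⁻¹)‖ ^ 2 ≤ 8 / (‖z‖⁻¹ / 2) ^ 2 := by gcongr
      have c3 : 8 / (‖z‖⁻¹ / 2) ^ 2 = 32 * ‖z‖ ^ 2 := by field_simp; ring
      have c4 : 1 / (‖z‖⁻¹) ^ 2 = ‖z‖ ^ 2 := by field_simp
      rw [c4]; rw [c3] at c2; linarith
    calc _ ≤ 33 * ‖z‖ ^ 2 * (‖z‖ ^ 2)⁻¹ := by gcongr
      _ = 33 := by field_simp
  have mem : ∀ w ∈ UO, R < ‖w‖ → -w⁻¹ ∈ UO ∩ Metric.ball (0:ℂ) (1 / R) := by
    intro w hw hb
    refine ⟨inv_mem w hw, ?_⟩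
    simp only [Metric.mem_ball, dist_zero_right, norm_neg, norm_inv, one_div]
    exact (inv_lt_inv₀ (hR0.trans hb) hR0).mpr hb
  have := hconv.norm_image_sub_le_of_norm_hasDerivWithin_le hder hbd (mem w' hw' hb') (mem w hw hb)
  simp only [inv_neg, inv_inv, neg_neg] at this
  refine this.trans ?_
  rw [← norm_neg (w⁻¹ - w'⁻¹)]
  apply le_of_eq
  congr 2; ring

/-- analyticity of `q` at interior real points -/
lemma analyticAt_qq {t : ℝ} (h1 : -1 < t) (h2 : t < 1) : AnalyticAt ℂ qq (t:ℂ) := by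
  unfold qq ra rb
  refine (analyticAt_const.mul ?_).mul ?_
  · apply AnalyticAt.cpow
    · exact analyticAt_const.mul (analyticAt_id.sub analyticAt_const)
    · exact analyticAt_const
    · rw [Complex.mem_slitPlane_iff]; right
      simp
      intro h; linarith
  · apply AnalyticAt.cpow
    · exact analyticAt_const.mul (analyticAt_id.add analyticAt_const)
    · exact analyticAt_const
    · rw [Complex.mem_slitPlane_iff]; right
      simp
      intro h; linarith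

lemma analyticAt_Zs {t : ℝ} (h1 : -1 < t) (h2 : t < 1) {s : ℝ} (hs0 : 0 ≤ s) (hs : s < 1) (k : ℕ) :
    AnalyticAt ℂ (Zs s k) (t:ℂ) := by
  have hq := analyticAt_qq h1 h2
  have hq0 : qq (t:ℂ) ≠ 0 := by
    intro h
    have h3 := qq_sq (t:ℂ)
    rw [h] at h3
    have h4 : ((t ^ 2 - 1 : ℝ) : ℂ) = 0 := by push_cast; linear_combination -h3
    have h5 : t ^ 2 - 1 = 0 := by exact_mod_cast h4
    nlinarith
  have hv : AnalyticAt ℂ vv (t:ℂ) := analyticAt_id.sub hq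
  have hmem : (t:ℂ) ∈ UC := by simp [UC]
  have hu := vpow_le hmem (2 * k)
  have hne : 1 + (s:ℂ) * vv (t:ℂ) ^ (2 * k) ≠ 0 := by
    intro h
    have h3 : (s:ℂ) * vv (t:ℂ) ^ (2 * k) = -1 := by linear_combination h
    have h4 : ‖(s:ℂ) * vv (t:ℂ) ^ (2 * k)‖ < 1 := by
      rw [norm_mul, Complex.norm_real, Real.norm_of_nonneg hs0]
      nlinarith [norm_nonneg (vv (t:ℂ) ^ (2 * k))]
    rw [h3] at h4; simp at h4
  unfold Zs
  refine (analyticAt_const.div hq hq0).mul (AnalyticAt.div ?_ ?_ hne)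
  · exact analyticAt_const.sub (analyticAt_const.mul (hv.pow _))
  · exact analyticAt_const.add (analyticAt_const.mul (hv.pow _))

lemma tn_lt {k j : ℕ} (hj : j ∈ Finset.Ico 1 k) : -1 < tn k j ∧ tn k j < 1 := by
  rw [Finset.mem_Ico] at hj
  have hk : (0:ℝ) < k := by exact_mod_cast (by omega : 0 < k)
  have hj1 : (0:ℝ) < j := by exact_mod_cast (by omega : 0 < j)
  have hjk : (j:ℝ) < k := by exact_mod_cast hj.2
  have hpi := Real.pi_pos
  have a1 : 0 < j * Real.pi / k := by positivity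
  have a2 : j * Real.pi / k < Real.pi := by
    rw [div_lt_iff₀ hk]; nlinarith
  unfold tn
  constructor
  · rw [← Real.cos_pi]
    exact Real.cos_lt_cos_of_nonneg_of_le_pi a1.le le_rfl a2
  · rw [← Real.cos_zero]
    exact Real.cos_lt_cos_of_nonneg_of_le_pi le_rfl a2.le a1

lemma tn_inj {k i j : ℕ} (hi : i ∈ Finset.Ico 1 k) (hj : j ∈ Finset.Ico 1 k) (h : tn k i = tn k j) :
    i = j := by
  rw [Finset.mem_Ico] at hi hj
  have hk : (0:ℝ) < k := by exact_mod_cast (by omega : 0 < k)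
  have hpi := Real.pi_pos
  have key : ∀ i : ℕ, i < k → (i * Real.pi / k : ℝ) ∈ Set.Icc 0 Real.pi := by
    intro i hi
    have : (i:ℝ) < k := by exact_mod_cast hi
    constructor
    · positivity
    · rw [div_le_iff₀ hk]; nlinarith
  have := Real.injOn_cos (key i hi.2) (key j hj.2) h
  field_simp at this
  exact_mod_cast this

lemma lip_of_analytic {f : ℂ → ℂ} {c : ℂ} (hf : AnalyticAt ℂ f c) :
    ∃ r > 0, ∃ M : ℝ, 0 ≤ M ∧ ∀ z ∈ Metric.ball c r, ∀ z' ∈ Metric.ball c r,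
      ‖f z - f z'‖ ≤ M * ‖z - z'‖ := by
  have h1 : ContDiffAt ℂ 1 f c := hf.contDiffAt
  obtain ⟨K, t, ht, hK⟩ := h1.exists_lipschitzOnWith
  obtain ⟨r, hr, hsub⟩ := Metric.mem_nhds_iff.mp ht
  refine ⟨r, hr, K, K.2, ?_⟩
  intro z hz z' hz'
  have := hK.dist_le_mul z (hsub hz) z' (hsub hz')
  rwa [dist_eq_norm, dist_eq_norm] at this

lemma node_lip {r : ℝ} (h0 : 1 / 2 ≤ r) (h1 : r < 1) {k j : ℕ} (hj : j ∈ Finset.Ico 1 k) :
    ∃ ρ > 0, ∃ M : ℝ, 0 ≤ M ∧ ∀ z ∈ UO ∩ Metric.ball (tn k j : ℂ) ρ,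
      ∀ z' ∈ UO ∩ Metric.ball (tn k j : ℂ) ρ,
      ‖((hh r k z)⁻¹ - I * mm r k / (z - tn k j)) - ((hh r k z')⁻¹ - I * mm r k / (z' - tn k j))‖
        ≤ M * ‖z - z'‖ := by
  have hk : 0 < k := by rw [Finset.mem_Ico] at hj; omega
  have ht := tn_lt hj
  set B : ℂ → ℂ := fun z => ∑ i ∈ (Finset.Ico 1 k).erase j, I * mm r k / (z - tn k i) + Rest r k z
    with hB
  have hBa : AnalyticAt ℂ B (tn k j : ℂ) := by
    apply AnalyticAt.add
    · apply Finset.analyticAt_fun_sum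
      intro i hi
      rw [Finset.mem_erase] at hi
      apply AnalyticAt.div analyticAt_const (analyticAt_id.sub analyticAt_const)
      show (tn k j : ℂ) - (tn k i : ℂ) ≠ 0
      rw [sub_ne_zero]
      intro h
      have h2 : tn k j = tn k i := by exact_mod_cast h
      exact hi.1 (tn_inj hi.2 hj h2.symm)
    · unfold Rest
      apply AnalyticAt.add
      · apply AnalyticAt.mul analyticAt_const
        apply AnalyticAt.add
        · apply AnalyticAt.div analyticAt_const (analyticAt_id.sub analyticAt_const)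
          show (tn k j : ℂ) - 1 ≠ 0
          rw [sub_ne_zero]; intro h
          have h2 : tn k j = 1 := by exact_mod_cast h
          linarith
        · apply AnalyticAt.div analyticAt_const (analyticAt_id.add analyticAt_const)
          intro h
          have h2 : ((tn k j + 1 : ℝ) : ℂ) = 0 := by push_cast; exact h
          have h3 : tn k j + 1 = 0 := by exact_mod_cast h2
          linarith
      · exact analyticAt_const.mul (analyticAt_Zs ht.1 ht.2 (by positivity) (by nlinarith) k)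
  obtain ⟨ρ, hρ, M, hM, hL⟩ := lip_of_analytic hBa
  refine ⟨ρ, hρ, M, hM, ?_⟩
  intro z hz z' hz'
  have e : ∀ z ∈ UO, (hh r k z)⁻¹ - I * mm r k / (z - tn k j) = B z := by
    intro z hz
    rw [inv_hh_eq h0 h1 hk hz, hB]
    simp only
    rw [← Finset.add_sum_erase _ _ hj]
    ring
  rw [e z hz.1, e z' hz'.1]
  exact hL z hz.2 z' hz'.2

lemma cover {k : ℕ} (hk : 2 ≤ k) {x : ℝ} (hx : |x| ≤ 1) :
    ∃ j ∈ Finset.Ico 1 k, |x - tn k j| ≤ Real.pi / k := by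
  have hpi := Real.pi_pos
  have hk0 : (0:ℝ) < k := by exact_mod_cast (by omega : 0 < k)
  set θ := Real.arccos x with hθ
  have hθ0 : 0 ≤ θ := Real.arccos_nonneg x
  have hθ1 : θ ≤ Real.pi := Real.arccos_le_pi x
  have hcos : Real.cos θ = x := Real.cos_arccos (abs_le.mp hx).1 (abs_le.mp hx).2
  have red : ∀ j : ℕ, |θ - j * Real.pi / k| ≤ Real.pi / k → |x - tn k j| ≤ Real.pi / k := by
    intro j hj
    unfold tn
    rw [← hcos]
    exact (Real.abs_cos_sub_cos_le _ _).trans hj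
  set j0 := ⌊θ * k / Real.pi⌋₊ with hj0
  have f1 : (j0:ℝ) ≤ θ * k / Real.pi := Nat.floor_le (by positivity)
  have f2 : θ * k / Real.pi < j0 + 1 := Nat.lt_floor_add_one _
  have g1 : j0 * Real.pi / k ≤ θ := by
    rw [div_le_iff₀ hk0]
    rw [le_div_iff₀ hpi] at f1
    exact f1
  have g2 : θ < j0 * Real.pi / k + Real.pi / k := by
    rw [div_lt_iff₀ hpi] at f2
    rw [← add_div, lt_div_iff₀ hk0]
    linarith
  have hj0k : j0 ≤ k := by
    have : (j0:ℝ) ≤ k := by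
      refine f1.trans ?_
      rw [div_le_iff₀ hpi]; nlinarith
    exact_mod_cast this
  rcases Nat.eq_zero_or_pos j0 with h | h
  · refine ⟨1, by rw [Finset.mem_Ico]; omega, red 1 ?_⟩
    rw [h] at g1 g2
    push_cast at *
    rw [abs_le]
    constructor
    · have : (1:ℝ) * Real.pi / k = Real.pi / k := by ring
      rw [this]; linarith
    · have : (1:ℝ) * Real.pi / k = Real.pi / k := by ring
      rw [this]
      have : 0 * Real.pi / (k:ℝ) = 0 := by ring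
      rw [this] at g2
      have : 0 < Real.pi / k := by positivity
      linarith
  · rcases lt_or_eq_of_le hj0k with h2 | h2
    · refine ⟨j0, by rw [Finset.mem_Ico]; omega, red j0 ?_⟩
      rw [abs_le]
      constructor <;> linarith
    · refine ⟨k - 1, by rw [Finset.mem_Ico]; omega, red (k - 1) ?_⟩
      rw [h2] at g1 g2
      have e3 : ((k - 1 : ℕ) : ℝ) * Real.pi / k = Real.pi - Real.pi / k := by
        rw [Nat.cast_sub (by omega)]
        push_cast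
        field_simp
      have e4 : (k:ℝ) * Real.pi / k = Real.pi := by field_simp
      rw [e3]
      rw [e4] at g1
      have : θ = Real.pi := le_antisymm hθ1 g1
      rw [this, sub_sub_cancel, abs_of_pos (by positivity)]

lemma tn_mid {l : ℕ} (hl : 1 ≤ l) : tn (2 * l) l = 0 := by
  unfold tn
  have : (l:ℝ) ≠ 0 := by exact_mod_cast (by omega : l ≠ 0)
  rw [show (l:ℝ) * Real.pi / ((2 * l : ℕ) : ℝ) = Real.pi / 2 by push_cast; field_simp]
  exact Real.cos_pi_div_two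

end H651P
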