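import Pool.Agent.H651R3.P4

open Complex Set Filter Topology

namespace H651P

noncomputable def PP (r : ℝ) (k : ℕ) (L μ c : ℝ) (z : ℂ) : ℂ :=
  ((L / μ : ℝ) : ℂ) * hh r k ((z - c) / L)
noncomputable def DD (r : ℝ) (k : ℕ) (L μ c : ℝ) (z : ℂ) : ℂ :=
  ((μ / L : ℝ) : ℂ) * FF r k ((z - c) / L)

noncomputable def rho (z z' : ℂ) : ℝ := ‖z - z'‖ / ((1 + ‖z‖) * (1 + ‖z'‖))

lemma rho_nonneg (z z' : ℂ) : 0 ≤ rho z z' := by unfold rho; positivity

lemma wmem {c L : ℝ} (hL : 0 < L) {z : ℂ} (hz : z ∈ UO) : (z - c) / L ∈ UO := by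
  show 0 < ((z - c) / (L:ℂ)).im
  rw [Complex.div_ofReal_im, Complex.sub_im, Complex.ofReal_im, sub_zero]
  exact div_pos hz hL

lemma wnorm {c L : ℝ} (hL : 0 < L) (z : ℂ) : ‖(z - c) / L‖ = ‖z - c‖ / L := by
  rw [norm_div, Complex.norm_real, Real.norm_of_nonneg hL.le]

lemma wdiff {c L : ℝ} (hL : 0 < L) (z z' : ℂ) :
    ‖(z - c) / L - (z' - c) / L‖ = ‖z - z'‖ / L := by
  rw [← sub_div, norm_div, Complex.norm_real, Real.norm_of_nonneg hL.le]
  congr 2; ring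

section
variable {r : ℝ} (h0 : 1 / 2 ≤ r) (h1 : r < 1) {k : ℕ} (hk : 1 ≤ k) {L μ : ℝ} (hL : 0 < L)
  (hμ : 0 < μ) (c : ℝ)
include h0 h1 hk hL hμ

lemma PP_ne {z : ℂ} (hz : z ∈ UO) : PP r k L μ c z ≠ 0 := by
  unfold PP
  apply mul_ne_zero
  · exact_mod_cast (div_pos hL hμ).ne'
  · exact hh_ne_UO h0 h1 hk (wmem hL hz)

lemma PP_inv (z : ℂ) : (PP r k L μ c z)⁻¹ = ((μ / L : ℝ) : ℂ) * (hh r k ((z - c) / L))⁻¹ := by
  unfold PP
  rw [mul_inv, ← Complex.ofReal_inv, inv_div]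

lemma PP_norm_le {z : ℂ} (hz : z ∈ UO) :
    ‖PP r k L μ c z‖ ≤ (‖z - c‖ + 11 * L / (1 - r)) / μ := by
  have hw := wmem (c := c) hL hz
  have h := hh_near h0 h1 hk (UO_sub_UC hw)
  unfold PP
  rw [norm_mul, Complex.norm_real, Real.norm_of_nonneg (div_pos hL hμ).le]
  have h2 : ‖hh r k ((z - c) / L)‖ ≤ ‖z - c‖ / L + 11 / (1 - r) := by
    have e : hh r k ((z - c) / L) = (hh r k ((z - c) / L) + I * ((z - c) / L)) - I * ((z - c) / L) := by
      ring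
    rw [e]
    refine (norm_sub_le _ _).trans ?_
    rw [norm_mul, Complex.norm_I, one_mul, wnorm hL]
    linarith
  calc L / μ * ‖hh r k ((z - c) / L)‖ ≤ L / μ * (‖z - c‖ / L + 11 / (1 - r)) := by
        gcongr
    _ = (‖z - c‖ + 11 * L / (1 - r)) / μ := by
        have : (1 - r) ≠ 0 := by linarith
        field_simp

lemma PP_lip {z z' : ℂ} (hz : z ∈ UO) (hz' : z' ∈ UO) :
    ‖PP r k L μ c z - PP r k L μ c z'‖ ≤ 28 * k / (1 - r) ^ 2 / μ * ‖z - z'‖ := by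
  unfold PP
  rw [← mul_sub, norm_mul, Complex.norm_real, Real.norm_of_nonneg (div_pos hL hμ).le]
  have h := hh_lip h0 h1 k (UO_sub_UC (wmem (c := c) hL hz)) (UO_sub_UC (wmem (c := c) hL hz'))
  rw [wdiff hL] at h
  calc _ ≤ L / μ * (28 * k / (1 - r) ^ 2 * (‖z - z'‖ / L)) := by gcongr
    _ = 28 * k / (1 - r) ^ 2 / μ * ‖z - z'‖ := by
        have : (1 - r) ≠ 0 := by linarith
        field_simp

omit h0 h1 hk hL hμ in
lemma hold_aux {X d A C α : ℝ} (hα0 : 0 < α) (hα1 : α < 1) (hX0 : 0 ≤ X) (hd : 0 ≤ d) (hA : 0 ≤ A)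
    (hC : 0 ≤ C) (h1 : X ≤ A * d) (h2 : X ≤ d + C) : X ≤ d + C ^ (1 - α) * (A * d) ^ α := by
  have hAd : 0 ≤ A * d := mul_nonneg hA hd
  rcases le_total (A * d) C with h | h
  · have e : A * d = (A * d) ^ (1 - α) * (A * d) ^ α := by
      rw [← Real.rpow_add_of_nonneg hAd (by linarith) hα0.le]
      simp
    have : (A * d) ^ (1 - α) ≤ C ^ (1 - α) := Real.rpow_le_rpow hAd h (by linarith)
    calc X ≤ A * d := h1
      _ = (A * d) ^ (1 - α) * (A * d) ^ α := e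
      _ ≤ C ^ (1 - α) * (A * d) ^ α := by gcongr
      _ ≤ d + C ^ (1 - α) * (A * d) ^ α := by linarith
  · have e : C = C ^ (1 - α) * C ^ α := by
      rw [← Real.rpow_add_of_nonneg hC (by linarith) hα0.le]
      simp
    have : C ^ α ≤ (A * d) ^ α := Real.rpow_le_rpow hC h hα0.le
    calc X ≤ d + C := h2
      _ = d + C ^ (1 - α) * C ^ α := by rw [← e]
      _ ≤ d + C ^ (1 - α) * (A * d) ^ α := by gcongr

lemma PP_hold {α : ℝ} (hα0 : 0 < α) (hα1 : α < 1)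
    (hLk : L ^ (1 - α) = (1 - r) ^ (1 + α) * (k:ℝ) ^ (-α) * μ) {z z' : ℂ} (hz : z ∈ UO)
    (hz' : z' ∈ UO) :
    ‖PP r k L μ c z - PP r k L μ c z'‖ ≤ ‖z - z'‖ / μ + 28 * ‖z - z'‖ ^ α := by
  have hp : 0 < 1 - r := by linarith
  have hk0 : (0:ℝ) < k := by exact_mod_cast hk
  have hw := UO_sub_UC (wmem (c := c) hL hz)
  have hw' := UO_sub_UC (wmem (c := c) hL hz')
  have h := hh_lip h0 h1 k hw hw'
  have h2 : ‖hh r k ((z - c) / L) - hh r k ((z' - c) / L)‖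
      ≤ ‖(z - c) / L - (z' - c) / L‖ + 22 / (1 - r) := by
    have a1 := hh_near h0 h1 hk hw
    have a2 := hh_near h0 h1 hk hw'
    have e : hh r k ((z - c) / L) - hh r k ((z' - c) / L)
        = (hh r k ((z - c) / L) + I * ((z - c) / L)) - (hh r k ((z' - c) / L) + I * ((z' - c) / L))
          - I * ((z - c) / L - (z' - c) / L) := by ring
    rw [e]
    refine (norm_sub_le _ _).trans ?_
    rw [norm_mul, Complex.norm_I, one_mul]
    have a3 := norm_sub_le (hh r k ((z - c) / L) + I * ((z - c) / L))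
      (hh r k ((z' - c) / L) + I * ((z' - c) / L))
    have : 22 / (1 - r) = 11 / (1 - r) + 11 / (1 - r) := by ring
    linarith
  have h3 := hold_aux hα0 hα1 (norm_nonneg _) (norm_nonneg _) (by positivity) (by positivity) h h2
  rw [wdiff hL] at h3
  unfold PP
  rw [← mul_sub, norm_mul, Complex.norm_real, Real.norm_of_nonneg (div_pos hL hμ).le]
  set d := ‖z - z'‖ with hd
  have hd0 : 0 ≤ d := norm_nonneg _
  calc _ ≤ L / μ * (d / L + (22 / (1 - r)) ^ (1 - α) * (28 * k / (1 - r) ^ 2 * (d / L)) ^ α) := by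
        gcongr
    _ = d / μ + (L / μ * ((22 / (1 - r)) ^ (1 - α) * (28 * k / (1 - r) ^ 2 / L) ^ α)) * d ^ α := by
        rw [show 28 * k / (1 - r) ^ 2 * (d / L) = (28 * k / (1 - r) ^ 2 / L) * d by ring,
          Real.mul_rpow (by positivity) hd0]
        field_simp
    _ ≤ d / μ + 28 * d ^ α := by
        gcongr
        have e1 : (22 / (1 - r)) ^ (1 - α) = 22 ^ (1 - α) / (1 - r) ^ (1 - α) :=
          Real.div_rpow (by norm_num) hp.le _
        have e2 : (28 * k / (1 - r) ^ 2 / L) ^ α = 28 ^ α * (k:ℝ) ^ α / ((1 - r) ^ (2 * α) * L ^ α) := by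
          rw [Real.div_rpow (by positivity) hL.le, Real.div_rpow (by positivity) (by positivity),
            Real.mul_rpow (by norm_num) hk0.le, ← Real.rpow_natCast (1 - r) 2,
            ← Real.rpow_mul hp.le]
          push_cast
          rw [div_div]
        rw [e1, e2]
        have e3 : L = L ^ (1 - α) * L ^ α := by
          rw [← Real.rpow_add hL]; simp
        have e4 : (k:ℝ) ^ (-α) = ((k:ℝ) ^ α)⁻¹ := Real.rpow_neg hk0.le _
        have e5 : (1 - r) ^ (1 + α) = (1 - r) ^ (1 - α) * (1 - r) ^ (2 * α) := by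
          rw [← Real.rpow_add hp]; congr 1; ring
        have p1 : 0 < L ^ α := Real.rpow_pos_of_pos hL _
        have p2 : 0 < (k:ℝ) ^ α := Real.rpow_pos_of_pos hk0 _
        have p3 : 0 < (1 - r) ^ (1 - α) := Real.rpow_pos_of_pos hp _
        have p4 : 0 < (1 - r) ^ (2 * α) := Real.rpow_pos_of_pos hp _
        have e6 : L / μ * (22 ^ (1 - α) / (1 - r) ^ (1 - α)
            * (28 ^ α * (k:ℝ) ^ α / ((1 - r) ^ (2 * α) * L ^ α))) = 22 ^ (1 - α) * 28 ^ α := by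
          have e7 : L / μ = ((1 - r) ^ (1 - α) * (1 - r) ^ (2 * α)) * ((k:ℝ) ^ α)⁻¹ * L ^ α := by
            have : L / μ = L ^ (1 - α) * L ^ α / μ := by rw [← e3]
            rw [this, hLk, e4, e5]; field_simp
          rw [e7]
          field_simp
        rw [e6]
        calc (22:ℝ) ^ (1 - α) * 28 ^ α ≤ 28 ^ (1 - α) * 28 ^ α := by
              gcongr
              linarith
          _ = 28 := by rw [← Real.rpow_add (by norm_num)]; simp

lemma DD_eq {z : ℂ} (hz : z ∈ UO) :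
    DD r k L μ c z = (PP r k L μ c z)⁻¹ - I * μ / (z - c) := by
  rw [PP_inv h0 h1 hk hL hμ c z]
  unfold DD FF
  have hL' : (L:ℂ) ≠ 0 := by exact_mod_cast hL.ne'
  rw [mul_sub]
  congr 1
  push_cast
  have : (z - c) ≠ 0 := by
    intro h
    have h2 : z = c := by linear_combination h
    subst h2; simp [UO] at hz
  field_simp

lemma DD_le {z : ℂ} (hz : z ∈ UO) (hb : 22 * L / (1 - r) ≤ ‖z - c‖) :
    ‖DD r k L μ c z‖ ≤ 22 * μ * L / ((1 - r) * ‖z - c‖ ^ 2) := by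
  have hp : 0 < 1 - r := by linarith
  have hw := wmem (c := c) hL hz
  have hzc : 0 < ‖z - c‖ := lt_of_lt_of_le (by positivity) hb
  have hb' : 22 / (1 - r) ≤ ‖(z - c) / L‖ := by
    rw [wnorm hL, le_div_iff₀ hL]
    calc 22 / (1 - r) * L = 22 * L / (1 - r) := by ring
      _ ≤ _ := hb
  have h := FF_le h0 h1 hk hw hb'
  rw [wnorm hL] at h
  unfold DD
  rw [norm_mul, Complex.norm_real, Real.norm_of_nonneg (div_pos hμ hL).le]
  calc _ ≤ μ / L * (22 / (1 - r) / (‖z - c‖ / L) ^ 2) := by gcongr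
    _ = 22 * μ * L / ((1 - r) * ‖z - c‖ ^ 2) := by field_simp

lemma DD_lip {z z' : ℂ} (hz : z ∈ UO) (hz' : z' ∈ UO) (hb : 22 * L / (1 - r) < ‖z - c‖)
    (hb' : 22 * L / (1 - r) < ‖z' - c‖) :
    ‖DD r k L μ c z - DD r k L μ c z'‖ ≤ 33 * μ * ‖z - z'‖ / (‖z - c‖ * ‖z' - c‖) := by
  have hp : 0 < 1 - r := by linarith
  have hzc : 0 < ‖z - c‖ := lt_of_le_of_lt (by positivity) hb
  have hzc' : 0 < ‖z' - c‖ := lt_of_le_of_lt (by positivity) hb'
  have conv : ∀ z : ℂ, 22 * L / (1 - r) < ‖z - c‖ → 22 / (1 - r) < ‖(z - c) / L‖ := by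
    intro z hz
    rw [wnorm hL, lt_div_iff₀ hL]
    calc 22 / (1 - r) * L = 22 * L / (1 - r) := by ring
      _ < _ := hz
  have h := FF_lip h0 h1 hk (wmem (c := c) hL hz) (wmem (c := c) hL hz') (conv z hb) (conv z' hb')
  have e : ‖((z - c) / L)⁻¹ - ((z' - c) / L)⁻¹‖ = L * ‖z - z'‖ / (‖z - c‖ * ‖z' - c‖) := by
    have n1 : z - c ≠ 0 := norm_pos_iff.mp hzc
    have n2 : z' - c ≠ 0 := norm_pos_iff.mp hzc'
    have hL' : (L:ℂ) ≠ 0 := by exact_mod_cast hL.ne'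
    have : ((z - c) / (L:ℂ))⁻¹ - ((z' - c) / (L:ℂ))⁻¹ = (L:ℂ) * (z' - z) / ((z - c) * (z' - c)) := by
      field_simp; ring
    rw [this, norm_div, norm_mul, norm_mul, Complex.norm_real, Real.norm_of_nonneg hL.le,
      norm_sub_rev z' z]
  rw [e] at h
  unfold DD
  rw [← mul_sub, norm_mul, Complex.norm_real, Real.norm_of_nonneg (div_pos hμ hL).le]
  calc _ ≤ μ / L * (33 * (L * ‖z - z'‖ / (‖z - c‖ * ‖z' - c‖))) := by gcongr
    _ = 33 * μ * ‖z - z'‖ / (‖z - c‖ * ‖z' - c‖) := by field_simp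

end

lemma half_le {x : ℂ} (hx : ‖x‖ ≤ 1 / 2) : 1 / 2 ≤ ‖1 + x‖ := by
  have := norm_sub_norm_le (1:ℂ) (-x)
  rw [norm_one, norm_neg, sub_neg_eq_add] at this
  linarith

lemma quot_diff {a b x y : ℂ} (h1 : ‖a * x‖ ≤ 1 / 2) (h2 : ‖b * y‖ ≤ 1 / 2) :
    ‖a / (1 + a * x) - b / (1 + b * y)‖ ≤ 4 * (‖a - b‖ + ‖a‖ * ‖b‖ * ‖x - y‖) := by
  have p1 := half_le h1
  have p2 := half_le h2
  have n1 : 1 + a * x ≠ 0 := norm_pos_iff.mp (by linarith)
  have n2 : 1 + b * y ≠ 0 := norm_pos_iff.mp (by linarith)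
  rw [div_sub_div _ _ n1 n2, norm_div, norm_mul]
  have e : a * (1 + b * y) - (1 + a * x) * b = (a - b) + a * b * (y - x) := by ring
  rw [e]
  have h3 : ‖(a - b) + a * b * (y - x)‖ ≤ ‖a - b‖ + ‖a‖ * ‖b‖ * ‖x - y‖ := by
    refine (norm_add_le _ _).trans ?_
    rw [norm_mul, norm_mul, norm_sub_rev y x]
  calc ‖(a - b) + a * b * (y - x)‖ / (‖1 + a * x‖ * ‖1 + b * y‖)
      ≤ (‖a - b‖ + ‖a‖ * ‖b‖ * ‖x - y‖) / (1 / 2 * (1 / 2)) := by gcongr
    _ = 4 * (‖a - b‖ + ‖a‖ * ‖b‖ * ‖x - y‖) := by ring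

noncomputable def gnew (g : ℂ → ℂ) (r : ℝ) (k : ℕ) (L μ c : ℝ) (z : ℂ) : ℂ :=
  ((g z)⁻¹ + ((PP r k L μ c z)⁻¹ - I * μ / (z - c)))⁻¹

lemma gnew_near {g : ℂ → ℂ} {r : ℝ} {k : ℕ} {L μ c : ℝ} {z : ℂ} (hP : PP r k L μ c z ≠ 0) :
    gnew g r k L μ c z = PP r k L μ c z
      / (1 + PP r k L μ c z * ((g z)⁻¹ - I * μ / (z - c))) := by
  unfold gnew
  have : (g z)⁻¹ + ((PP r k L μ c z)⁻¹ - I * μ / (z - c))
      = (1 + PP r k L μ c z * ((g z)⁻¹ - I * μ / (z - c))) / PP r k L μ c z := by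
    rw [eq_div_iff hP]
    have : (PP r k L μ c z)⁻¹ * PP r k L μ c z = 1 := inv_mul_cancel₀ hP
    linear_combination this
  rw [this, inv_div]

lemma gnew_far {g : ℂ → ℂ} {r : ℝ} {k : ℕ} {L μ c : ℝ} {z : ℂ} (hg : g z ≠ 0) :
    gnew g r k L μ c z = g z
      / (1 + g z * ((PP r k L μ c z)⁻¹ - I * μ / (z - c))) := by
  unfold gnew
  have : (g z)⁻¹ + ((PP r k L μ c z)⁻¹ - I * μ / (z - c))
      = (1 + g z * ((PP r k L μ c z)⁻¹ - I * μ / (z - c))) / g z := by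
    rw [eq_div_iff hg]
    have : (g z)⁻¹ * g z = 1 := inv_mul_cancel₀ hg
    linear_combination this
  rw [this, inv_div]

end H651P
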