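import Pool.Agent.H651R3.P5

open Complex Set Filter Topology

namespace H651P

noncomputable def poleSum (Q : List (ℝ × ℝ)) (z : ℂ) : ℂ :=
  (Q.map fun p => I * p.2 / (z - p.1)).sum

structure Good (g : ℂ → ℂ) (Q : List (ℝ × ℝ)) : Prop where
  dif : DifferentiableOn ℂ g UO
  ne : ∀ z ∈ UO, g z ≠ 0
  lip : ∃ Λ : ℝ, 0 ≤ Λ ∧ ∀ z ∈ UO, ∀ z' ∈ UO, ‖g z - g z'‖ ≤ Λ * rho z z'
  pos : ∀ z ∈ UO, 1 ≤ ((g z)⁻¹ - poleSum Q z).re
  mass : ∀ p ∈ Q, 0 < p.2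
  loc : ∀ p ∈ Q, |p.1| < 1
  nodup : (Q.map Prod.fst).Nodup
  K : ∀ p ∈ Q, ∃ ρ > 0, ∃ M : ℝ, 0 ≤ M ∧ ∀ z ∈ UO ∩ Metric.ball (p.1:ℂ) ρ,
      ∀ z' ∈ UO ∩ Metric.ball (p.1:ℂ) ρ,
      ‖((g z)⁻¹ - I * p.2 / (z - p.1)) - ((g z')⁻¹ - I * p.2 / (z' - p.1))‖ ≤ M * ‖z - z'‖

lemma poleSum_re {Q : List (ℝ × ℝ)} (h : ∀ p ∈ Q, 0 < p.2) {z : ℂ} (hz : z ∈ UO) :
    0 ≤ (poleSum Q z).re := by
  induction Q with
  | nil => simp [poleSum]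
  | cons p Q ih =>
    have h1 := ih (fun q hq => h q (List.mem_cons_of_mem _ hq))
    have h2 : 0 ≤ (I * p.2 / (z - p.1)).re := by
      have e : I * p.2 / (z - p.1) = ((p.2 : ℝ) : ℂ) * (I / (z - p.1)) := by ring
      rw [e, Complex.re_ofReal_mul]
      exact mul_nonneg (h p List.mem_cons_self).le (re_I_div hz)
    unfold poleSum at *
    rw [List.map_cons, List.sum_cons, Complex.add_re]
    linarith

lemma Good.inv_re {g : ℂ → ℂ} {Q : List (ℝ × ℝ)} (hG : Good g Q) {z : ℂ} (hz : z ∈ UO) :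
    1 ≤ ((g z)⁻¹).re := by
  have h1 := hG.pos z hz
  have h2 := poleSum_re hG.mass hz
  rw [Complex.sub_re] at h1
  linarith

lemma Good.norm_le {g : ℂ → ℂ} {Q : List (ℝ × ℝ)} (hG : Good g Q) {z : ℂ} (hz : z ∈ UO) :
    ‖g z‖ ≤ 1 := by
  have h1 := hG.inv_re hz
  have h2 : 1 ≤ ‖(g z)⁻¹‖ := h1.trans (Complex.re_le_norm _)
  rw [norm_inv] at h2
  have h3 : 0 < ‖g z‖ := norm_pos_iff.mpr (hG.ne z hz)
  exact (one_le_inv₀ h3).mp h2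

/-- local data at an active pole -/
structure Loc (g : ℂ → ℂ) (c μ r1 B M : ℝ) : Prop where
  pos : 0 < r1
  le1 : r1 ≤ 1
  Bn : 0 ≤ B
  Mn : 0 ≤ M
  sm : 4 * r1 * (B + 1) ≤ μ
  bd : ∀ z ∈ UO ∩ Metric.ball (c:ℂ) r1, ‖(g z)⁻¹ - I * μ / (z - c)‖ ≤ B
  lp : ∀ z ∈ UO ∩ Metric.ball (c:ℂ) r1, ∀ z' ∈ UO ∩ Metric.ball (c:ℂ) r1,
      ‖((g z)⁻¹ - I * μ / (z - c)) - ((g z')⁻¹ - I * μ / (z' - c))‖ ≤ M * ‖z - z'‖

lemma exists_loc {g : ℂ → ℂ} {c μ : ℝ} {Q : List (ℝ × ℝ)} (hG : Good g ((c, μ) :: Q)) :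
    ∃ r1 B M, Loc g c μ r1 B M := by
  obtain ⟨ρ, hρ, M, hM, hL⟩ := hG.K (c, μ) List.mem_cons_self
  simp only at hL
  have hμ : 0 < μ := hG.mass (c, μ) List.mem_cons_self
  set z0 : ℂ := c + ((ρ / 2 : ℝ) : ℂ) * I with hz0
  have hz0m : z0 ∈ UO ∩ Metric.ball (c:ℂ) ρ := by
    refine ⟨?_, ?_⟩
    · show 0 < z0.im
      simp [hz0]; exact hρ
    · rw [Metric.mem_ball, dist_eq_norm, hz0, add_sub_cancel_left, norm_mul, Complex.norm_real,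
        Complex.norm_I, mul_one, Real.norm_of_nonneg (by positivity)]
      linarith
  set B := ‖(g z0)⁻¹ - I * μ / (z0 - c)‖ + M * (2 * ρ) with hB
  have hBn : 0 ≤ B := by positivity
  set r1 := min (min ρ 1) (μ / (4 * (B + 1))) with hr1
  have hr1p : 0 < r1 := by
    rw [hr1]; exact lt_min (lt_min hρ one_pos) (by positivity)
  have hr1ρ : r1 ≤ ρ := (min_le_left _ _).trans (min_le_left _ _)
  refine ⟨r1, B, M, hr1p, (min_le_left _ _).trans (min_le_right _ _), hBn, hM, ?_, ?_, ?_⟩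
  · have : r1 ≤ μ / (4 * (B + 1)) := min_le_right _ _
    rw [le_div_iff₀ (by positivity)] at this
    linarith
  · intro z hz
    have hzρ : z ∈ UO ∩ Metric.ball (c:ℂ) ρ := ⟨hz.1, Metric.ball_subset_ball hr1ρ hz.2⟩
    have h1 := hL z hzρ z0 hz0m
    have h2 : ‖z - z0‖ ≤ 2 * ρ := by
      have a1 := hzρ.2
      have a2 := hz0m.2
      rw [Metric.mem_ball, dist_eq_norm] at a1 a2
      have : z - z0 = (z - c) - (z0 - c) := by ring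
      rw [this]
      refine (norm_sub_le _ _).trans ?_
      linarith
    have h3 : ‖(g z)⁻¹ - I * μ / (z - c)‖ ≤ ‖(g z0)⁻¹ - I * μ / (z0 - c)‖
        + ‖((g z)⁻¹ - I * μ / (z - c)) - ((g z0)⁻¹ - I * μ / (z0 - c))‖ := by
      have := norm_add_le ((g z0)⁻¹ - I * μ / (z0 - c))
        (((g z)⁻¹ - I * μ / (z - c)) - ((g z0)⁻¹ - I * μ / (z0 - c)))
      simpa using this
    have h4 : M * ‖z - z0‖ ≤ M * (2 * ρ) := by gcongr
    rw [hB]; linarith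
  · intro z hz z' hz'
    exact hL z ⟨hz.1, Metric.ball_subset_ball hr1ρ hz.2⟩ z' ⟨hz'.1, Metric.ball_subset_ball hr1ρ hz'.2⟩

noncomputable def children (r : ℝ) (k : ℕ) (L μ c : ℝ) : List (ℝ × ℝ) :=
  (List.range (k - 1)).map fun i => (c + L * tn k (i + 1), mm r k * μ)

section step
variable {g : ℂ → ℂ} {c μ : ℝ} {Q : List (ℝ × ℝ)} (hG : Good g ((c, μ) :: Q))
  {r1 B M : ℝ} (hl : Loc g c μ r1 B M) {r : ℝ} (h0 : 1 / 2 ≤ r) (h1 : r < 1) {k : ℕ} (hk : 2 ≤ k)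
  {L : ℝ} (hL : 0 < L) (s1 : 44 * L < (1 - r) * r1) (s2 : 176 * μ * L ≤ (1 - r) * r1 ^ 2)
include hG hl h0 h1 hk hL s1 s2

lemma nearP {z : ℂ} (hz : z ∈ UO ∩ Metric.ball (c:ℂ) r1) :
    ‖PP r k L μ c z‖ ≤ 1 ∧ ‖PP r k L μ c z * ((g z)⁻¹ - I * μ / (z - c))‖ ≤ 1 / 2 := by
  have hμ : 0 < μ := hG.mass (c, μ) List.mem_cons_self
  have hp : 0 < 1 - r := by linarith
  have hP := PP_norm_le h0 h1 (by omega : 1 ≤ k) hL hμ c hz.1
  have hzc : ‖z - c‖ < r1 := by rw [← dist_eq_norm]; exact hz.2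
  have h11 : 11 * L / (1 - r) ≤ r1 := by
    rw [div_le_iff₀ hp]
    nlinarith
  have hP2 : ‖PP r k L μ c z‖ ≤ 2 * r1 / μ := by
    refine hP.trans ?_
    gcongr
    linarith
  have hB := hl.bd z hz
  have hsm := hl.sm
  have hBn := hl.Bn
  have hr1 := hl.pos
  have e1 : 2 * r1 / μ ≤ 1 := by
    rw [div_le_one hμ]; nlinarith
  refine ⟨hP2.trans e1, ?_⟩
  rw [norm_mul]
  calc _ ≤ 2 * r1 / μ * B := by gcongr
    _ ≤ 1 / 2 := by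
      rw [div_mul_eq_mul_div, div_le_iff₀ hμ]
      nlinarith

lemma farD {z : ℂ} (hz : z ∈ UO) (hzc : r1 / 2 ≤ ‖z - c‖) :
    ‖g z * ((PP r k L μ c z)⁻¹ - I * μ / (z - c))‖ ≤ 1 / 2 := by
  have hμ : 0 < μ := hG.mass (c, μ) List.mem_cons_self
  have hp : 0 < 1 - r := by linarith
  have hr1 := hl.pos
  have h22 : 22 * L / (1 - r) ≤ ‖z - c‖ := by
    rw [div_le_iff₀ hp]; nlinarith
  rw [← DD_eq h0 h1 (by omega : 1 ≤ k) hL hμ c hz, norm_mul]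
  have h3 := DD_le h0 h1 (by omega : 1 ≤ k) hL hμ c hz h22
  have h4 := hG.norm_le hz
  calc _ ≤ 1 * (22 * μ * L / ((1 - r) * ‖z - c‖ ^ 2)) := by gcongr
    _ ≤ 1 * (22 * μ * L / ((1 - r) * (r1 / 2) ^ 2)) := by gcongr
    _ ≤ 1 / 2 := by
      rw [one_mul, div_le_iff₀ (by positivity)]
      nlinarith

lemma near_diff {z z' : ℂ} (hz : z ∈ UO ∩ Metric.ball (c:ℂ) r1)
    (hz' : z' ∈ UO ∩ Metric.ball (c:ℂ) r1) :
    ‖gnew g r k L μ c z - gnew g r k L μ c z'‖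
      ≤ 4 * (‖PP r k L μ c z - PP r k L μ c z'‖ + M * ‖z - z'‖) := by
  have hμ : 0 < μ := hG.mass (c, μ) List.mem_cons_self
  have p1 := nearP hG hl h0 h1 hk hL s1 s2 hz
  have p2 := nearP hG hl h0 h1 hk hL s1 s2 hz'
  rw [gnew_near (PP_ne h0 h1 (by omega : 1 ≤ k) hL hμ c hz.1),
    gnew_near (PP_ne h0 h1 (by omega : 1 ≤ k) hL hμ c hz'.1)]
  refine (quot_diff p1.2 p2.2).trans ?_
  have h3 := hl.lp z hz z' hz'
  have h4 : ‖PP r k L μ c z‖ * ‖PP r k L μ c z'‖ ≤ 1 :=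
    mul_le_one₀ p1.1 (norm_nonneg _) p2.1
  have h5 : ‖PP r k L μ c z‖ * ‖PP r k L μ c z'‖
      * ‖((g z)⁻¹ - I * μ / (z - c)) - ((g z')⁻¹ - I * μ / (z' - c))‖ ≤ 1 * (M * ‖z - z'‖) := by
    gcongr
  linarith

lemma one_add_le {z : ℂ} (hzc : r1 / 2 ≤ ‖z - c‖) : 1 + ‖z‖ ≤ 5 / r1 * ‖z - c‖ := by
  have hc : |c| < 1 := hG.loc (c, μ) List.mem_cons_self
  have hr1 := hl.pos
  have hle := hl.le1
  have h2 : ‖z‖ ≤ ‖z - c‖ + |c| := by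
    have := norm_add_le (z - c) (c:ℂ)
    rw [sub_add_cancel, Complex.norm_real] at this
    exact this
  have h3 : 2 ≤ 4 / r1 * ‖z - c‖ := by
    calc (2:ℝ) = 4 / r1 * (r1 / 2) := by field_simp; norm_num
      _ ≤ 4 / r1 * ‖z - c‖ := by gcongr
  have h4 : ‖z - c‖ ≤ 1 / r1 * ‖z - c‖ := by
    have : 1 ≤ 1 / r1 := by rw [le_div_iff₀ hr1]; linarith
    nlinarith [norm_nonneg (z - c)]
  have h5 : 5 / r1 * ‖z - c‖ = 4 / r1 * ‖z - c‖ + 1 / r1 * ‖z - c‖ := by ring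
  linarith

lemma far_diff {Λ : ℝ} (hΛ : ∀ z ∈ UO, ∀ z' ∈ UO, ‖g z - g z'‖ ≤ Λ * rho z z')
    {z z' : ℂ} (hz : z ∈ UO) (hz' : z' ∈ UO) (hzc : r1 / 2 ≤ ‖z - c‖) (hzc' : r1 / 2 ≤ ‖z' - c‖) :
    ‖gnew g r k L μ c z - gnew g r k L μ c z'‖
      ≤ 4 * (Λ + 825 * μ / r1 ^ 2) * rho z z' := by
  have hμ : 0 < μ := hG.mass (c, μ) List.mem_cons_self
  have hp : 0 < 1 - r := by linarith
  have hr1 := hl.pos
  have p1 := farD hG hl h0 h1 hk hL s1 s2 hz hzc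
  have p2 := farD hG hl h0 h1 hk hL s1 s2 hz' hzc'
  rw [gnew_far (hG.ne z hz), gnew_far (hG.ne z' hz')]
  refine (quot_diff p1 p2).trans ?_
  rw [← DD_eq h0 h1 (by omega : 1 ≤ k) hL hμ c hz, ← DD_eq h0 h1 (by omega : 1 ≤ k) hL hμ c hz']
  have b1 : 22 * L / (1 - r) < ‖z - c‖ := by
    rw [div_lt_iff₀ hp]; nlinarith
  have b2 : 22 * L / (1 - r) < ‖z' - c‖ := by
    rw [div_lt_iff₀ hp]; nlinarith
  have h3 := DD_lip h0 h1 (by omega : 1 ≤ k) hL hμ c hz hz' b1 b2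
  have g1 := hG.norm_le hz
  have g2 := hG.norm_le hz'
  have q1 := one_add_le hG hl h0 h1 hk hL s1 s2 hzc
  have q2 := one_add_le hG hl h0 h1 hk hL s1 s2 hzc'
  have n1 : 0 < ‖z - c‖ := by linarith
  have n2 : 0 < ‖z' - c‖ := by linarith
  have h5 : 33 * μ * ‖z - z'‖ / (‖z - c‖ * ‖z' - c‖) ≤ 825 * μ / r1 ^ 2 * rho z z' := by
    unfold rho
    have h6 : (1 + ‖z‖) * (1 + ‖z'‖) ≤ (5 / r1 * ‖z - c‖) * (5 / r1 * ‖z' - c‖) := by gcongr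
    calc 33 * μ * ‖z - z'‖ / (‖z - c‖ * ‖z' - c‖)
        = 825 * μ / r1 ^ 2 * (‖z - z'‖ / ((5 / r1 * ‖z - c‖) * (5 / r1 * ‖z' - c‖))) := by
          field_simp; ring
      _ ≤ 825 * μ / r1 ^ 2 * (‖z - z'‖ / ((1 + ‖z‖) * (1 + ‖z'‖))) := by gcongr
  have h7 : ‖g z‖ * ‖g z'‖ * ‖DD r k L μ c z - DD r k L μ c z'‖
      ≤ 1 * (825 * μ / r1 ^ 2 * rho z z') := by
    have : ‖g z‖ * ‖g z'‖ ≤ 1 := mul_le_one₀ g1 (norm_nonneg _) g2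
    apply mul_le_mul this (h3.trans h5) (norm_nonneg _) zero_le_one
  have h8 := hΛ z hz z' hz'
  nlinarith

lemma tri {z z' : ℂ} :
    (‖z - c‖ < r1 ∧ ‖z' - c‖ < r1) ∨ (r1 / 2 ≤ ‖z - c‖ ∧ r1 / 2 ≤ ‖z' - c‖)
      ∨ r1 / 24 ≤ rho z z' := by
  have hr1 := hl.pos
  have hle := hl.le1
  have hc : |c| < 1 := hG.loc (c, μ) List.mem_cons_self
  have key : ∀ z z' : ℂ, ‖z - c‖ < r1 / 2 → r1 ≤ ‖z' - c‖ → r1 / 24 ≤ rho z z' := by
    intro z z' a b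
    have h2 : ‖z‖ ≤ ‖z - c‖ + |c| := by
      have := norm_add_le (z - c) (c:ℂ)
      rw [sub_add_cancel, Complex.norm_real] at this
      exact this
    have h3 : ‖z'‖ ≤ ‖z - z'‖ + ‖z‖ := by
      have := norm_sub_le z (z - z')
      rw [sub_sub_cancel] at this
      linarith
    have h4 : r1 / 2 ≤ ‖z - z'‖ := by
      have : z' - c = (z - c) - (z - z') := by ring
      have h5 := norm_sub_le (z - c) (z - z')
      rw [← this] at h5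
      linarith
    unfold rho
    rw [le_div_iff₀ (by positivity)]
    have h6 : (1 + ‖z‖) * (1 + ‖z'‖) ≤ 3 * (3 + ‖z - z'‖) := by
      apply mul_le_mul (by linarith) (by linarith) (by positivity) (by norm_num)
    calc r1 / 24 * ((1 + ‖z‖) * (1 + ‖z'‖)) ≤ r1 / 24 * (3 * (3 + ‖z - z'‖)) := by gcongr
      _ ≤ ‖z - z'‖ := by nlinarith
  by_cases a : ‖z - c‖ < r1 / 2
  · by_cases b : ‖z' - c‖ < r1
    · left; exact ⟨by linarith, b⟩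
    · right; right; exact key z z' a (not_lt.mp b)
  · by_cases b : ‖z' - c‖ < r1 / 2
    · by_cases a2 : ‖z - c‖ < r1
      · left; exact ⟨a2, by linarith⟩
      · right; right
        have := key z' z b (not_lt.mp a2)
        have e : rho z z' = rho z' z := by unfold rho; rw [norm_sub_rev, mul_comm]
        rw [e]; exact this
    · right; left; exact ⟨not_lt.mp a, not_lt.mp b⟩

end step

end H651P
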