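import Pool.Agent.H651R3.P6

open Complex Set Filter Topology

namespace H651P

lemma poleSum_append (A B : List (ℝ × ℝ)) (z : ℂ) :
    poleSum (A ++ B) z = poleSum A z + poleSum B z := by
  unfold poleSum; rw [List.map_append, List.sum_append]

lemma poleSum_cons (p : ℝ × ℝ) (B : List (ℝ × ℝ)) (z : ℂ) :
    poleSum (p :: B) z = I * p.2 / (z - p.1) + poleSum B z := by
  unfold poleSum; rw [List.map_cons, List.sum_cons]

lemma list_range_sum (f : ℕ → ℂ) (n : ℕ) :
    ((List.range n).map f).sum = ∑ i ∈ Finset.range n, f i := by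
  induction n with
  | zero => simp
  | succ n ih => rw [List.range_succ, List.map_append, List.sum_append, ih, Finset.sum_range_succ]; simp

lemma node_conv {c L : ℝ} (hL : 0 < L) (μ m t : ℝ) (z : ℂ) :
    I * ((m * μ : ℝ) : ℂ) / (z - ((c + L * t : ℝ) : ℂ))
      = ((μ / L : ℝ) : ℂ) * (I * m / ((z - c) / L - t)) := by
  have hL' : (L:ℂ) ≠ 0 := by exact_mod_cast hL.ne'
  have e : (z - c) / (L:ℂ) - t = (z - (c + L * t)) / L := by field_simp; ring
  rw [e]
  push_cast
  rw [div_div_eq_mul_div]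
  field_simp

lemma poleSum_children {r : ℝ} {k : ℕ} {L μ c : ℝ} (hL : 0 < L) (z : ℂ) :
    poleSum (children r k L μ c) z
      = ((μ / L : ℝ) : ℂ) * ∑ j ∈ Finset.Ico 1 k, I * mm r k / ((z - c) / L - tn k j) := by
  unfold poleSum children
  rw [List.map_map, list_range_sum, Finset.sum_Ico_eq_sum_range, Finset.mul_sum]
  apply Finset.sum_congr rfl
  intro i _
  simp only [Function.comp]
  rw [node_conv hL, add_comm 1 i]

section step2
variable {g : ℂ → ℂ} {c μ : ℝ} {Q : List (ℝ × ℝ)} (hG : Good g ((c, μ) :: Q))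
  {r1 B M : ℝ} (hl : Loc g c μ r1 B M) {r : ℝ} (h0 : 1 / 2 ≤ r) (h1 : r < 1) {k : ℕ} (hk : 2 ≤ k)
  {L : ℝ} (hL : 0 < L)
include hG h0 h1 hk hL

lemma key_pos {z : ℂ} (hz : z ∈ UO) :
    (g z)⁻¹ + ((PP r k L μ c z)⁻¹ - I * μ / (z - c)) - poleSum (Q ++ children r k L μ c) z
      = ((g z)⁻¹ - poleSum ((c, μ) :: Q) z) + ((μ / L : ℝ) : ℂ) * Rest r k ((z - c) / L) := by
  have hμ : 0 < μ := hG.mass (c, μ) List.mem_cons_self
  rw [poleSum_append, poleSum_cons, poleSum_children hL, PP_inv h0 h1 (by omega : 1 ≤ k) hL hμ c z,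
    inv_hh_eq h0 h1 (by omega) (wmem hL hz)]
  ring

lemma mm_pos : 0 < mm r k := by
  unfold mm
  have := kap_le r
  have hk0 : (0:ℝ) < k := by exact_mod_cast (by omega : 0 < k)
  apply div_pos _ hk0
  nlinarith

lemma total_re {z : ℂ} (hz : z ∈ UO) :
    1 ≤ ((g z)⁻¹ + ((PP r k L μ c z)⁻¹ - I * μ / (z - c))).re := by
  have hμ : 0 < μ := hG.mass (c, μ) List.mem_cons_self
  have h2 := key_pos hG h0 h1 hk hL hz
  have h3 := hG.pos z hz
  have h4 := Rest_re h0 h1 (by omega : 0 < k) (wmem (c := c) hL hz)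
  have hm := mm_pos hG h0 h1 hk hL
  have h5 : 0 ≤ (poleSum (Q ++ children r k L μ c) z).re := by
    apply poleSum_re _ hz
    intro p hp
    rw [List.mem_append] at hp
    rcases hp with hp | hp
    · exact hG.mass p (List.mem_cons_of_mem _ hp)
    · unfold children at hp
      rw [List.mem_map] at hp
      obtain ⟨i, _, rfl⟩ := hp
      exact mul_pos hm hμ
  have h6 : (g z)⁻¹ + ((PP r k L μ c z)⁻¹ - I * μ / (z - c))
      = ((g z)⁻¹ - poleSum ((c, μ) :: Q) z) + ((μ / L : ℝ) : ℂ) * Rest r k ((z - c) / L)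
        + poleSum (Q ++ children r k L μ c) z := by
    rw [← h2]; ring
  rw [h6, Complex.add_re, Complex.add_re, Complex.re_ofReal_mul]
  have : 0 ≤ μ / L * (Rest r k ((z - c) / L)).re := mul_nonneg (div_pos hμ hL).le h4
  linarith

lemma total_ne {z : ℂ} (hz : z ∈ UO) :
    (g z)⁻¹ + ((PP r k L μ c z)⁻¹ - I * μ / (z - c)) ≠ 0 := by
  intro h
  have := total_re hG h0 h1 hk hL hz
  rw [h] at this
  simp at this
  linarith

include hl

lemma good_new (s1 : 44 * L < (1 - r) * r1) (s2 : 176 * μ * L ≤ (1 - r) * r1 ^ 2)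
    (s3 : L < 1 - |c|) (s4 : ∀ p ∈ Q, 44 * L < (1 - r) * |p.1 - c|) :
    Good (gnew g r k L μ c) (Q ++ children r k L μ c) := by
  have hμ : 0 < μ := hG.mass (c, μ) List.mem_cons_self
  have hm := mm_pos hG h0 h1 hk hL
  have hp : 0 < 1 - r := by linarith
  have hr1 := hl.pos
  have hr1le := hl.le1
  have hc : |c| < 1 := hG.loc (c, μ) List.mem_cons_self
  have hLr1 : L < r1 := by nlinarith
  have htn : ∀ i, i < k - 1 → |tn k (i + 1)| < 1 := by
    intro i hi
    have := tn_lt (k := k) (j := i + 1) (by rw [Finset.mem_Ico]; omega)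
    rw [abs_lt]; exact this
  have zc_ne : ∀ z ∈ UO, ∀ x : ℝ, z - (x:ℂ) ≠ 0 := by
    intro z hz x h
    have : z = x := by linear_combination h
    subst this; simp [UO] at hz
  refine ⟨?_, ?_, ?_, ?_, ?_, ?_, ?_, ?_⟩
  · -- differentiability
    intro z hz
    unfold gnew
    have hzn : UO ∈ 𝓝 z := isOpen_UO.mem_nhds hz
    apply DifferentiableAt.differentiableWithinAt
    have d1 : DifferentiableAt ℂ g z := (hG.dif z hz).differentiableAt hzn
    have d2 : DifferentiableAt ℂ (PP r k L μ c) z := by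
      unfold PP
      apply DifferentiableAt.const_mul
      have := (hasDerivAt_hh h0 h1 k (wmem (c := c) hL hz)).differentiableAt
      have d3 : DifferentiableAt ℂ (fun z : ℂ => (z - c) / (L:ℂ)) z := by fun_prop
      exact DifferentiableAt.comp z this d3
    apply DifferentiableAt.fun_inv
    · apply (d1.fun_inv (hG.ne z hz)).add
      apply (d2.fun_inv (PP_ne h0 h1 (by omega : 1 ≤ k) hL hμ c hz)).sub
      have hzc := zc_ne z hz c
      have d5 : DifferentiableAt ℂ (fun i : ℂ => i - (c:ℂ)) z := by fun_prop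
      exact DifferentiableAt.fun_div (differentiableAt_const (I * (μ:ℂ))) d5 hzc
    · exact total_ne hG h0 h1 hk hL hz
  · intro z hz
    exact inv_ne_zero (total_ne hG h0 h1 hk hL hz)
  · -- Lipschitz
    obtain ⟨Λ, hΛ0, hΛ⟩ := hG.lip
    have hMn := hl.Mn
    refine ⟨36 * (28 * k / (1 - r) ^ 2 / μ + M) + 4 * (Λ + 825 * μ / r1 ^ 2) + 48 / r1,
      by positivity, ?_⟩
    intro z hz z' hz'
    have hrho := rho_nonneg z z'
    have e1 : 0 ≤ 36 * (28 * k / (1 - r) ^ 2 / μ + M) := by positivity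
    have e2 : 0 ≤ 4 * (Λ + 825 * μ / r1 ^ 2) := by positivity
    have e3 : 0 ≤ 48 / r1 := by positivity
    rcases tri hG hl h0 h1 hk hL s1 s2 (z := z) (z' := z') with ⟨a, b⟩ | ⟨a, b⟩ | a
    · have ha : z ∈ UO ∩ Metric.ball (c:ℂ) r1 := ⟨hz, by rw [Metric.mem_ball, dist_eq_norm]; exact a⟩
      have hb : z' ∈ UO ∩ Metric.ball (c:ℂ) r1 := ⟨hz', by rw [Metric.mem_ball, dist_eq_norm]; exact b⟩
      have h3 := near_diff hG hl h0 h1 hk hL s1 s2 ha hb
      have h4 := PP_lip h0 h1 (by omega : 1 ≤ k) hL hμ c hz hz'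
      have h5 : ‖z - z'‖ ≤ 9 * rho z z' := by
        unfold rho
        have nz : ∀ z : ℂ, ‖z - c‖ < r1 → 1 + ‖z‖ ≤ 3 := by
          intro z hz
          have := norm_add_le (z - c) (c:ℂ)
          rw [sub_add_cancel, Complex.norm_real, Real.norm_eq_abs] at this
          linarith
        have n1 := nz z a
        have n2 := nz z' b
        rw [mul_div_assoc', le_div_iff₀ (by positivity)]
        have : (1 + ‖z‖) * (1 + ‖z'‖) ≤ 3 * 3 := by gcongr
        nlinarith [norm_nonneg (z - z')]
      calc _ ≤ 4 * (28 * k / (1 - r) ^ 2 / μ * ‖z - z'‖ + M * ‖z - z'‖) := by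
            refine h3.trans ?_
            gcongr
        _ = 4 * (28 * k / (1 - r) ^ 2 / μ + M) * ‖z - z'‖ := by ring
        _ ≤ 4 * (28 * k / (1 - r) ^ 2 / μ + M) * (9 * rho z z') := by gcongr
        _ = 36 * (28 * k / (1 - r) ^ 2 / μ + M) * rho z z' := by ring
        _ ≤ _ := by
          apply mul_le_mul_of_nonneg_right _ hrho
          linarith
    · refine (far_diff hG hl h0 h1 hk hL s1 s2 hΛ hz hz' a b).trans ?_
      apply mul_le_mul_of_nonneg_right _ hrho
      linarith
    · have nle : ∀ z ∈ UO, ‖gnew g r k L μ c z‖ ≤ 1 := by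
        intro z hz
        unfold gnew
        rw [norm_inv]
        exact inv_le_one_of_one_le₀ ((total_re hG h0 h1 hk hL hz).trans (Complex.re_le_norm _))
      have h3 := norm_sub_le (gnew g r k L μ c z) (gnew g r k L μ c z')
      have h4 := nle z hz
      have h5 := nle z' hz'
      have h6 : 2 ≤ 48 / r1 * rho z z' := by
        calc (2:ℝ) = 48 / r1 * (r1 / 24) := by field_simp; norm_num
          _ ≤ _ := by gcongr
      have h7 : 48 / r1 * rho z z' ≤ (36 * (28 * k / (1 - r) ^ 2 / μ + M) + 4 * (Λ + 825 * μ / r1 ^ 2) + 48 / r1) * rho z z' := by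
        apply mul_le_mul_of_nonneg_right _ hrho
        linarith
      linarith
  · -- positivity
    intro z hz
    unfold gnew
    rw [inv_inv, key_pos hG h0 h1 hk hL hz, Complex.add_re, Complex.re_ofReal_mul]
    have h3 := hG.pos z hz
    have h4 := Rest_re h0 h1 (by omega : 0 < k) (wmem (c := c) hL hz)
    have : 0 ≤ μ / L * (Rest r k ((z - c) / L)).re := mul_nonneg (div_pos hμ hL).le h4
    linarith
  · intro p hpp
    rw [List.mem_append] at hpp
    rcases hpp with hpp | hpp
    · exact hG.mass p (List.mem_cons_of_mem _ hpp)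
    · unfold children at hpp
      rw [List.mem_map] at hpp
      obtain ⟨i, _, rfl⟩ := hpp
      exact mul_pos hm hμ
  · intro p hpp
    rw [List.mem_append] at hpp
    rcases hpp with hpp | hpp
    · exact hG.loc p (List.mem_cons_of_mem _ hpp)
    · unfold children at hpp
      rw [List.mem_map] at hpp
      obtain ⟨i, hi, rfl⟩ := hpp
      rw [List.mem_range] at hi
      have ht := htn i hi
      simp only
      calc |c + L * tn k (i + 1)| ≤ |c| + |L * tn k (i + 1)| := abs_add_le _ _
        _ = |c| + L * |tn k (i + 1)| := by rw [abs_mul, abs_of_pos hL]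
        _ ≤ |c| + L * 1 := by gcongr
        _ < 1 := by linarith
  · -- nodup
    rw [List.map_append]
    have hnd := hG.nodup
    rw [List.map_cons, List.nodup_cons] at hnd
    rw [List.nodup_append']
    refine ⟨hnd.2, ?_, ?_⟩
    · unfold children
      rw [List.map_map]
      apply List.Nodup.map_on _ List.nodup_range
      intro i hi j hj hij
      rw [List.mem_range] at hi hj
      simp only [Function.comp] at hij
      have h3 : tn k (i + 1) = tn k (j + 1) := by
        have : L * tn k (i + 1) = L * tn k (j + 1) := by linarith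
        exact mul_left_cancel₀ hL.ne' this
      have := tn_inj (k := k) (by rw [Finset.mem_Ico]; omega) (by rw [Finset.mem_Ico]; omega) h3
      omega
    · intro x hx hx'
      rw [List.mem_map] at hx hx'
      obtain ⟨p, hp1, rfl⟩ := hx
      obtain ⟨q, hq1, hq2⟩ := hx'
      unfold children at hq1
      rw [List.mem_map] at hq1
      obtain ⟨i, hi, rfl⟩ := hq1
      rw [List.mem_range] at hi
      simp only at hq2
      have h3 := s4 p hp1
      rw [← hq2] at h3
      have ht := htn i hi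
      have h5 : |c + L * tn k (i + 1) - c| ≤ L := by
        rw [add_sub_cancel_left, abs_mul, abs_of_pos hL]
        nlinarith [abs_nonneg (tn k (i + 1))]
      nlinarith [abs_nonneg (c + L * tn k (i + 1) - c)]
  · -- local Lipschitz
    intro p hpp
    rw [List.mem_append] at hpp
    rcases hpp with hpp | hpp
    · obtain ⟨ρ, hρ, Mp, hMp, hK⟩ := hG.K p (List.mem_cons_of_mem _ hpp)
      have h3 := s4 p hpp
      have hd : 0 < |p.1 - c| := by
        by_contra h
        have : |p.1 - c| = 0 := le_antisymm (not_lt.mp h) (abs_nonneg _)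
        rw [this] at h3; linarith
      set d := |p.1 - c| with hddef
      refine ⟨min ρ (d / 2), lt_min hρ (by linarith), Mp + 132 * μ / d ^ 2, by positivity, ?_⟩
      intro z hz z' hz'
      have hzρ : z ∈ UO ∩ Metric.ball (p.1:ℂ) ρ :=
        ⟨hz.1, Metric.ball_subset_ball (min_le_left _ _) hz.2⟩
      have hzρ' : z' ∈ UO ∩ Metric.ball (p.1:ℂ) ρ :=
        ⟨hz'.1, Metric.ball_subset_ball (min_le_left _ _) hz'.2⟩
      have h4 := hK z hzρ z' hzρ'
      have far : ∀ z ∈ UO ∩ Metric.ball (p.1:ℂ) (min ρ (d / 2)), d / 2 ≤ ‖z - c‖ := by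
        intro z hz
        have a1 : ‖z - p.1‖ < d / 2 := by
          have := Metric.ball_subset_ball (min_le_right ρ (d / 2)) hz.2
          rwa [Metric.mem_ball, dist_eq_norm] at this
        have a2 : ‖((p.1:ℂ) - c)‖ = d := by
          rw [← Complex.ofReal_sub, Complex.norm_real, hddef, Real.norm_eq_abs]
        have a3 : ((p.1:ℂ) - c) = (z - c) - (z - p.1) := by ring
        have a4 := norm_sub_le (z - c) (z - p.1)
        rw [← a3, a2] at a4
        linarith
      have f1 := far z hz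
      have f2 := far z' hz'
      have g1 : 22 * L / (1 - r) < ‖z - c‖ := by
        rw [div_lt_iff₀ hp]; nlinarith
      have g2 : 22 * L / (1 - r) < ‖z' - c‖ := by
        rw [div_lt_iff₀ hp]; nlinarith
      have h5 := DD_lip h0 h1 (by omega : 1 ≤ k) hL hμ c hz.1 hz'.1 g1 g2
      have h6 : 33 * μ * ‖z - z'‖ / (‖z - c‖ * ‖z' - c‖) ≤ 132 * μ / d ^ 2 * ‖z - z'‖ := by
        calc _ ≤ 33 * μ * ‖z - z'‖ / (d / 2 * (d / 2)) := by gcongr
          _ = 132 * μ / d ^ 2 * ‖z - z'‖ := by field_simp; ring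
      have e : ∀ z ∈ UO, (gnew g r k L μ c z)⁻¹ - I * p.2 / (z - p.1)
          = ((g z)⁻¹ - I * p.2 / (z - p.1)) + DD r k L μ c z := by
        intro z hz
        unfold gnew
        rw [inv_inv, DD_eq h0 h1 (by omega : 1 ≤ k) hL hμ c hz]
        ring
      rw [e z hz.1, e z' hz'.1]
      have e2 : ((g z)⁻¹ - I * p.2 / (z - p.1)) + DD r k L μ c z
          - (((g z')⁻¹ - I * p.2 / (z' - p.1)) + DD r k L μ c z')
          = (((g z)⁻¹ - I * p.2 / (z - p.1)) - ((g z')⁻¹ - I * p.2 / (z' - p.1)))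
            + (DD r k L μ c z - DD r k L μ c z') := by ring
      rw [e2]
      refine (norm_add_le _ _).trans ?_
      rw [add_mul]
      linarith
    · unfold children at hpp
      rw [List.mem_map] at hpp
      obtain ⟨i, hi, rfl⟩ := hpp
      rw [List.mem_range] at hi
      simp only
      have ht := htn i hi
      obtain ⟨ρ, hρ, Mj, hMj, hN⟩ := node_lip h0 h1 (k := k) (j := i + 1)
        (by rw [Finset.mem_Ico]; omega)
      set t := tn k (i + 1) with htdef
      have hMn := hl.Mn
      refine ⟨min (L * ρ) (r1 - L), lt_min (by positivity) (by linarith),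
        M + μ / L * (Mj * (1 / L)), by positivity, ?_⟩
      intro z hz z' hz'
      have mc : ∀ z ∈ UO ∩ Metric.ball ((c + L * t : ℝ) : ℂ) (min (L * ρ) (r1 - L)),
          z ∈ UO ∩ Metric.ball (c:ℂ) r1 := by
        intro z hz
        refine ⟨hz.1, ?_⟩
        have a1 := Metric.ball_subset_ball (min_le_right (L * ρ) (r1 - L)) hz.2
        rw [Metric.mem_ball, dist_eq_norm] at a1 ⊢
        have a3 : z - c = (z - ((c + L * t : ℝ) : ℂ)) + ((L * t : ℝ) : ℂ) := by push_cast; ring
        rw [a3]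
        refine (norm_add_le _ _).trans_lt ?_
        rw [Complex.norm_real, Real.norm_eq_abs, abs_mul, abs_of_pos hL]
        nlinarith [abs_nonneg t]
      have mw : ∀ z ∈ UO ∩ Metric.ball ((c + L * t : ℝ) : ℂ) (min (L * ρ) (r1 - L)),
          (z - c) / L ∈ UO ∩ Metric.ball (t:ℂ) ρ := by
        intro z hz
        refine ⟨wmem hL hz.1, ?_⟩
        have a1 := Metric.ball_subset_ball (min_le_left (L * ρ) (r1 - L)) hz.2
        rw [Metric.mem_ball, dist_eq_norm] at a1 ⊢
        have hL' : (L:ℂ) ≠ 0 := by exact_mod_cast hL.ne'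
        have a3 : (z - c) / (L:ℂ) - t = (z - ((c + L * t : ℝ) : ℂ)) / L := by
          push_cast; field_simp; ring
        rw [a3, norm_div, Complex.norm_real, Real.norm_of_nonneg hL.le, div_lt_iff₀ hL]
        linarith
      have h4 := hl.lp z (mc z hz) z' (mc z' hz')
      have h5 := hN _ (mw z hz) _ (mw z' hz')
      rw [wdiff hL] at h5
      have e : ∀ z ∈ UO, (gnew g r k L μ c z)⁻¹
            - I * ((mm r k * μ : ℝ) : ℂ) / (z - ((c + L * t : ℝ) : ℂ))
          = ((g z)⁻¹ - I * μ / (z - c)) + ((μ / L : ℝ) : ℂ)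
            * ((hh r k ((z - c) / L))⁻¹ - I * mm r k / ((z - c) / L - t)) := by
        intro z hz
        unfold gnew
        rw [inv_inv, PP_inv h0 h1 (by omega : 1 ≤ k) hL hμ c z, node_conv hL]
        ring
      rw [e z hz.1, e z' hz'.1]
      have e2 : ∀ a a' b b' s : ℂ, (a + s * b) - (a' + s * b') = (a - a') + s * (b - b') := by
        intros; ring
      rw [e2]
      refine (norm_add_le _ _).trans ?_
      rw [norm_mul, Complex.norm_real, Real.norm_of_nonneg (div_pos hμ hL).le, add_mul]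
      have h6 : μ / L * ‖(hh r k ((z - c) / L))⁻¹ - I * mm r k / ((z - c) / L - t)
          - ((hh r k ((z' - c) / L))⁻¹ - I * mm r k / ((z' - c) / L - t))‖
          ≤ μ / L * (Mj * (‖z - z'‖ / L)) := by gcongr
      have h7 : μ / L * (Mj * (‖z - z'‖ / L)) = μ / L * (Mj * (1 / L)) * ‖z - z'‖ := by ring
      linarith

end step2

end H651P
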