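import Pool.Agent.H651R3.P7

open Complex Set Filter Topology

namespace H651P

lemma small_exists {α A : ℝ} (hα1 : α < 1) (hA : 0 ≤ A) :
    ∃ δ > 0, ∀ x : ℝ, 0 ≤ x → x ≤ δ → A * x ^ (1 - α) ≤ 1 := by
  refine ⟨(1 / (A + 1)) ^ (1 / (1 - α)), by positivity, ?_⟩
  intro x hx0 hx
  have h1 : x ^ (1 - α) ≤ ((1 / (A + 1)) ^ (1 / (1 - α))) ^ (1 - α) :=
    Real.rpow_le_rpow hx0 hx (by linarith)
  rw [← Real.rpow_mul (by positivity), one_div_mul_cancel (by linarith), Real.rpow_one] at h1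
  calc A * x ^ (1 - α) ≤ A * (1 / (A + 1)) := by gcongr
    _ ≤ 1 := by rw [mul_one_div, div_le_one (by positivity)]; linarith

lemma ev_lin (a : ℝ) {b : ℝ} (hb : 0 < b) : ∀ᶠ x in 𝓝 (0:ℝ), a * x < b := by
  have h : Tendsto (fun x : ℝ => a * x) (𝓝 0) (𝓝 (a * 0)) :=
    (continuous_const.mul continuous_id).tendsto 0
  rw [mul_zero] at h
  exact h.eventually (gt_mem_nhds hb)

lemma Loc.g_small {g : ℂ → ℂ} {c μ : ℝ} {Q : List (ℝ × ℝ)} (hG : Good g ((c, μ) :: Q))
    {r1 B M : ℝ} (hl : Loc g c μ r1 B M) {z : ℂ} (hz : z ∈ UO ∩ Metric.ball (c:ℂ) r1) :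
    ‖g z‖ ≤ 2 * ‖z - c‖ / μ := by
  have hμ : 0 < μ := hG.mass (c, μ) List.mem_cons_self
  have hne := hG.ne z hz.1
  have hzc : z - c ≠ 0 := by
    intro h
    have h2 : z = c := by linear_combination h
    have h3 : z ∈ UO := hz.1
    rw [h2] at h3; simp [UO] at h3
  have hn : 0 < ‖z - c‖ := norm_pos_iff.mpr hzc
  have hlt : ‖z - c‖ < r1 := by rw [← dist_eq_norm]; exact hz.2
  have hb := hl.bd z hz
  have hBn := hl.Bn
  have hsm := hl.sm
  have h1 : ‖I * μ / (z - c)‖ = μ / ‖z - c‖ := by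
    rw [norm_div, norm_mul, Complex.norm_I, one_mul, Complex.norm_real, Real.norm_of_nonneg hμ.le]
  have h2 : μ / ‖z - c‖ - B ≤ ‖(g z)⁻¹‖ := by
    have := norm_sub_norm_le (I * μ / (z - c)) (I * μ / (z - c) - (g z)⁻¹)
    rw [sub_sub_cancel, norm_sub_rev (I * μ / (z - c)) (g z)⁻¹, h1] at this
    linarith
  have h3 : B ≤ μ / (2 * ‖z - c‖) := by
    rw [le_div_iff₀ (by positivity)]
    have : B * (2 * ‖z - c‖) ≤ B * (2 * r1) := by gcongr
    nlinarith [hl.pos]
  have h4 : μ / (2 * ‖z - c‖) ≤ ‖(g z)⁻¹‖ := by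
    have : μ / ‖z - c‖ = 2 * (μ / (2 * ‖z - c‖)) := by field_simp
    linarith
  rw [norm_inv] at h4
  have h5 : 0 < ‖g z‖ := norm_pos_iff.mpr hne
  rw [div_le_iff₀ (by positivity), inv_mul_eq_div, le_div_iff₀ h5] at h4
  rw [le_div_iff₀ hμ]; linarith

theorem step {α : ℝ} (hα0 : 0 < α) (hα1 : α < 1) {g : ℂ → ℂ} {c μ : ℝ} {Q : List (ℝ × ℝ)}
    (hG : Good g ((c, μ) :: Q)) {r : ℝ} (h0 : 1 / 2 ≤ r) (h1 : r < 1) :
    ∃ δ > 0, ∀ ε > 0, ∃ (l : ℕ) (L : ℝ), 1 ≤ l ∧ 2 / ((2 * l : ℕ) : ℝ) ≤ (1 - r) ^ 2 ∧ 0 < L ∧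
      2 * L ≤ ε ∧ L ^ (1 - α) = (1 - r) ^ (1 + α) * ((2 * l : ℕ) : ℝ) ^ (-α) * μ ∧
      Good (gnew g r (2 * l) L μ c) (Q ++ children r (2 * l) L μ c) ∧
      (∀ z ∈ UO, ‖gnew g r (2 * l) L μ c z - g z‖ ≤ ε / (1 + ‖z‖)) ∧
      (∀ z ∈ UO, ∀ z' ∈ UO, rho z z' ≤ δ →
        ‖gnew g r (2 * l) L μ c z - gnew g r (2 * l) L μ c z'‖ ≤ 1100 * rho z z' ^ α) := by
  have hμ : 0 < μ := hG.mass (c, μ) List.mem_cons_self
  have hc : |c| < 1 := hG.loc (c, μ) List.mem_cons_self
  have hp : 0 < 1 - r := by linarith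
  obtain ⟨r1, B, M, hl⟩ := exists_loc hG
  have hr1 := hl.pos
  have hr1le := hl.le1
  have hMn := hl.Mn
  obtain ⟨Λ, hΛ0, hΛ⟩ := hG.lip
  obtain ⟨d1, hd1, hd1'⟩ := small_exists (α := α) (A := 1 / μ + M) hα1 (by positivity)
  obtain ⟨d2, hd2, hd2'⟩ := small_exists (α := α) (A := 4 * (Λ + 825 * μ / r1 ^ 2)) hα1
    (by positivity)
  refine ⟨min (min (d1 / 9) d2) (r1 / 25), lt_min (lt_min (by positivity) hd2) (by positivity), ?_⟩
  intro ε hε
  set r2 := min (r1 / 2) (ε * μ / 18) with hr2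
  have hr2p : 0 < r2 := lt_min (by positivity) (by positivity)
  have hr2a : r2 ≤ r1 / 2 := min_le_left _ _
  have hr2b : r2 ≤ ε * μ / 18 := min_le_right _ _
  -- choice of l
  set Lf : ℕ → ℝ := fun l => ((1 - r) ^ (1 + α) * ((2 * l : ℕ) : ℝ) ^ (-α) * μ) ^ (1 / (1 - α)) with hLf
  have tend : Tendsto Lf atTop (𝓝 0) := by
    have t1 : Tendsto (fun l : ℕ => ((2 * l : ℕ) : ℝ)) atTop atTop := by
      have : Tendsto (fun l : ℕ => 2 * l) atTop atTop :=
        tendsto_atTop_mono (fun l => by simp only [id]; omega) tendsto_id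
      exact tendsto_natCast_atTop_atTop.comp this
    have t2 : Tendsto (fun l : ℕ => ((2 * l : ℕ) : ℝ) ^ (-α)) atTop (𝓝 0) :=
      (tendsto_rpow_neg_atTop hα0).comp t1
    have t3 : Tendsto (fun l : ℕ => (1 - r) ^ (1 + α) * ((2 * l : ℕ) : ℝ) ^ (-α) * μ) atTop (𝓝 0) := by
      have := (t2.const_mul ((1 - r) ^ (1 + α))).mul_const μ
      simpa using this
    have t4 : Tendsto (fun x : ℝ => x ^ (1 / (1 - α))) (𝓝 0) (𝓝 0) := by
      have hpos : 0 < 1 / (1 - α) := by apply one_div_pos.mpr; linarith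
      have : ContinuousAt (fun x : ℝ => x ^ (1 / (1 - α))) 0 :=
        Real.continuousAt_rpow_const 0 _ (Or.inr hpos.le)
      have h := this.tendsto
      rw [Real.zero_rpow hpos.ne'] at h
      exact h
    exact t4.comp t3
  have hQ : ∀ p ∈ Q, 0 < |p.1 - c| := by
    intro p hpQ
    rw [abs_pos, sub_ne_zero]
    intro h
    have hnd := hG.nodup
    rw [List.map_cons, List.nodup_cons] at hnd
    apply hnd.1
    rw [List.mem_map]
    exact ⟨p, hpQ, h⟩
  have ev4 : ∀ᶠ L in 𝓝 (0:ℝ), ∀ p ∈ Q, 44 * L < (1 - r) * |p.1 - c| := by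
    classical
    have : ∀ᶠ L in 𝓝 (0:ℝ), ∀ p ∈ Q.toFinset, 44 * L < (1 - r) * |p.1 - c| := by
      rw [Filter.eventually_all_finset]
      intro p hpQ
      rw [List.mem_toFinset] at hpQ
      exact ev_lin 44 (mul_pos hp (hQ p hpQ))
    filter_upwards [this] with L hL p hpQ
    exact hL p (List.mem_toFinset.mpr hpQ)
  have evk : ∀ᶠ l : ℕ in atTop, 2 / ((2 * l : ℕ) : ℝ) ≤ (1 - r) ^ 2 := by
    have t1 : Tendsto (fun l : ℕ => ((2 * l : ℕ) : ℝ)) atTop atTop := by
      have : Tendsto (fun l : ℕ => 2 * l) atTop atTop :=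
        tendsto_atTop_mono (fun l => by simp only [id]; omega) tendsto_id
      exact tendsto_natCast_atTop_atTop.comp this
    have := (t1.const_div_atTop 2).eventually (gt_mem_nhds (show (0:ℝ) < (1 - r) ^ 2 by positivity))
    filter_upwards [this] with l hl using hl.le
  have evAll := (tend.eventually (((ev_lin 44 (mul_pos hp hr1)).and
    (ev_lin (176 * μ) (show 0 < (1 - r) * r1 ^ 2 by positivity))).and
    (((ev_lin 1 (show 0 < 1 - |c| by linarith)).and ev4).and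
    (((ev_lin 22 (mul_pos hp hr2p)).and
      (ev_lin (66 * μ) (show 0 < ε * (1 - r) * r2 ^ 2 by positivity))).and
      (ev_lin 2 hε))))).and (evk.and (eventually_ge_atTop 1))
  obtain ⟨l, ⟨⟨⟨s1, s2⟩, ⟨s3, s4⟩, ⟨s5, s6⟩, s7⟩, s8, s9⟩⟩ := evAll.exists
  have hbase : 0 < (1 - r) ^ (1 + α) * ((2 * l : ℕ) : ℝ) ^ (-α) * μ := by
    have : (0:ℝ) < ((2 * l : ℕ) : ℝ) := by exact_mod_cast (by omega : 0 < 2 * l)
    positivity
  have hL : 0 < Lf l := by
    rw [hLf]; positivity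
  have hLk : (Lf l) ^ (1 - α) = (1 - r) ^ (1 + α) * ((2 * l : ℕ) : ℝ) ^ (-α) * μ := by
    rw [hLf]
    simp only
    rw [← Real.rpow_mul hbase.le, one_div_mul_cancel (by linarith), Real.rpow_one]
  set L := Lf l with hLdef
  rw [one_mul] at s3
  have hk : 2 ≤ 2 * l := by omega
  have s4' := s4
  have hgood := good_new hG hl h0 h1 hk hL s1 s2.le s3 s4
  refine ⟨l, L, s9, s8, hL, s7.le, hLk, hgood, ?_, ?_⟩
  · -- closeness
    intro z hz
    have hgn := hgood.norm_le hz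
    have hgg := hG.norm_le hz
    rcases lt_or_ge ‖z - c‖ r2 with h | h
    · have hzr : z ∈ UO ∩ Metric.ball (c:ℂ) r1 :=
        ⟨hz, by rw [Metric.mem_ball, dist_eq_norm]; linarith⟩
      have a1 := Loc.g_small hG hl hzr
      have a2 := nearP hG hl h0 h1 hk hL s1 s2.le hzr
      have a3 := PP_norm_le h0 h1 (by omega : 1 ≤ 2 * l) hL hμ c hz
      have a4 : ‖gnew g r (2 * l) L μ c z‖ ≤ 2 * ‖PP r (2 * l) L μ c z‖ := by
        rw [gnew_near (PP_ne h0 h1 (by omega : 1 ≤ 2 * l) hL hμ c hz), norm_div]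
        have := half_le a2.2
        rw [div_le_iff₀ (by linarith)]
        nlinarith [norm_nonneg (PP r (2 * l) L μ c z)]
      have a5 : 11 * L / (1 - r) ≤ r2 := by
        rw [div_le_iff₀ hp]; nlinarith
      have a6 : ‖PP r (2 * l) L μ c z‖ ≤ 2 * r2 / μ := by
        refine a3.trans ?_
        gcongr; linarith
      have a7 : 2 * ‖z - c‖ / μ ≤ 2 * r2 / μ := by gcongr
      have a8 : 6 * r2 / μ ≤ ε / 3 := by
        rw [div_le_div_iff₀ hμ (by norm_num)]; nlinarith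
      have a9 : 1 + ‖z‖ ≤ 3 := by
        have := norm_add_le (z - c) (c:ℂ)
        rw [sub_add_cancel, Complex.norm_real, Real.norm_eq_abs] at this
        linarith
      have a10 : ε / 3 ≤ ε / (1 + ‖z‖) := by gcongr
      have a11 : 6 * r2 / μ = 2 * (2 * r2 / μ) + 2 * r2 / μ := by ring
      calc _ ≤ ‖gnew g r (2 * l) L μ c z‖ + ‖g z‖ := norm_sub_le _ _
        _ ≤ ε / (1 + ‖z‖) := by linarith
    · have b0 : 22 * L / (1 - r) ≤ ‖z - c‖ := by
        rw [div_le_iff₀ hp]; nlinarith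
      have b1 := DD_le h0 h1 (by omega : 1 ≤ 2 * l) hL hμ c hz b0
      have hzc : 0 < ‖z - c‖ := by linarith
      have b2 : gnew g r (2 * l) L μ c z - g z
          = -(g z * gnew g r (2 * l) L μ c z * DD r (2 * l) L μ c z) := by
        have n1 := hG.ne z hz
        have n2 := hgood.ne z hz
        have e : (gnew g r (2 * l) L μ c z)⁻¹ = (g z)⁻¹ + DD r (2 * l) L μ c z := by
          unfold gnew
          rw [inv_inv, DD_eq h0 h1 (by omega : 1 ≤ 2 * l) hL hμ c hz]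
        have e2 : DD r (2 * l) L μ c z = (gnew g r (2 * l) L μ c z)⁻¹ - (g z)⁻¹ := by
          rw [e]; ring
        rw [e2]
        field_simp
        ring
      rw [b2, norm_neg, norm_mul, norm_mul]
      have b3 : 1 + ‖z‖ ≤ 3 / r2 * ‖z - c‖ := by
        have c1 := norm_add_le (z - c) (c:ℂ)
        rw [sub_add_cancel, Complex.norm_real, Real.norm_eq_abs] at c1
        have c2 : 2 ≤ 2 / r2 * ‖z - c‖ := by
          calc (2:ℝ) = 2 / r2 * r2 := by field_simp
            _ ≤ _ := by gcongr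
        have c3 : ‖z - c‖ ≤ 1 / r2 * ‖z - c‖ := by
          have : 1 ≤ 1 / r2 := by rw [le_div_iff₀ hr2p]; linarith
          nlinarith
        have c4 : 3 / r2 * ‖z - c‖ = 2 / r2 * ‖z - c‖ + 1 / r2 * ‖z - c‖ := by ring
        linarith
      calc _ ≤ 1 * 1 * (22 * μ * L / ((1 - r) * ‖z - c‖ ^ 2)) := by gcongr
        _ = 22 * μ * L / (1 - r) * (1 / ‖z - c‖) * (1 / ‖z - c‖) := by field_simp
        _ ≤ 22 * μ * L / (1 - r) * (1 / r2) * (3 / r2 / (1 + ‖z‖)) := by
            have f1 : 1 / ‖z - c‖ ≤ 1 / r2 := one_div_le_one_div_of_le hr2p h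
            have f2 : 1 / ‖z - c‖ ≤ 3 / r2 / (1 + ‖z‖) := by
              rw [div_le_div_iff₀ hzc (by positivity)]
              linarith
            apply mul_le_mul _ f2 (by positivity) (by positivity)
            apply mul_le_mul_of_nonneg_left f1 (by positivity)
        _ = (66 * μ * L) / ((1 - r) * r2 ^ 2) / (1 + ‖z‖) := by field_simp; ring
        _ ≤ ε / (1 + ‖z‖) := by
            gcongr
            rw [div_le_iff₀ (by positivity)]
            nlinarith
  · -- Hoelder bound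
    intro z hz z' hz' hd
    have hrho := rho_nonneg z z'
    have hδ1 : rho z z' ≤ d1 / 9 := hd.trans ((min_le_left _ _).trans (min_le_left _ _))
    have hδ2 : rho z z' ≤ d2 := hd.trans ((min_le_left _ _).trans (min_le_right _ _))
    have hδ3 : rho z z' ≤ r1 / 25 := hd.trans (min_le_right _ _)
    have hra : 0 ≤ rho z z' ^ α := Real.rpow_nonneg hrho _
    rcases tri hG hl h0 h1 hk hL s1 s2.le (z := z) (z' := z') with ⟨a, b⟩ | ⟨a, b⟩ | a
    · have ha : z ∈ UO ∩ Metric.ball (c:ℂ) r1 := ⟨hz, by rw [Metric.mem_ball, dist_eq_norm]; exact a⟩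
      have hb : z' ∈ UO ∩ Metric.ball (c:ℂ) r1 := ⟨hz', by rw [Metric.mem_ball, dist_eq_norm]; exact b⟩
      have h3 := near_diff hG hl h0 h1 hk hL s1 s2.le ha hb
      have h4 := PP_hold h0 h1 (by omega : 1 ≤ 2 * l) hL hμ c hα0 hα1 hLk hz hz'
      have h5 : ‖z - z'‖ ≤ 9 * rho z z' := by
        unfold rho
        have nz : ∀ z : ℂ, ‖z - c‖ < r1 → 1 + ‖z‖ ≤ 3 := by
          intro z hz
          have := norm_add_le (z - c) (c:ℂ)
          rw [sub_add_cancel, Complex.norm_real, Real.norm_eq_abs] at this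
          linarith
        have n1 := nz z a
        have n2 := nz z' b
        rw [mul_div_assoc', le_div_iff₀ (by positivity)]
        have : (1 + ‖z‖) * (1 + ‖z'‖) ≤ 3 * 3 := by gcongr
        nlinarith [norm_nonneg (z - z')]
      set d := ‖z - z'‖ with hddef
      have hd0 : 0 ≤ d := norm_nonneg _
      have h6 : (1 / μ + M) * d ≤ d ^ α := by
        have e1 : d = d ^ (1 - α) * d ^ α := by
          rw [← Real.rpow_add_of_nonneg hd0 (by linarith) hα0.le]; simp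
        have e2 := hd1' d hd0 (by linarith)
        calc (1 / μ + M) * d = ((1 / μ + M) * d ^ (1 - α)) * d ^ α := by
              conv_lhs => rw [e1]
              ring
          _ ≤ 1 * d ^ α := by gcongr
          _ = d ^ α := one_mul _
      have h7 : d ^ α ≤ 9 * rho z z' ^ α := by
        calc d ^ α ≤ (9 * rho z z') ^ α := Real.rpow_le_rpow hd0 h5 hα0.le
          _ = 9 ^ α * rho z z' ^ α := Real.mul_rpow (by norm_num) hrho
          _ ≤ 9 ^ (1:ℝ) * rho z z' ^ α := by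
              gcongr
              norm_num
          _ = 9 * rho z z' ^ α := by norm_num
      have h8 : d / μ + M * d = (1 / μ + M) * d := by ring
      linarith
    · have h3 := far_diff hG hl h0 h1 hk hL s1 s2.le hΛ hz hz' a b
      have e1 : rho z z' = rho z z' ^ (1 - α) * rho z z' ^ α := by
        rw [← Real.rpow_add_of_nonneg hrho (by linarith) hα0.le]; simp
      have e2 := hd2' _ hrho hδ2
      have h6 : 4 * (Λ + 825 * μ / r1 ^ 2) * rho z z' ≤ rho z z' ^ α := by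
        calc 4 * (Λ + 825 * μ / r1 ^ 2) * rho z z'
            = (4 * (Λ + 825 * μ / r1 ^ 2) * rho z z' ^ (1 - α)) * rho z z' ^ α := by
              conv_lhs => rw [e1]
              ring
          _ ≤ 1 * rho z z' ^ α := by gcongr
          _ = rho z z' ^ α := one_mul _
      linarith
    · exfalso
      have : r1 / 25 < r1 / 24 := by
        apply div_lt_div_of_pos_left hr1 (by norm_num) (by norm_num)
      linarith

end H651P
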