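import Pool.Agent.H651R3.P8

open Complex Set Filter Topology

namespace H651P

/-- parameter `τ` as a function of the clock -/
noncomputable def tau (α θ S : ℝ) : ℝ := θ * (1 + S) ^ (-(1 / (1 + α)))

noncomputable def totalMass (Q : List (ℝ × ℝ)) : ℝ := (Q.map Prod.snd).sum

structure St where
  g : ℂ → ℂ
  Q : List (ℝ × ℝ)
  S : ℝ
  e : ℝ
  good : Good g Q
  ne : Q ≠ []
  e_pos : 0 < e
  S_nn : 0 ≤ S

structure Dat where
  c : ℝ
  μ : ℝ
  Q' : List (ℝ × ℝ)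
  δ : ℝ
  ε : ℝ
  L : ℝ
  l : ℕ

structure Rel (α θ : ℝ) (s : St) (d : Dat) (s' : St) : Prop where
  hQ : s.Q = (d.c, d.μ) :: d.Q'
  hQ' : s'.Q = d.Q' ++ children (1 - tau α θ s.S) (2 * d.l) d.L d.μ d.c
  hS : s'.S = s.S + d.μ
  δ_pos : 0 < d.δ
  ε_pos : 0 < d.ε
  ε_e : d.ε ≤ s.e / 4
  ε_δ : d.ε ≤ d.δ ^ α / 4
  e_ε : s'.e ≤ d.ε
  e_L : s'.e ≤ d.L
  L_pos : 0 < d.L
  L_ε : 2 * d.L ≤ d.ε
  l_pos : 1 ≤ d.l
  l_big : 2 / ((2 * d.l : ℕ) : ℝ) ≤ (tau α θ s.S) ^ 2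
  L_eq : d.L ^ (1 - α) = (tau α θ s.S) ^ (1 + α) * ((2 * d.l : ℕ) : ℝ) ^ (-α) * d.μ
  close : ∀ z ∈ UO, ‖s'.g z - s.g z‖ ≤ d.ε / (1 + ‖z‖)
  hold : ∀ z ∈ UO, ∀ z' ∈ UO, rho z z' ≤ d.δ → ‖s'.g z - s'.g z'‖ ≤ 1100 * rho z z' ^ α

lemma tau_pos {α θ S : ℝ} (hθ : 0 < θ) (hS : 0 ≤ S) : 0 < tau α θ S := by
  unfold tau; positivity

lemma tau_le {α θ S : ℝ} (hα : 0 < α) (hθ : 0 < θ) (hS : 0 ≤ S) : tau α θ S ≤ θ := by
  unfold tau
  have : (1 + S) ^ (-(1 / (1 + α))) ≤ 1 := by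
    apply Real.rpow_le_one_of_one_le_of_nonpos (by linarith)
    have : 0 < 1 / (1 + α) := by positivity
    linarith
  nlinarith

lemma children_ne {r : ℝ} {k : ℕ} (hk : 2 ≤ k) (L μ c : ℝ) : children r k L μ c ≠ [] := by
  unfold children
  intro h
  have := congrArg List.length h
  simp at this
  omega

theorem exists_next {α θ : ℝ} (hα0 : 0 < α) (hα1 : α < 1) (hθ0 : 0 < θ) (hθ : θ ≤ 1 / 2) (s : St) :
    ∃ (d : Dat) (s' : St), Rel α θ s d s' := by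
  obtain ⟨p, Q', hQ⟩ := List.exists_cons_of_ne_nil s.ne
  obtain ⟨c, μ⟩ := p
  have hG : Good s.g ((c, μ) :: Q') := by rw [← hQ]; exact s.good
  have hμ : 0 < μ := hG.mass (c, μ) List.mem_cons_self
  have ht0 := tau_pos (α := α) hθ0 s.S_nn
  have ht1 := tau_le (α := α) hα0 hθ0 s.S_nn
  obtain ⟨δ, hδ, hstep⟩ := step hα0 hα1 hG (r := 1 - tau α θ s.S) (by linarith) (by linarith)
  have hεp : 0 < min (s.e / 4) (δ ^ α / 4) :=
    lt_min (by have := s.e_pos; positivity) (by positivity)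
  obtain ⟨l, L, a1, a2, a3, a4, a5, a6, a7, a8⟩ := hstep _ hεp
  rw [sub_sub_cancel] at a2 a5
  refine ⟨⟨c, μ, Q', δ, min (s.e / 4) (δ ^ α / 4), L, l⟩,
    ⟨gnew s.g (1 - tau α θ s.S) (2 * l) L μ c,
      Q' ++ children (1 - tau α θ s.S) (2 * l) L μ c, s.S + μ,
      min (min (s.e / 4) (δ ^ α / 4)) L, a6, ?_, lt_min hεp a3, by have := s.S_nn; positivity⟩,
    ⟨hQ, rfl, rfl, hδ, hεp, min_le_left _ _, min_le_right _ _, min_le_left _ _, min_le_right _ _,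
      a3, a4, a1, a2, a5, a7, a8⟩⟩
  intro h
  rw [List.append_eq_nil_iff] at h
  exact children_ne (by omega) _ _ _ h.2

/-- the initial state -/
noncomputable def g0 (z : ℂ) : ℂ := z / (z + I)

lemma zI_ge {z : ℂ} (hz : z ∈ UO) : (1 + ‖z‖) ^ 2 / 2 ≤ ‖z + I‖ ^ 2 := by
  have h : 0 < z.im := hz
  have e1 : ‖z + I‖ ^ 2 = z.re ^ 2 + (z.im + 1) ^ 2 := by
    rw [← Complex.normSq_eq_norm_sq, Complex.normSq_apply]; simp; ring
  have e2 : ‖z‖ ^ 2 = z.re ^ 2 + z.im ^ 2 := by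
    rw [← Complex.normSq_eq_norm_sq, Complex.normSq_apply]; ring
  rw [e1]
  nlinarith [sq_nonneg (1 - ‖z‖)]

lemma zI_ne {z : ℂ} (hz : z ∈ UO) : z + I ≠ 0 := by
  intro h
  have := zI_ge hz
  rw [h] at this
  have h2 : 0 < (1 + ‖z‖) ^ 2 / 2 := by positivity
  simp at this
  linarith

lemma g0_inv {z : ℂ} (hz : z ∈ UO) : (g0 z)⁻¹ = 1 + I / z := by
  unfold g0
  have := w_ne hz
  rw [inv_div]; field_simp

lemma good0 : Good g0 [((0:ℝ), (1:ℝ))] := by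
  refine ⟨?_, ?_, ⟨2, by norm_num, ?_⟩, ?_, ?_, ?_, ?_, ?_⟩
  · intro z hz
    apply DifferentiableAt.differentiableWithinAt
    unfold g0
    have := zI_ne hz
    have d1 : DifferentiableAt ℂ (fun z : ℂ => z + I) z := by fun_prop
    exact DifferentiableAt.fun_div differentiableAt_fun_id d1 this
  · intro z hz
    unfold g0
    exact div_ne_zero (w_ne hz) (zI_ne hz)
  · intro z hz z' hz'
    unfold g0 rho
    have n1 := zI_ne hz
    have n2 := zI_ne hz'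
    rw [div_sub_div _ _ n1 n2]
    have e : z * (z' + I) - (z + I) * z' = I * (z - z') := by ring
    rw [e, norm_div, norm_mul, norm_mul, Complex.norm_I, one_mul]
    have h1 := zI_ge hz
    have h2 := zI_ge hz'
    have h3 : (1 + ‖z‖) * (1 + ‖z'‖) / 2 ≤ ‖z + I‖ * ‖z' + I‖ := by
      apply le_of_sq_le_sq _ (by positivity)
      calc ((1 + ‖z‖) * (1 + ‖z'‖) / 2) ^ 2 = ((1 + ‖z‖) ^ 2 / 2) * ((1 + ‖z'‖) ^ 2 / 2) := by ring
        _ ≤ ‖z + I‖ ^ 2 * ‖z' + I‖ ^ 2 := by gcongr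
        _ = (‖z + I‖ * ‖z' + I‖) ^ 2 := by ring
    calc ‖z - z'‖ / (‖z + I‖ * ‖z' + I‖) ≤ ‖z - z'‖ / ((1 + ‖z‖) * (1 + ‖z'‖) / 2) := by gcongr
      _ = 2 * (‖z - z'‖ / ((1 + ‖z‖) * (1 + ‖z'‖))) := by field_simp
  · intro z hz
    rw [g0_inv hz]
    unfold poleSum
    simp
  · intro p hp; simp at hp; rw [hp]; norm_num
  · intro p hp; simp at hp; rw [hp]; norm_num
  · simp
  · intro p hp
    simp at hp
    rw [hp]
    refine ⟨1, one_pos, 0, le_rfl, ?_⟩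
    intro z hz z' hz'
    rw [g0_inv hz.1, g0_inv hz'.1]
    simp

noncomputable def st0 : St :=
  ⟨g0, [((0:ℝ), (1:ℝ))], 0, 1 / 10, good0, by simp, by norm_num, le_rfl⟩

section seq
variable {α θ : ℝ} (hα0 : 0 < α) (hα1 : α < 1) (hθ0 : 0 < θ) (hθ : θ ≤ 1 / 2)

noncomputable def nxt (s : St) : St := (exists_next hα0 hα1 hθ0 hθ s).choose_spec.choose
noncomputable def dt (s : St) : Dat := (exists_next hα0 hα1 hθ0 hθ s).choose
lemma nxt_rel (s : St) : Rel α θ s (dt hα0 hα1 hθ0 hθ s) (nxt hα0 hα1 hθ0 hθ s) :=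
  (exists_next hα0 hα1 hθ0 hθ s).choose_spec.choose_spec

noncomputable def sq (n : ℕ) : St := (nxt hα0 hα1 hθ0 hθ)^[n] st0

lemma sq_succ (n : ℕ) : sq hα0 hα1 hθ0 hθ (n + 1) = nxt hα0 hα1 hθ0 hθ (sq hα0 hα1 hθ0 hθ n) := by
  unfold sq; rw [Function.iterate_succ_apply']

end seq

/-- existence of the whole sequence -/
theorem exists_seq {α θ : ℝ} (hα0 : 0 < α) (hα1 : α < 1) (hθ0 : 0 < θ) (hθ : θ ≤ 1 / 2) :
    ∃ (s : ℕ → St) (d : ℕ → Dat), s 0 = st0 ∧ ∀ n, Rel α θ (s n) (d n) (s (n + 1)) := by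
  refine ⟨sq hα0 hα1 hθ0 hθ, fun n => dt hα0 hα1 hθ0 hθ (sq hα0 hα1 hθ0 hθ n), rfl, ?_⟩
  intro n
  rw [sq_succ]
  exact nxt_rel hα0 hα1 hθ0 hθ _

lemma totalMass_append (A B : List (ℝ × ℝ)) : totalMass (A ++ B) = totalMass A + totalMass B := by
  unfold totalMass; rw [List.map_append, List.sum_append]

lemma totalMass_cons (p : ℝ × ℝ) (B : List (ℝ × ℝ)) : totalMass (p :: B) = p.2 + totalMass B := by
  unfold totalMass; rw [List.map_cons, List.sum_cons]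

lemma totalMass_children {r : ℝ} {k : ℕ} (hk : 2 ≤ k) (L μ c : ℝ) :
    totalMass (children r k L μ c) = ((k:ℝ) - 1) * (mm r k * μ) := by
  unfold totalMass children
  rw [List.map_map]
  have : (Prod.snd ∘ fun i => (c + L * tn k (i + 1), mm r k * μ)) = fun _ => mm r k * μ := by
    funext i; rfl
  rw [this]
  simp only [List.map_const', List.length_range, List.sum_replicate, nsmul_eq_mul]
  rw [Nat.cast_sub (by omega)]; norm_num

section an
variable {α θ : ℝ} {s : ℕ → St} {d : ℕ → Dat} (hs0 : s 0 = st0)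
  (hR : ∀ n, Rel α θ (s n) (d n) (s (n + 1)))
include hR

lemma mu_pos (n : ℕ) : 0 < (d n).μ := by
  have h := (s n).good.mass ((d n).c, (d n).μ) (by rw [(hR n).hQ]; exact List.mem_cons_self)
  exact h

lemma massQ_nonneg : ∀ Q : List (ℝ × ℝ), (∀ p ∈ Q, 0 < p.2) → 0 ≤ totalMass Q := by
  intro Q
  induction Q with
  | nil => intro _; simp [totalMass]
  | cons p Q ih =>
    intro h
    rw [totalMass_cons]
    have := ih (fun q hq => h q (List.mem_cons_of_mem _ hq))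
    have := h p List.mem_cons_self
    linarith

lemma mass_step (n : ℕ) (hS : 0 ≤ (s n).S) :
    totalMass (s n).Q - tau α θ (s n).S ^ 2 * (d n).μ ≤ totalMass (s (n + 1)).Q
      ∧ totalMass (s (n + 1)).Q ≤ totalMass (s n).Q := by
  have h := hR n
  have hμ := mu_pos hR n
  have hl := h.l_pos
  have hk : 2 ≤ 2 * (d n).l := by omega
  rw [h.hQ', h.hQ, totalMass_append, totalMass_cons, totalMass_children hk]
  simp only
  set τ := tau α θ (s n).S with hτ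
  set k := 2 * (d n).l with hkdef
  have hk0 : (0:ℝ) < k := by exact_mod_cast (by omega : 0 < k)
  have hk1 : (2:ℝ) ≤ k := by exact_mod_cast hk
  have hkap := kap_le (1 - τ)
  have hkap0 := kap_nonneg (1 - τ)
  rw [sub_sub_cancel] at hkap
  have hbig := h.l_big
  have e : ((k:ℝ) - 1) * (mm (1 - τ) k * (d n).μ) = (1 - 1 / k) * (1 - kap (1 - τ)) * (d n).μ := by
    unfold mm; field_simp
  rw [e]
  have hb : 1 / (k:ℝ) ≤ τ ^ 2 / 2 := by
    have : 2 / (k:ℝ) = 2 * (1 / k) := by ring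
    linarith
  have hb0 : 0 < 1 / (k:ℝ) := by positivity
  have h1 : 1 - τ ^ 2 ≤ (1 - 1 / k) * (1 - kap (1 - τ)) := by
    nlinarith [mul_nonneg hb0.le hkap0]
  have h2 : (1 - 1 / (k:ℝ)) * (1 - kap (1 - τ)) ≤ 1 := by
    have a1 : 1 - 1 / (k:ℝ) ≤ 1 := by linarith
    have a0 : 0 ≤ 1 - 1 / (k:ℝ) := by
      have : 1 / (k:ℝ) ≤ 1 := by rw [div_le_one hk0]; linarith
      linarith
    nlinarith
  constructor <;> nlinarith

lemma S_mono (n : ℕ) : (s n).S ≤ (s (n + 1)).S := by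
  rw [(hR n).hS]; have := mu_pos hR n; linarith

lemma mass_le (hs0 : s 0 = st0) (n : ℕ) : totalMass (s n).Q ≤ 1 := by
  induction n with
  | zero => rw [hs0]; simp [st0, totalMass]
  | succ n ih => exact (mass_step hR n (s n).S_nn).2.trans ih

lemma mu_le (hs0 : s 0 = st0) (n : ℕ) : (d n).μ ≤ 1 := by
  have h := mass_le hR hs0 n
  rw [(hR n).hQ, totalMass_cons] at h
  have h2 := massQ_nonneg hR (d n).Q' (fun p hp => (s n).good.mass p (by
    rw [(hR n).hQ]; exact List.mem_cons_of_mem _ hp))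
  simp only at h
  linarith

end an

/-- potential estimate for the total loss -/
lemma loss_aux {β x μ : ℝ} (hβ : 1 < β) (hx : 1 ≤ x) (hμ : 0 < μ) (hμ1 : μ ≤ 1) :
    μ * x ^ (-β) ≤ 2 ^ β / (β - 1) * (x ^ (1 - β) - (x + μ) ^ (1 - β)) := by
  have hd : ∀ y ∈ Set.Ioo x (x + μ), HasDerivAt (fun y : ℝ => y ^ (1 - β)) ((1 - β) * y ^ (1 - β - 1)) y := by
    intro y hy
    exact Real.hasDerivAt_rpow_const (Or.inl (by linarith [hy.1]))
  have hc : ContinuousOn (fun y : ℝ => y ^ (1 - β)) (Set.Icc x (x + μ)) := by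
    intro y hy
    exact (Real.continuousAt_rpow_const y _ (Or.inl (by linarith [hy.1]))).continuousWithinAt
  obtain ⟨c, hcm, hceq⟩ := exists_hasDerivAt_eq_slope (fun y : ℝ => y ^ (1 - β)) _
    (by linarith : x < x + μ) hc hd
  have hc0 : 0 < c := by linarith [hcm.1]
  have e1 : x ^ (1 - β) - (x + μ) ^ (1 - β) = (β - 1) * c ^ (-β) * μ := by
    have : x + μ - x = μ := by ring
    rw [this, eq_div_iff hμ.ne'] at hceq
    have e2 : 1 - β - 1 = -β := by ring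
    rw [e2] at hceq
    linarith
  have e3 : (2 * x) ^ (-β) ≤ c ^ (-β) :=
    Real.rpow_le_rpow_of_nonpos hc0 (by linarith [hcm.2]) (by linarith)
  have e4 : (2 * x) ^ (-β) = (2 ^ β)⁻¹ * x ^ (-β) := by
    rw [Real.mul_rpow (by norm_num) (by linarith), Real.rpow_neg (by norm_num)]
  rw [e1]
  have hb : 0 < β - 1 := by linarith
  have h2 : (0:ℝ) < 2 ^ β := by positivity
  calc μ * x ^ (-β) = 2 ^ β / (β - 1) * ((β - 1) * ((2 ^ β)⁻¹ * x ^ (-β)) * μ) := by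
        field_simp
    _ ≤ 2 ^ β / (β - 1) * ((β - 1) * c ^ (-β) * μ) := by
        rw [← e4]; gcongr

lemma tau_sq {α θ S : ℝ} (hα : 0 < α) (hS : 0 ≤ S) :
    tau α θ S ^ 2 = θ ^ 2 * (1 + S) ^ (-(2 / (1 + α))) := by
  unfold tau
  rw [mul_pow, ← Real.rpow_natCast ((1 + S) ^ (-(1 / (1 + α)))) 2, ← Real.rpow_mul (by linarith)]
  congr 2
  push_cast; ring

lemma tau_pow {α θ S : ℝ} (hα : 0 < α) (hθ : 0 < θ) (hS : 0 ≤ S) :
    tau α θ S ^ (1 + α) = θ ^ (1 + α) * (1 + S)⁻¹ := by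
  unfold tau
  rw [Real.mul_rpow hθ.le (by positivity), ← Real.rpow_mul (by linarith)]
  congr 1
  have : -(1 / (1 + α)) * (1 + α) = -1 := by field_simp
  rw [this, Real.rpow_neg_one]

section an2
variable {α θ : ℝ} {s : ℕ → St} {d : ℕ → Dat} (hs0 : s 0 = st0)
  (hR : ∀ n, Rel α θ (s n) (d n) (s (n + 1)))
include hR hs0

lemma loss_sum (hα0 : 0 < α) (hα1 : α < 1) (n : ℕ) :
    1 - θ ^ 2 * (2 ^ (2 / (1 + α)) / (2 / (1 + α) - 1)) * (1 - (1 + (s n).S) ^ (1 - 2 / (1 + α)))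
      ≤ totalMass (s n).Q := by
  have hβ : 1 < 2 / (1 + α) := by rw [lt_div_iff₀ (by linarith)]; linarith
  induction n with
  | zero =>
    rw [hs0]
    simp [st0, totalMass]
  | succ n ih =>
    have h1 := (mass_step hR n (s n).S_nn).1
    have h2 := loss_aux hβ (x := 1 + (s n).S) (by have := (s n).S_nn; linarith) (mu_pos hR n)
      (mu_le hR hs0 n)
    rw [tau_sq hα0 (s n).S_nn] at h1
    have h3 : 1 + (s n).S + (d n).μ = 1 + (s (n + 1)).S := by rw [(hR n).hS]; ring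
    rw [h3] at h2
    have h4 : 0 ≤ θ ^ 2 := by positivity
    have h5 := mul_le_mul_of_nonneg_left h2 h4
    nlinarith

lemma mass_ge (hα0 : 0 < α) (hα1 : α < 1)
    (hθs : θ ^ 2 * (2 ^ (2 / (1 + α)) / (2 / (1 + α) - 1)) ≤ 1 / 2) (n : ℕ) :
    1 / 2 ≤ totalMass (s n).Q := by
  have h := loss_sum hs0 hR hα0 hα1 n
  have hβ : 1 < 2 / (1 + α) := by rw [lt_div_iff₀ (by linarith)]; linarith
  have hS := (s n).S_nn
  have h1 : 0 ≤ (1 + (s n).S) ^ (1 - 2 / (1 + α)) := by positivity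
  have h2 : 0 ≤ θ ^ 2 * (2 ^ (2 / (1 + α)) / (2 / (1 + α) - 1)) := by
    have : 0 < 2 / (1 + α) - 1 := by linarith
    positivity
  nlinarith [mul_nonneg h2 h1]

omit hs0 in
lemma fifo (n : ℕ) : ∀ j, j ≤ (s n).Q.length → (∃ T, (s (n + j)).Q = (s n).Q.drop j ++ T) ∧
    (s (n + j)).S = (s n).S + totalMass ((s n).Q.take j) := by
  intro j
  induction j with
  | zero =>
    intro _
    refine ⟨⟨[], by simp⟩, by simp [totalMass]⟩
  | succ j ih =>
    intro hj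
    obtain ⟨⟨T, hT⟩, hS⟩ := ih (by omega)
    have hjl : j < (s n).Q.length := by omega
    have hdrop : (s n).Q.drop j = (s n).Q[j] :: (s n).Q.drop (j + 1) := List.drop_eq_getElem_cons hjl
    have h := hR (n + j)
    have hq := h.hQ
    rw [hT, hdrop, List.cons_append] at hq
    rw [List.cons.injEq] at hq
    constructor
    · refine ⟨T ++ children (1 - tau α θ (s (n + j)).S) (2 * (d (n + j)).l) (d (n + j)).L
        (d (n + j)).μ (d (n + j)).c, ?_⟩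
      rw [← add_assoc, h.hQ', ← hq.2, List.append_assoc]
    · rw [← add_assoc, h.hS, hS, List.take_succ_eq_append_getElem hjl, totalMass_append]
      have : (d (n + j)).μ = ((s n).Q[j]).2 := by rw [hq.1]
      rw [this]
      simp [totalMass]
      ring

lemma S_unbounded (hα0 : 0 < α) (hα1 : α < 1)
    (hθs : θ ^ 2 * (2 ^ (2 / (1 + α)) / (2 / (1 + α) - 1)) ≤ 1 / 2) (m : ℕ) :
    ∃ n, (m:ℝ) / 2 ≤ (s n).S := by
  induction m with
  | zero => exact ⟨0, by simp; exact (s 0).S_nn⟩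
  | succ m ih =>
    obtain ⟨n, hn⟩ := ih
    refine ⟨n + (s n).Q.length, ?_⟩
    have h := (fifo hR n _ le_rfl).2
    rw [List.take_length] at h
    have := mass_ge hs0 hR hα0 hα1 hθs n
    push_cast
    linarith

lemma gain_log (n : ℕ) : Real.log (1 + (s n).S) ≤ ∑ j ∈ Finset.range n, (d j).μ * (1 + (s j).S)⁻¹ := by
  induction n with
  | zero => rw [hs0]; simp [st0]
  | succ n ih =>
    rw [Finset.sum_range_succ, (hR n).hS]
    have hS := (s n).S_nn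
    have hμ := mu_pos hR n
    have h1 : Real.log ((1 + ((s n).S + (d n).μ)) / (1 + (s n).S))
        ≤ (1 + ((s n).S + (d n).μ)) / (1 + (s n).S) - 1 :=
      Real.log_le_sub_one_of_pos (by positivity)
    rw [Real.log_div (by positivity) (by positivity)] at h1
    have h2 : (1 + ((s n).S + (d n).μ)) / (1 + (s n).S) - 1 = (d n).μ * (1 + (s n).S)⁻¹ := by
      field_simp; ring
    linarith

lemma gain_unbounded (hα0 : 0 < α) (hα1 : α < 1)
    (hθs : θ ^ 2 * (2 ^ (2 / (1 + α)) / (2 / (1 + α) - 1)) ≤ 1 / 2) (A : ℝ) :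
    ∃ n, A ≤ ∑ j ∈ Finset.range n, (d j).μ * (1 + (s j).S)⁻¹ := by
  obtain ⟨m, hm⟩ := exists_nat_ge (2 * Real.exp A)
  obtain ⟨n, hn⟩ := S_unbounded hs0 hR hα0 hα1 hθs m
  refine ⟨n, le_trans ?_ (gain_log hs0 hR n)⟩
  rw [Real.le_log_iff_exp_le (by have := (s n).S_nn; linarith)]
  linarith

end an2

end H651P
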