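import Pool.Agent.Helper897.ZS.Dbar2

set_option autoImplicit false

open MeasureTheory Metric Set Filter Topology Complex MP8a09
open scoped Convolution ContDiff

namespace Pool.Agent.H651R3.Qc

/-- the Cauchy transform -/
noncomputable def T (φ : ℂ → ℂ) (z : ℂ) : ℂ := ∫ w, S w * φ (z - w)

/-- `2 i ∂` of a function whose real derivative is `L`. -/
noncomputable def dd (L : ℂ →L[ℝ] ℂ) : ℂ := I * L 1 + L I

/-- `2 i ∂bar f` as a function -/
noncomputable def B (φ : ℂ → ℂ) (z : ℂ) : ℂ := db (fderiv ℝ φ z)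
/-- `2 i ∂ f` as a function -/
noncomputable def D (φ : ℂ → ℂ) (z : ℂ) : ℂ := dd (fderiv ℝ φ z)

lemma int_S {g : ℂ → ℂ} (hg : Continuous g) (hc : HasCompactSupport g) (z : ℂ) :
    Integrable (fun w => S w * g (z - w)) :=
  hc.convolutionExists_right (ContinuousLinearMap.mul ℝ ℂ) locallyIntegrable_S hg z

lemma T_add {g h : ℂ → ℂ} (hg : Continuous g) (hgc : HasCompactSupport g) (hh : Continuous h)
    (hhc : HasCompactSupport h) (z : ℂ) : T (fun w => g w + h w) z = T g z + T h z := by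
  unfold T
  rw [← integral_add (int_S hg hgc z) (int_S hh hhc z)]
  congr 1
  ext w; ring

lemma T_sub {g h : ℂ → ℂ} (hg : Continuous g) (hgc : HasCompactSupport g) (hh : Continuous h)
    (hhc : HasCompactSupport h) (z : ℂ) : T (fun w => g w - h w) z = T g z - T h z := by
  unfold T
  rw [← integral_sub (int_S hg hgc z) (int_S hh hhc z)]
  congr 1
  ext w; ring

lemma T_smul (c : ℂ) (g : ℂ → ℂ) (z : ℂ) : T (fun w => c * g w) z = c * T g z := by
  unfold T
  rw [← integral_const_mul]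
  congr 1
  ext w; ring

lemma hasFDerivAt_T {φ : ℂ → ℂ} (hφ : ContDiff ℝ 1 φ) (hc : HasCompactSupport φ) (z : ℂ) :
    HasFDerivAt (T φ) (fderiv ℝ (T φ) z) z ∧ ∀ v, fderiv ℝ (T φ) z v = T (fun w => fderiv ℝ φ w v) z := by
  have hV : T φ = S ⋆[ContinuousLinearMap.mul ℝ ℂ, volume] φ := by
    ext z
    rfl
  have h1 : HasFDerivAt (T φ) ((S ⋆[(ContinuousLinearMap.mul ℝ ℂ).precompR ℂ, volume] fderiv ℝ φ) z) z := by
    rw [hV]
    exact hc.hasFDerivAt_convolution_right _ locallyIntegrable_S hφ z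
  refine ⟨h1.differentiableAt.hasFDerivAt, fun v => ?_⟩
  rw [h1.fderiv]
  have hcf : Continuous (fderiv ℝ φ) := hφ.continuous_fderiv one_ne_zero
  have hint : Integrable (fun t => ((ContinuousLinearMap.mul ℝ ℂ).precompR ℂ (S t)) (fderiv ℝ φ (z - t))) :=
    (hc.fderiv ℝ).convolutionExists_right _ locallyIntegrable_S hcf z
  unfold convolution
  rw [ContinuousLinearMap.integral_apply hint]
  rfl

lemma cont_ev {φ : ℂ → ℂ} (hφ : ContDiff ℝ 1 φ) (v : ℂ) : Continuous (fun w => fderiv ℝ φ w v) :=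
  (hφ.continuous_fderiv one_ne_zero).clm_apply continuous_const

lemma hcs_ev {φ : ℂ → ℂ} (hc : HasCompactSupport φ) (v : ℂ) : HasCompactSupport (fun w => fderiv ℝ φ w v) :=
  hc.fderiv_apply ℝ v

lemma T_B {φ : ℂ → ℂ} (hφ : ContDiff ℝ 1 φ) (hc : HasCompactSupport φ) (z : ℂ) : T (B φ) z = φ z := by
  have hψ : ContDiff ℝ 1 (fun w => φ (z - w)) := hφ.comp (by fun_prop)
  have hψc : HasCompactSupport (fun w => φ (z - w)) :=
    hc.comp_homeomorph (Homeomorph.subLeft z)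
  have h1 := cauchy_pompeiu hψ hψc
  have h2 : ∀ w, fderiv ℝ (fun w => φ (z - w)) w = - fderiv ℝ φ (z - w) := by
    intro w
    have h3 : HasFDerivAt φ (fderiv ℝ φ (z - w)) (z - w) :=
      (hφ.differentiable one_ne_zero _).hasFDerivAt
    have h4 : HasFDerivAt (fun w => z - w) (-ContinuousLinearMap.id ℝ ℂ) w := by
      exact (hasFDerivAt_id w).const_sub z
    have h5 : HasFDerivAt (fun w => φ (z - w)) _ w := h3.comp w h4
    rw [h5.fderiv]
    ext <;> simp
  have h6 : ∀ w, S w * B φ (z - w) =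
      - (2 * Real.pi * I)⁻¹ * (w⁻¹ * db (fderiv ℝ (fun w => φ (z - w)) w)) := by
    intro w
    rw [h2]
    unfold B db S
    simp only [neg_apply]
    rw [mul_inv (2 * Real.pi * I) w]
    ring
  unfold T
  simp_rw [h6]
  rw [integral_const_mul, h1]
  have : (2 * (Real.pi : ℂ) * I) ≠ 0 := by
    simp [Real.pi_ne_zero]
  rw [sub_zero]
  field_simp

lemma B_cont {φ : ℂ → ℂ} (hφ : ContDiff ℝ 1 φ) : Continuous (B φ) := by
  have h1 := cont_ev hφ 1
  have h2 := cont_ev hφ I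
  unfold B db
  fun_prop

lemma D_cont {φ : ℂ → ℂ} (hφ : ContDiff ℝ 1 φ) : Continuous (D φ) := by
  have h1 := cont_ev hφ 1
  have h2 := cont_ev hφ I
  unfold D dd
  fun_prop

lemma B_hcs {φ : ℂ → ℂ} (hc : HasCompactSupport φ) : HasCompactSupport (B φ) := by
  have : B φ = (fun L : ℂ →L[ℝ] ℂ => db L) ∘ (fderiv ℝ φ) := rfl
  rw [this]
  exact (hc.fderiv ℝ).comp_left (by simp [db])

lemma D_hcs {φ : ℂ → ℂ} (hc : HasCompactSupport φ) : HasCompactSupport (D φ) := by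
  have : D φ = (fun L : ℂ →L[ℝ] ℂ => dd L) ∘ (fderiv ℝ φ) := rfl
  rw [this]
  exact (hc.fderiv ℝ).comp_left (by simp [dd])

lemma B_contDiff {φ : ℂ → ℂ} (hφ : ContDiff ℝ ∞ φ) : ContDiff ℝ ∞ (B φ) := by
  have h1 : ContDiff ℝ ∞ (fderiv ℝ φ) := hφ.fderiv_right (by simp)
  unfold B db
  exact (contDiff_const.mul (h1.clm_apply contDiff_const)).sub (h1.clm_apply contDiff_const)

lemma D_contDiff {φ : ℂ → ℂ} (hφ : ContDiff ℝ ∞ φ) : ContDiff ℝ ∞ (D φ) := by
  have h1 : ContDiff ℝ ∞ (fderiv ℝ φ) := hφ.fderiv_right (by simp)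
  unfold D dd
  exact (contDiff_const.mul (h1.clm_apply contDiff_const)).add (h1.clm_apply contDiff_const)

/-- `B (T φ) = φ` -/
lemma B_T {φ : ℂ → ℂ} (hφ : ContDiff ℝ 1 φ) (hc : HasCompactSupport φ) (z : ℂ) : B (T φ) z = φ z := by
  have h := (hasFDerivAt_T hφ hc z).2
  unfold B db
  rw [h, h, ← T_smul, ← T_sub (g := fun w => I * fderiv ℝ φ w 1) (continuous_const.mul (cont_ev hφ 1))
    ((hcs_ev hc 1).mul_left) (cont_ev hφ I) (hcs_ev hc I)]
  exact T_B hφ hc z

/-- `D (T φ) = T (D φ)` -/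
lemma D_T {φ : ℂ → ℂ} (hφ : ContDiff ℝ 1 φ) (hc : HasCompactSupport φ) (z : ℂ) : D (T φ) z = T (D φ) z := by
  have h := (hasFDerivAt_T hφ hc z).2
  unfold D dd
  rw [h, h, ← T_smul, ← T_add (g := fun w => I * fderiv ℝ φ w 1) (continuous_const.mul (cont_ev hφ 1))
    ((hcs_ev hc 1).mul_left) (cont_ev hφ I) (hcs_ev hc I)]

/-- uniform bound -/
lemma T_bound {w : ℂ → ℂ} (hw : Continuous w) (hc : HasCompactSupport w) :
    ∃ C : ℝ, 0 ≤ C ∧ ∀ (m : ℂ → ℂ) (Q : ℝ), Continuous m → 0 ≤ Q → (∀ z, ‖m z‖ ≤ Q) →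
      ∀ z, ‖T (fun x => m x * w x) z‖ ≤ C * Q := by
  obtain ⟨M, hM⟩ := hc.exists_bound_of_continuous hw
  have hM0 : 0 ≤ M := (norm_nonneg _).trans (hM 0)
  have hI : Integrable (fun x => ‖w x‖) := (hw.integrable_of_hasCompactSupport hc).norm
  refine ⟨M * 1 + (2 * Real.pi * 1)⁻¹ * ∫ x, ‖w x‖, by positivity, fun m Q hm hQ hmQ z => ?_⟩
  have hcm : HasCompactSupport (fun x => m x * w x) := hc.mul_left
  have hmw : Continuous (fun x => m x * w x) := hm.mul hw
  have hb : ∀ x, ‖m x * w x‖ ≤ Q * ‖w x‖ := by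
    intro x
    rw [norm_mul]
    exact mul_le_mul_of_nonneg_right (hmQ x) (norm_nonneg _)
  have h1 := conv_bound (h := fun x => m x * w x) (M := Q * M)
    (fun x => (hb x).trans (mul_le_mul_of_nonneg_left (hM x) hQ))
    (hmw.integrable_of_hasCompactSupport hcm) one_pos z
  refine h1.trans ?_
  have h2 : ∫ x, ‖m x * w x‖ ≤ Q * ∫ x, ‖w x‖ := by
    rw [← integral_const_mul]
    exact integral_mono (hmw.integrable_of_hasCompactSupport hcm).norm (hI.const_mul _) hb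
  have h3 : (2 * Real.pi * 1)⁻¹ * ∫ x, ‖m x * w x‖ ≤ (2 * Real.pi * 1)⁻¹ * (Q * ∫ x, ‖w x‖) := by
    gcongr
  linarith

/-- the Cauchy transform of a compactly supported function is small near infinity -/
lemma T_infty {g : ℂ → ℂ} (hg : Continuous g) (hc : HasCompactSupport g) :
    Tendsto (T g) (cocompact ℂ) (𝓝 0) := by
  obtain ⟨R, hR⟩ := hc.isCompact.isBounded.subset_closedBall 0
  have hI : Integrable (fun x => ‖g x‖) := (hg.integrable_of_hasCompactSupport hc).norm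
  have key : ∀ z : ℂ, R + 1 ≤ ‖z‖ → ‖T g z‖ ≤ (‖z‖ - R)⁻¹ * ∫ x, ‖g x‖ := by
    intro z hz
    have e : T g z = ∫ x, S (z - x) * g x := by
      unfold T
      rw [← integral_sub_left_eq_self (fun x => S (z - x) * g x) volume z]
      simp
    rw [e, ← integral_const_mul]
    refine norm_integral_le_of_norm_le (hI.const_mul _) (Eventually.of_forall fun x => ?_)
    rw [norm_mul]
    by_cases hx : g x = 0
    · simp [hx]
    · have hx' : ‖x‖ ≤ R := by
        have := hR (subset_tsupport _ hx)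
        simpa using this
      have h1 : ‖z‖ - R ≤ ‖z - x‖ := by
        have := norm_sub_norm_le z x
        linarith
      have h2 : 0 < ‖z‖ - R := by linarith
      rw [norm_S]
      have h3 : (2 * Real.pi)⁻¹ ≤ 1 := by
        apply inv_le_one_of_one_le₀
        linarith [Real.pi_gt_three]
      have h4 : ‖z - x‖⁻¹ ≤ (‖z‖ - R)⁻¹ := by gcongr
      have h5 : 0 ≤ ‖z - x‖⁻¹ := by positivity
      apply mul_le_mul_of_nonneg_right _ (norm_nonneg _)
      calc (2 * Real.pi)⁻¹ * ‖z - x‖⁻¹ ≤ 1 * ‖z - x‖⁻¹ := by gcongr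
        _ ≤ (‖z‖ - R)⁻¹ := by rw [one_mul]; exact h4
  have h1 : Tendsto (fun z : ℂ => (‖z‖ - R)⁻¹ * ∫ x, ‖g x‖) (cocompact ℂ) (𝓝 0) := by
    have h2 : Tendsto (fun z : ℂ => ‖z‖ - R) (cocompact ℂ) atTop :=
      tendsto_atTop_add_const_right _ _ (tendsto_norm_cocompact_atTop)
    have := h2.inv_tendsto_atTop.mul_const (∫ x, ‖g x‖)
    simpa using this
  refine squeeze_zero_norm' ?_ h1
  have h2 : ∀ᶠ z : ℂ in cocompact ℂ, R + 1 ≤ ‖z‖ := tendsto_norm_cocompact_atTop.eventually_ge_atTop _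
  filter_upwards [h2] with z hz using key z hz

end Pool.Agent.H651R3.Qc
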