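import Pool.Agent.H651R3.Qc1

set_option autoImplicit false

open MeasureTheory Metric Set Filter Topology Complex MP8a09
open scoped Convolution ContDiff ComplexConjugate

namespace Pool.Agent.H651R3.Qc

/-- the real linear form `Re (conj e * z)` -/
noncomputable def lin (e : ℂ) : ℂ →L[ℝ] ℝ := e.re • reCLM + e.im • imCLM

lemma lin_apply (e z : ℂ) : lin e z = e.re * z.re + e.im * z.im := by simp [lin]

/-- the wave `q (X Re (conj e z))` -/
noncomputable def wave (q : ℝ → ℝ) (e : ℂ) (X : ℝ) (z : ℂ) : ℂ := ((q (X * lin e z) : ℝ) : ℂ)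

lemma wave_contDiff {q : ℝ → ℝ} (hq : ContDiff ℝ ∞ q) (e : ℂ) (X : ℝ) : ContDiff ℝ ∞ (wave q e X) := by
  unfold wave
  have h1 : ContDiff ℝ ∞ (fun z : ℂ => X * lin e z) := contDiff_const.mul (lin e).contDiff
  exact Complex.ofRealCLM.contDiff.comp (hq.comp h1)

lemma wave_fderiv {q p : ℝ → ℝ} (hq : ∀ t, HasDerivAt q (p t) t) (e : ℂ) (X : ℝ) (z v : ℂ) :
    fderiv ℝ (wave q e X) z v = ((p (X * lin e z) * (X * lin e v) : ℝ) : ℂ) := by
  have h1 : HasFDerivAt (fun z : ℂ => X * lin e z) (X • lin e) z := by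
    have := (lin e).hasFDerivAt (x := z)
    exact this.const_mul X
  have h2 := (hq (X * lin e z)).comp_hasFDerivAt z h1
  have h3 := (Complex.ofRealCLM.hasFDerivAt (x := (q ∘ fun z : ℂ => X * lin e z) z)).comp z h2
  have h4 : HasFDerivAt (wave q e X) _ z := h3
  rw [h4.fderiv]
  simp

lemma wave_B {q p : ℝ → ℝ} (hq : ∀ t, HasDerivAt q (p t) t) (e : ℂ) (X : ℝ) (z : ℂ) :
    B (wave q e X) z = X * wave p e X z * (I * e) := by
  unfold B db
  rw [wave_fderiv hq, wave_fderiv hq]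
  unfold wave
  simp only [lin_apply e 1, lin_apply e I, one_re, one_im, I_re, I_im]
  have h : e = (e.re : ℂ) + (e.im : ℂ) * I := (re_add_im e).symm
  push_cast
  linear_combination (-(X:ℂ) * (p (X * lin e z)) * e.im) * I_mul_I - (X:ℂ) * (p (X * lin e z)) * I * h

lemma wave_D {q p : ℝ → ℝ} (hq : ∀ t, HasDerivAt q (p t) t) (e : ℂ) (X : ℝ) (z : ℂ) :
    D (wave q e X) z = X * wave p e X z * (I * conj e) := by
  unfold D dd
  rw [wave_fderiv hq, wave_fderiv hq]
  unfold wave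
  simp only [lin_apply e 1, lin_apply e I, one_re, one_im, I_re, I_im]
  have : conj e = (e.re : ℂ) - (e.im : ℂ) * I := by
    apply Complex.ext <;> simp
  rw [this]
  push_cast
  linear_combination ((X:ℂ) * (p (X * lin e z)) * e.im) * I_mul_I

lemma B_mul {f g : ℂ → ℂ} {z : ℂ} (hf : DifferentiableAt ℝ f z) (hg : DifferentiableAt ℝ g z) :
    B (fun x => f x * g x) z = f z * B g z + g z * B f z := by
  unfold B db
  rw [fderiv_fun_mul hf hg]
  simp
  ring

lemma D_mul {f g : ℂ → ℂ} {z : ℂ} (hf : DifferentiableAt ℝ f z) (hg : DifferentiableAt ℝ g z) :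
    D (fun x => f x * g x) z = f z * D g z + g z * D f z := by
  unfold D dd
  rw [fderiv_fun_mul hf hg]
  simp
  ring

/-- smallness of the Cauchy transforms of oscillating functions -/
lemma small {q p : ℝ → ℝ} (hqc : ContDiff ℝ ∞ q) (hq : ∀ t, HasDerivAt q (p t) t) {Q : ℝ} (hQ0 : 0 ≤ Q)
    (hQ : ∀ t, |q t| ≤ Q) {e : ℂ} (he : e ≠ 0) {v : ℂ → ℂ} (hv : ContDiff ℝ ∞ v) (hvc : HasCompactSupport v)
    {δ : ℝ} (hδ : 0 < δ) :
    ∃ X₀ : ℝ, 0 < X₀ ∧ ∀ X : ℝ, X₀ ≤ X → ∀ z, ‖T (fun w => wave p e X w * v w) z‖ ≤ δ := by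
  obtain ⟨C, hC0, hC⟩ := T_bound (B_cont (hv.of_le (by simp))) (B_hcs hvc)
  obtain ⟨M, hM⟩ := hvc.exists_bound_of_continuous hv.continuous
  have hM0 : 0 ≤ M := (norm_nonneg _).trans (hM 0)
  have he' : 0 < ‖e‖ := norm_pos_iff.2 he
  set K := (M * Q + C * Q) / ‖e‖ with hK
  have hK0 : 0 ≤ K := by positivity
  refine ⟨(K + 1) / δ, by positivity, fun X hX z => ?_⟩
  have hX0 : 0 < X := lt_of_lt_of_le (by positivity) hX
  have hXc : (X : ℂ) ≠ 0 := by exact_mod_cast hX0.ne'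
  have hw : ContDiff ℝ ∞ (wave q e X) := wave_contDiff hqc e X
  have hwv : ContDiff ℝ ∞ (fun x => wave q e X x * v x) := hw.mul hv
  have hwvc : HasCompactSupport (fun x => wave q e X x * v x) := hvc.mul_left
  have e1 : (fun w => wave p e X w * v w) = fun w => (I * e * X)⁻¹ *
      (B (fun x => wave q e X x * v x) w - wave q e X w * B v w) := by
    ext w
    rw [B_mul (hw.differentiable (by simp) w) (hv.differentiable (by simp) w), wave_B hq]
    have : I * e * X ≠ 0 := mul_ne_zero (mul_ne_zero I_ne_zero he) hXc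
    field_simp
    ring
  have hnw : ∀ x, ‖wave q e X x‖ ≤ Q := by
    intro x
    unfold wave
    rw [norm_real]; exact hQ _
  rw [e1, T_smul, T_sub (g := B (fun x => wave q e X x * v x)) (h := fun w => wave q e X w * B v w)
    (B_cont (hwv.of_le (by simp))) (B_hcs hwvc)
    (hw.continuous.mul (B_cont (hv.of_le (by simp)))) ((B_hcs hvc).mul_left), T_B (hwv.of_le (by simp)) hwvc]
  have h1 := hC (wave q e X) Q hw.continuous hQ0 hnw z
  have h2 : ‖wave q e X z * v z‖ ≤ M * Q := by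
    rw [norm_mul, mul_comm]
    exact mul_le_mul (hM z) (hnw z) (norm_nonneg _) hM0
  rw [norm_mul, norm_inv, norm_mul, norm_mul, norm_I, one_mul, norm_real, Real.norm_eq_abs, abs_of_pos hX0]
  have h3 := (norm_sub_le (wave q e X z * v z) (T (fun x => wave q e X x * B v x) z)).trans (add_le_add h2 h1)
  calc (‖e‖ * X)⁻¹ * ‖wave q e X z * v z - T (fun x => wave q e X x * B v x) z‖
      ≤ (‖e‖ * X)⁻¹ * (M * Q + C * Q) := by gcongr
    _ = K / X := by rw [hK]; field_simp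
    _ ≤ δ := by
      rw [div_le_iff₀ hX0]
      rw [div_le_iff₀ hδ] at hX
      nlinarith

lemma step_aux {p r : ℝ → ℝ} (hpc : ContDiff ℝ ∞ p)
    (hp : ∀ t, HasDerivAt p (r t) t) {e : ℂ} (he : e * conj e = 1) {u : ℂ → ℂ} (hu : ContDiff ℝ ∞ u) (X : ℝ) :
    D (fun w => wave p e X w * u w) = fun w => (wave p e X w * D u w + conj e ^ 2 * B (fun w => wave p e X w * u w) w)
      - conj e ^ 2 * (wave p e X w * B u w) := by
  have hw : ContDiff ℝ ∞ (wave p e X) := wave_contDiff hpc e X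
  ext w
  rw [B_mul (hw.differentiable (by simp) w) (hu.differentiable (by simp) w),
    D_mul (hw.differentiable (by simp) w) (hu.differentiable (by simp) w), wave_B hp, wave_D hp]
  linear_combination (-(u w * X * wave r e X w * I * conj e)) * he

lemma T_comb {a b c : ℂ → ℂ} (ha : Continuous a) (hac : HasCompactSupport a) (hb : Continuous b)
    (hbc : HasCompactSupport b) (hc : Continuous c) (hcc : HasCompactSupport c) (κ z : ℂ) :
    T (fun w => (a w + κ * b w) - κ * c w) z = T a z + κ * T b z - κ * T c z := by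
  have c2 : Continuous (fun w => κ * b w) := continuous_const.mul hb
  have c3 : Continuous (fun w => κ * c w) := continuous_const.mul hc
  have s2 : HasCompactSupport (fun w => κ * b w) := hbc.mul_left
  have s3 : HasCompactSupport (fun w => κ * c w) := hcc.mul_left
  rw [T_sub (g := fun w => a w + κ * b w) (ha.add c2) (hac.add s2) c3 s3, T_add ha hac c2 s2, T_smul, T_smul]

lemma fin_est {κ A C' W : ℂ} {δ : ℝ} (hκ : ‖κ‖ = 1) (hA : ‖A‖ ≤ δ / 2) (hC : ‖C'‖ ≤ δ / 2) :
    ‖A + κ * W - κ * C' - κ * W‖ ≤ δ := by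
  have e2 : A + κ * W - κ * C' - κ * W = A - κ * C' := by ring
  rw [e2]
  refine (norm_sub_le _ _).trans ?_
  rw [norm_mul, hκ, one_mul]
  linarith

lemma norm_conj_sq {e : ℂ} (he : e * conj e = 1) : ‖conj e ^ 2‖ = 1 := by
  have h4 : ‖e * conj e‖ = 1 := by rw [he]; simp
  rw [norm_mul, RCLike.norm_conj] at h4
  rw [norm_pow, RCLike.norm_conj]
  nlinarith [norm_nonneg e]

/-- the main step -/
lemma step {q p r : ℝ → ℝ} (hqc : ContDiff ℝ ∞ q) (hpc : ContDiff ℝ ∞ p) (hq : ∀ t, HasDerivAt q (p t) t)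
    (hp : ∀ t, HasDerivAt p (r t) t) {Q : ℝ} (hQ0 : 0 ≤ Q)
    (hQ : ∀ t, |q t| ≤ Q) {e : ℂ} (he : e * conj e = 1) {u : ℂ → ℂ} (hu : ContDiff ℝ ∞ u) (huc : HasCompactSupport u)
    {δ : ℝ} (hδ : 0 < δ) :
    ∃ X₀ : ℝ, 0 < X₀ ∧ ∀ X : ℝ, X₀ ≤ X → ∀ z, ‖T (fun w => wave p e X w * u w) z‖ ≤ δ ∧
      ‖D (T (fun w => wave p e X w * u w)) z - conj e ^ 2 * (wave p e X z * u z)‖ ≤ δ := by
  have he0 : e ≠ 0 := fun h => by simp [h] at he
  obtain ⟨X1, h1, H1⟩ := small hqc hq hQ0 hQ he0 hu huc hδ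
  obtain ⟨X2, h2, H2⟩ := small hqc hq hQ0 hQ he0 (D_contDiff hu) (D_hcs huc) (half_pos hδ)
  obtain ⟨X3, h3, H3⟩ := small hqc hq hQ0 hQ he0 (B_contDiff hu) (B_hcs huc) (half_pos hδ)
  refine ⟨max X1 (max X2 X3), lt_max_of_lt_left h1, fun X hX z => ⟨H1 X ((le_max_left _ _).trans hX) z, ?_⟩⟩
  have g2 := H2 X ((le_max_left _ _).trans ((le_max_right _ _).trans hX)) z
  have g3 := H3 X ((le_max_right _ _).trans ((le_max_right _ _).trans hX)) z
  have hw : ContDiff ℝ ∞ (wave p e X) := wave_contDiff hpc e X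
  have hwu : ContDiff ℝ ∞ (fun x => wave p e X x * u x) := hw.mul hu
  have hwuc : HasCompactSupport (fun x => wave p e X x * u x) := huc.mul_left
  have hu1 : ContDiff ℝ 1 u := hu.of_le (by simp)
  have hwu1 : ContDiff ℝ 1 (fun x => wave p e X x * u x) := hwu.of_le (by simp)
  have t1 : D (T (fun w => wave p e X w * u w)) z = T (fun w => wave p e X w * D u w) z +
      conj e ^ 2 * (wave p e X z * u z) - conj e ^ 2 * T (fun w => wave p e X w * B u w) z := by
    rw [D_T hwu1 hwuc, step_aux hpc hp he hu X]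
    have t2 := T_comb (a := fun w => wave p e X w * D u w) (b := B (fun w => wave p e X w * u w))
      (c := fun w => wave p e X w * B u w) (hw.continuous.mul (D_cont hu1)) (D_hcs huc).mul_left
      (B_cont hwu1) (B_hcs hwuc) (hw.continuous.mul (B_cont hu1)) (B_hcs huc).mul_left (conj e ^ 2) z
    rw [T_B hwu1 hwuc] at t2
    exact t2
  rw [t1]
  exact fin_est (norm_conj_sq he) g2 g3

end Pool.Agent.H651R3.Qc
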