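import Mathlib

set_option autoImplicit false

open MeasureTheory Metric Set Filter Topology
open scoped ContDiff

namespace Pool.Agent.H651R3.Qc

/-- periodic bump -/
noncomputable def bb (k : ℕ) (t : ℝ) : ℝ := Real.smoothTransition (2 * Real.cos (Real.pi * t) ^ (2 * k))

lemma bb_contDiff (k : ℕ) : ContDiff ℝ ∞ (bb k) := by
  unfold bb
  apply Real.smoothTransition.contDiff.comp
  have : ContDiff ℝ ∞ (fun t : ℝ => Real.cos (Real.pi * t)) := Real.contDiff_cos.comp (contDiff_const.mul contDiff_id)
  exact contDiff_const.mul (this.pow _)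

lemma bb_periodic (k : ℕ) : Function.Periodic (bb k) 1 := by
  intro t
  unfold bb
  rw [mul_add, mul_one, Real.cos_add_pi, pow_mul, neg_sq, ← pow_mul]

lemma bb_nonneg (k : ℕ) (t : ℝ) : 0 ≤ bb k t := Real.smoothTransition.nonneg _
lemma bb_le_one (k : ℕ) (t : ℝ) : bb k t ≤ 1 := Real.smoothTransition.le_one _

lemma bb_small : Tendsto (fun k => ∫ t in (0:ℝ)..1, bb k t) atTop (𝓝 0) := by
  have h := intervalIntegral.tendsto_integral_filter_of_dominated_convergence (μ := volume) (a := 0) (b := 1)
    (l := atTop) (F := bb) (f := fun _ => (0:ℝ)) (fun _ => (1:ℝ))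
    (Eventually.of_forall fun k => (bb_contDiff k).continuous.aestronglyMeasurable)
    (Eventually.of_forall fun k => Eventually.of_forall fun t _ => by
      rw [Real.norm_of_nonneg (bb_nonneg k t)]; exact bb_le_one k t)
    (by simp) ?_
  · simpa using h
  · have h0 : ∀ᵐ t : ℝ, t ≠ 1 := by
      simp [ae_iff]
    filter_upwards [h0] with t ht1 ht
    rw [uIoc_of_le zero_le_one] at ht
    have ht' : t < 1 := lt_of_le_of_ne ht.2 ht1
    have hc : |Real.cos (Real.pi * t)| < 1 := by
      have h1 : 0 < Real.sin (Real.pi * t) := by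
        apply Real.sin_pos_of_pos_of_lt_pi
        · exact mul_pos Real.pi_pos ht.1
        · nlinarith [Real.pi_pos]
      have h2 := Real.sin_sq_add_cos_sq (Real.pi * t)
      rw [abs_lt]
      constructor <;> nlinarith
    have h2 : Tendsto (fun k : ℕ => 2 * Real.cos (Real.pi * t) ^ (2 * k)) atTop (𝓝 0) := by
      have h3 : Tendsto (fun k : ℕ => (Real.cos (Real.pi * t) ^ 2) ^ k) atTop (𝓝 0) := by
        apply tendsto_pow_atTop_nhds_zero_of_lt_one (sq_nonneg _)
        rw [← sq_abs]
        have := abs_nonneg (Real.cos (Real.pi * t))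
        nlinarith
      have h4 := h3.const_mul 2
      simp_rw [← pow_mul] at h4
      simpa using h4
    have h5 : Continuous Real.smoothTransition := Real.smoothTransition.continuous
    have h6 := (h5.tendsto 0).comp h2
    rw [Real.smoothTransition.zero] at h6
    exact h6

/-- the profiles -/
lemma profile {η : ℝ} (hη : 0 < η) : ∃ (c q : ℝ → ℝ) (ρ Q : ℝ), ContDiff ℝ ∞ c ∧ ContDiff ℝ ∞ q ∧
    (∀ t, HasDerivAt q (c t - 1) t) ∧ (∀ t, |q t| ≤ Q) ∧ (∀ t, 0 ≤ c t) ∧ (∀ t, c t ≤ 1 + η) ∧
    0 < ρ ∧ ∀ (t : ℝ) (k : ℤ), |t - k| < ρ → c t = 0 := by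
  obtain ⟨k, hk⟩ := (bb_small.eventually_lt_const (show (0:ℝ) < η / (1 + η) by positivity)).exists
  set m := ∫ t in (0:ℝ)..1, bb k t with hm
  have hm0 : 0 ≤ m := intervalIntegral.integral_nonneg zero_le_one fun t _ => bb_nonneg k t
  have hη1 : η / (1 + η) < 1 := by rw [div_lt_one (by positivity)]; linarith
  have hm1 : 0 < 1 - m := by linarith
  set c : ℝ → ℝ := fun t => (1 - bb k t) / (1 - m) with hc
  have hcc : ContDiff ℝ ∞ c := (contDiff_const.sub (bb_contDiff k)).div_const _
  have hper : Function.Periodic c 1 := by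
    intro t
    simp only [hc, bb_periodic k t]
  set q : ℝ → ℝ := fun t => ∫ s in (0:ℝ)..t, (c s - 1) with hq
  have hcont : Continuous (fun s => c s - 1) := hcc.continuous.sub continuous_const
  have hqd : ∀ t, HasDerivAt q (c t - 1) t := by
    intro t
    exact intervalIntegral.integral_hasDerivAt_right (hcont.intervalIntegrable _ _)
      hcont.aestronglyMeasurable.stronglyMeasurableAtFilter hcont.continuousAt
  have hqc : ContDiff ℝ ∞ q := by
    rw [contDiff_infty_iff_deriv]
    refine ⟨fun t => (hqd t).differentiableAt, ?_⟩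
    have : deriv q = fun t => c t - 1 := by
      ext t; exact (hqd t).deriv
    rw [this]
    exact hcc.sub contDiff_const
  have hmean : ∫ s in (0:ℝ)..1, (c s - 1) = 0 := by
    have h1 : ∫ s in (0:ℝ)..1, (c s - 1) = (∫ s in (0:ℝ)..1, c s) - 1 := by
      rw [intervalIntegral.integral_sub (hcc.continuous.intervalIntegrable _ _) (by simp)]
      simp
    have h2 : ∫ s in (0:ℝ)..1, c s = (∫ s in (0:ℝ)..1, (1 - bb k s)) / (1 - m) := by
      simp only [hc]
      rw [intervalIntegral.integral_div]
    have h3 : ∫ s in (0:ℝ)..1, (1 - bb k s) = 1 - m := by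
      rw [intervalIntegral.integral_sub (by simp) ((bb_contDiff k).continuous.intervalIntegrable _ _)]
      simp [hm]
    rw [h1, h2, h3, div_self hm1.ne', sub_self]
  have hqp : Function.Periodic q 1 := by
    intro t
    have h1 : q (t + 1) = q t + ∫ s in t..(t + 1), (c s - 1) := by
      simp only [hq]
      rw [intervalIntegral.integral_add_adjacent_intervals] <;> exact hcont.intervalIntegrable _ _
    have hp2 : Function.Periodic (fun s => c s - 1) 1 := by
      intro s
      simp only [hper s]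
    have h2 := hp2.intervalIntegral_add_eq t 0
    rw [zero_add] at h2
    rw [h1, h2, hmean, add_zero]
  obtain ⟨Q, hQ⟩ : ∃ Q, ∀ t, |q t| ≤ Q := by
    obtain ⟨Q, hQ⟩ := (isCompact_Icc (a := (0:ℝ)) (b := 1)).exists_bound_of_continuousOn hqc.continuous.continuousOn
    refine ⟨Q, fun t => ?_⟩
    obtain ⟨y, hy, hy'⟩ := hqp.exists_mem_Ico₀ one_pos t
    rw [hy']
    exact hQ y (Ico_subset_Icc_self hy)
  -- the zero set
  obtain ⟨ρ, hρ0, hρ⟩ : ∃ ρ > 0, ∀ t : ℝ, |t| < ρ → bb k t = 1 := by
    have h1 : Tendsto (fun t : ℝ => 2 * Real.cos (Real.pi * t) ^ (2 * k)) (𝓝 0) (𝓝 2) := by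
      have : Continuous (fun t : ℝ => 2 * Real.cos (Real.pi * t) ^ (2 * k)) := by fun_prop
      have := this.tendsto 0
      simpa using this
    have h2 := h1.eventually_const_lt (show (1:ℝ) < 2 by norm_num)
    obtain ⟨ρ, hρ0, hρ⟩ := Metric.eventually_nhds_iff.1 h2
    refine ⟨ρ, hρ0, fun t ht => ?_⟩
    unfold bb
    apply Real.smoothTransition.one_of_one_le
    exact (hρ (by simpa using ht)).le
  refine ⟨c, q, ρ, Q, hcc, hqc, hqd, hQ, ?_, ?_, hρ0, ?_⟩
  · intro t
    simp only [hc]
    have := bb_le_one k t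
    exact div_nonneg (by linarith) hm1.le
  · intro t
    simp only [hc]
    rw [div_le_iff₀ hm1]
    have h1 := bb_nonneg k t
    have h2 : (1 + η) * (1 - m) ≥ 1 := by
      have : m * (1 + η) ≤ η := by
        rw [lt_div_iff₀ (by positivity)] at hk
        exact hk.le
      nlinarith
    linarith
  · intro t n htn
    have h1 : bb k (t - n) = 1 := hρ _ htn
    have h2 : bb k (t - n) = bb k t := by
      have := (bb_periodic k).sub_zsmul_eq (x := t) n
      simpa using this
    simp only [hc]
    rw [← h2, h1]; simp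

end Pool.Agent.H651R3.Qc
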