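import Pool.Agent.H651R3.Qc2
import Pool.Agent.H651R3.Qc3

set_option autoImplicit false

open MeasureTheory Metric Set Filter Topology Complex MP8a09
open scoped Convolution ContDiff ComplexConjugate

namespace Pool.Agent.H651R3.Qc

/-- complexification of a real function -/
def oc (u : ℂ → ℝ) (z : ℂ) : ℂ := (u z : ℂ)

/-- directions -/
noncomputable def ee (n : ℕ) : ℂ := if Even n then 1 else I

lemma ee_conj (n : ℕ) : ee n * conj (ee n) = 1 := by
  unfold ee; split_ifs <;> simp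

/-- admissible densities -/
structure Adm (u : ℂ → ℝ) : Prop where
  smooth : ContDiff ℝ ∞ (oc u)
  cs : HasCompactSupport (oc u)
  nonneg : ∀ z, 0 ≤ u z

lemma next {c q : ℝ → ℝ} {Q : ℝ} (hc : ContDiff ℝ ∞ c) (hqc : ContDiff ℝ ∞ q)
    (hq : ∀ t, HasDerivAt q (c t - 1) t) (hQ : ∀ t, |q t| ≤ Q) (hc0 : ∀ t, 0 ≤ c t) (n : ℕ)
    {u : ℂ → ℝ} (hu : Adm u) {δ : ℝ} (hδ : 0 < δ) :
    ∃ X : ℝ, (n : ℝ) + 1 ≤ X ∧ Adm (fun z => c (X * lin (ee n) z) * u z) ∧
      (∀ z, ‖T (oc (fun z => c (X * lin (ee n) z) * u z)) z - T (oc u) z‖ ≤ δ) ∧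
      ∀ z, ‖D (T (oc (fun z => c (X * lin (ee n) z) * u z))) z - D (T (oc u)) z -
        conj (ee n) ^ 2 * (oc (fun z => c (X * lin (ee n) z) * u z) z - oc u z)‖ ≤ δ := by
  set p : ℝ → ℝ := fun t => c t - 1 with hp
  have hpc : ContDiff ℝ ∞ p := hc.sub contDiff_const
  have hpd : ∀ t, HasDerivAt p (deriv p t) t := fun t => (hpc.differentiable (by simp) t).hasDerivAt
  have hQ0 : 0 ≤ Q := (abs_nonneg _).trans (hQ 0)
  obtain ⟨X₀, hX₀, H⟩ := step hqc hpc hq hpd hQ0 hQ (ee_conj n) hu.smooth hu.cs hδ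
  set X := max X₀ (n + 1) with hX
  have h := H X (le_max_left _ _)
  have hsm : ContDiff ℝ ∞ (fun w => wave p (ee n) X w * oc u w) := (wave_contDiff hpc _ _).mul hu.smooth
  have hcs : HasCompactSupport (fun w => wave p (ee n) X w * oc u w) := hu.cs.mul_left
  have e1 : oc (fun z => c (X * lin (ee n) z) * u z) = fun w => oc u w + wave p (ee n) X w * oc u w := by
    ext w
    simp only [oc, wave, hp]
    push_cast; ring
  have hsm' : ContDiff ℝ ∞ (oc (fun z => c (X * lin (ee n) z) * u z)) := by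
    rw [e1]; exact hu.smooth.add hsm
  have hcs' : HasCompactSupport (oc (fun z => c (X * lin (ee n) z) * u z)) := by
    rw [e1]; exact hu.cs.add hcs
  have e2 : T (oc (fun z => c (X * lin (ee n) z) * u z)) =
      fun z => T (oc u) z + T (fun w => wave p (ee n) X w * oc u w) z := by
    ext z
    rw [e1]
    exact T_add hu.smooth.continuous hu.cs hsm.continuous hcs z
  have hu1 : ContDiff ℝ 1 (oc u) := hu.smooth.of_le (by simp)
  have hs1 : ContDiff ℝ 1 (fun w => wave p (ee n) X w * oc u w) := hsm.of_le (by simp)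
  refine ⟨X, le_max_right _ _, ⟨hsm', hcs', fun z => mul_nonneg (hc0 _) (hu.nonneg z)⟩, fun z => ?_, fun z => ?_⟩
  · rw [e2]
    simp only [add_sub_cancel_left]
    exact (h z).1
  · have e3 : D (T (oc (fun z => c (X * lin (ee n) z) * u z))) z = D (T (oc u)) z +
        D (T (fun w => wave p (ee n) X w * oc u w)) z := by
      rw [e2]
      unfold D dd
      rw [fderiv_fun_add (hasFDerivAt_T hu1 hu.cs z).1.differentiableAt (hasFDerivAt_T hs1 hcs z).1.differentiableAt]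
      simp only [_root_.add_apply]
      ring
    rw [e3, e1]
    simp only [add_sub_cancel_left]
    exact (h z).2

/-- the sequence of densities -/
lemma exists_seq {u₀ : ℂ → ℝ} (h0 : Adm u₀) (h01 : ∀ z, u₀ z ≤ 1) {d : ℝ} (hd : 0 < d) :
    ∃ (u : ℕ → ℂ → ℝ) (X : ℕ → ℝ) (ρ : ℕ → ℝ), u 0 = u₀ ∧ (∀ n, Adm (u n)) ∧ (∀ n z, u n z ≤ 2) ∧
      (∀ n : ℕ, (n : ℝ) + 1 ≤ X n) ∧ (∀ n, 0 < ρ n) ∧
      (∀ n z (k : ℤ), |X n * lin (ee n) z - k| < ρ n → u (n + 1) z = 0) ∧
      (∀ n z, u n z = 0 → u (n + 1) z = 0) ∧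
      (∀ n z, ‖T (oc (u (n + 1))) z - T (oc (u n)) z‖ ≤ d / 2 / 2 ^ n) ∧
      (∀ n z, ‖D (T (oc (u (n + 1)))) z‖ + u (n + 1) z ≤ ‖D (T (oc (u n))) z‖ + u n z + 2 * (1 / 2) ^ n) := by
  choose c q ρ Q hc hqc hq hQ hc0 hc1 hρ0 hρ using fun n : ℕ =>
    profile (η := (1 / 2) ^ (n + 3)) (by positivity)
  have hstep : ∀ (n : ℕ) (s : {u : ℂ → ℝ // Adm u}), ∃ X : ℝ, (n : ℝ) + 1 ≤ X ∧
      Adm (fun z => c n (X * lin (ee n) z) * s.1 z) ∧
      (∀ z, ‖T (oc (fun z => c n (X * lin (ee n) z) * s.1 z)) z - T (oc s.1) z‖ ≤ min (d / 2 / 2 ^ n) ((1 / 2) ^ n)) ∧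
      ∀ z, ‖D (T (oc (fun z => c n (X * lin (ee n) z) * s.1 z))) z - D (T (oc s.1)) z -
        conj (ee n) ^ 2 * (oc (fun z => c n (X * lin (ee n) z) * s.1 z) z - oc s.1 z)‖ ≤ min (d / 2 / 2 ^ n) ((1 / 2) ^ n) :=
    fun n s => next (hc n) (hqc n) (hq n) (hQ n) (hc0 n) n s.2 (by positivity)
  choose X hX1 hX2 hX3 hX4 using hstep
  let st : ℕ → {u : ℂ → ℝ // Adm u} := fun n => Nat.rec ⟨u₀, h0⟩ (fun n s => ⟨_, hX2 n s⟩) n
  have hst : ∀ n z, (st (n + 1)).1 z = c n (X n (st n) * lin (ee n) z) * (st n).1 z := fun n z => rfl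
  have hstf : ∀ n, (st (n + 1)).1 = fun z => c n (X n (st n) * lin (ee n) z) * (st n).1 z := fun n => rfl
  have hle : ∀ n z, (st n).1 z ≤ 2 - (1 / 2) ^ n := by
    intro n z
    induction n with
    | zero =>
      change u₀ z ≤ _
      refine (h01 z).trans (by norm_num)
    | succ n ih =>
      rw [hst]
      have h1 := hc1 n (X n (st n) * lin (ee n) z)
      have h2 := hc0 n (X n (st n) * lin (ee n) z)
      have h3 := (st n).2.nonneg z
      have h4 : (1 / 2 : ℝ) ^ (n + 3) = (1 / 2) ^ n / 8 := by rw [pow_add]; norm_num; ring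
      have h5 : (1 / 2 : ℝ) ^ (n + 1) = (1 / 2) ^ n / 2 := by rw [pow_succ]; ring
      rw [h4] at h1
      rw [h5]
      have h6 : (0:ℝ) < (1 / 2) ^ n := by positivity
      have h7 : (1 / 2 : ℝ) ^ n ≤ 1 := pow_le_one₀ (by norm_num) (by norm_num)
      set x := (1 / 2 : ℝ) ^ n
      calc c n (X n (st n) * lin (ee n) z) * (st n).1 z ≤ (1 + x / 8) * (2 - x) := by gcongr
        _ ≤ 2 - x / 2 := by nlinarith
  refine ⟨fun n => (st n).1, fun n => X n (st n), ρ, rfl, fun n => (st n).2, ?_, fun n => hX1 n _, hρ0, ?_, ?_, ?_, ?_⟩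
  · intro n z
    have := hle n z
    have h6 : (0:ℝ) < (1 / 2) ^ n := by positivity
    linarith
  · intro n z k hk
    change (st (n + 1)).1 z = 0
    rw [hst, hρ n _ k hk, zero_mul]
  · intro n z hz
    change (st (n + 1)).1 z = 0
    change (st n).1 z = 0 at hz
    rw [hst, hz, mul_zero]
  · intro n z
    exact (hX3 n (st n) z).trans (min_le_left _ _)
  · intro n z
    change ‖D (T (oc (st (n + 1)).1)) z‖ + (st (n + 1)).1 z ≤ ‖D (T (oc (st n).1)) z‖ + (st n).1 z + 2 * (1 / 2) ^ n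
    have h1 := (hX4 n (st n) z).trans (min_le_right _ _)
    rw [← hstf] at h1
    have h2 : ‖conj (ee n) ^ 2 * (oc (st (n + 1)).1 z - oc (st n).1 z)‖ = |(st (n + 1)).1 z - (st n).1 z| := by
      rw [norm_mul, norm_conj_sq (ee_conj n), one_mul]
      unfold oc
      rw [← ofReal_sub, norm_real, Real.norm_eq_abs]
    have h3 : ‖D (T (oc (st (n + 1)).1)) z‖ ≤ ‖D (T (oc (st n).1)) z‖ + |(st (n + 1)).1 z - (st n).1 z| + (1 / 2) ^ n := by
      have e : D (T (oc (st (n + 1)).1)) z = D (T (oc (st n).1)) z +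
          conj (ee n) ^ 2 * (oc (st (n + 1)).1 z - oc (st n).1 z) +
          (D (T (oc (st (n + 1)).1)) z - D (T (oc (st n).1)) z -
            conj (ee n) ^ 2 * (oc (st (n + 1)).1 z - oc (st n).1 z)) := by ring
      rw [e]
      refine (norm_add_le _ _).trans ?_
      gcongr
      refine (norm_add_le _ _).trans ?_
      rw [h2]
    have h4 : (st (n + 1)).1 z - (st n).1 z ≤ (1 / 2) ^ (n + 3) * 2 := by
      rw [hst]
      have g1 := hc1 n (X n (st n) * lin (ee n) z)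
      have g3 := (st n).2.nonneg z
      have g4 := hle n z
      have g6 : (0:ℝ) < (1 / 2) ^ n := by positivity
      have g7 : (0:ℝ) < (1 / 2) ^ (n + 3) := by positivity
      nlinarith
    have h5 : |(st (n + 1)).1 z - (st n).1 z| ≤ 2 * ((1 / 2) ^ (n + 3) * 2) - ((st (n + 1)).1 z - (st n).1 z) := by
      rw [abs_le]
      have g7 : (0:ℝ) < (1 / 2) ^ (n + 3) := by positivity
      constructor <;> linarith
    have h6 : (1 / 2 : ℝ) ^ (n + 3) = (1 / 2) ^ n / 8 := by rw [pow_add]; norm_num; ring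
    have h7 : (0:ℝ) < (1 / 2) ^ n := by positivity
    rw [h6] at h5
    linarith

end Pool.Agent.H651R3.Qc
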