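import Pool.Agent.H651R3.Qc4

set_option autoImplicit false

open MeasureTheory Metric Set Filter Topology Complex MP8a09
open scoped Convolution ContDiff ComplexConjugate

namespace Pool.Agent.H651R3.Qc

/-- a bound for the derivative in terms of `B` and `D` -/
lemma fderiv_bound (f : ℂ → ℂ) (z : ℂ) : ‖fderiv ℝ f z‖ ≤ ‖B f z‖ + ‖D f z‖ := by
  apply ContinuousLinearMap.opNorm_le_bound _ (by positivity)
  intro v
  set L := fderiv ℝ f z with hL
  have h1 : ‖L 1‖ ≤ (‖B f z‖ + ‖D f z‖) / 2 := by
    have e : L 1 = (B f z + D f z) / (2 * I) := by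
      unfold B D db dd
      rw [← hL]
      field_simp
      ring
    rw [e, norm_div]
    simp only [norm_mul, norm_I, mul_one, RCLike.norm_ofNat]
    gcongr
    exact norm_add_le _ _
  have h2 : ‖L I‖ ≤ (‖B f z‖ + ‖D f z‖) / 2 := by
    have e : L I = (D f z - B f z) / 2 := by
      unfold B D db dd
      rw [← hL]
      ring
    rw [e, norm_div, RCLike.norm_ofNat]
    gcongr
    refine (norm_sub_le _ _).trans ?_
    rw [add_comm]
  have e : L v = v.re * L 1 + v.im * L I := clm_apply L v
  rw [e]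
  refine (norm_add_le _ _).trans ?_
  rw [norm_mul, norm_mul, norm_real, norm_real]
  have h3 : ‖v.re‖ ≤ ‖v‖ := abs_re_le_norm v
  have h4 : ‖v.im‖ ≤ ‖v‖ := abs_im_le_norm v
  have h5 : 0 ≤ (‖B f z‖ + ‖D f z‖) / 2 := by positivity
  calc ‖v.re‖ * ‖L 1‖ + ‖v.im‖ * ‖L I‖ ≤ ‖v‖ * ((‖B f z‖ + ‖D f z‖) / 2) + ‖v‖ * ((‖B f z‖ + ‖D f z‖) / 2) := by
        gcongr
    _ = _ := by ring

/-- the base density -/
lemma exists_base : ∃ u₀ : ℂ → ℝ, Adm u₀ ∧ (∀ z, u₀ z ≤ 1) ∧ u₀ 0 = 1 := by
  obtain ⟨φ⟩ : Nonempty (ContDiffBump (0:ℂ)) := ⟨⟨1, 2, one_pos, one_lt_two⟩⟩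
  refine ⟨φ, ⟨?_, ?_, fun z => φ.nonneg⟩, fun z => φ.le_one, ?_⟩
  · exact Complex.ofRealCLM.contDiff.comp φ.contDiff
  · have := φ.hasCompactSupport
    exact this.comp_left (g := fun x : ℝ => (x:ℂ)) (by simp)
  · exact φ.one_of_mem_closedBall (mem_closedBall_self φ.rIn_pos.le)

/-- Main construction: a Lipschitz function which is not entire, whose set of singularities is totally
disconnected. -/
theorem exists_lip : ∃ (F : ℂ → ℂ) (L : ℝ), 0 < L ∧ (∀ z w, ‖F z - F w‖ ≤ L * ‖z - w‖) ∧
    {z | ¬ AnalyticAt ℂ F z}.Nonempty ∧ IsTotallyDisconnected {z | ¬ AnalyticAt ℂ F z} := by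
  obtain ⟨u₀, h0, h01, h02⟩ := exists_base
  have hu1 : ContDiff ℝ 1 (oc u₀) := h0.smooth.of_le (by simp)
  -- `T (oc u₀)` is not identically zero
  obtain ⟨z₀, hz₀⟩ : ∃ z₀, T (oc u₀) z₀ ≠ 0 := by
    by_contra hcon
    push Not at hcon
    have e1 : T (oc u₀) = fun _ => 0 := by ext z; exact hcon z
    have h1 := B_T hu1 h0.cs 0
    rw [e1] at h1
    unfold B db oc at h1
    rw [h02] at h1
    simp at h1
  set d := ‖T (oc u₀) z₀‖ / 2 with hd
  have hd0 : 0 < d := by have := norm_pos_iff.2 hz₀; positivity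
  obtain ⟨u, X, ρ, hu0, hA, hu2, hX, hρ, hstreet, hzero, hT, hD⟩ := exists_seq h0 h01 hd0
  set F' : ℕ → ℂ → ℂ := fun n => T (oc (u n)) with hF'
  have hA1 : ∀ n, ContDiff ℝ 1 (oc (u n)) := fun n => (hA n).smooth.of_le (by simp)
  have hdist : ∀ z n, dist (F' n z) (F' (n + 1) z) ≤ d / 2 / 2 ^ n := by
    intro z n
    rw [dist_comm, dist_eq_norm]; exact hT n z
  have hlim : ∀ z, ∃ a, Tendsto (fun n => F' n z) atTop (𝓝 a) := fun z =>
    cauchySeq_tendsto_of_complete (cauchySeq_of_le_geometric_two (hdist z))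
  choose F hF using hlim
  have hFd : ∀ z n, dist (F' n z) (F z) ≤ d / 2 ^ n := fun z n =>
    dist_le_of_le_geometric_two_of_tendsto (hdist z) (hF z) n
  have hunif : TendstoUniformly F' F atTop := by
    rw [Metric.tendstoUniformly_iff]
    intro ε hε
    have h1 : Tendsto (fun n : ℕ => d / 2 ^ n) atTop (𝓝 0) := by
      have := (tendsto_pow_atTop_nhds_zero_of_lt_one (by norm_num : (0:ℝ) ≤ 1 / 2) (by norm_num)).const_mul d
      rw [mul_zero] at this
      refine this.congr (fun n => ?_)
      rw [one_div, inv_pow]; ring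
    filter_upwards [h1.eventually_lt_const hε] with n hn z
    rw [dist_comm]
    exact (hFd z n).trans_lt hn
  -- Lipschitz bound
  obtain ⟨C, hC0, hC⟩ := T_bound (D_cont hu1) (D_hcs h0.cs)
  have hDb : ∀ n z, ‖D (F' n) z‖ + u n z ≤ C + 1 + (4 - 4 * (1 / 2) ^ n) := by
    intro n z
    induction n with
    | zero =>
      simp only [hF', hu0]
      rw [D_T hu1 h0.cs]
      have h1 := hC (fun _ => 1) 1 continuous_const zero_le_one (by simp) z
      simp only [one_mul, mul_one] at h1
      have h2 := h01 z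
      have h3 : T (fun x => D (oc u₀) x) z = T (D (oc u₀)) z := rfl
      rw [h3] at h1
      norm_num
      linarith
    | succ n ih =>
      refine (hD n z).trans ?_
      have h5 : (1 / 2 : ℝ) ^ (n + 1) = (1 / 2) ^ n / 2 := by rw [pow_succ]; ring
      rw [h5]
      change ‖D (T (oc (u n))) z‖ + u n z + 2 * (1 / 2) ^ n ≤ _
      have : ‖D (T (oc (u n))) z‖ + u n z ≤ C + 1 + (4 - 4 * (1 / 2) ^ n) := ih
      linarith
  set L := C + 7 with hL
  have hfd : ∀ n z, ‖fderiv ℝ (F' n) z‖ ≤ L := by
    intro n z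
    refine (fderiv_bound _ _).trans ?_
    have h1 : ‖B (F' n) z‖ ≤ 2 := by
      simp only [hF']
      rw [B_T (hA1 n) (hA n).cs]
      unfold oc
      rw [norm_real, Real.norm_of_nonneg ((hA n).nonneg z)]
      exact hu2 n z
    have h2 := hDb n z
    have h3 := (hA n).nonneg z
    have h4 : (0:ℝ) < (1 / 2) ^ n := by positivity
    rw [hL]; linarith
  have hLip : ∀ n z w, ‖F' n z - F' n w‖ ≤ L * ‖z - w‖ := by
    intro n z w
    exact convex_univ.norm_image_sub_le_of_norm_fderiv_le (𝕜 := ℝ)
      (fun x _ => (hasFDerivAt_T (hA1 n) (hA n).cs x).1.differentiableAt) (fun x _ => hfd n x)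
      (mem_univ w) (mem_univ z)
  have hFL : ∀ z w, ‖F z - F w‖ ≤ L * ‖z - w‖ := by
    intro z w
    exact le_of_tendsto ((hF z).sub (hF w)).norm (Eventually.of_forall fun n => hLip n z w)
  -- analyticity off the support
  have hz_all : ∀ n m z, u n z = 0 → u (n + m) z = 0 := by
    intro n m z h
    induction m with
    | zero => exact h
    | succ m ih => exact hzero _ _ ih
  have hana : ∀ n (V : Set ℂ), IsOpen V → (∀ z ∈ V, u n z = 0) → ∀ z ∈ V, AnalyticAt ℂ F z := by
    intro n V hV hVu z hz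
    have h1 : DifferentiableOn ℂ F V := by
      have h2 : TendstoLocallyUniformlyOn (fun m => F' (n + m)) F atTop V := by
        apply TendstoUniformlyOn.tendstoLocallyUniformlyOn
        have h3 : TendstoUniformly (fun m => F' (n + m)) F atTop := by
          intro s hs
          have := hunif s hs
          exact (tendsto_add_atTop_nat n).eventually this |>.mono fun m hm => by rwa [add_comm] at hm
        exact h3.tendstoUniformlyOn
      refine h2.differentiableOn (Eventually.of_forall fun m => ?_) hV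
      intro w hw
      apply DifferentiableAt.differentiableWithinAt
      rw [differentiableAt_complex_iff_differentiableAt_real]
      refine ⟨(hasFDerivAt_T (hA1 (n + m)) (hA (n + m)).cs w).1.differentiableAt, ?_⟩
      have h4 := B_T (hA1 (n + m)) (hA (n + m)).cs w
      unfold oc at h4
      rw [hz_all n m w (hVu w hw)] at h4
      unfold B db at h4
      rw [ofReal_zero, sub_eq_zero] at h4
      rw [smul_eq_mul]
      exact h4.symm
    exact h1.analyticAt (hV.mem_nhds hz)
  refine ⟨F, L, by rw [hL]; linarith, hFL, ?_, ?_⟩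
  · -- nonempty
    by_contra hcon
    rw [not_nonempty_iff_eq_empty, eq_empty_iff_forall_notMem] at hcon
    have hent : Differentiable ℂ F := fun z => by
      have := hcon z
      simp only [mem_setOf_eq, not_not] at this
      exact this.differentiableAt
    have hinf : Tendsto F (cocompact ℂ) (𝓝 0) := by
      rw [Metric.tendsto_nhds]
      intro ε hε
      have h1 := (Metric.tendstoUniformly_iff.1 hunif) (ε / 2) (half_pos hε)
      obtain ⟨n, hn⟩ := h1.exists
      have h2 : Tendsto (F' n) (cocompact ℂ) (𝓝 0) := T_infty (hA n).smooth.continuous (hA n).cs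
      filter_upwards [(Metric.tendsto_nhds.1 h2) (ε / 2) (half_pos hε)] with z hz
      calc dist (F z) 0 ≤ dist (F z) (F' n z) + dist (F' n z) 0 := dist_triangle _ _ _
        _ < ε / 2 + ε / 2 := add_lt_add (hn z) hz
        _ = ε := by ring
    have h3 := hent.apply_eq_of_tendsto_cocompact z₀ hinf
    have h4 := hFd z₀ 0
    rw [h3, pow_zero, div_one, dist_zero_right] at h4
    simp only [hF', hu0] at h4
    rw [hd] at h4
    have := norm_pos_iff.2 hz₀
    linarith
  · -- totally disconnected
    intro t ht htc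
    have key : ∀ (e : ℂ), (∀ N : ℕ, ∃ n, N ≤ n ∧ ee n = e) → ∀ z ∈ t, ∀ w ∈ t, ¬ lin e z < lin e w := by
      intro e he z hz w hw hlt
      obtain ⟨N, hN⟩ := exists_nat_gt (1 / (lin e w - lin e z))
      obtain ⟨n, hNn, hne⟩ := he N
      have hpos : 0 < lin e w - lin e z := by linarith
      have hXN : (N : ℝ) ≤ X n := by
        have h1 : (N:ℝ) ≤ n := by exact_mod_cast hNn
        linarith [hX n]
      have hXpos : 0 < X n := by
        have := hX n
        have h2 : (0:ℝ) ≤ n := by positivity
        linarith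
      have hgap : 1 < X n * lin e w - X n * lin e z := by
        rw [div_lt_iff₀ hpos] at hN
        nlinarith
      -- an integer between
      set k : ℤ := ⌊X n * lin e z⌋ + 1 with hk
      have hk1 : X n * lin e z < k := by rw [hk]; push_cast; exact Int.lt_floor_add_one _
      have hk2 : (k:ℝ) < X n * lin e w := by
        have := Int.floor_le (X n * lin e z)
        rw [hk]; push_cast; linarith
      have hs1 : lin e z < k / X n := by rw [lt_div_iff₀ hXpos, mul_comm]; exact hk1
      have hs2 : (k:ℝ) / X n < lin e w := by rw [div_lt_iff₀ hXpos, mul_comm]; exact hk2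
      have hpc : IsPreconnected (lin e '' t) := htc.image _ (lin e).continuous.continuousOn
      have hmem : (k:ℝ) / X n ∈ lin e '' t :=
        hpc.ordConnected.out (mem_image_of_mem _ hz) (mem_image_of_mem _ hw) ⟨hs1.le, hs2.le⟩
      obtain ⟨y, hy, hy'⟩ := hmem
      -- the street
      set V : Set ℂ := {x | |X n * lin e x - k| < ρ n} with hV
      have hVo : IsOpen V := isOpen_lt (by fun_prop) continuous_const
      have hyV : y ∈ V := by
        change |X n * lin e y - k| < ρ n
        rw [hy', mul_div_cancel₀ _ hXpos.ne', sub_self, abs_zero]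
        exact hρ n
      refine ht hy (hana (n + 1) V hVo (fun x hx => hstreet n x k ?_) y hyV)
      rw [hne]; exact hx
    have k1 := key 1 (fun N => ⟨2 * N, by omega, by simp [ee]⟩)
    have kI := key I (fun N => ⟨2 * N + 1, by omega, by simp [ee, Nat.not_even_bit1]⟩)
    intro z hz w hw
    have r1 : lin 1 z = lin 1 w := le_antisymm (not_lt.1 (k1 w hw z hz)) (not_lt.1 (k1 z hz w hw))
    have r2 : lin I z = lin I w := le_antisymm (not_lt.1 (kI w hw z hz)) (not_lt.1 (kI z hz w hw))
    rw [lin_apply, lin_apply] at r1 r2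
    simp at r1 r2
    exact Complex.ext r1 r2

end Pool.Agent.H651R3.Qc
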